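import Pool.Agent.MP_9a6faa_lc.Star

namespace Pool.Agent.MP_9a6faa_lc

open Set Order FO Filter

universe u v w

abbrev Asg := Ordinal.{u} → Ordinal.{u}

/-- Increasing assignments into `Z`. -/
def Gh (s : OL.{u}) (Z : Ordinal.{u} → Prop) (h : Asg.{u}) : Prop :=
  (∀ a ∈ s, Z (h a)) ∧ ∀ a ∈ s, ∀ b ∈ s, a < b → h a < h b

/-- Dependence on finitely many coordinates. -/
def Dep (L : OL.{u}) (Φ : Asg.{u} → Prop) : Prop := ∀ h h', (∀ a ∈ L, h a = h' a) → Φ h → Φ h'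

theorem Dep.not {L : OL.{u}} {Φ : Asg.{u} → Prop} (h : Dep L Φ) : Dep L (fun x => ¬ Φ x) :=
  fun _ _ e h₁ h₂ => h₁ (h _ _ (fun a ha => (e a ha).symm) h₂)

noncomputable def nxt (Z T : Ordinal.{u} → Prop) (a : Ordinal.{u}) : Ordinal.{u} :=
  mu (fun z => Z z ∧ ∀ b : Iio a, T b → nxt Z T b < z)
termination_by a
decreasing_by exact b.2

namespace Meas

variable (μ : Meas.{u})

instance : CountableInterFilter (μ.U : Filter Ordinal.{u}) := ⟨fun S hS h => by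
  rcases S.eq_empty_or_nonempty with rfl | hne
  · simp
  · obtain ⟨f, rfl⟩ := hS.exists_eq_range hne
    exact (μ.ctbl (X := fun n z => z ∈ f n) fun n => h _ ⟨n, rfl⟩).mono fun z hz =>
      show z ∈ ⋂₀ range f by simpa using hz⟩

@[fun_prop] theorem tm_ev {I : Type} {V : Type v} {𝒜 : FO.{u, v} I V} {Γ : Type*} [Cd 𝒜 Γ]
    [Cd 𝒜 Mach.{u}] [HasQ 𝒜] [Par 𝒜 μ.mach] {R : Γ → Ordinal.{u} → Prop}
    (hR : 𝒜.Tm (fun z : Γ × Ordinal.{u} => R z.1 z.2)) :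
    𝒜.Tm (fun z => Filter.Eventually (fun y => R z y) (μ.U : Filter Ordinal.{u})) :=
  tm_Q (m := fun _ => μ.mach) (by fun_prop) hR

/-- The filter of the iterated ultrapower. -/
def AE : Filter Asg.{u} where
  sets := {Φ | ∃ (s : OL.{u}) (Z : Ordinal.{u} → Prop),
    (∀ᶠ z in (μ.U : Filter Ordinal.{u}), Z z) ∧ ∀ h, Gh s Z h → h ∈ Φ}
  univ_sets := ⟨[], fun _ => True, by simp, fun _ _ => trivial⟩
  sets_of_superset := fun ⟨s, Z, h₁, h₂⟩ h => ⟨s, Z, h₁, fun x hx => h (h₂ x hx)⟩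
  inter_sets := fun ⟨s, Z, h₁, h₂⟩ ⟨t, Y, h₃, h₄⟩ => ⟨s ++ t, _, h₁.and h₃, fun x hx =>
    ⟨h₂ x ⟨fun a ha => (hx.1 a (by simp [ha])).1,
      fun a ha b hb => hx.2 a (by simp [ha]) b (by simp [hb])⟩,
    h₄ x ⟨fun a ha => (hx.1 a (by simp [ha])).2,
      fun a ha b hb => hx.2 a (by simp [ha]) b (by simp [hb])⟩⟩⟩

variable {μ}

theorem ae_gh (s : OL.{u}) {Z : Ordinal.{u} → Prop}
    (hZ : ∀ᶠ z in (μ.U : Filter Ordinal.{u}), Z z) : ∀ᶠ h in μ.AE, Gh s Z h :=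
  ⟨s, Z, hZ, fun _ h => h⟩

theorem ae_point (Φ : ℕ → Asg.{u} → Prop) (h : ∀ n, ∀ᶠ x in μ.AE, Φ n x) : ∃ x, ∀ n, Φ n x := by
  choose s Z h₁ h₂ using h
  obtain ⟨T, hT⟩ : ∃ T : Ordinal.{u} → Prop, T = fun a => ∃ n, a ∈ s n := ⟨_, rfl⟩
  obtain ⟨Y, hY⟩ : ∃ Y : Ordinal.{u} → Prop, ∀ z, Y z ↔ z < μ.κ ∧ ∀ n, Z n z :=
    ⟨_, fun _ => Iff.rfl⟩
  have hc : {a | T a}.Countable := by
    rw [hT, ofPred_exists]
    exact countable_iUnion fun n => (List.finite_toSet (s n)).countable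
  have key : ∀ a, Y (nxt Y T a) ∧ ∀ b : Iio a, T b → nxt Y T b < nxt Y T a := fun a => by
    induction a using WellFoundedLT.induction with
    | ind a ih =>
      rw [nxt]
      refine mu_spec (R := fun z => Y z ∧ ∀ b : Iio a, T b → nxt Y T b < z) ?_
      have := (eventually_countable_ball (l := (μ.U : Filter Ordinal.{u}))
        (hc.mono (inter_subset_left (t := Iio a))) (p := fun z b _ => nxt Y T b < z)).2
        fun b hb => μ.hI _ ((hY _).1 (ih b hb.2).1).1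
      obtain ⟨z, h₃, h₄⟩ := ((μ.hκ.and (μ.ctbl h₁)).and this).exists
      exact ⟨z, (hY _).2 h₃, fun b hb => h₄ b ⟨hb, b.2⟩⟩
  exact ⟨nxt Y T, fun n => h₂ n _ ⟨fun a _ => ((hY _).1 (key a).1).2 n,
    fun a ha b _ h => (key b).2 ⟨a, h⟩ (hT ▸ ⟨n, ha⟩)⟩⟩

instance : μ.AE.NeBot := Filter.eventually_false_iff_eq_bot.not.1 (fun h =>
  let ⟨_, h⟩ := ae_point (fun _ _ => False) fun _ => h; h 0) |> Filter.NeBot.mk

variable {L : OL.{u}} {Φ : Asg.{u} → Prop}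

theorem dich (h : Dep L Φ) : ∃ Z : Ordinal.{u} → Prop, (∀ᶠ z in (μ.U : Filter Ordinal.{u}), Z z) ∧
    ((∀ x, Gh L Z x → Φ x) ∨ ∀ x, Gh L Z x → ¬ Φ x) := by
  obtain ⟨s, h₁, h₂⟩ := exists_dec L
  have key : ∀ {Z x}, Gh L Z x → Dec (s.map x) ∧ ∀ y ∈ s.map x, Z y := fun {Z x} hx =>
    ⟨List.pairwise_map.2 (List.Pairwise.imp_of_mem
      (fun ha hb h => hx.2 _ ((h₂ _).1 hb) _ ((h₂ _).1 ha) h) h₁),
      List.forall_mem_map.2 fun a ha => hx.1 a ((h₂ a).1 ha)⟩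
  by_cases h' : QL μ.mach (fun z => ∃ x, s.map x = z ∧ Φ x) s.length []
  · obtain ⟨Z, h₃, h₄⟩ := QL_hom h'
    refine ⟨Z, h₃, Or.inl fun x hx => ?_⟩
    obtain ⟨y, e, hy⟩ := h₄ _ (key hx).1 (key hx).2 (by simp)
    exact h _ _ (fun a ha => List.map_inj_left.1 (by simpa using e) a ((h₂ a).2 ha)) hy
  · obtain ⟨Z, h₃, h₄⟩ := QL_hom (QL_not.2 h')
    exact ⟨Z, h₃, Or.inr fun x hx h₅ => h₄ _ (key hx).1 (key hx).2 (by simp) ⟨x, by simp, h₅⟩⟩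

theorem ae_supp (h : Dep L Φ) (h' : ∀ᶠ x in μ.AE, Φ x) : ∃ Z : Ordinal.{u} → Prop,
    (∀ᶠ z in (μ.U : Filter Ordinal.{u}), Z z) ∧ ∀ x, Gh L Z x → Φ x := by
  obtain ⟨Z, h₁, h₂ | h₂⟩ := dich (μ := μ) h
  · exact ⟨Z, h₁, h₂⟩
  · obtain ⟨x, h₃, h₄⟩ := (h'.and (ae_gh L h₁)).exists
    exact absurd h₃ (h₂ x h₄)

theorem ae_not (h : Dep L Φ) : (∀ᶠ x in μ.AE, ¬ Φ x) ↔ ¬ ∀ᶠ x in μ.AE, Φ x := by
  refine ⟨fun h₁ h₂ => let ⟨_, h₃, h₄⟩ := (h₁.and h₂).exists; h₃ h₄, fun h₁ => ?_⟩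
  obtain ⟨Z, h₂, h₃ | h₃⟩ := dich (μ := μ) h
  exacts [absurd ((ae_gh L h₂).mono h₃) h₁, (ae_gh L h₂).mono h₃]

theorem fubini' {b : Ordinal.{u}} (h : Dep L Φ) (hb : ∀ a ∈ L, a ≤ b) (h' : ∀ᶠ x in μ.AE, Φ x) :
    ∀ᶠ x in μ.AE, ∀ᶠ y in (μ.U : Filter Ordinal.{u}), Φ (Function.update x b y) := by
  obtain ⟨Z, h₁, h₂⟩ := ae_supp h h'
  refine (ae_gh L (h₁.and μ.hκ)).mono fun x hx => ?_
  refine (h₁.and ((eventually_all_finite (List.finite_toSet L) (p := fun a y => x a < y)).2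
    fun a ha => μ.hI _ (hx.1 a ha).2)).mono fun y hy => h₂ _ ⟨fun a ha => ?_, fun a ha c hc h => ?_⟩
  · by_cases e : a = b
    · simpa [e] using hy.1
    · simpa [e] using (hx.1 a ha).1
  · rw [Function.update_of_ne (h.trans_le (hb c hc)).ne]
    by_cases e : c = b
    · simpa [e] using hy.2 a ha
    · simpa [e] using hx.2 a ha c hc h

theorem fubini {b : Ordinal.{u}} (h : Dep L Φ) (hb : ∀ a ∈ L, a ≤ b) : (∀ᶠ x in μ.AE, Φ x) ↔
    ∀ᶠ x in μ.AE, ∀ᶠ y in (μ.U : Filter Ordinal.{u}), Φ (Function.update x b y) := by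
  refine ⟨fubini' h hb, fun h₁ => not_not.1 fun h₂ => ?_⟩
  obtain ⟨x, h₃, h₄⟩ := (h₁.and (fubini' h.not hb ((ae_not h).2 h₂))).exists
  obtain ⟨y, h₅, h₆⟩ := (h₃.and h₄).exists
  exact h₆ h₅

theorem ae_encL (L : OL.{u}) : ∀ᶠ x in μ.AE, encL (L.map x) < μ.κ :=
  (ae_gh L μ.hκ).mono fun _ hx => μ.gcl.encL (List.forall_mem_map.2 hx.1)

theorem ae_lt {a b : Ordinal.{u}} (h : a < b) : ∀ᶠ x in μ.AE, x a < x b :=
  (ae_gh [a, b] μ.hκ).mono fun _ hx => hx.2 a (by simp) b (by simp) h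

theorem ae_mem {Z : Ordinal.{u} → Prop} (hZ : ∀ᶠ z in (μ.U : Filter Ordinal.{u}), Z z)
    (a : Ordinal.{u}) : ∀ᶠ x in μ.AE, Z (x a) :=
  (ae_gh [a] hZ).mono fun _ hx => hx.1 a (by simp)

/-! ### Definable functions of finite support -/

variable (μ) in
def FnL {α : Type*} [Cd (SS μ.mach) α] (L : OL.{u}) (e : Asg.{u} → α) : Prop :=
  ∃ F : OL.{u} → α, (SS μ.mach).Tm F ∧ ∀ x, e x = F (L.map x)

variable (μ) in
def Fn {α : Type*} [Cd (SS μ.mach) α] (b : Ordinal.{u}) (e : Asg.{u} → α) : Prop :=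
  ∃ L : OL.{u}, (∀ a ∈ L, a < b) ∧ μ.FnL L e

variable {α β : Type*} [Cd (SS μ.mach) α] [Cd (SS μ.mach) β] {b : Ordinal.{u}}
variable {e : Asg.{u} → α} {e' : Asg.{u} → β}

theorem fnL_map {K : OL.{u}} (h : ∀ a ∈ K, a ∈ L) : μ.FnL L (fun x => K.map x) := by
  induction K with
  | nil => exact ⟨fun _ => [], by fun_prop, fun _ => rfl⟩
  | cons a K ih =>
    obtain ⟨F, h₁, h₂⟩ := ih fun c hc => h c (List.mem_cons_of_mem _ hc)
    obtain ⟨i, hi, rfl⟩ := List.getElem_of_mem (h a List.mem_cons_self)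
    exact ⟨fun w => w.getD i 0 :: F w, by fun_prop, fun x => by simp [h₂ x, hi]⟩

theorem FnL.mono {K : OL.{u}} (h : μ.FnL K e) (hK : ∀ a ∈ K, a ∈ L) : μ.FnL L e := by
  obtain ⟨F, h₁, h₂⟩ := h
  obtain ⟨T, h₃, h₄⟩ := fnL_map (μ := μ) hK
  exact ⟨fun w => F (T w), h₁.comp h₃, fun x => (h₂ x).trans (congrArg F (h₄ x))⟩

theorem FnL.dep (h : μ.FnL L e) (R : α → Prop) : Dep L (fun x => R (e x)) := by
  obtain ⟨F, -, h⟩ := h
  intro x y hxy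
  simp only [h, List.map_congr_left hxy]
  exact id

theorem Fn.comp {f : α → β} (h : μ.Fn b e) (hf : (SS μ.mach).Tm f) : μ.Fn b (fun x => f (e x)) :=
  let ⟨L, h₁, F, h₂, h₃⟩ := h; ⟨L, h₁, fun w => f (F w), hf.comp h₂, fun x => congrArg f (h₃ x)⟩

theorem FnL.pair (h : μ.FnL L e) (h' : μ.FnL L e') : μ.FnL L (fun x => (e x, e' x)) :=
  let ⟨F, h₁, h₂⟩ := h; let ⟨F', h₃, h₄⟩ := h'
  ⟨fun w => (F w, F' w), h₁.pair h₃, fun x => Prod.ext (h₂ x) (h₄ x)⟩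

theorem Fn.pair (h : μ.Fn b e) (h' : μ.Fn b e') : μ.Fn b (fun x => (e x, e' x)) :=
  let ⟨L, h₁, h₂⟩ := h; let ⟨K, h₃, h₄⟩ := h'
  ⟨L ++ K, fun a ha => (List.mem_append.1 ha).elim (h₁ a) (h₃ a),
    (h₂.mono fun _ => List.mem_append_left _).pair (h₄.mono fun _ => List.mem_append_right _)⟩

theorem Fn.const (c : Ordinal.{u}) : μ.Fn b (fun _ => c) :=
  ⟨[], by simp, fun _ => c, by fun_prop, fun _ => rfl⟩

theorem Fn.map (h : ∀ a ∈ L, a < b) : μ.Fn b (fun x => L.map x) := ⟨L, h, fnL_map fun _ => id⟩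

theorem Fn.proj {a : Ordinal.{u}} (h : a < b) : μ.Fn b (fun x => x a) :=
  (Fn.map (L := [a]) (by simpa using h)).comp (f := fun w => w.headD 0) (by fun_prop)

theorem Fn.mono {c : Ordinal.{u}} (h : μ.Fn b e) (hc : b ≤ c) : μ.Fn c e :=
  let ⟨L, h₁, h₂⟩ := h; ⟨L, fun a ha => (h₁ a ha).trans_le hc, h₂⟩

theorem Fn.ae_not (h : μ.Fn b e) (R : α → Prop) :
    (∀ᶠ x in μ.AE, ¬ R (e x)) ↔ ¬ ∀ᶠ x in μ.AE, R (e x) :=
  let ⟨_, _, h⟩ := h; Meas.ae_not (h.dep R)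

theorem Fn.small (hb : Lim b) (h : μ.Fn b e) : ∃ c < b, μ.Fn c e := by
  obtain ⟨L, h₁, h₂⟩ := h
  obtain ⟨c, h₃, h₄⟩ : ∃ c < b, ∀ a ∈ L, a < c := by
    clear h₂
    induction L with
    | nil => exact ⟨0, hb.1, by simp⟩
    | cons a L ih =>
      obtain ⟨c, h₃, h₄⟩ := ih fun x hx => h₁ x (List.mem_cons_of_mem _ hx)
      exact ⟨max c (a + 1), max_lt h₃ (hb.2 a (h₁ a List.mem_cons_self)), by
        simpa using fun x hx => Or.inl (h₄ x hx)⟩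
  exact ⟨c, h₃, L, h₄, h₂⟩

/-- Fubini for a new top coordinate. -/
theorem Fn.top (h : μ.Fn b e) (R : α → Ordinal.{u} → Prop) : (∀ᶠ x in μ.AE, R (e x) (x b)) ↔
    ∀ᶠ x in μ.AE, ∀ᶠ y in (μ.U : Filter Ordinal.{u}), R (e x) y := by
  obtain ⟨L, h₁, F, -, h₂⟩ := h
  have : ∀ x y, e (Function.update x b y) = e x := fun x y => by
    rw [h₂, h₂, List.map_congr_left fun a ha => Function.update_of_ne (h₁ a ha).ne _ _]
  rw [fubini (L := b :: L) (b := b) (fun x y h => by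
    rw [h b (by simp), h₂, h₂, List.map_congr_left fun a ha => h a (by simp [ha])]; exact id)
    (by simpa using fun a ha => (h₁ a ha).le)]
  simp [this]

/-- Values below a coordinate only depend on smaller coordinates. -/
theorem Fn.drop {c : Ordinal.{u}} {e : Asg.{u} → Ordinal.{u}} (h : μ.Fn c e)
    (h' : ∀ᶠ x in μ.AE, e x < x b) : ∃ e', μ.Fn b e' ∧ ∀ᶠ x in μ.AE, e x = e' x := by
  induction c using WellFoundedLT.induction generalizing e with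
  | ind c ih =>
    obtain ⟨L, h₁, h₂⟩ := h
    by_cases h₃ : ∀ a ∈ L, a < b
    · exact ⟨e, ⟨L, h₃, h₂⟩, Eventually.of_forall fun _ => rfl⟩
    push Not at h₃
    obtain ⟨a, ha, hba⟩ := h₃
    obtain ⟨t, ht, hm⟩ := (List.finite_toSet L).toFinset.exists_max_image id ⟨a, by simpa⟩
    simp only [Finite.mem_toFinset, mem_ofPred_eq, id] at ht hm
    obtain ⟨K, hK⟩ : ∃ K : OL.{u}, K = L.filter (· ≠ t) := ⟨_, rfl⟩
    have hK' : ∀ x ∈ K, x < t := fun x hx => by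
      simp only [hK, List.mem_filter, decide_eq_true_eq] at hx
      exact (hm x hx.1).lt_of_ne hx.2
    obtain ⟨F, hF, h₄⟩ := h₂.mono (L := t :: K) fun x hx => by simp [hK, hx, em]
    have hf : μ.Fn t (fun x => mu (fun v => μ.mach.Q (fun y => F (y :: K.map x) = v))) :=
      (Fn.map hK').comp (f := fun w => mu (fun v => μ.mach.Q (fun y => F (y :: w) = v)))
        (by fun_prop)
    have h₅ : ∀ᶠ x in μ.AE, e x < x t := by
      rcases (hba.trans (hm a ha)).eq_or_lt with rfl | h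
      exacts [h', (h'.and (ae_lt h)).mono fun _ h => h.1.trans h.2]
    have h₆ : ∀ᶠ x in μ.AE, e x = mu (fun v => μ.mach.Q (fun y => F (y :: K.map x) = v)) := by
      simp only [h₄, List.map_cons] at h₅ ⊢
      refine ((Fn.map hK').top (fun w y => F (y :: w) =
        mu (fun v => μ.mach.Q (fun y => F (y :: w) = v)))).2
        ((((Fn.map hK').top (fun w y => F (y :: w) < y)).1 h₅).mono fun x hx => ?_)
      exact mu_spec (μ.regress hx)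
    obtain ⟨e', h₇, h₈⟩ := ih t (h₁ t ht) hf ((h'.and h₆).mono fun _ h => h.2 ▸ h.1)
    exact ⟨e', h₇, (h₆.and h₈).mono fun _ h => h.1.trans h.2⟩

variable (μ) in
noncomputable def valc (L : OL.{u}) (c : Ordinal.{u}) (x : Asg.{u}) : Ordinal.{u} :=
  ap μ.mach c (encL (L.map x))

theorem Fn.valc (h : ∀ a ∈ L, a < b) (c : Ordinal.{u}) : μ.Fn b (μ.valc L c) :=
  (Fn.map h).comp (f := fun w => ap μ.mach c (encL w)) (by fun_prop)

theorem Fn.rep {e : Asg.{u} → Ordinal.{u}} (h : μ.Fn b e) {B : Ordinal.{u}} (hB : Gcl B)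
    (hk : μ.κ ≤ B) (h' : ∀ᶠ x in μ.AE, e x < B) :
    ∃ L : OL.{u}, (∀ a ∈ L, a < b) ∧ ∃ c < cb μ.mach B, ∀ᶠ x in μ.AE, e x = μ.valc L c x := by
  obtain ⟨L, h₁, F, h₂, h₃⟩ := h
  obtain ⟨c, h₄, h₅⟩ := code_fun_cb (m := μ.mach) (f := fun z => F (decL z)) (by fun_prop) hB
  refine ⟨L, h₁, c, h₄, (h'.and (ae_encL L)).mono fun x hx => ?_⟩
  rw [Meas.valc, h₅ _ (hx.2.trans_le hk) (by simpa [h₃] using hx.1), decL_encL, h₃]

theorem Fn.bdd {e : Asg.{u} → Ordinal.{u}} (h : μ.Fn b e) :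
    ∃ B, Gcl B ∧ μ.κ ≤ B ∧ ∀ᶠ x in μ.AE, e x < B := by
  obtain ⟨L, -, F, -, h⟩ := h
  obtain ⟨c, hc⟩ := bound_fun μ.κ (fun z => F (decL z))
  obtain ⟨B, h₁, h₂, h₃⟩ := exists_gcl₂ c μ.κ
  exact ⟨B, h₃, h₂.le, (ae_encL L).mono fun x hx => by simpa [h] using (hc _ hx).trans h₁⟩

end Meas

end Pool.Agent.MP_9a6faa_lc
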