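import Pool.Agent.MP_9a6faa_lc.Cstar

namespace Pool.Agent.MP_9a6faa_lc

open Set Order Ordinal FO Filter

universe u

variable {m : Mach.{u}}

theorem dcof_ord {a : Ordinal.{u}} : DCof m (fun x y => x ∈ y ∧ y ∈ a.toZFSet) ↔ Dt m a := by
  have ha := ZFSet.isOrdinal_toZFSet a
  have fld : ∀ x, Fld (fun x y => x ∈ y ∧ y ∈ a.toZFSet) x → x ∈ a.toZFSet :=
    fun x ⟨y, h⟩ => h.elim (fun h => ha.mem_trans h.1 h.2) And.right
  constructor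
  · rintro ⟨-, b, c, h₁, h₂, h₃⟩
    obtain ⟨f, hf, ef⟩ : ∃ f : Ordinal.{u} → Ordinal.{u}, (SS m).Tm f ∧
        ∀ i < b, f i < a ∧ val0 m (ap m c i) = (f i).toZFSet := by
      refine ⟨fun i => mu (fun x => Eq0 m (ap m c i) (on m x)), by fun_prop, fun i hi => ?_⟩
      obtain ⟨x, h₄, h₅⟩ := mem_toZFSet_iff.1
        (fld _ ⟨_, Or.inl (h₂ i _ (lt_add_one i) (h₁.1.2 i hi))⟩)
      have := mu_lt (S := fun x => Eq0 m (ap m c i) (on m x)) ⟨x, h₄, by simp [Eq0, h₅]⟩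
      exact ⟨this.1, this.2.trans (val0_on _)⟩
    have mono : ∀ i j, i < j → j < b → f i < f j := fun i j h h' => by
      simpa [(ef i (h.trans h')).2, (ef j h').2] using (h₂ i j h h').1
    have cof : ∀ y < a, ∃ x < b, y ≤ f x := fun y hy => by
      rcases eq_zero_or_pos y with rfl | h
      · exact ⟨0, h₁.1.1, zero_le⟩
      · obtain ⟨i, h₄, h₅⟩ := h₃ y.toZFSet ⟨toZFSet 0, Or.inr
          ⟨toZFSet_mem_toZFSet_iff.2 h, toZFSet_mem_toZFSet_iff.2 hy⟩⟩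
        exact ⟨i, h₄, le_of_lt (by simpa [(ef i h₄).2] using h₅.1)⟩
    have hl : Lim a := ⟨zero_le.trans_lt (ef 0 h₁.1.1).1, fun y hy => by
      obtain ⟨x, h₄, h₅⟩ := cof y hy
      exact (add_one_le_iff.2 (h₅.trans_lt (mono _ _ (lt_add_one x) (h₁.1.2 x h₄)))).trans_lt
        (ef _ (h₁.1.2 x h₄)).1⟩
    refine (dt_congr h₁.1 hl (cf_eq_of_mono hf hl (fun x y h h' => ?_)
      (fun x hx => (ef x hx).1) cof)).1 h₁
    rcases h.eq_or_lt with rfl | h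
    exacts [le_rfl, (mono _ _ h h').le]
  · intro h
    obtain ⟨c, hc⟩ := code_fun (m := m) (f := on m) (by fun_prop) a
    refine ⟨⟨fun x h => ZFSet.mem_irrefl x h.1, fun x y z h₁ h₂ =>
      ⟨ha.mem_trans' h₁.1 h₂.1 h₂.2, h₂.2⟩, fun x y hx hy => ?_⟩, a, c, h,
      fun i j h₁ h₂ => by simp [hc i (h₁.trans h₂), hc j h₂, h₁, h₂], fun x hx => ?_⟩
    · simpa [fld x hx, fld y hy] using (ha.mem (fld x hx)).mem_trichotomous (ha.mem (fld y hy))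
    · obtain ⟨y, hy, rfl⟩ := mem_toZFSet_iff.1 (fld x hx)
      exact ⟨_, h.1.2 y hy, by simp [hc _ (h.1.2 y hy), -toZFSet_add_one, h.1.2 y hy]⟩

theorem tm_Dt_C : (CC m).Tm (Dt m) :=
  (Df.mk' (CC_am.2 (((QD.cof (Θ := fun _ w x y => x ∈ y ∧ y ∈ w 0)
    ((QD.mem 0 1).and (QD.mem 1 2))).congr
    (Ψ := fun _ w => DCof m (fun x y => x ∈ y ∧ y ∈ w 0)) fun A hA w hw =>
      iff_of_eq (congrArg (DCof m) (funext₂ fun x y => propext ⟨fun h => h.2.2, fun h =>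
        have := hA.mem_trans h.2 (hw 0)
        ⟨hA.mem_trans h.1 this, this, h⟩⟩))).am (l := []) (by simp)))
    fun _ _ _ => dcof_ord).tm

theorem InC.code {x : ZFSet.{u}} (h : InC m x) : ∃ c, val0 m c = x :=
  let ⟨_, h⟩ := h; let ⟨c, _, e⟩ := mem_val0.1 h; ⟨c, e⟩

noncomputable instance : Cd (CC m) (Subtype (InC m)) := inferInstanceAs (Cd (CC m) (CC m).Ob)

instance : Pure (CC m) (Subtype (InC m)) := ⟨fun _ _ => trivial⟩

section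

variable {Γ : Type*} [Cd (CC m) Γ]

@[fun_prop] theorem tm_ES {f g : Γ → Subtype (InC m)} (hf : (CC m).Tm f) (hg : (CC m).Tm g) :
    (CC m).Tm (fun z => ES (InC m) (f z) (g z)) :=
  have : Pure (CC m) (CC m).Wd := ⟨fun _ _ => rfl⟩
  tm_MemO (w := fun _ => ⟨()⟩) (by fun_prop) hg hf

/-- The ordinals of the model. -/
noncomputable def oC (m : Mach.{u}) (a : Ordinal.{u}) : Subtype (InC m) := ⟨a.toZFSet, inC_ord a⟩

@[fun_prop] theorem tm_oC {f : Γ → Ordinal.{u}} (hf : (CC m).Tm f) :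
    (CC m).Tm (fun z => oC m (f z)) := tm_ob hf

end

theorem exists_setC {R : Subtype (InC m) → Prop} (h : (CC m).Tm R) (s : ZFSet.{u})
    (hs : ∀ x, R x → x.1 ∈ s) : ∃ X, ∀ x, ES (InC m) x X ↔ R x := by
  obtain ⟨b, hb⟩ := boundC (m := m) s Eq
  obtain ⟨X, h₁, h₂⟩ := (CC_am.1 (am_of_tm h)).exact b
  refine ⟨⟨X, h₁⟩, fun x => (h₂ x).trans (and_iff_right_of_imp fun hx => ?_)⟩
  obtain ⟨_, h, rfl⟩ := hb _ (hs x hx) ⟨_, x.2, rfl⟩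
  exact h

theorem ES_oC {a : Ordinal.{u}} {x : Subtype (InC m)} :
    ES (InC m) x (oC m a) ↔ ∃ b < a, oC m b = x := by
  simp only [ES, oC, mem_toZFSet_iff, Subtype.ext_iff]

theorem Meas.isMeas (μ : Meas.{u}) : IsMeas (ES (InC μ.mach)) (oC μ.mach μ.κ) := by
  have tr := trP_C μ.mach
  have lt : ∀ {a b}, ES _ (oC μ.mach a) (oC μ.mach b) ↔ a < b := toZFSet_mem_toZFSet_iff
  obtain ⟨T, R, hT, hR, h⟩ := μ.meas_def tm_Dt_C fun s => by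
    obtain ⟨c, hc⟩ := s.2.code
    exact Tm.congrP (Q := fun z : Ordinal.{u} × Ordinal.{u} =>
      Mem0 μ.mach (pn μ.mach (on μ.mach z.1) (on μ.mach z.2)) c) (by fun_prop)
      fun z => by simp only [Mem0, val0_pn, val0_on, hc]; rfl
  obtain ⟨F, hF⟩ := exists_setC (m := μ.mach) (R := fun A => (∀ x, ES _ x A → ES _ x (oC _ μ.κ)) ∧
    ∃ y, T y ∧ ∀ x < μ.κ, (ES _ (oC _ x) A ↔ R (y, x))) (by fun_prop) (ZFSet.powerset μ.κ.toZFSet)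
    fun A hA => ZFSet.mem_powerset.2 fun x hx => hA.1 ⟨x, tr.tr A.2 hx⟩ hx
  have hF' : ∀ A, ES _ A F ↔ (∀ x, ES _ x A → ES _ x (oC _ μ.κ)) ∧
      ∀ᶠ x in (μ.U : Filter Ordinal.{u}), ES _ (oC μ.mach x) A := fun A => by
    obtain ⟨c, hc⟩ := A.2.code
    exact (hF A).trans (and_congr_right fun _ => (h _ (Tm.congrP
      (Q := fun z => Mem0 μ.mach (on μ.mach z) c) (by fun_prop)
      fun z => by simp only [Mem0, val0_on, hc]; rfl)).symm)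
  refine ⟨tr.isOrd_iff.2 ⟨_, rfl⟩, ⟨oC _ ω, tr.isOmega_iff.2 rfl, lt.2 μ.hω⟩, F,
    fun A hA => ((hF' A).1 hA).1, fun A B hA h₁ h₂ => (hF' B).2 ⟨h₂, ((hF' A).1 hA).2.mono
      fun _ => h₁ _⟩, fun A B hA hB => ?_, fun A hA => ?_, fun A x hA => ?_, fun a f ha hf => ?_⟩
  · obtain ⟨C, hC⟩ := exists_setC (R := fun x => ES _ x A ∧ ES _ x B) (by fun_prop) A.1
      fun _ h => h.1
    exact ⟨C, (hF' C).2 ⟨fun x hx => ((hF' A).1 hA).1 x ((hC x).1 hx).1,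
      (((hF' A).1 hA).2.and ((hF' B).1 hB).2).mono fun _ => (hC _).2⟩, hC⟩
  · obtain ⟨C, hC⟩ := exists_setC (R := fun x => ES _ x (oC _ μ.κ) ∧ ¬ ES _ x A) (by fun_prop) _
      fun _ h => h.1
    refine or_iff_not_imp_left.2 fun h => ⟨C, (hF' C).2 ⟨fun x hx => ((hC x).1 hx).1, ?_⟩, hC⟩
    exact (μ.hκ.and (Ultrafilter.eventually_not.2 fun h' => h ((hF' A).2 ⟨hA, h'⟩))).mono
      fun x hx => (hC _).2 ⟨lt.2 hx.1, hx.2⟩
  · obtain ⟨y, h₁, h₂⟩ := (((hF' A).1 hA).2.and μ.hκ).exists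
    obtain ⟨z, h₃, h₄⟩ := (((hF' A).1 hA).2.and (μ.hI y h₂)).exists
    by_cases e : oC _ y = x
    · exact ⟨_, h₃, fun e' => h₄.ne (toZFSet_injective (congrArg Subtype.val (e.trans e'.symm)))⟩
    · exact ⟨_, h₁, e⟩
  · obtain ⟨C, hC⟩ := exists_setC (R := fun x => ES _ x (oC _ μ.κ) ∧
      ∀ i A, App (ES _) f i A → ES _ x A) (by unfold App IsPair; fun_prop) _ fun _ h => h.1
    obtain ⟨a, h₁, rfl⟩ := ES_oC.1 ha
    have key : ∀ i A, App (ES _) f i A → ES _ i (oC _ a) ∧ ES _ A F := fun i A ⟨p, h₂, h₃⟩ => by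
      obtain ⟨j, B, h₄, h₅, h₆⟩ := hf.1 p h₂
      have := ZFSet.pair_inj.1 ((tr.isPair_iff.1 h₃).symm.trans (tr.isPair_iff.1 h₆))
      exact ⟨(this.1 ▸ h₄ : i.1 ∈ _), (this.2 ▸ h₅ : A.1 ∈ _)⟩
    refine ⟨C, (hF' C).2 ⟨fun x hx => ((hC x).1 hx).1, (μ.hκ.and (μ.compl h₁
      (X := fun i z => ∀ A, App (ES _) f (oC _ i) A → ES _ (oC _ z) A) fun i hi => ?_)).mono
      fun x hx => (hC _).2 ⟨lt.2 hx.1, fun i A h₂ => ?_⟩⟩, hC⟩
    · obtain ⟨A, h₂, h₃⟩ := hf.2 _ (lt.2 hi)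
      exact ((hF' A).1 (key _ _ h₂).2).2.mono fun z hz B hB => h₃ B hB ▸ hz
    · obtain ⟨i, hi, rfl⟩ := ES_oC.1 (key _ _ h₂).1
      exact hx.2 i hi A h₂

end Pool.Agent.MP_9a6faa_lc
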