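import Pool.Agent.MP_9a6faa_lc.Model

namespace Pool.Agent.MP_9a6faa_lc

open Set Order FO Filter Ordinal

universe u

variable {m : Mach.{u}}

section

variable {a b : Ordinal.{u}} [Par (FF m) a] [Par (FF m) b]

instance : Par (FF m) (chk m a) := ⟨by fun_prop⟩

instance : Par (FF m) (on m a) := ⟨by fun_prop⟩

instance : Par (FF m) (lv m a) := ⟨by fun_prop⟩

instance : Par (FF m) (a + 1) := ⟨by fun_prop⟩

instance : Par (FF m) (pn m a b) := ⟨by fun_prop⟩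

instance : Par (FF m) (ap m a b) := ⟨by fun_prop⟩

instance (φ : QF) : Par (FF m) φ := by
  have : Par (FF m) φ.enc.{u} := by
    induction φ <;> exact ⟨by unfold QF.enc; fun_prop⟩
  exact ⟨tm_of_rel (Q := fun _ ψ => QF.enc.{u} ψ = φ.enc) (by fun_prop) fun _ _ =>
    QF.enc_inj.eq_iff⟩

instance {φ : QF} {l : OL.{u}} [Par (FF m) l] : Par (FF m) (dc m a φ l) := ⟨by fun_prop⟩

end

theorem FF_SS₂ {R : Ordinal.{u} → Ordinal.{u} → Prop}
    (h : (FF m).Tm (fun z : Ordinal.{u} × Ordinal.{u} => R z.1 z.2)) :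
    (SS m).Tm (fun z : Ordinal.{u} × Ordinal.{u} => R z.1 z.2) :=
  Tm.congrP ((FF_SS (R := fun c => R (fst c) (snd c)) (by fun_prop)).comp
    (f := fun z : Ordinal.{u} × Ordinal.{u} => G z.1 z.2) (by fun_prop)) fun z => by simp

theorem eq0_iff {a b : Ordinal.{u}} : Eq0 m a b ↔
    (∀ x, P m a x → ∃ y, P m b y ∧ Eq0 m x y) ∧ ∀ y, P m b y → ∃ x, P m a x ∧ Eq0 m x y := by
  constructor
  · intro h
    refine ⟨fun x hx => ?_, fun y hy => ?_⟩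
    · obtain ⟨y, h₁, h₂⟩ := mem_val0.1 (h ▸ mem_val0.2 ⟨x, hx, rfl⟩ : _ ∈ val0 m b)
      exact ⟨y, h₁, h₂.symm⟩
    · exact mem_val0.1 (h ▸ mem_val0.2 ⟨y, hy, rfl⟩ : _ ∈ val0 m a)
  · rintro ⟨h₁, h₂⟩
    refine ZFSet.ext fun w => ?_
    simp only [mem_val0]
    exact ⟨fun ⟨x, hx, e⟩ => let ⟨y, h₃, h₄⟩ := h₁ x hx; ⟨y, h₃, h₄.symm.trans e⟩,
      fun ⟨y, hy, e⟩ => let ⟨x, h₃, h₄⟩ := h₂ y hy; ⟨x, h₃, h₄.trans e⟩⟩

namespace Gen

variable (g : Gen m)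

/-- The image of a ground model set. -/
noncomputable def cv (c : Ordinal.{u}) : g.M := g.v (chk m c)

variable {g}

theorem E_cv {c : Ordinal.{u}} [Par (FF m) c] {x : g.M} :
    g.E x (g.cv c) ↔ ∃ z, Par (FF m) z ∧ P m c z ∧ g.cv z = x := by
  refine E_v.trans ⟨fun ⟨y, _, h, e⟩ => ?_, fun ⟨z, _, h, e⟩ =>
    ⟨_, inferInstance, H_of 0 fun _ _ => Cl_chk.2 ⟨z, h, rfl⟩, e⟩⟩
  obtain ⟨z, _, h₁, rfl⟩ := wit_par (m := m) (by fun_prop) (Cl_chk.1 h.exists.choose_spec)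
  exact ⟨z, ‹_›, h₁, e⟩

theorem cv_eq_iff {a b : Ordinal.{u}} [ha : Par (FF m) a] [Par (FF m) b] :
    g.cv a = g.cv b ↔ Eq0 m a b := by
  revert ha
  induction a using WellFoundedLT.induction generalizing b with
  | ind a ih =>
    intro ha
    rw [eq0_iff]
    constructor
    · refine fun e => ⟨all_par (m := m) (by fun_prop) fun x _ hx => ?_,
        all_par (m := m) (by fun_prop) fun y _ hy => ?_⟩
      · obtain ⟨y, _, h₁, h₂⟩ := E_cv.1 (e ▸ E_cv.2 ⟨x, ‹_›, hx, rfl⟩)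
        exact ⟨y, h₁, (ih x (P_lt hx)).1 h₂.symm⟩
      · obtain ⟨x, _, h₁, h₂⟩ := (E_cv (c := a)).1 (e ▸ E_cv.2 ⟨y, ‹_›, hy, rfl⟩)
        exact ⟨x, h₁, (ih x (P_lt h₁)).1 h₂⟩
    · refine fun ⟨h₁, h₂⟩ => g.trP.ext fun z => E_cv.trans (Iff.trans ⟨?_, ?_⟩ E_cv.symm)
      · rintro ⟨x, _, hx, rfl⟩
        obtain ⟨y, _, h₃, h₄⟩ := wit_par (m := m) (by fun_prop) (h₁ x hx)
        exact ⟨y, ‹_›, h₃, ((ih x (P_lt hx)).2 h₄).symm⟩
      · rintro ⟨y, _, hy, rfl⟩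
        obtain ⟨x, _, h₃, h₄⟩ := wit_par (m := m) (by fun_prop) (h₂ y hy)
        exact ⟨x, ‹_›, h₃, (ih x (P_lt h₃)).2 h₄⟩

theorem cv_mem_iff {a b : Ordinal.{u}} [Par (FF m) a] [Par (FF m) b] :
    g.E (g.cv a) (g.cv b) ↔ Mem0 m a b := by
  refine E_cv.trans ⟨fun ⟨z, _, h, e⟩ => mem_val0.2 ⟨z, h, cv_eq_iff.1 e⟩, fun h => ?_⟩
  obtain ⟨z, _, h₁, h₂⟩ := wit_par (m := m) (Q := fun z => P m b z ∧ Eq0 m z a) (by fun_prop)
    (mem_val0.1 h)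
  exact ⟨z, ‹_›, h₁, cv_eq_iff.2 h₂⟩

theorem E_on {a : Ordinal.{u}} [Par (FF m) a] {x : g.M} :
    g.E x (g.cv (on m a)) ↔ ∃ b < a, Par (FF m) b ∧ g.cv (on m b) = x := by
  refine E_cv.trans ⟨fun ⟨y, _, h, e⟩ => ?_, fun ⟨z, h, _, e⟩ =>
    ⟨_, inferInstance, P_on.2 ⟨z, h, rfl⟩, e⟩⟩
  obtain ⟨z, _, h₁, rfl⟩ := wit_par (m := m) (by fun_prop) (P_on.1 h)
  exact ⟨z, h₁, ‹_›, e⟩

theorem on_lt {a b : Ordinal.{u}} [Par (FF m) a] [Par (FF m) b] :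
    g.E (g.cv (on m a)) (g.cv (on m b)) ↔ a < b := by
  simp [cv_mem_iff, Mem0]

theorem on_inj {a b : Ordinal.{u}} [Par (FF m) a] [Par (FF m) b] :
    g.cv (on m a) = g.cv (on m b) ↔ a = b := by
  simp [cv_eq_iff, Eq0, toZFSet_injective.eq_iff]

theorem cv_on (a : Ordinal.{u}) [ha : Par (FF m) a] :
    (g.cv (on m a)).1 = (col (fun x => Par (FF m) x) a).toZFSet := by
  revert ha
  induction a using WellFoundedLT.induction with
  | ind a ih =>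
    intro ha
    ext x
    rw [mem_toZFSet_iff]
    constructor
    · intro h
      obtain ⟨b, h₁, _, e⟩ := (E_on (x := ⟨x, g.trP.tr (g.cv _).2 h⟩)).1 h
      exact ⟨_, col_lt ‹_› h₁, (ih b h₁).symm.trans (congrArg Subtype.val e)⟩
    · rintro ⟨c, h, rfl⟩
      obtain ⟨b, h₁, _, rfl⟩ := col_surj h
      exact ih b h₁ ▸ on_lt.2 h₁

theorem rank_val (a : Ordinal.{u}) : (g.val a).rank ≤ col (fun x => Par (FF m) x) a := by
  induction a using WellFoundedLT.induction with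
  | ind a ih =>
    refine ZFSet.rank_le_iff.2 fun y hy => ?_
    obtain ⟨x, h₁, h₂, rfl⟩ := mem_val.1 hy
    have := h₂.exists.choose_spec.lt
    exact (ih x this).trans_lt (col_lt h₁ this)

theorem isOrd_iff {x : g.M} : IsOrd g.E x ↔ ∃ a, Par (FF m) a ∧ g.cv (on m a) = x := by
  refine g.trP.isOrd_iff.trans ⟨fun ⟨c, e⟩ => ?_, fun ⟨a, _, e⟩ => ⟨_, e ▸ (cv_on a).symm⟩⟩
  obtain ⟨_, a, h, rfl⟩ := x
  obtain ⟨b, -, _, rfl⟩ := col_surj (T := fun x => Par (FF m) x) (x := c)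
    (lt_of_le_of_lt (by simpa [← (show _ = g.val a from e)] using rank_val (g := g) a)
      (col_lt h (lt_add_one a)))
  exact ⟨b, ‹_›, Subtype.ext ((cv_on b).trans e)⟩

theorem cv_omega : (g.cv (on m ω)).1 = toZFSet ω := by
  rw [cv_on, col_eq_self fun z hz => by obtain ⟨n, rfl⟩ := lt_omega0.1 hz; infer_instance]

theorem isOmega_iff {x : g.M} : IsOmega g.E x ↔ x = g.cv (on m ω) := by
  rw [g.trP.isOmega_iff, ← cv_omega (g := g), Subtype.ext_iff]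

theorem on_succ {a : Ordinal.{u}} [Par (FF m) a] {x : g.M} :
    g.E x (g.cv (on m (a + 1))) ↔ g.E x (g.cv (on m a)) ∨ x = g.cv (on m a) := by
  simp only [E_on, lt_add_one_iff, le_iff_lt_or_eq, or_and_right, exists_or, exists_eq_left]
  exact or_congr_right ⟨fun h => h.2.symm, fun h => ⟨‹_›, h.symm⟩⟩

theorem isZFC (g : Gen m) : IsZFC g.E where
  ext := fun _ _ => g.trP.ext
  found := fun a h =>
    let ⟨x, hx, e⟩ := (InvImage.wf Subtype.val ZFSet.mem_wf).has_min {x | g.E x a} h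
    ⟨x, hx, fun ⟨y, h₁, h₂⟩ => e y h₂ h₁⟩
  pair := fun a b => ⟨⟨_, g.trP.up a.2 b.2⟩, g.trP.up_iff.2 rfl⟩
  union := union
  power := power
  inf := ⟨g.cv (on m ω), ⟨_, on_lt.2 omega0_pos, fun y hy => by simpa using E_on.1 hy⟩,
    fun x hx => by
      obtain ⟨b, h, _, rfl⟩ := E_on.1 hx
      exact ⟨_, on_lt.2 (isSuccLimit_omega0.add_one_lt h), fun _ => on_succ⟩⟩
  sep := fun S hS a => by
    obtain ⟨φ, l, h⟩ := exists_fml_of_definable₁ g.E S hS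
    obtain ⟨a, _, rfl⟩ := exists_v a
    obtain ⟨c, hc⟩ := sep_udef (Ψ := fun _ E w => E (w 0) (w 1) ∧
      Sat E φ (fun k => w (cons 0 (fun k => k + 2) k))) ((UDef.mem _ _).and (UDef.sat φ _))
      (g.v a :: l) a fun x hx => E_lt hx.1
    refine ⟨c, fun x => (hc x).trans (and_congr_right fun _ => Iff.trans ?_ (h x (g.v 0)))⟩
    exact iff_of_eq (congrArg _ (funext fun k => by cases k <;> rfl))
  repl := fun R hR a ha => by
    obtain ⟨φ, l, h⟩ := exists_fml_of_definable₂ g.E R hR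
    simpa only [h] using repl φ l a (by simpa only [h] using ha)
  choice := choice

theorem cv_pn {a b : Ordinal.{u}} [Par (FF m) a] [Par (FF m) b] :
    (g.cv (pn m a b)).1 = ZFSet.pair (g.cv a).1 (g.cv b).1 := by
  have h : ∀ (a b : Ordinal.{u}) [Par (FF m) a] [Par (FF m) b], Par (FF m) (up m a b) ∧
      (g.cv (up m a b)).1 = {(g.cv a).1, (g.cv b).1} := fun a b _ _ => by
    have : Par (FF m) (up m a b) := ⟨by unfold up; fun_prop⟩
    refine ⟨this, g.trP.up_iff.1 fun x => E_cv.trans ?_⟩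
    simp only [P_up]
    exact ⟨by rintro ⟨_, _, rfl | rfl, rfl⟩ <;> simp, fun e => e.elim
      (fun e => ⟨a, ‹_›, Or.inl rfl, e.symm⟩) fun e => ⟨b, ‹_›, Or.inr rfl, e.symm⟩⟩
  have := (h a a).1
  have := (h a b).1
  simp [pn, h, ZFSet.pair]

theorem app_iff {f a b : Ordinal.{u}} [Par (FF m) f] [Par (FF m) a] [Par (FF m) b] :
    App g.E (g.v f) (g.cv a) (g.cv b) ↔ g.H (FMem (chk m (pn m a b)) f) := by
  rw [g.trP.app_iff, ← cv_pn, ← v_mem_iff]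
  rfl

end Gen

theorem TrP.fun_mem {A : ZFSet.{u} → Prop} (h : TrP A) {f X Y a b : Subtype A}
    (hf : IsFun (ES A) f X Y) (e : App (ES A) f a b) : ES A a X ∧ ES A b Y := by
  obtain ⟨p, h₂, h₃⟩ := e
  obtain ⟨j, B, h₄, h₅, h₆⟩ := hf.1 p h₂
  have := ZFSet.pair_inj.1 ((h.isPair_iff.1 h₃).symm.trans (h.isPair_iff.1 h₆))
  exact ⟨(this.1 ▸ h₄ : a.1 ∈ _), (this.2 ▸ h₅ : b.1 ∈ _)⟩

theorem dt_cover {a : Ordinal.{u}} (h : Dt m a) : ∃ c, (∀ x < lam m, ap m c x < a) ∧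
    ∀ i < a, ∃ x < th m, ∃ y < sa m x, ∀ z, y ≤ z → z < sa m x → i ≤ ap m c (G x z) := by
  obtain ⟨d, hd⟩ := cf_spec m a
  rcases h.2 with h' | ⟨x, hx, h'⟩
  · obtain ⟨c, hc⟩ := code_fun (m := m)
      (f := fun x => if ap m d (fst x) < a then ap m d (fst x) else 0) (by fun_prop) (lam m)
    refine ⟨c, fun x hx => ?_, fun i hi => ?_⟩
    · rw [hc x hx]
      split_ifs with e
      exacts [e, h.1.1]
    · obtain ⟨j, h₁, h₂, h₃⟩ := hd i hi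
      exact ⟨j, h₁.trans_le h', 0, (reg_sa j).lim.1, fun z _ hz => by
        simpa [hc _ (letter_lt (h₁.trans_le h') hz), h₃] using h₂⟩
  · obtain ⟨c, hc⟩ := code_fun (m := m) (f := fun x =>
      mu fun b => b < a ∧ ∀ j < snd x + 1, ap m d j < a → ap m d j < b) (by fun_prop) (lam m)
    refine ⟨c, fun x hx => ?_, fun i hi => ?_⟩
    · rw [hc x hx]
      by_cases e : ∃ b < a, ∀ j < snd x + 1, ap m d j < a → ap m d j < b
      exacts [(mu_spec e).1, (mu_neg e).trans_lt h.1.1]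
    · obtain ⟨j, h₁, h₂, h₃⟩ := hd i hi
      refine ⟨x, hx, j, h' ▸ h₁, fun z h₄ hz => ?_⟩
      rw [hc _ (letter_lt hx hz), snd_G]
      exact h₂.trans ((mu_spec (bdd_of_lt_cf (m := m) (f := ap m d) (by fun_prop)
        (h' ▸ (reg_sa x).lim.2 z hz))).2 j (lt_add_one_iff.2 h₄) h₃).le

theorem exists_cofseq {R : Ordinal.{u} → Ordinal.{u} → Prop}
    (hR : (SS m).Tm (fun z : Ordinal.{u} × Ordinal.{u} => R z.1 z.2)) (A : Ordinal.{u})
    (irr : ∀ x, ¬ R x x) (tr : ∀ x y z, R x y → R y z → R x z)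
    (tri : ∀ x y z, Fld R z → R x y → R x z ∨ R z y) (nm : ∀ x, Fld R x → ∃ y < A, R x y)
    (ne : ∃ x, Fld R x) : ∃ a c, Lim a ∧ (∀ i j, i < j → j < a → R (ap m c i) (ap m c j)) ∧
      ∀ x, Fld R x → ∃ i < a, R x (ap m c i) := by
  obtain ⟨T, hT, eT⟩ : ∃ T : Ordinal.{u} → Prop, (SS m).Tm T ∧ ∀ y, T y ↔
      Fld R y ∧ ∀ z < y, Fld R z → R z y := ⟨_, by unfold Fld; fun_prop, fun _ => Iff.rfl⟩
  obtain ⟨c, hc⟩ := code_fun (m := m) (f := fun i => mu fun y => T y ∧ col T y = i)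
    (by fun_prop) (col T A)
  have e : ∀ i < col T A, T (ap m c i) ∧ col T (ap m c i) = i := fun i hi => by
    obtain ⟨y, -, h⟩ := col_surj hi
    exact hc i hi ▸ mu_spec (R := fun y => T y ∧ col T y = i) ⟨y, h⟩
  have cof : ∀ x, Fld R x → ∃ i < col T A, R x (ap m c i) := fun x hx => by
    obtain ⟨h₁, h₂⟩ := mu_lt (nm x hx)
    have h₃ : T (mu (R x)) := (eT _).2 ⟨⟨x, Or.inr h₂⟩, fun z hz h =>
      (tri x _ z h h₂).resolve_left (not_of_lt_mu hz)⟩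
    have := e _ (col_lt h₃ h₁)
    exact ⟨_, col_lt h₃ h₁, (col_inj this.1 h₃ this.2).symm ▸ h₂⟩
  have inc : ∀ i j, i < j → j < col T A → R (ap m c i) (ap m c j) := fun i j h h' =>
    ((eT _).1 (e j h').1).2 _ ((col_lt_iff (e i (h.trans h')).1).1
      (by rwa [(e i (h.trans h')).2, (e j h').2])) ((eT _).1 (e i (h.trans h')).1).1
  refine ⟨_, c, ⟨?_, fun i hi => ?_⟩, inc, cof⟩
  · obtain ⟨x, hx⟩ := ne
    exact zero_le.trans_lt (cof x hx).choose_spec.1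
  · obtain ⟨j, h₁, h₂⟩ := cof _ ((eT _).1 (e i hi).1).1
    refine (add_one_le_iff.2 (not_le.1 fun h => ?_)).trans_lt h₁
    rcases h.eq_or_lt with rfl | h
    exacts [irr _ h₂, irr _ (tr _ _ _ h₂ (inc _ _ h hi))]

end Pool.Agent.MP_9a6faa_lc
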