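import Pool.Agent.MP_9a6faa_lc.Check

namespace Pool.Agent.MP_9a6faa_lc

open Set Order FO Filter Ordinal

universe u v

variable {m : Mach.{u}}

@[fun_prop] theorem FO.tm_Stem {I : Type} {V : Type v} {𝒜 : FO.{u, v} I V} {Γ : Type*} [Cd 𝒜 Γ]
    [Cd 𝒜 Mach.{u}] [HasQ 𝒜] [HasSep 𝒜] [Par 𝒜 m] {p : Γ → Cn m} {t : Γ → OL.{u}} (hp : 𝒜.Tm p)
    (ht : 𝒜.Tm t) : 𝒜.Tm (fun z => (p z).Stem (t z)) := by
  unfold Cn.Stem; fun_prop

namespace Gen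

variable {g : Gen m}

/-- The generic branch yields a countable cofinal sequence. -/
theorem exists_seq {a c : Ordinal.{u}} [Par (FF m) a] [Par (FF m) c] (h : Dt m a) :
    ∃ f, (∀ p, g.E p f → ∃ x y, App g.E f x y ∧ IsPair g.E p x y) ∧
      (∀ x y, App g.E f x y → g.E x (g.cv (on m ω)) ∧
        ∃ i < a, Par (FF m) i ∧ y = g.cv (ap m c i)) ∧
      (∀ x, g.E x (g.cv (on m ω)) → ∃! y, App g.E f x y) ∧
      ∀ i < a, Par (FF m) i → ∃ j, i ≤ j ∧ j < a ∧ Par (FF m) j ∧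
        ∃ x, App g.E f x (g.cv (ap m c j)) := by
  obtain ⟨e, _, h₁, h₂⟩ := wit_par (m := m) (by fun_prop) (dt_cover h)
  obtain ⟨b, hb⟩ := bound_fun (lam m) (fun i =>
    chk m (pn m (on m (decL i).tail.length) (ap m c (ap m e ((decL i).headD 0)))))
  obtain ⟨-, hf⟩ := exists_set (g := g) (R := fun y p => ∃ x t, p.Stem (x :: t) ∧
    y = chk m (pn m (on m t.length) (ap m c (ap m e x)))) (by fun_prop) b
    (fun _ _ ⟨x, t, h, e⟩ => by simpa [e] using hb _ h.mem.1)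
    fun _ _ _ ⟨x, t, h, e⟩ h' => ⟨x, t, h.mono h', e⟩
  generalize g.v (nm _) = f at hf
  have hf' : ∀ p, g.E p f ↔ ∃ x t, Par (FF m) x ∧ g.H (fun q => q.Stem (x :: t)) ∧
      g.cv (pn m (on m t.length) (ap m c (ap m e x))) = p := fun p => by
    refine (hf p).trans ⟨fun ⟨y, _, h, e'⟩ => ?_, fun ⟨x, t, _, h, e'⟩ =>
      ⟨_, inferInstance, h.mono fun _ h => ⟨x, t, h, rfl⟩, e'⟩⟩
    obtain ⟨n, h⟩ := h.exists
    obtain ⟨x, _, t, h', rfl⟩ := wit_par (m := m) (by fun_prop) h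
    exact ⟨x, t, ‹_›, H_of n fun _ => h'.mono, e'⟩
  have ha : ∀ x y, App g.E f x y ↔ ∃ z t, Par (FF m) z ∧ g.H (fun q => q.Stem (z :: t)) ∧
      g.cv (on m t.length) = x ∧ g.cv (ap m c (ap m e z)) = y := fun x y => by
    refine g.trP.app_iff.trans ((hf' ⟨_, g.trP.pair x.2 y.2⟩).trans (exists₂_congr fun z t =>
      and_congr_right fun _ => and_congr_right fun _ => ?_))
    simp only [Subtype.ext_iff, cv_pn, ZFSet.pair_inj]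
  have lt : ∀ {z t}, g.H (fun q => q.Stem (z :: t)) → ap m e z < a := fun h =>
    h₁ _ ((lt_encL List.mem_cons_self).trans h.exists.choose_spec.mem.1)
  refine ⟨f, fun p hp => ?_, fun x y h => ?_, fun x hx => ?_, fun i hi _ => ?_⟩
  · obtain ⟨x, t, _, h, rfl⟩ := (hf' p).1 hp
    exact ⟨_, _, (ha _ _).2 ⟨x, t, ‹_›, h, rfl, rfl⟩, g.trP.isPair_iff.2 cv_pn⟩
  · obtain ⟨x, t, _, h', rfl, rfl⟩ := (ha _ _).1 h
    exact ⟨on_lt.2 (natCast_lt_omega0 _), _, lt h', inferInstance, rfl⟩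
  · obtain ⟨_, h, -, rfl⟩ := E_on.1 hx
    obtain ⟨n, rfl⟩ := lt_omega0.1 h
    obtain ⟨k, h⟩ := dense (g := g) (X := fun p => ∃ x t, p.Stem (x :: t) ∧ t.length = n)
      (by fun_prop) (H_of 0 fun p _ => by
        obtain ⟨s, -, h₃, h₄⟩ := p.long p.2.2.1 (n + 1)
        obtain ⟨q, h₅, h₆⟩ := p.exists_stem (p.down (List.drop_suffix (s.length - (n + 1)) s) h₃)
        refine ⟨q, h₅, s[s.length - (n + 1)]'(by omega), s.drop (s.length - (n + 1) + 1),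
          by rwa [← List.drop_eq_getElem_cons], by simp; omega⟩)
    obtain ⟨x, _, t, h', rfl⟩ := wit_par (m := m) (by fun_prop) h
    have h₃ : g.H fun q => q.Stem (x :: t) := H_of k fun _ => h'.mono
    refine ⟨_, (ha _ _).2 ⟨x, t, ‹_›, h₃, rfl, rfl⟩, fun y hy => ?_⟩
    obtain ⟨z, s, _, h₄, h₅, rfl⟩ := (ha _ _).1 hy
    obtain ⟨_, h₆, h₇⟩ := (h₃.and h₄).exists
    have h₈ : (z :: s).length = (x :: t).length := by simpa using on_inj.1 h₅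
    rw [(List.cons.inj ((h₆ _ h₇.mem).elim (·.eq_of_length h₈)
      fun h => (h.eq_of_length h₈.symm).symm)).1]
  · obtain ⟨k, h⟩ := dense (g := g) (X := fun p => ∃ x t, p.Stem (x :: t) ∧ i ≤ ap m e x)
      (by fun_prop) (H_of 0 fun p _ => by
        obtain ⟨x, h₃, y, h₄, h₅⟩ := h₂ i hi
        obtain ⟨s, -, -, h₆⟩ := p.spl p.2.2.1
        obtain ⟨z, h₇, h₈, h₉⟩ := h₆ x h₃ y h₄
        obtain ⟨q, h₀, hq⟩ := p.exists_stem h₉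
        exact ⟨q, h₀, _, s, hq, h₅ z h₇ h₈⟩)
    obtain ⟨x, _, t, h, h'⟩ := wit_par (m := m) (by fun_prop) h
    have h₃ : g.H fun q => q.Stem (x :: t) := H_of k fun _ => h.mono
    exact ⟨_, h', lt h₃, inferInstance, _, (ha _ _).2 ⟨x, t, ‹_›, h₃, rfl, rfl⟩⟩

/-- Other cofinalities stay uncountable. -/
theorem bdd_seq {ρ f : Ordinal.{u}} [Par (FF m) ρ] [Par (FF m) f] (hρ : Reg m ρ) (hθ : th m < ρ)
    (hS : ∀ x < th m, ρ ≠ sa m x) {K : Ordinal.{u} → Ordinal.{u} → Prop}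
    (hK : (FF m).Tm (fun z : Ordinal.{u} × Ordinal.{u} => K z.1 z.2))
    (mono : ∀ z b b', K z b → b ≤ b' → K z b') :
    ∃ b < ρ, Par (FF m) b ∧ ∀ (n : ℕ) (z : Ordinal.{u}), Par (FF m) z → (∃ c < ρ, K z c) →
      App g.E (g.v f) (g.cv (on m n)) (g.cv z) →
        ∃ w, Par (FF m) w ∧ K w b ∧ App g.E (g.v f) (g.cv (on m n)) (g.cv w) := by
  have hK' := FF_SS₂ hK
  obtain ⟨k, h⟩ := dense (g := g) (X := fun q => ∃ b < ρ, ∀ n : ℕ, ∀ r ≤ q, ∃ r' ≤ r,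
    (∃ z, K z b ∧ FMem (chk m (pn m (on m n) z)) f r') ∨
      ∀ s ≤ r', ∀ z, ∀ c < ρ, K z c → ¬ FMem (chk m (pn m (on m n) z)) f s) (by fun_prop)
    (H_of 0 fun p _ => namba hρ hθ hS (D := fun r' n b =>
      (∃ z, K z b ∧ FMem (chk m (pn m (on m n) z)) f r') ∨
        ∀ s ≤ r', ∀ z, ∀ c < ρ, K z c → ¬ FMem (chk m (pn m (on m n) z)) f s) (by fun_prop)
      (fun q n => by
        by_cases h : ∀ s ≤ q, ∀ z, ∀ c < ρ, K z c → ¬ FMem (chk m (pn m (on m n) z)) f s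
        · exact ⟨q, le_rfl, 0, hρ.lim.1, Or.inr h⟩
        · push Not at h
          obtain ⟨s, h₁, z, c, h₂, h₃⟩ := h
          exact ⟨s, h₁, c, h₂, Or.inl ⟨z, h₃⟩⟩)
      (fun q r n b b' h h₁ h₂ => h.imp (fun ⟨z, h₃, h₄⟩ => ⟨z, mono _ _ _ h₃ h₂, h₄.mono h₁⟩)
        fun h s hs => h s (hs.trans h₁)) p)
  obtain ⟨b, _, h₁, h₂⟩ := wit_par (m := m) (by fun_prop) h
  refine ⟨b, h₁, ‹_›, fun n z _ ⟨c, h₃, h₄⟩ h₅ => ?_⟩
  obtain ⟨l, h | h⟩ := dense (g := g) (by fun_prop) (H_of k (h₂ n))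
  · obtain ⟨w, _, h₆, h₇⟩ := wit_par (m := m) (by fun_prop) h
    exact ⟨w, ‹_›, h₆, app_iff.2 (H_of l fun _ => h₇.mono)⟩
  · obtain ⟨_, h₆, h₇⟩ := ((H_of l h).and (app_iff.1 h₅)).exists
    exact absurd h₇ (h₆ z c h₃ h₄)

theorem cof_iff {A : Ordinal.{u}} [Par (FF m) A] {R : g.M → g.M → Prop}
    {S : Ordinal.{u} → Ordinal.{u} → Prop}
    (hS : (FF m).Tm (fun z : Ordinal.{u} × Ordinal.{u} => S z.1 z.2))
    (hR : ∀ x y, R x y → g.E x (g.cv A) ∧ g.E y (g.cv A))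
    (e : ∀ (s t) [Par (FF m) s] [Par (FF m) t], R (g.cv s) (g.cv t) ↔ S s t) :
    CofOm g.E R ↔ DCof0 m S := by
  have fA : ∀ x, Fld R x → g.E x (g.cv A) := fun x ⟨y, h⟩ =>
    h.elim (fun h => (hR _ _ h).1) fun h => (hR _ _ h).2
  have fc : ∀ x, Fld R x → ∃ s, Par (FF m) s ∧ P m A s ∧ g.cv s = x := fun x h => E_cv.1 (fA x h)
  have fld : ∀ (s) [Par (FF m) s], Fld R (g.cv s) ↔ ∃ z, S s z ∨ S z s := fun s _ =>
    ⟨fun ⟨y, h⟩ => by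
      obtain ⟨t, _, -, rfl⟩ := fc y ⟨_, h.symm⟩
      exact ⟨t, by simpa only [e] using h⟩, fun h => by
      obtain ⟨t, _, h⟩ := wit_par (m := m) (by fun_prop) h
      exact ⟨g.cv t, by simpa only [e] using h⟩⟩
  constructor
  · rintro ⟨⟨l₁, l₂, l₃⟩, w, f, Y, h₁, h₂, h₃, h₄⟩
    obtain rfl := isOmega_iff.1 h₁
    obtain ⟨f, _, rfl⟩ := exists_v f
    have k₁ : ∀ x, ¬ S x x := all_par (m := m) (by fun_prop) fun x _ h => l₁ _ ((e x x).2 h)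
    have k₂ : ∀ x y z, S x y → S y z → S x z := all_par (m := m) (by fun_prop) fun x _ =>
      all_par (m := m) (by fun_prop) fun y _ => all_par (m := m) (by fun_prop) fun z _ h h' =>
        (e x z).1 (l₂ _ _ _ ((e x y).2 h) ((e y z).2 h'))
    obtain ⟨a, _, h₅⟩ := wit_par (m := m) (by unfold Fld; fun_prop) (exists_cofseq (FF_SS₂ hS) A
      k₁ k₂ (all_par (m := m) (by unfold Fld; fun_prop) fun x _ =>
        all_par (m := m) (by unfold Fld; fun_prop) fun y _ =>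
        all_par (m := m) (by unfold Fld; fun_prop) fun z _ hz h => by
          rw [← e] at h
          simp only [← e]
          rcases l₃ _ _ ⟨_, Or.inl h⟩ ((fld z).2 hz) with h' | h' | h'
          exacts [Or.inl h', Or.inr (h' ▸ h), Or.inr (l₂ _ _ _ h' h)])
      (all_par (m := m) (by unfold Fld; fun_prop) fun x _ hx => by
        obtain ⟨_, y, -, h⟩ := h₄ _ ((fld x).2 hx)
        obtain ⟨t, _, h', rfl⟩ := fc y ⟨_, Or.inr h⟩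
        exact ⟨t, P_lt h', (e _ _).1 h⟩) (by
        obtain ⟨y, hy, -⟩ := h₂.2 _ (on_lt.2 omega0_pos)
        obtain ⟨t, _, -, rfl⟩ := fc y (h₃ _ _ hy)
        exact ⟨t, (fld t).1 (h₃ _ _ hy)⟩))
    obtain ⟨c, _, h₅, h₆, h₇⟩ := wit_par (m := m) (by unfold Fld; fun_prop) h₅
    refine ⟨⟨k₁, k₂, all_par (m := m) (by fun_prop) fun x _ => all_par (m := m) (by fun_prop)
      fun y _ hx hy => by simpa only [e, cv_eq_iff] using l₃ _ _ ((fld x).2 hx) ((fld y).2 hy)⟩,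
      a, c, ⟨h₅, ?_⟩, h₆, h₇⟩
    by_contra! h₈
    have : Par (FF m) (cf m a) := ⟨by fun_prop⟩
    have hρ := reg_cf (gcl_th.1.trans h₈.1)
    obtain ⟨d, _, hd⟩ := wit_par (m := m) (by unfold Cof; fun_prop) (cf_spec m a)
    obtain ⟨b, k₃, _, k₄⟩ := bdd_seq (g := g) (f := f) hρ h₈.1 h₈.2
      (K := fun z b => ∃ j ≤ b, ap m d j < a ∧ S z (ap m c (ap m d j))) (by fun_prop)
      fun _ _ _ ⟨j, h, h'⟩ h'' => ⟨j, h.trans h'', h'⟩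
    obtain ⟨i, _, k₅, k₆⟩ := wit_par (m := m) (by fun_prop)
      (bdd_of_lt_cf (m := m) (f := ap m d) (by fun_prop) (hρ.lim.2 b k₃))
    obtain ⟨n, y, k₇, k₈⟩ := h₄ _ ((fld _).2 ⟨_, Or.inl (h₆ i _ (lt_add_one i) (h₅.2 i k₅))⟩)
    obtain ⟨z, _, -, rfl⟩ := fc y ⟨_, Or.inr k₈⟩
    have k₉ := (g.trP.fun_mem h₂ k₇).1
    obtain ⟨_, h, -, rfl⟩ := E_on.1 k₉
    obtain ⟨n, rfl⟩ := lt_omega0.1 h
    obtain ⟨w, _, ⟨j, r₁, r₂, r₃⟩, r₄⟩ := k₄ n z ‹_› (by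
      obtain ⟨i, r₁, r₂⟩ := h₇ z ((fld z).1 ⟨_, Or.inr k₈⟩)
      obtain ⟨j, r₃, r₄, r₅⟩ := hd _ (h₅.2 i r₁)
      exact ⟨j, r₃, j, le_rfl, r₅, k₂ _ _ _ r₂ (h₆ _ _ (add_one_le_iff.1 r₄) r₅)⟩) k₇
    rw [(h₂.2 _ k₉).unique k₇ r₄, e] at k₈
    exact k₁ _ (k₂ _ _ _ k₈ (k₂ _ _ _ r₃ (h₆ _ _ (k₆ j (lt_add_one_iff.2 r₁) r₂) k₅)))
  · rintro ⟨⟨l₁, l₂, l₃⟩, h⟩
    obtain ⟨a, _, h⟩ := wit_par (m := m) (by fun_prop) h
    obtain ⟨c, _, h₁, h₂, h₃⟩ := wit_par (m := m) (by fun_prop) h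
    obtain ⟨f, k₁, k₂, k₃, k₄⟩ := exists_seq (g := g) (c := c) h₁
    have k₅ : ∀ x y, App g.E f x y → Fld R y := fun x y h => by
      obtain ⟨i, h₄, _, rfl⟩ := (k₂ x y h).2
      exact (fld _).2 ⟨_, Or.inl (h₂ i _ (lt_add_one i) (h₁.1.2 i h₄))⟩
    refine ⟨⟨fun x h => ?_, fun x y z h h' => ?_, fun x y hx hy => ?_⟩, _, f, g.cv A,
      isOmega_iff.2 rfl, ⟨fun p hp => ?_, k₃⟩, k₅, fun x hx => ?_⟩
    · obtain ⟨s, _, -, rfl⟩ := fc x ⟨_, Or.inl h⟩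
      exact l₁ s ((e _ _).1 h)
    · obtain ⟨s, _, -, rfl⟩ := fc x ⟨_, Or.inl h⟩
      obtain ⟨t, _, -, rfl⟩ := fc y ⟨_, Or.inl h'⟩
      obtain ⟨r, _, -, rfl⟩ := fc z ⟨_, Or.inr h'⟩
      exact (e _ _).2 (l₂ _ _ _ ((e _ _).1 h) ((e _ _).1 h'))
    · obtain ⟨s, _, -, rfl⟩ := fc x hx
      obtain ⟨t, _, -, rfl⟩ := fc y hy
      simpa only [e, cv_eq_iff] using l₃ _ _ ((fld s).1 hx) ((fld t).1 hy)
    · obtain ⟨x, y, h, h'⟩ := k₁ p hp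
      exact ⟨x, y, (k₂ x y h).1, fA y (k₅ x y h), h'⟩
    · obtain ⟨s, _, -, rfl⟩ := fc x hx
      obtain ⟨i, _, h₄, h₅⟩ := wit_par (m := m) (by fun_prop) (h₃ s ((fld s).1 hx))
      obtain ⟨j, h₆, h₇, _, n, h₈⟩ := k₄ (i + 1) (h₁.1.2 i h₄) inferInstance
      exact ⟨n, _, h₈, (e _ _).2 (l₂ _ _ _ h₅ (h₂ _ _ (add_one_le_iff.1 h₆) h₇))⟩

end Gen

end Pool.Agent.MP_9a6faa_lc
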