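import Pool.Agent.MP_9a6faa_lc.Trans

namespace Pool.Agent.MP_9a6faa_lc

open Set Order Ordinal FO

universe u

variable {m : Mach.{u}}

/-- The levels of the hierarchy. -/
noncomputable def Lv (m : Mach.{u}) (a : Ordinal.{u}) : ZFSet.{u} := val0 m (lv m a)

theorem mem_val0_dc {A : Ordinal.{u}} {φ : QF} {l : OL.{u}} {x : ZFSet.{u}} :
    x ∈ val0 m (dc m A φ l) ↔ x ∈ val0 m A ∧
      SatQ (· ∈ ·) (DCof m) {y | y ∈ val0 m A} x φ (x :: l.map (val0 m)) := by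
  simp only [mem_val0, P_dc]
  exact ⟨fun ⟨z, ⟨h₁, h₂⟩, e⟩ => e ▸ ⟨⟨z, h₁, rfl⟩, by simpa only [mem_val0, Sat0, List.map_cons] using h₂⟩,
    fun ⟨⟨z, h₁, e⟩, h₂⟩ => ⟨z, ⟨h₁, by
      subst e; simpa only [mem_val0, Sat0, List.map_cons] using h₂⟩, e⟩⟩

theorem exists_codes {A : Ordinal.{u}} {l : List ZFSet.{u}} (h : ∀ y ∈ l, y ∈ val0 m A) :
    ∃ k : OL.{u}, (∀ x, x ∈ k → P m A x) ∧ k.map (val0 m) = l := by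
  induction l with
  | nil => exact ⟨[], by simp, rfl⟩
  | cons a l ih =>
    obtain ⟨k, h₁, rfl⟩ := ih fun y hy => h y (List.mem_cons_of_mem _ hy)
    obtain ⟨z, h₂, rfl⟩ := mem_val0.1 (h a List.mem_cons_self)
    exact ⟨z :: k, List.forall_mem_cons.2 ⟨h₂, h₁⟩, rfl⟩

theorem mem_Lv {a : Ordinal.{u}} {x : ZFSet.{u}} : x ∈ Lv m a ↔ ∃ b < a, ∃ φ l,
    (∀ y ∈ l, y ∈ Lv m b) ∧ Defines (· ∈ ·) (DCof m) {y | y ∈ Lv m b} φ l x := by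
  constructor
  · intro h
    obtain ⟨_, h', rfl⟩ := mem_val0.1 h
    obtain ⟨b, hb, φ, l, h₀, rfl⟩ := P_lv.1 h'
    refine ⟨b, hb, φ, l.map (val0 m), fun y hy => ?_, fun _ => mem_val0_dc⟩
    obtain ⟨z, hz, rfl⟩ := List.mem_map.1 hy
    exact mem_val0.2 ⟨z, h₀ z hz, rfl⟩
  · rintro ⟨b, hb, φ, l, h₁, h₂⟩
    obtain ⟨k, h₃, rfl⟩ := exists_codes h₁
    exact mem_val0.2 ⟨_, P_lv.2 ⟨b, hb, φ, k, h₃, rfl⟩,
      ZFSet.ext fun y => mem_val0_dc.trans (h₂ y).symm⟩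

theorem Lv_mono {a b : Ordinal.{u}} {x : ZFSet.{u}} (h : a ≤ b) (hx : x ∈ Lv m a) : x ∈ Lv m b :=
  let ⟨c, h₁, h₂⟩ := mem_Lv.1 hx; mem_Lv.2 ⟨c, h₁.trans_le h, h₂⟩

theorem Lv_trans (a : Ordinal.{u}) : (Lv m a).IsTransitive := fun _ hx y hy =>
  let ⟨_, h₁, _, _, _, h₂⟩ := mem_Lv.1 hx; Lv_mono h₁.le ((h₂ y).1 hy).1

theorem mem_Lv_succ {a : Ordinal.{u}} {x : ZFSet.{u}} : x ∈ Lv m (a + 1) ↔ ∃ φ l,
    (∀ y ∈ l, y ∈ Lv m a) ∧ Defines (· ∈ ·) (DCof m) {y | y ∈ Lv m a} φ l x := by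
  refine ⟨fun h => ?_, fun h => mem_Lv.2 ⟨a, lt_add_one a, h⟩⟩
  obtain ⟨b, h₁, h₂⟩ := mem_Lv.1 h
  rcases (lt_add_one_iff.1 h₁).eq_or_lt with rfl | h₃
  · exact h₂
  · have := mem_Lv.2 ⟨b, h₃, h₂⟩
    exact ⟨.mem 0 1, [x], by simpa using this, fun y =>
      (and_iff_right_of_imp fun hy => (Lv_trans a).mem_trans hy this).symm⟩

theorem mem_Lv_lim {a : Ordinal.{u}} (h : ∀ b < a, b + 1 < a) {x : ZFSet.{u}} :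
    x ∈ Lv m a ↔ ∃ b < a, x ∈ Lv m b :=
  ⟨fun hx => let ⟨b, h₁, h₂⟩ := mem_Lv.1 hx; ⟨b + 1, h b h₁, mem_Lv_succ.2 h₂⟩,
    fun ⟨_, h₁, h₂⟩ => Lv_mono h₁.le h₂⟩

theorem QD.def {Ψ : ZFSet.{u} → (ℕ → ZFSet.{u}) → Prop} (h : QD m Ψ) {l : List ZFSet.{u}}
    {a : Ordinal.{u}} (hl : ∀ y ∈ l, y ∈ Lv m a) :
    ∃ X ∈ Lv m (a + 1), ∀ x, x ∈ X ↔ x ∈ Lv m a ∧ Ψ (Lv m a) (env x (x :: l)) := by
  obtain ⟨φ, h⟩ := h
  refine ⟨(Lv m a).sep fun x => Ψ (Lv m a) (env x (x :: l)), mem_Lv_succ.2 ⟨φ, l, hl, fun x => ?_⟩,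
    fun x => ZFSet.mem_sep⟩
  exact ZFSet.mem_sep.trans (and_congr_right fun hx =>
    (h _ (Lv_trans a) x _ hx (List.forall_mem_cons.2 ⟨hx, hl⟩)).symm)

/-- The union of the hierarchy. -/
def InC (m : Mach.{u}) (x : ZFSet.{u}) : Prop := ∃ a, x ∈ Lv m a

theorem exists_Lv (a : Ordinal.{u}) {l : List ZFSet.{u}} (h : ∀ y ∈ l, InC m y) :
    ∃ b, a ≤ b ∧ ∀ y ∈ l, y ∈ Lv m b := by
  induction l with
  | nil => exact ⟨a, le_rfl, by simp⟩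
  | cons x l ih =>
    obtain ⟨b, h₁, h₂⟩ := ih fun y hy => h y (List.mem_cons_of_mem _ hy)
    obtain ⟨c, h₃⟩ := h x List.mem_cons_self
    exact ⟨max b c, le_max_of_le_left h₁, List.forall_mem_cons.2
      ⟨Lv_mono (le_max_right _ _) h₃, fun y hy => Lv_mono (le_max_left _ _) (h₂ y hy)⟩⟩

theorem QD.inC {Ψ : (ℕ → ZFSet.{u}) → Prop} (h : QD m fun _ => Ψ) {l : List ZFSet.{u}}
    (hl : ∀ y ∈ l, InC m y) (a : Ordinal.{u}) :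
    ∃ b X, a ≤ b ∧ (∀ y ∈ l, y ∈ Lv m b) ∧ InC m X ∧
      ∀ x, x ∈ X ↔ x ∈ Lv m b ∧ Ψ (env x (x :: l)) :=
  let ⟨b, h₁, h₂⟩ := exists_Lv a hl
  let ⟨X, h₃, h₄⟩ := h.def h₂
  ⟨b, X, h₁, h₂, ⟨_, h₃⟩, h₄⟩

theorem trP_C (m : Mach.{u}) : TrP (InC m) where
  tr := fun ⟨a, h⟩ h' => ⟨a, (Lv_trans a).mem_trans h' h⟩
  up := fun {x y} hx hy => by
    obtain ⟨b, X, -, h₁, h₂, h₃⟩ := ((QD.eq 0 1).or (QD.eq 0 2)).inC (m := m) (l := [x, y])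
      (by simp [hx, hy]) 0
    refine (ZFSet.ext fun z => (h₃ z).trans ?_ : X = {x, y}) ▸ h₂
    rw [ZFSet.mem_pair]
    exact and_iff_right_of_imp fun h => h₁ z (by simpa [env] using h)

theorem inC_Lv (a : Ordinal.{u}) : InC m (Lv m a) := by
  obtain ⟨X, h₁, h₂⟩ := (QD.eq (m := m) 0 0).def (l := []) (a := a) (by simp)
  exact ⟨_, (ZFSet.ext fun z => (h₂ z).trans (and_iff_left rfl) : X = _) ▸ h₁⟩

theorem boundC (s : ZFSet.{u}) (R : ZFSet.{u} → ZFSet.{u} → Prop) :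
    ∃ b, ∀ x ∈ s, (∃ y, InC m y ∧ R x y) → ∃ y ∈ Lv m b, R x y := by
  obtain ⟨b, hb⟩ := exists_bound (fun x : s => mu (fun c => ∃ y ∈ Lv m c, R x y))
  refine ⟨b, fun x hx ⟨y, ⟨c, h₁⟩, h₂⟩ => ?_⟩
  obtain ⟨z, h₃, h₄⟩ := mu_spec (R := fun c => ∃ y ∈ Lv m c, R x y) ⟨c, y, h₁, h₂⟩
  exact ⟨z, Lv_mono (hb ⟨x, hx⟩).le h₃, h₄⟩

theorem inC_ord (a : Ordinal.{u}) : InC m a.toZFSet := by
  induction a using WellFoundedLT.induction with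
  | ind a ih =>
    obtain ⟨b, hb⟩ := boundC (m := m) a.toZFSet Eq
    obtain ⟨X, h₁, h₂⟩ := (QD.ord (m := m) 0).def (l := []) (a := b) (by simp)
    have h₃ : X.IsOrdinal := ZFSet.isOrdinal_iff_forall_mem_isOrdinal.2
      ⟨fun x hx y hy => (h₂ y).2 ⟨(Lv_trans b).mem_trans hy ((h₂ x).1 hx).1,
        ((h₂ x).1 hx).2.mem hy⟩, fun x hx => ((h₂ x).1 hx).2⟩
    rcases ((ZFSet.isOrdinal_toZFSet a).subset_iff_eq_or_mem h₃).1 fun x hx => by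
      obtain ⟨c, hc, rfl⟩ := mem_toZFSet_iff.1 hx
      obtain ⟨_, h, rfl⟩ := hb _ hx ⟨_, ih c hc, rfl⟩
      exact (h₂ _).2 ⟨h, ZFSet.isOrdinal_toZFSet c⟩ with e | e
    exacts [⟨_, e ▸ h₁⟩, (trP_C m).tr ⟨_, h₁⟩ e]

/-- Amenable subclasses. -/
def AmC (m : Mach.{u}) (R : Unit → Subtype (InC m) → Prop) : Prop :=
  ∀ a, ∃ X, InC m X ∧ ∀ x : Subtype (InC m), x.1 ∈ Lv m a → (x.1 ∈ X ↔ R () x)

theorem QD.am {Ψ : (ℕ → ZFSet.{u}) → Prop} (h : QD m fun _ => Ψ) {l : List ZFSet.{u}}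
    (hl : ∀ y ∈ l, InC m y) : AmC m (fun _ x => Ψ (env x.1 (x.1 :: l))) := fun a =>
  let ⟨_, X, h₁, _, h₂, h₃⟩ := h.inC hl a
  ⟨X, h₂, fun x hx => (h₃ x).trans (and_iff_right (Lv_mono h₁ hx))⟩

theorem AmC.exact {R : Unit → Subtype (InC m) → Prop} (h : AmC m R) (a : Ordinal.{u}) :
    ∃ X, InC m X ∧ ∀ x : Subtype (InC m), x.1 ∈ X ↔ x.1 ∈ Lv m a ∧ R () x := by
  obtain ⟨X, h₁, h₂⟩ := h a
  obtain ⟨b, Y, h₃, -, h₄, h₅⟩ := ((QD.mem 0 1).and (QD.mem 0 2)).inC (m := m) (l := [Lv m a, X])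
    (by simp [h₁, inC_Lv]) a
  exact ⟨Y, h₄, fun x => (h₅ x).trans ((and_iff_right_of_imp fun h => Lv_mono h₃ h.1).trans
    (and_congr_right (h₂ x)))⟩

theorem AmC.img {R : Unit → Subtype (InC m) → Prop} (h : AmC m R)
    {Ψ : ZFSet.{u} → ZFSet.{u} → Prop} (hΨ : QD m fun _ w => Ψ (w 1) (w 0)) :
    AmC m (fun _ x => ∃ z, R () z ∧ Ψ x.1 z.1) := fun a => by
  obtain ⟨b, hb⟩ := boundC (m := m) (Lv m a) (fun x z => ∃ h, R () ⟨z, h⟩ ∧ Ψ x z)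
  obtain ⟨X, h₁, h₂⟩ := h.exact b
  obtain ⟨Y, h₃, h₄⟩ := ((QD.ex (Θ := fun _ w z => z ∈ w 1 ∧ Ψ (w 0) z)
    ((QD.mem 0 2).and hΨ)).congr (Ψ := fun _ w => ∃ z ∈ w 1, Ψ (w 0) z) fun A hA w hw =>
      exists_congr fun z => and_iff_right_of_imp fun h => hA.mem_trans h.1 (hw 1)).am
    (l := [X]) (by simpa using h₁) a
  refine ⟨Y, h₃, fun x hx => (h₄ x hx).trans ⟨fun ⟨z, h₅, h₆⟩ => ?_, fun ⟨z, h₅, h₆⟩ => ?_⟩⟩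
  · exact ⟨⟨z, (trP_C m).tr h₁ h₅⟩, ((h₂ ⟨z, _⟩).1 h₅).2, h₆⟩
  · obtain ⟨y, h₇, h₈, h₉, h₀⟩ := hb _ hx ⟨z, z.2, z.2, h₅, h₆⟩
    exact ⟨y, (h₂ ⟨y, h₈⟩).2 ⟨h₇, h₉⟩, h₀⟩

theorem AmC.congr {R S : Unit → Subtype (InC m) → Prop} (h : AmC m R)
    (e : ∀ x, R () x ↔ S () x) : AmC m S := fun a =>
  let ⟨X, h₁, h₂⟩ := h a; ⟨X, h₁, fun x hx => (h₂ x hx).trans (e x)⟩

theorem InC.left {x y : ZFSet.{u}} (h : InC m (ZFSet.pair x y)) : InC m x :=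
  let ⟨a, h⟩ := h; ⟨a, left_mem_pair (Lv_trans a) h⟩

theorem InC.right {x y : ZFSet.{u}} (h : InC m (ZFSet.pair x y)) : InC m y :=
  let ⟨a, h⟩ := h; ⟨a, right_mem_pair (Lv_trans a) h⟩

theorem lp {A x y z : ZFSet.{u}} (h : A.IsTransitive) (hz : z ∈ A) (e : z = ZFSet.pair x y) :
    x ∈ A := left_mem_pair h (e ▸ hz)

theorem rp {A x y z : ZFSet.{u}} (h : A.IsTransitive) (hz : z ∈ A) (e : z = ZFSet.pair x y) :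
    y ∈ A := right_mem_pair h (e ▸ hz)

theorem QD.exl {Θ : (ℕ → ZFSet.{u}) → ZFSet.{u} → Prop}
    (h : QD m (fun _ w => Θ (fun k => w (k + 1)) (w 0)))
    (e : ∀ A : ZFSet.{u}, A.IsTransitive → ∀ w, (∀ k, w k ∈ A) → ∀ x, Θ w x → x ∈ A) :
    QD m (fun _ w => ∃ x, Θ w x) :=
  (QD.ex (Θ := fun _ => Θ) h).congr fun A hA w hw =>
    exists_congr fun x => and_iff_right_of_imp (e A hA w hw x)

/-- The union of the hierarchy as a first order calculus. -/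
noncomputable def CC (m : Mach.{u}) : FO.{u, u + 1} Unit (Subtype (InC m)) where
  pr := fun a b => ⟨ZFSet.pair a.1 b.1, (trP_C m).pair a.2 b.2⟩
  pr_inj := fun e => by
    have := ZFSet.pair_inj.1 (congrArg Subtype.val e)
    exact ⟨Subtype.ext this.1, Subtype.ext this.2⟩
  o := fun a => ⟨a.toZFSet, inC_ord a⟩
  o_inj := fun _ _ e => toZFSet_injective (congrArg Subtype.val e)
  Am := AmC m
  nand := fun hR hS a => by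
    obtain ⟨X, h₁, h₂⟩ := hR a
    obtain ⟨Y, h₃, h₄⟩ := hS a
    obtain ⟨Z, h₅, h₆⟩ := ((QD.mem 0 1).and (QD.mem 0 2)).not.am (m := m) (l := [X, Y])
      (by simp [h₁, h₃]) a
    exact ⟨Z, h₅, fun x hx => (h₆ x hx).trans (not_congr (and_congr (h₂ x hx) (h₄ x hx)))⟩
  ex := fun hR => (hR.img (Ψ := fun x z => ∃ y, z = ZFSet.pair x y) (QD.exl (QD.pair 1 2 0)
    fun _ hA _ hw _ e => rp hA (hw 0) e)).congr fun _ =>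
      ⟨fun ⟨⟨_, h⟩, h₁, y, e⟩ => by subst e; exact ⟨⟨y, h.right⟩, h₁⟩,
        fun ⟨_, h⟩ => ⟨_, h, _, rfl⟩⟩
  fstR := fun hR => (hR.img (Ψ := fun z x => ∃ y, z = ZFSet.pair x y) (QD.exl (QD.pair 2 1 0)
    fun _ hA _ hw _ e => rp hA (hw 1) e)).congr fun ⟨_, h⟩ =>
      ⟨fun ⟨x, h₁, y, e⟩ => by subst e; exact ⟨x, ⟨y, h.right⟩, rfl, h₁⟩,
        fun ⟨x, y, e, h⟩ => ⟨x, h, y, congrArg Subtype.val e⟩⟩
  swR := fun hR => (hR.img (Ψ := fun z s => ∃ x y, z = ZFSet.pair x y ∧ s = ZFSet.pair y x)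
    (QD.exl (QD.exl ((QD.pair 3 1 0).and (QD.pair 2 0 1))
      fun _ hA _ hw _ e => rp hA (hw 2) e.1)
      fun _ hA _ hw _ ⟨_, e⟩ => lp hA (hw 1) e.1)).congr fun ⟨_, h⟩ =>
      ⟨fun ⟨⟨_, _⟩, h₁, x, y, e, e'⟩ => by
        subst e e'; exact ⟨⟨x, h.left⟩, ⟨y, h.right⟩, rfl, h₁⟩,
        fun ⟨x, y, e, h⟩ => ⟨_, h, x, y, congrArg Subtype.val e, rfl⟩⟩
  aR := fun hR => (hR.img (Ψ := fun z s => ∃ p t x y, z = ZFSet.pair p t ∧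
      p = ZFSet.pair x y ∧ s = ZFSet.pair x t)
    (QD.exl (QD.exl (QD.exl (QD.exl ((QD.pair 5 3 2).and ((QD.pair 3 1 0).and (QD.pair 4 1 2)))
      fun _ hA _ hw _ e => rp hA (hw 2) e.2.1)
      fun _ hA _ hw _ ⟨_, e⟩ => lp hA (hw 1) e.2.1)
      fun _ hA _ hw _ ⟨_, _, e⟩ => rp hA (hw 2) e.1)
      fun _ hA _ hw _ ⟨_, _, _, e⟩ => lp hA (hw 1) e.1)).congr fun ⟨_, h⟩ =>
      ⟨fun ⟨⟨_, _⟩, h₁, _, t, x, y, e, e₁, e₂⟩ => by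
        subst e e₁ e₂; exact ⟨⟨x, h.left.left⟩, ⟨y, h.left.right⟩, ⟨t, h.right⟩, rfl, h₁⟩,
        fun ⟨x, y, t, e, h⟩ => ⟨_, h, _, t, x, y, congrArg Subtype.val e, rfl, rfl⟩⟩
  bR := fun hR => (hR.img (Ψ := fun z s => ∃ p t x y, z = ZFSet.pair p t ∧
      p = ZFSet.pair x y ∧ s = ZFSet.pair y t)
    (QD.exl (QD.exl (QD.exl (QD.exl ((QD.pair 5 3 2).and ((QD.pair 3 1 0).and (QD.pair 4 0 2)))
      fun _ hA _ hw _ e => rp hA (hw 2) e.2.1)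
      fun _ hA _ hw _ ⟨_, e⟩ => lp hA (hw 1) e.2.1)
      fun _ hA _ hw _ ⟨_, _, e⟩ => rp hA (hw 2) e.1)
      fun _ hA _ hw _ ⟨_, _, _, e⟩ => lp hA (hw 1) e.1)).congr fun ⟨_, h⟩ =>
      ⟨fun ⟨⟨_, _⟩, h₁, _, t, x, y, e, e₁, e₂⟩ => by
        subst e e₁ e₂; exact ⟨⟨x, h.left.left⟩, ⟨y, h.left.right⟩, ⟨t, h.right⟩, rfl, h₁⟩,
        fun ⟨x, y, t, e, h⟩ => ⟨_, h, _, t, x, y, congrArg Subtype.val e, rfl, rfl⟩⟩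
  eq := ((QD.exl (Θ := fun w x => w 0 = ZFSet.pair x x) (QD.pair 1 0 0)
    fun _ hA _ hw _ e => lp hA (hw 0) e).am (l := []) (by simp)).congr fun ⟨_, h⟩ =>
      ⟨fun ⟨x, e⟩ => by subst e; exact ⟨⟨x, h.left⟩, rfl⟩,
        fun ⟨x, e⟩ => ⟨x, congrArg Subtype.val e⟩⟩
  lt := ((QD.exl (Θ := fun w x => ∃ y, w 0 = ZFSet.pair x y ∧ y.IsOrdinal ∧ x ∈ y)
    (QD.exl ((QD.pair 2 1 0).and ((QD.ord 0).and (QD.mem 1 0)))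
      fun _ hA _ hw _ e => rp hA (hw 1) e.1)
      fun _ hA _ hw _ ⟨_, e⟩ => lp hA (hw 0) e.1).am (l := [])
        (by simp)).congr fun ⟨_, h⟩ => by
      constructor
      · rintro ⟨x, y, rfl, h₁, h₂⟩
        obtain ⟨b, rfl⟩ := ZFSet.isOrdinal_iff_mem_range_toZFSet.1 h₁
        obtain ⟨a, h₃, rfl⟩ := mem_toZFSet_iff.1 h₂
        exact ⟨a, b, rfl, h₃⟩
      · exact fun ⟨a, b, e, h⟩ => ⟨_, _, congrArg Subtype.val e, ZFSet.isOrdinal_toZFSet b,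
          toZFSet_mem_toZFSet_iff.2 h⟩

theorem CC_am {R : Unit → Subtype (InC m) → Prop} : (CC m).Am R ↔ AmC m R := Iff.rfl

instance : Full (CC m) := ⟨fun c => CC_am.2 <|
  ((QD.eq 0 1).am (l := [c.1]) (by simpa using c.2)).congr
  fun _ => Subtype.ext_iff.symm⟩

instance : HasSep (CC m) where
  mem := fun _ s x => x.1 ∈ s.1
  mem_am := CC_am.2 <| ((QD.exl (Θ := fun w s => ∃ x, w 0 = ZFSet.pair s x ∧ x ∈ s)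
    (QD.exl ((QD.pair 2 1 0).and (QD.mem 0 1))
      fun _ hA _ hw _ e => rp hA (hw 1) e.1)
      fun _ hA _ hw _ ⟨_, e⟩ => lp hA (hw 0) e.1).am (l := [])
        (by simp)).congr fun ⟨_, h⟩ =>
      ⟨fun ⟨s, x, e, h₁⟩ => by subst e; exact ⟨⟨s, h.left⟩, ⟨x, h.right⟩, rfl, h₁⟩,
        fun ⟨s, x, e, h⟩ => ⟨s, x, congrArg Subtype.val e, h⟩⟩
  sep := fun R hR i v a => by
    obtain ⟨b, hb⟩ := boundC (m := m) (ZFSet.prod a.toZFSet a.toZFSet) Eq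
    obtain ⟨X, h₁, h₂⟩ := Am.param (𝒜 := CC m) hR v b
    refine ⟨⟨X, h₁⟩, fun x hx y hy => h₂ _ ?_⟩
    obtain ⟨_, h, rfl⟩ := hb _ (ZFSet.pair_mem_prod.2 ⟨toZFSet_mem_toZFSet_iff.2 hx,
      toZFSet_mem_toZFSet_iff.2 hy⟩) ⟨_, (trP_C m).pair (inC_ord x) (inC_ord y), rfl⟩
    exact h

end Pool.Agent.MP_9a6faa_lc
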