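import Pool.Agent.MP_9a6faa_lc.CMeas

namespace Pool.Agent.MP_9a6faa_lc

open Set Order FO

universe u

/-- Codes of parameter-free definitions. -/
inductive Cx : Type
  | nand (a b : Cx) : Cx
  | ex (a : Cx) : Cx
  | c4 (a : Cx) : Cx
  | c5 (a : Cx) : Cx
  | c6 (a : Cx) : Cx
  | c7 (a : Cx) : Cx
  | qq (a : Cx) : Cx
  | lt : Cx
  | pp : Cx
  | kk : Cx
  deriving Countable

def Cx.ev (m : Mach.{u}) : Cx → Ordinal.{u} → Prop
  | .nand a b, x => ¬ (a.ev m x ∧ b.ev m x)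
  | .ex a, x => ∃ y, a.ev m (G x y)
  | .c4 a, x => a.ev m (fst x)
  | .c5 a, x => a.ev m (G (snd x) (fst x))
  | .c6 a, x => a.ev m (G (fst (fst x)) (snd x))
  | .c7 a, x => a.ev m (G (snd (fst x)) (snd x))
  | .qq a, x => m.Q (fun y => a.ev m (G x y))
  | .lt, x => fst x < snd x
  | .pp, x => P m (fst x) (snd x)
  | .kk, x => x = m.κ

/-- Classes definable without parameters. -/
def AmF (m : Mach.{u}) (R : Unit → Ordinal.{u} → Prop) : Prop := ∃ c : Cx, R = fun _ => c.ev m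

theorem ordCl_F (m : Mach.{u}) : OrdCl (AmF m) where
  nand := by rintro _ _ ⟨a, rfl⟩ ⟨b, rfl⟩; exact ⟨.nand a b, rfl⟩
  ex := by rintro _ ⟨a, rfl⟩; exact ⟨.ex a, rfl⟩
  c4 := by rintro _ ⟨a, rfl⟩; exact ⟨.c4 a, rfl⟩
  c5 := by rintro _ ⟨a, rfl⟩; exact ⟨.c5 a, rfl⟩
  c6 := by rintro _ ⟨a, rfl⟩; exact ⟨.c6 a, rfl⟩
  c7 := by rintro _ ⟨a, rfl⟩; exact ⟨.c7 a, rfl⟩
  lt := ⟨.lt, rfl⟩

noncomputable def FF (m : Mach.{u}) : FO.{u, u + 1} Unit Ordinal.{u} := (ordCl_F m).fo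

variable {m : Mach.{u}}

theorem Cx.amS (c : Cx) : AmS m (fun _ => c.ev m) := by
  induction c with
  | nand a b ih₁ ih₂ => exact (ordCl_S m).nand ih₁ ih₂
  | ex a ih => exact (ordCl_S m).ex ih
  | c4 a ih => exact (ordCl_S m).c4 ih
  | c5 a ih => exact (ordCl_S m).c5 ih
  | c6 a ih => exact (ordCl_S m).c6 ih
  | c7 a ih => exact (ordCl_S m).c7 ih
  | qq a ih => exact amS_Q ih
  | lt => exact (ordCl_S m).lt
  | pp => exact amS_P
  | kk => exact Full.const (𝒜 := SS m) _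

instance : HasSep (FF m) := ⟨fun _ => P m, am_mem (Am := AmF m) ⟨.pp, rfl⟩,
  by rintro _ ⟨c, rfl⟩ _; exact sep_of_amS c.amS⟩

instance : DQ (FF m) (fun _ => m) := ⟨⟨.kk, rfl⟩, by rintro _ ⟨a, rfl⟩; exact ⟨.qq a, rfl⟩⟩

noncomputable instance : Cd (FF m) Mach.{u} := cdW _ fun _ => m

instance : HasQ (FF m) := hasQ_cdW _

instance : Par (FF m) m := par_cdW _

theorem FF_tm {R : Ordinal.{u} → Prop} (h : (FF m).Tm R) : ∃ c : Cx, R = c.ev m :=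
  let ⟨c, e⟩ := (ordCl_F m).tm_iff.1 h; ⟨c, congrFun e ()⟩

theorem Cx.tm (c : Cx) : (FF m).Tm (c.ev m) := (ordCl_F m).tm_iff.2 ⟨c, rfl⟩

theorem FF_SS {R : Ordinal.{u} → Prop} (h : (FF m).Tm R) : (SS m).Tm R :=
  let ⟨c, e⟩ := FF_tm h; e ▸ (ordCl_S m).tm_iff.2 c.amS

theorem par_of {α β : Type*} [Cd (FF m) α] [Cd (FF m) β] {f : α → β} (hf : (FF m).Tm f) (a : α)
    [Par (FF m) a] : Par (FF m) (f a) := ⟨hf.comp (Tm.const a)⟩

instance : Countable {a : Ordinal.{u} // Par (FF m) a} := by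
  refine Set.Countable.to_subtype (s := {a | Par (FF m) a})
    ((Set.countable_range fun c : Cx => mu (c.ev m)).mono fun a (ha : Par _ a) => ?_)
  obtain ⟨c, e⟩ := FF_tm (m := m) (R := fun x => x = a) (by fun_prop)
  exact ⟨c, (congrArg mu e).symm.trans (mu_eq rfl fun _ h => h.ne)⟩

/-- Definable elements form an elementary substructure. -/
theorem wit_par {α : Type*} [Cd (FF m) α] [Pure (FF m) α] {Q : α → Prop} (h : (FF m).Tm Q)
    (e : ∃ y, Q y) : ∃ y, Par (FF m) y ∧ Q y := by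
  have h₁ : (FF m).Tm (fun a : α => (Cd.ι (FF m) a : Ordinal.{u})) :=
    ⟨fun _ _ _ => trivial, (Tm.ι' (𝒜 := FF m) (Γ := α)).2⟩
  obtain ⟨y, h₂, h₃⟩ := mu_spec (R := fun x => ∃ y, Cd.ι (FF m) y = x ∧ Q y)
    (let ⟨y, h⟩ := e; ⟨_, y, rfl, h⟩)
  exact ⟨y, ⟨tm_of_rel (Q := fun _ z => Cd.ι (FF m) z = mu (fun x => ∃ y, Cd.ι (FF m) y = x ∧ Q y))
    (by fun_prop) fun _ z => h₂ ▸ ⟨Cd.inj (Pure.pure z ()) (Pure.pure y ()), congrArg _⟩⟩, h₃⟩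

theorem all_par {α : Type*} [Cd (FF m) α] [Pure (FF m) α] {Q : α → Prop} (h : (FF m).Tm Q)
    (e : ∀ y, Par (FF m) y → Q y) (y : α) : Q y := by
  by_contra h'
  obtain ⟨z, h₁, h₂⟩ := wit_par (m := m) (Q := fun y => ¬ Q y) (by fun_prop) ⟨y, h'⟩
  exact h₂ (e z h₁)

theorem par_list {l : OL.{u}} : Par (FF m) l ↔ ∀ x ∈ l, Par (FF m) x := by
  induction l with
  | nil => exact ⟨by simp, fun _ => inferInstance⟩
  | cons a l ih =>
    rw [List.forall_mem_cons, ← ih]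
    exact ⟨fun _ => ⟨par_of (f := fun l : OL.{u} => l.headD 0) (by fun_prop) (a :: l),
      par_of (f := fun l : OL.{u} => l.tail) (by fun_prop) (a :: l)⟩,
      fun ⟨_, _⟩ => ⟨by fun_prop⟩⟩

end Pool.Agent.MP_9a6faa_lc
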