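import Pool.Agent.MP_9a6faa_lc.Junk

namespace Pool.Agent.MP_9a6faa_lc

open Set Order FO Filter

universe u v w

namespace Meas

variable {μ : Meas.{u}}

theorem cf_j {a : Ordinal.{u}} (h : Reg μ.mach a) (hk : μ.κ < a) :
    Lim (μ.j a) ∧ cf μ.mach (μ.j a) = a := by
  have hl : Lim (μ.j a) :=
    ((lift_j a).los (Φ := Lim) (by fun_prop)).2 (Eventually.of_forall fun _ => h.lim)
  refine ⟨hl, (cf_eq_of_mono (f := μ.j) (by fun_prop) hl (fun _ _ h _ => j_strictMono.monotone h)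
    (fun _ h => j_strictMono h) fun y hy => ?_).symm.trans h.cf_eq⟩
  obtain ⟨e, he, rfl⟩ := rk_surj (μ := μ) y
  have h₁ := (rk_lt_iff he (Fn.const _)).1 hy
  obtain ⟨L, h₂, F, h₃, h₄⟩ := id he
  obtain ⟨b, h₅, h₆⟩ := h.bdd (f := fun z => F (decL z)) (by fun_prop) hk
  refine ⟨b, h₅, (rk_lt he (Fn.const b) ((h₁.and (ae_encL L)).mono fun x hx => ?_)).le⟩
  simpa [h₄] using h₆ _ hx.2 (by simpa [h₄] using hx.1)

theorem not_dt {e f : Asg.{u} → Ordinal.{u}} (he : μ.El e) (hf : μ.El f)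
    (h₁ : ∀ᶠ x in μ.AE, e x < th μ.mach) (h₂ : ∀ᶠ x in μ.AE, f x = sa μ.mach (e x))
    (h₃ : ∀ z < th μ.mach, μ.rk e ≠ μ.j z) : ¬ Dt μ.mach (μ.rk f) := by
  obtain ⟨s, h₄, h₅⟩ := wellFounded_lt.has_min {s | s ≤ th μ.mach ∧ ∀ᶠ x in μ.AE, e x < s}
    ⟨_, le_rfl, h₁⟩
  have h₆ : ∀ z < s, ∀ᶠ x in μ.AE, z < e x := fun z hz => by
    rcases ae_tri he (Fn.const z) with h | h | h
    exacts [absurd hz (h₅ z ⟨hz.le.trans h₄.1, h⟩),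
      absurd (rk_congr he (Fn.const z) h) (h₃ z (hz.trans_le h₄.1)), h]
  have hl : Lim s := ⟨let ⟨_, h⟩ := h₄.2.exists; zero_le.trans_lt h, fun z hz =>
    let ⟨_, h⟩ := ((h₆ z hz).and h₄.2).exists; (add_one_le_iff.2 h.1).trans_lt h.2⟩
  obtain ⟨g₁, g₂, g₃⟩ := se_spec μ.mach s
  have up : cf μ.mach (μ.rk f) ≤ cb μ.mach (se μ.mach s) := by
    refine cf_le (f := μ.rkc) (by fun_prop) fun y hy => ?_
    obtain ⟨g, hg, rfl⟩ := rk_surj (μ := μ) y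
    obtain ⟨z, h₇, h₈⟩ := Fn.code hg le_rfl g₁ (κ_lt_th.trans g₂).le
      ((((rk_lt_iff hg hf).1 hy).and (h₂.and h₄.2)).mono fun x h =>
        h.1.trans (h.2.1 ▸ g₃ _ h.2.2)) (gcl_cb _)
      ((mu_le fun n => g₃ _ (hl.nat n)).trans (lt_cb _).le) le_rfl
    exact ⟨z, h₇, h₈.ge, h₈ ▸ hy⟩
  have low : ∀ z < s, sa μ.mach z < cf μ.mach (μ.rk f) := fun z hz => not_le.1 fun h => by
    obtain ⟨c, hc⟩ := cf_spec μ.mach (μ.rk f)
    obtain ⟨F, hF, eF⟩ : ∃ F : Ordinal.{u} → Ordinal.{u}, (SS μ.mach).Tm F ∧ ∀ i w,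
        F (G i w) = ap μ.mach (snd (μ.rep (ap μ.mach c i))) w :=
      ⟨fun t => ap μ.mach (snd (μ.rep (ap μ.mach c (fst t)))) (snd t), by fun_prop, by simp⟩
    have key : ∀ w, z < w → _ := fun w hw => mu_lt ((reg_sa w).bdd hF
      ((sb_lt_sa (m := μ.mach) (z + 1)).trans_le (sa_strictMono.monotone (add_one_le_iff.2 hw))))
    have hg := he.comp (f := fun w => mu (fun b => ∀ i < sb μ.mach (z + 1),
      F i < sa μ.mach w → F i < b)) (by fun_prop)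
    obtain ⟨i, h₇, h₈, h₉⟩ := hc _ (rk_lt hg hf (((h₆ z hz).and h₂).mono fun x h =>
      h.2 ▸ (key _ h.1).1))
    obtain ⟨r₁, r₂⟩ := rep_spec (μ := μ) (ap μ.mach c i)
    rw [← r₂] at h₈ h₉
    refine (rk_lt r₁.el hg ((((rk_lt_iff r₁.el hf).1 h₉).and ((h₆ z hz).and (h₂.and
      (ae_encL (decL (fst (μ.rep (ap μ.mach c i)))))))).mono fun x h => ?_)).not_ge h₈
    have := (key _ h.2.1).2 _ ((reg_sb (z + 1)).gcl.G
      ((h₇.trans_le ‹_›).trans (sa_lt_sb (lt_add_one z)))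
      (h.2.2.2.trans (κ_lt_th.trans (th_lt_sb _))))
    rw [eF] at this
    exact this (h.2.2.1 ▸ h.1)
  rintro ⟨-, h | ⟨z, -, h⟩⟩
  · exact ((th_lt_sa 0).trans (low 0 hl.1)).not_ge h
  · rcases lt_or_ge z s with h' | h'
    · exact (low z h').ne' h
    · exact (up.trans_lt (((lt_sc _).trans (sb_lt_sa s)).trans_le
        (sa_strictMono.monotone h'))).ne h

/-- The cofinality pattern decodes the range of the embedding. -/
theorem decode {d : Ordinal.{u}} (hd : ∀ z < th μ.mach, ap μ.mach d z = sa μ.mach z)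
    {y : Ordinal.{u}} (hy : y < μ.j (th μ.mach)) :
    Dt μ.mach (ap μ.mach.it (μ.j d) y) ↔ ∃ z < th μ.mach, y = μ.j z := by
  constructor
  · obtain ⟨e, he, rfl⟩ := rk_surj (μ := μ) y
    have h₁ := (rk_lt_iff he (Fn.const _)).1 hy
    refine not_imp_not.1 fun h => rk_ap d he ▸ not_dt he (he.comp (by fun_prop)) h₁
      (h₁.mono fun x => hd _) fun z hz e => h ⟨z, hz, e⟩
  · rintro ⟨z, hz, rfl⟩
    have := cf_j (reg_sa (m := μ.mach) z) (κ_lt_th.trans (th_lt_sa z))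
    rw [j, j, ← j, ← rk_ap d (Fn.const z), hd z hz]
    exact ⟨this.1, Or.inr ⟨z, hz, this.2⟩⟩

/-- The measure is definable from the cofinality pattern. -/
theorem meas_def {V : Type v} {𝒞 : FO.{u, v} Unit V} [Full 𝒞] [HasSep 𝒞]
    (hD : 𝒞.Tm (Dt μ.mach))
    (hS : ∀ s : 𝒞.Ob, (SS μ.mach).Tm (fun z : Ordinal.{u} × Ordinal.{u} => Mem2 ⟨()⟩ s z.1 z.2)) :
    ∃ (T : Ordinal.{u} → Prop) (R : Ordinal.{u} × Ordinal.{u} → Prop), 𝒞.Tm T ∧ 𝒞.Tm R ∧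
      ∀ X : Ordinal.{u} → Prop, (SS μ.mach).Tm X →
        ((∀ᶠ x in (μ.U : Filter Ordinal.{u}), X x) ↔ ∃ y, T y ∧ ∀ x < μ.κ, (X x ↔ R (y, x))) := by
  obtain ⟨d, hd⟩ := code_fun (m := μ.mach) (f := sa μ.mach) (by fun_prop) (th μ.mach)
  obtain ⟨R, hR, e⟩ : ∃ R : Ordinal.{u} × Ordinal.{u} → Prop, 𝒞.Tm R ∧
    ∀ a b, R (a, b) = P μ.mach.it a b := ⟨_, tm_P_it hD hS, fun _ _ => rfl⟩
  obtain ⟨D, hD', e'⟩ : ∃ D : Ordinal.{u} → Prop, 𝒞.Tm D ∧ D = Dt μ.mach := ⟨_, hD, rfl⟩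
  refine ⟨fun y => y < μ.j (th μ.mach) ∧ D (mu (fun v => R (μ.j d, G y v))) ∧ R (y, μ.κ), R,
    by fun_prop, hR, fun X hX => ?_⟩
  simp only [e, e']
  constructor
  · intro h
    obtain ⟨c, h₁, h₂⟩ := code_set_cb hX μ.κ
    exact ⟨μ.j c, ⟨j_strictMono h₁, (decode hd (j_strictMono h₁)).2 ⟨c, h₁, rfl⟩,
      P_j_κ.2 ((h.and μ.hκ).mono fun x hx => (h₂ x hx.2).2 hx.1)⟩,
      fun x hx => ((P_j_small hx).trans (h₂ x hx)).symm⟩
  · rintro ⟨y, ⟨h₁, h₂, h₃⟩, h₄⟩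
    obtain ⟨c, -, rfl⟩ := (decode hd h₁).1 h₂
    exact ((P_j_κ.1 h₃).and μ.hκ).mono fun x hx => (h₄ x hx.2).2 ((P_j_small hx.2).2 hx.1)

end Meas

end Pool.Agent.MP_9a6faa_lc
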