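import Mathlib

namespace Pool.Agent.MP_9a6faa_lc

open FirstOrder

universe u

variable {M : Type u} (E : M → M → Prop)

/-- The structure for the language with one binary relation symbol, interpreted by `E`. -/
def memStr : Language.graph.Structure M where
  funMap := fun f => Empty.elim f
  RelMap := fun r x => match r with | .adj => E (x 0) (x 1)

/-- `(M, E)` is a model of ZFC. -/
structure IsZFC : Prop where
  ext : ∀ a b, (∀ x, E x a ↔ E x b) → a = b
  found : ∀ a, (∃ x, E x a) → ∃ x, E x a ∧ ¬ ∃ y, E y x ∧ E y a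
  pair : ∀ a b, ∃ c, ∀ x, E x c ↔ x = a ∨ x = b
  union : ∀ a, ∃ c, ∀ x, E x c ↔ ∃ y, E x y ∧ E y a
  power : ∀ a, ∃ c, ∀ x, E x c ↔ ∀ y, E y x → E y a
  inf : ∃ w, (∃ e, E e w ∧ ∀ y, ¬ E y e) ∧
    ∀ x, E x w → ∃ s, E s w ∧ ∀ y, E y s ↔ E y x ∨ y = x
  sep : ∀ S : Set M, @Set.Definable₁ M Set.univ Language.graph (memStr E) S →
    ∀ a, ∃ b, ∀ x, E x b ↔ E x a ∧ x ∈ S
  repl : ∀ R : Set (M × M), @Set.Definable₂ M Set.univ Language.graph (memStr E) R →
    ∀ a, (∀ x, E x a → ∃! y, (x, y) ∈ R) → ∃ b, ∀ y, E y b ↔ ∃ x, E x a ∧ (x, y) ∈ R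
  choice : ∀ a, (∀ x, E x a → ∃ y, E y x) →
    (∀ x y, E x a → E y a → (∃ z, E z x ∧ E z y) → x = y) →
    ∃ c, ∀ x, E x a → ∃! y, E y x ∧ E y c

/-- `p` is the Kuratowski pair of `a` and `b`. -/
def IsPair (p a b : M) : Prop :=
  ∀ z, E z p ↔ (∀ x, E x z ↔ x = a) ∨ (∀ x, E x z ↔ x = a ∨ x = b)

/-- The pair `(a, b)` belongs to `f`. -/
def App (f a b : M) : Prop := ∃ p, E p f ∧ IsPair E p a b

/-- `f` is a function from `X` to `Y`. -/
def IsFun (f X Y : M) : Prop :=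
  (∀ p, E p f → ∃ a b, E a X ∧ E b Y ∧ IsPair E p a b) ∧ ∀ a, E a X → ∃! b, App E f a b

/-- `a` is a von Neumann ordinal. -/
def IsOrd (a : M) : Prop :=
  (∀ x y, E x a → E y x → E y a) ∧ ∀ x y, E x a → E y a → E x y ∨ x = y ∨ E y x

/-- `w` is the first infinite ordinal: a nonzero limit ordinal all of whose nonzero members have a
largest member. -/
def IsOmega (w : M) : Prop :=
  IsOrd E w ∧ (∃ x, E x w) ∧ (∀ x, E x w → ∃ y, E y w ∧ E x y) ∧
    ∀ x, E x w → (∃ y, E y x) → ∃ y, E y x ∧ ∀ z, E z x → ¬ E y z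

/-- `k` is measurable: an ordinal above `ω` carrying a `k`-complete nonprincipal ultrafilter. -/
def IsMeas (k : M) : Prop :=
  IsOrd E k ∧ (∃ w, IsOmega E w ∧ E w k) ∧ ∃ F,
    (∀ A, E A F → ∀ x, E x A → E x k) ∧
    (∀ A B, E A F → (∀ x, E x A → E x B) → (∀ x, E x B → E x k) → E B F) ∧
    (∀ A B, E A F → E B F → ∃ C, E C F ∧ ∀ x, E x C ↔ E x A ∧ E x B) ∧
    (∀ A, (∀ x, E x A → E x k) → E A F ∨ ∃ B, E B F ∧ ∀ x, E x B ↔ E x k ∧ ¬ E x A) ∧
    (∀ A x, E A F → ∃ y, E y A ∧ y ≠ x) ∧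
    ∀ a f, E a k → IsFun E f a F → ∃ B, E B F ∧ ∀ x, E x B ↔ E x k ∧ ∀ i A, App E f i A → E x A

/-- The field of a relation. -/
def Fld (R : M → M → Prop) (x : M) : Prop := ∃ y, R x y ∨ R y x

/-- `R` is a strict linear order of its field. -/
def IsLin (R : M → M → Prop) : Prop :=
  (∀ x, ¬ R x x) ∧ (∀ x y z, R x y → R y z → R x z) ∧
    ∀ x y, Fld R x → Fld R y → R x y ∨ x = y ∨ R y x

/-- `R` is a linear order of its field that has cofinality `ω` in the model. -/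
def CofOm (R : M → M → Prop) : Prop :=
  IsLin R ∧ ∃ w f Y, IsOmega E w ∧ IsFun E f w Y ∧ (∀ n y, App E f n y → Fld R y) ∧
    ∀ x, Fld R x → ∃ n y, App E f n y ∧ R x y

/-- Formulas with a quantifier binding two variables (de Bruijn indices). -/
inductive QF : Type
  | mem (i j : ℕ) : QF
  | eq (i j : ℕ) : QF
  | bot : QF
  | imp (φ ψ : QF) : QF
  | all (φ : QF) : QF
  | cof (φ : QF) : QF

/-- Satisfaction in `(A, E)`, the extra quantifier being interpreted by `C`; the list gives the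
values of the variables and `d` is the value of the remaining ones. -/
def SatQ (C : (M → M → Prop) → Prop) (A : Set M) (d : M) : QF → List M → Prop
  | .mem i j, l => E (l.getD i d) (l.getD j d)
  | .eq i j, l => l.getD i d = l.getD j d
  | .bot, _ => False
  | .imp φ ψ, l => SatQ C A d φ l → SatQ C A d ψ l
  | .all φ, l => ∀ x ∈ A, SatQ C A d φ (x :: l)
  | .cof φ, l => C (fun x y => x ∈ A ∧ y ∈ A ∧ SatQ C A d φ (x :: y :: l))

/-- `X` is the subset of `A` defined by `φ` with parameters `l`. -/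
def Defines (C : (M → M → Prop) → Prop) (A : Set M) (φ : QF) (l : List M) (X : M) : Prop :=
  ∀ x, E x X ↔ x ∈ A ∧ SatQ E C A x φ (x :: l)

/-- `L` is the constructible hierarchy of the logic, along the ordinals of the model. -/
def IsHier (C : (M → M → Prop) → Prop) (L : M → Set M) : Prop :=
  ∀ a, IsOrd E a →
    (∀ φ l, (∀ b ∈ l, b ∈ L a) → ∃ X, Defines E C (L a) φ l X) ∧
    ((∀ x, ¬ E x a) → L a = ∅) ∧
    (∀ s, (∀ x, E x s ↔ E x a ∨ x = a) →
      L s = {X | ∃ φ l, (∀ b ∈ l, b ∈ L a) ∧ Defines E C (L a) φ l X}) ∧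
    ((∃ x, E x a) → (∀ x, E x a → ∃ y, E y a ∧ E x y) → L a = {X | ∃ b, E b a ∧ X ∈ L b})

end Pool.Agent.MP_9a6faa_lc
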