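import Pool.Agent.MP_9a6faa_lc.Pair

namespace Pool.Agent.MP_9a6faa_lc

open Set Order

universe u v w

/-- A family of world-indexed predicates closed under first order operations. -/
structure FO (I : Type) (V : Type v) where
  pr : V → V → V
  pr_inj : ∀ {a b c d}, pr a b = pr c d → a = c ∧ b = d
  o : Ordinal.{u} → V
  o_inj : Function.Injective o
  Am : (I → V → Prop) → Prop
  nand : ∀ {R S}, Am R → Am S → Am (fun i x => ¬ (R i x ∧ S i x))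
  ex : ∀ {R}, Am R → Am (fun i x => ∃ y, R i (pr x y))
  fstR : ∀ {R}, Am R → Am (fun i z => ∃ x y, z = pr x y ∧ R i x)
  swR : ∀ {R}, Am R → Am (fun i z => ∃ x y, z = pr x y ∧ R i (pr y x))
  aR : ∀ {R}, Am R → Am (fun i z => ∃ x y t, z = pr (pr x y) t ∧ R i (pr x t))
  bR : ∀ {R}, Am R → Am (fun i z => ∃ x y t, z = pr (pr x y) t ∧ R i (pr y t))
  eq : Am (fun _ z => ∃ x, z = pr x x)
  lt : Am (fun _ z => ∃ a b, z = pr (o a) (o b) ∧ a < b)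

namespace FO

variable {I : Type} {V : Type v} {𝒜 : FO.{u, v} I V}

theorem pr_iff {a b c d : V} : 𝒜.pr a b = 𝒜.pr c d ↔ a = c ∧ b = d :=
  ⟨𝒜.pr_inj, fun h => by rw [h.1, h.2]⟩

theorem Am.congr {R S : I → V → Prop} (h : 𝒜.Am R) (e : ∀ i x, R i x ↔ S i x) : 𝒜.Am S := by
  have : R = S := funext fun i => funext fun x => propext (e i x)
  exact this ▸ h

theorem Am.not {R : I → V → Prop} (h : 𝒜.Am R) : 𝒜.Am (fun i x => ¬ R i x) :=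
  Am.congr (𝒜.nand h h) fun _ _ => by simp

theorem Am.and {R S : I → V → Prop} (h : 𝒜.Am R) (h' : 𝒜.Am S) :
    𝒜.Am (fun i x => R i x ∧ S i x) :=
  Am.congr (Am.not (𝒜.nand h h')) fun _ _ => by simp

theorem sndR {R : I → V → Prop} (h : 𝒜.Am R) :
    𝒜.Am (fun i z => ∃ x y, z = 𝒜.pr x y ∧ R i y) :=
  Am.congr (𝒜.swR (𝒜.fstR h)) fun _ _ => by simp [pr_iff]

theorem cR {R : I → V → Prop} (h : 𝒜.Am R) :
    𝒜.Am (fun i z => ∃ x a b, z = 𝒜.pr x (𝒜.pr a b) ∧ R i (𝒜.pr x a)) :=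
  Am.congr (𝒜.swR (𝒜.aR (𝒜.swR h))) fun i z => by
    constructor
    · rintro ⟨x, y, rfl, a, b, t, e, a', t', e', h⟩
      obtain ⟨rfl, rfl⟩ := pr_iff.1 e
      obtain ⟨rfl, rfl⟩ := pr_iff.1 e'
      exact ⟨_, _, _, rfl, h⟩
    · rintro ⟨x, a, b, rfl, h⟩
      exact ⟨_, _, rfl, _, _, _, rfl, _, _, rfl, h⟩

theorem dR {R : I → V → Prop} (h : 𝒜.Am R) :
    𝒜.Am (fun i z => ∃ x a b, z = 𝒜.pr x (𝒜.pr a b) ∧ R i (𝒜.pr x b)) :=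
  Am.congr (𝒜.swR (𝒜.bR (𝒜.swR h))) fun i z => by
    constructor
    · rintro ⟨x, y, rfl, a, b, t, e, a', t', e', h⟩
      obtain ⟨rfl, rfl⟩ := pr_iff.1 e
      obtain ⟨rfl, rfl⟩ := pr_iff.1 e'
      exact ⟨_, _, _, rfl, h⟩
    · rintro ⟨x, a, b, rfl, h⟩
      exact ⟨_, _, rfl, _, _, _, rfl, _, _, rfl, h⟩

end FO

/-- Coded types. -/
class Cd {I : Type} {V : Type v} (𝒜 : FO.{u, v} I V) (α : Type w) where
  ι : α → V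
  cons : α → I → Prop
  inj : ∀ {a b i}, cons a i → cons b i → ι a = ι b → a = b
  rng : 𝒜.Am (fun i x => ∃ a, cons a i ∧ ι a = x)

/-- Coded types without world component. -/
class Pure {I : Type} {V : Type v} (𝒜 : FO.{u, v} I V) (α : Type w) [Cd 𝒜 α] : Prop where
  pure : ∀ (a : α) i, Cd.cons 𝒜 a i

namespace FO

open Cd

variable {I : Type} {V : Type v} {𝒜 : FO.{u, v} I V}

instance {α β : Type*} [Cd 𝒜 α] [Cd 𝒜 β] : Cd 𝒜 (α × β) where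
  ι := fun z => 𝒜.pr (ι 𝒜 z.1) (ι 𝒜 z.2)
  cons := fun z i => cons 𝒜 z.1 i ∧ cons 𝒜 z.2 i
  inj := fun h h' e => Prod.ext (inj h.1 h'.1 (pr_iff.1 e).1) (inj h.2 h'.2 (pr_iff.1 e).2)
  rng := Am.congr (Am.and (𝒜.fstR (rng (α := α))) (sndR (rng (α := β)))) fun i z => by
    constructor
    · rintro ⟨⟨x, y, rfl, a, ha, rfl⟩, x', y', e, b, hb, rfl⟩
      obtain ⟨rfl, rfl⟩ := pr_iff.1 e
      exact ⟨(a, b), ⟨ha, hb⟩, rfl⟩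
    · rintro ⟨⟨a, b⟩, ⟨ha, hb⟩, rfl⟩
      exact ⟨⟨_, _, rfl, a, ha, rfl⟩, _, _, rfl, b, hb, rfl⟩

instance {α β : Type*} [Cd 𝒜 α] [Cd 𝒜 β] [Pure 𝒜 α] [Pure 𝒜 β] : Pure 𝒜 (α × β) :=
  ⟨fun z i => ⟨Pure.pure z.1 i, Pure.pure z.2 i⟩⟩

theorem ι_prod {α β : Type*} [Cd 𝒜 α] [Cd 𝒜 β] (z : α × β) :
    ι 𝒜 z = 𝒜.pr (ι 𝒜 z.1) (ι 𝒜 z.2) := rfl

theorem cons_prod {α β : Type*} [Cd 𝒜 α] [Cd 𝒜 β] (z : α × β) (i : I) :
    cons 𝒜 z i ↔ cons 𝒜 z.1 i ∧ cons 𝒜 z.2 i := Iff.rfl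

instance : Cd 𝒜 Ordinal.{u} where
  ι := 𝒜.o
  cons := fun _ _ => True
  inj := fun _ _ e => 𝒜.o_inj e
  rng := Am.congr (𝒜.ex 𝒜.lt) fun i x => by
    constructor
    · rintro ⟨y, a, b, e, -⟩
      exact ⟨a, trivial, (pr_iff.1 e).1.symm⟩
    · rintro ⟨a, -, rfl⟩
      exact ⟨_, a, a + 1, rfl, lt_add_one a⟩

instance : Pure 𝒜 Ordinal.{u} := ⟨fun _ _ => trivial⟩

/-- The objects, as a coded type. -/
def Ob (_𝒜 : FO.{u, v} I V) : Type v := V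

instance : Cd 𝒜 𝒜.Ob where
  ι := id
  cons := fun _ _ => True
  inj := fun _ _ e => e
  rng := Am.congr (𝒜.ex 𝒜.eq) fun i x => by
    constructor
    · exact fun _ => ⟨x, trivial, rfl⟩
    · exact fun _ => ⟨x, x, rfl⟩

instance : Pure 𝒜 𝒜.Ob := ⟨fun _ _ => trivial⟩

/-- Definable predicates on a coded type. -/
def Df (𝒜 : FO.{u, v} I V) {α : Type*} [Cd 𝒜 α] (Q : α → Prop) : Prop :=
  𝒜.Am (fun i x => ∃ a, cons 𝒜 a i ∧ ι 𝒜 a = x ∧ Q a)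

/-- Definable functions between coded types. -/
def Tm (𝒜 : FO.{u, v} I V) {α β : Type*} [Cd 𝒜 α] [Cd 𝒜 β] (f : α → β) : Prop :=
  (∀ x i, cons 𝒜 x i → cons 𝒜 (f x) i) ∧ 𝒜.Df (fun z : α × β => z.2 = f z.1)

section Closure

variable {Γ : Type*} {α : Type*} {β : Type*} [Cd 𝒜 Γ] [Cd 𝒜 α] [Cd 𝒜 β]
variable {Q R : Γ → Prop}

theorem ev_iff {x : Γ} {i : I} (h : cons 𝒜 x i) :
    (∃ a, cons 𝒜 a i ∧ ι 𝒜 a = ι 𝒜 x ∧ Q a) ↔ Q x :=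
  ⟨fun ⟨_, ha, e, hq⟩ => inj ha h e ▸ hq, fun hq => ⟨x, h, rfl, hq⟩⟩

theorem Df.mk' {S : I → V → Prop} (h : 𝒜.Am S)
    (e : ∀ i x, cons 𝒜 x i → (S i (ι 𝒜 x) ↔ Q x)) : 𝒜.Df Q :=
  Am.congr (Am.and (rng (α := Γ)) h) fun i x => by
    constructor
    · rintro ⟨⟨a, ha, rfl⟩, h⟩
      exact ⟨a, ha, rfl, (e i a ha).1 h⟩
    · rintro ⟨a, ha, rfl, h⟩
      exact ⟨⟨a, ha, rfl⟩, (e i a ha).2 h⟩

theorem Df.congr (h : 𝒜.Df Q) (e : ∀ x, Q x ↔ R x) : 𝒜.Df R :=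
  Am.congr h fun _ _ => by simp only [e]

theorem Df.not (h : 𝒜.Df Q) : 𝒜.Df (fun x => ¬ Q x) :=
  Df.mk' (Am.not h) fun _ _ hx => not_congr (ev_iff hx)

theorem Df.and (h₁ : 𝒜.Df Q) (h₂ : 𝒜.Df R) : 𝒜.Df (fun x => Q x ∧ R x) :=
  Df.mk' (Am.and h₁ h₂) fun _ _ hx => and_congr (ev_iff hx) (ev_iff hx)

theorem Df.or (h₁ : 𝒜.Df Q) (h₂ : 𝒜.Df R) : 𝒜.Df (fun x => Q x ∨ R x) :=
  (h₁.not.and h₂.not).not.congr fun _ => by tauto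

theorem Df.imp (h₁ : 𝒜.Df Q) (h₂ : 𝒜.Df R) : 𝒜.Df (fun x => Q x → R x) :=
  (h₁.and h₂.not).not.congr fun _ => by tauto

theorem Df.iff (h₁ : 𝒜.Df Q) (h₂ : 𝒜.Df R) : 𝒜.Df (fun x => Q x ↔ R x) :=
  ((h₁.imp h₂).and (h₂.imp h₁)).congr fun _ => by tauto

theorem Df.ex [Pure 𝒜 α] {Q : Γ → α → Prop} (h : 𝒜.Df (fun z : Γ × α => Q z.1 z.2)) :
    𝒜.Df (fun x => ∃ y, Q x y) := by
  refine Df.mk' (𝒜.ex h) fun i x hx => ⟨?_, ?_⟩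
  · rintro ⟨y, ⟨a, b⟩, hc, e, h⟩
    obtain rfl := inj hc.1 hx (pr_iff.1 e).1
    exact ⟨b, h⟩
  · rintro ⟨y, h⟩
    exact ⟨_, (x, y), ⟨hx, Pure.pure _ _⟩, rfl, h⟩

theorem Df.all [Pure 𝒜 α] {Q : Γ → α → Prop} (h : 𝒜.Df (fun z : Γ × α => Q z.1 z.2)) :
    𝒜.Df (fun x => ∀ y, Q x y) :=
  (Df.ex (Q := fun x y => ¬ Q x y) h.not).not.congr fun _ => by simp

theorem Tm.gr {f : α → β} (hf : 𝒜.Tm f) :
    𝒜.Am (fun i z => ∃ x, cons 𝒜 x i ∧ z = 𝒜.pr (ι 𝒜 x) (ι 𝒜 (f x))) :=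
  Am.congr hf.2 fun i z => by
    constructor
    · rintro ⟨⟨a, b⟩, hc, rfl, h⟩
      obtain rfl : b = f a := h
      exact ⟨a, hc.1, rfl⟩
    · rintro ⟨x, hx, rfl⟩
      exact ⟨(x, f x), ⟨hx, hf.1 x i hx⟩, rfl, rfl⟩

theorem Tm.mk' {f : α → β} {S : I → V → Prop} (hc : ∀ x i, cons 𝒜 x i → cons 𝒜 (f x) i)
    (h : 𝒜.Am S) (e : ∀ i x y, cons 𝒜 x i → cons 𝒜 y i →
      (S i (𝒜.pr (ι 𝒜 x) (ι 𝒜 y)) ↔ y = f x)) : 𝒜.Tm f :=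
  ⟨hc, Df.mk' h fun i z hz => e i z.1 z.2 hz.1 hz.2⟩

theorem Df.comp {Q : α → Prop} {f : Γ → α} (h : 𝒜.Df Q) (hf : 𝒜.Tm f) :
    𝒜.Df (fun x => Q (f x)) := by
  refine Df.mk' (𝒜.ex (Am.and hf.gr (sndR h))) fun i x hx => ⟨?_, fun hq => ?_⟩
  · rintro ⟨y, ⟨x', hx', e⟩, s, t, e', a, ha, rfl, hq⟩
    obtain ⟨e₁, rfl⟩ := pr_iff.1 e
    obtain rfl := inj hx hx' e₁
    exact inj ha (hf.1 _ _ hx) (pr_iff.1 e').2.symm ▸ hq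
  · exact ⟨_, ⟨x, hx, rfl⟩, _, _, rfl, f x, hf.1 _ _ hx, rfl, hq⟩

theorem Tm.id : 𝒜.Tm (fun x : Γ => x) :=
  Tm.mk' (fun _ _ h => h) 𝒜.eq fun i x y hx hy => by
    constructor
    · rintro ⟨z, e⟩
      obtain ⟨e₁, e₂⟩ := pr_iff.1 e
      exact inj hy hx (e₂.trans e₁.symm)
    · rintro rfl
      exact ⟨_, rfl⟩

theorem Tm.fst' : 𝒜.Tm (fun z : α × β => z.1) :=
  Tm.mk' (fun _ _ h => h.1) (𝒜.aR 𝒜.eq) fun i x y hx hy => by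
    constructor
    · rintro ⟨a, b, t, e, z, e'⟩
      obtain ⟨e₁, rfl⟩ := pr_iff.1 e
      obtain ⟨rfl, rfl⟩ := pr_iff.1 e₁
      obtain ⟨e₁, e₂⟩ := pr_iff.1 e'
      exact inj hy hx.1 (e₂.trans e₁.symm)
    · rintro rfl
      exact ⟨_, _, _, rfl, _, rfl⟩

theorem Tm.snd' : 𝒜.Tm (fun z : α × β => z.2) :=
  Tm.mk' (fun _ _ h => h.2) (𝒜.bR 𝒜.eq) fun i x y hx hy => by
    constructor
    · rintro ⟨a, b, t, e, z, e'⟩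
      obtain ⟨e₁, rfl⟩ := pr_iff.1 e
      obtain ⟨rfl, rfl⟩ := pr_iff.1 e₁
      obtain ⟨e₁, e₂⟩ := pr_iff.1 e'
      exact inj hy hx.2 (e₂.trans e₁.symm)
    · rintro rfl
      exact ⟨_, _, _, rfl, _, rfl⟩

theorem Tm.comp {h : α → β} {f : Γ → α} (hh : 𝒜.Tm h) (hf : 𝒜.Tm f) :
    𝒜.Tm (fun x => h (f x)) :=
  Tm.mk' (fun x i hx => hh.1 _ _ (hf.1 x i hx))
    (𝒜.ex (Am.and (𝒜.aR hf.gr) (𝒜.bR (𝒜.swR hh.gr)))) fun i x y hx hy => by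
    constructor
    · rintro ⟨t, ⟨a, b, t', e, x', hx', e'⟩, a₂, b₂, t₂, e₂, s, s', e₃, z, hz, e₄⟩
      obtain ⟨e₁, rfl⟩ := pr_iff.1 e
      obtain ⟨rfl, rfl⟩ := pr_iff.1 e₁
      obtain ⟨e₅, rfl⟩ := pr_iff.1 e'
      obtain rfl := inj hx hx' e₅
      obtain ⟨e₆, rfl⟩ := pr_iff.1 e₂
      obtain ⟨rfl, rfl⟩ := pr_iff.1 e₆
      obtain ⟨rfl, rfl⟩ := pr_iff.1 e₃
      obtain ⟨e₇, e₈⟩ := pr_iff.1 e₄
      obtain rfl := inj (hf.1 _ _ hx) hz e₇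
      exact inj hy (hh.1 _ _ hz) e₈
    · rintro rfl
      exact ⟨_, ⟨_, _, _, rfl, x, hx, rfl⟩, _, _, _, rfl, _, _, rfl, f x, hf.1 _ _ hx, rfl⟩

theorem Tm.pair {f : Γ → α} {h : Γ → β} (hf : 𝒜.Tm f) (hh : 𝒜.Tm h) :
    𝒜.Tm (fun x => (f x, h x)) :=
  Tm.mk' (fun x i hx => ⟨hf.1 x i hx, hh.1 x i hx⟩) (Am.and (cR hf.gr) (dR hh.gr))
    fun i x y hx hy => by
    constructor
    · rintro ⟨⟨s, a, b, e, x₁, hx₁, e₁⟩, s', a', b', e', x₂, hx₂, e₂⟩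
      obtain ⟨rfl, e₃⟩ := pr_iff.1 e
      obtain ⟨rfl, rfl⟩ := pr_iff.1 e₃
      obtain ⟨rfl, e₄⟩ := pr_iff.1 e'
      obtain ⟨rfl, rfl⟩ := pr_iff.1 e₄
      obtain ⟨e₅, e₆⟩ := pr_iff.1 e₁
      obtain ⟨e₇, e₈⟩ := pr_iff.1 e₂
      obtain rfl := inj hx hx₁ e₅
      obtain rfl := inj hx hx₂ e₇
      exact Prod.ext (inj hy.1 (hf.1 _ _ hx) e₆) (inj hy.2 (hh.1 _ _ hx) e₈)
    · rintro rfl
      exact ⟨⟨_, _, _, rfl, x, hx, rfl⟩, _, _, _, rfl, x, hx, rfl⟩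

theorem Tm.fst {f : Γ → α × β} (hf : 𝒜.Tm f) : 𝒜.Tm (fun x => (f x).1) := Tm.fst'.comp hf

theorem Tm.snd {f : Γ → α × β} (hf : 𝒜.Tm f) : 𝒜.Tm (fun x => (f x).2) := Tm.snd'.comp hf

/-- The code of an element, as an object. -/
def ob (𝒜 : FO.{u, v} I V) {Γ : Type*} [Cd 𝒜 Γ] (x : Γ) : 𝒜.Ob :=
  @Cd.ι I V 𝒜 Γ _ x

theorem Tm.ι' : 𝒜.Tm (fun x : Γ => 𝒜.ob x) :=
  Tm.mk' (fun _ _ _ => trivial) 𝒜.eq fun i x y _ _ => by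
    constructor
    · rintro ⟨z, e⟩
      obtain ⟨e₁, e₂⟩ := pr_iff.1 e
      exact e₂.trans e₁.symm
    · rintro rfl
      exact ⟨_, rfl⟩

theorem Df.comp₂ {Q : α → β → Prop} {f : Γ → α} {h : Γ → β}
    (H : 𝒜.Df (fun z : α × β => Q z.1 z.2)) (hf : 𝒜.Tm f) (hh : 𝒜.Tm h) :
    𝒜.Df (fun x => Q (f x) (h x)) := H.comp (hf.pair hh)

theorem Df.eq {f h : Γ → α} (hf : 𝒜.Tm f) (hh : 𝒜.Tm h) : 𝒜.Df (fun x => f x = h x) :=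
  Df.comp₂ (Q := fun a b => a = b) ((Tm.id (Γ := α)).2.congr fun _ => eq_comm) hf hh

theorem Df.lt {f h : Γ → Ordinal.{u}} (hf : 𝒜.Tm f) (hh : 𝒜.Tm h) :
    𝒜.Df (fun x => f x < h x) := by
  refine Df.comp₂ (Q := fun a b => a < b) (Df.mk' 𝒜.lt fun i z _ => ⟨?_, fun h => ?_⟩) hf hh
  · rintro ⟨a, b, e, h⟩
    obtain ⟨e₁, e₂⟩ := pr_iff.1 e
    rw [𝒜.o_inj e₁, 𝒜.o_inj e₂]; exact h
  · exact ⟨_, _, rfl, h⟩

theorem Df.true : 𝒜.Df (fun _ : Γ => True) := (Df.eq Tm.id Tm.id).congr fun _ => by simp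

theorem Tm.ofRel [Pure 𝒜 α] {f : Γ → α} {Q : Γ → α → Prop}
    (h : 𝒜.Df (fun z : Γ × α => Q z.1 z.2)) (e : ∀ x y, Q x y ↔ y = f x) : 𝒜.Tm f :=
  ⟨fun _ _ _ => Pure.pure _ _, h.congr fun z => e z.1 z.2⟩

theorem Tm.zero : 𝒜.Tm (fun _ : Γ => (0 : Ordinal.{u})) :=
  Tm.ofRel (Q := fun _ y => ∀ z : Ordinal.{u}, ¬ z < y)
    (Df.all (Df.lt Tm.snd' Tm.fst'.snd).not) fun _ y =>
      ⟨fun h => le_antisymm (not_lt.1 (h 0)) zero_le, fun h z => by simp [h]⟩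

theorem Tm.succ {f : Γ → Ordinal.{u}} (hf : 𝒜.Tm f) : 𝒜.Tm (fun x => f x + 1) := by
  refine Tm.comp (h := fun a : Ordinal.{u} => a + 1) (Tm.ofRel
    (Q := fun a y => a < y ∧ ∀ z : Ordinal.{u}, a < z → ¬ z < y)
    ((Df.lt Tm.fst' Tm.snd').and (Df.all ((Df.lt Tm.fst'.fst Tm.snd').imp
      (Df.lt Tm.snd' Tm.fst'.snd).not))) fun a y => ?_) hf
  constructor
  · rintro ⟨h₁, h₂⟩
    exact le_antisymm (not_lt.1 (h₂ _ (lt_add_one a))) (add_one_le_iff.2 h₁)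
  · rintro rfl
    exact ⟨lt_add_one a, fun z h₁ h₂ => (lt_add_one_iff.1 h₂).not_gt h₁⟩

end Closure

/-- A coded type given by an injection into the ordinals. -/
@[reducible] def cdOfEnc {α : Type*} (e : α → Ordinal.{u}) (he : Function.Injective e)
    (h : 𝒜.Df (fun x : Ordinal.{u} => ∃ a, e a = x)) : Cd 𝒜 α where
  ι := fun a => 𝒜.o (e a)
  cons := fun _ _ => True
  inj := fun _ _ e' => he (𝒜.o_inj e')
  rng := Am.congr h fun i x => by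
    constructor
    · rintro ⟨_, -, rfl, a, rfl⟩
      exact ⟨a, trivial, rfl⟩
    · rintro ⟨a, -, rfl⟩
      exact ⟨_, trivial, rfl, a, rfl⟩

open Classical in
noncomputable def encP (p : Prop) : Ordinal.{u} := if p then 0 + 1 else 0

theorem encP_inj : Function.Injective encP.{u} := fun p q h => by
  by_cases hp : p <;> by_cases hq : q <;> simp [encP, hp, hq] at h ⊢

noncomputable instance : Cd 𝒜 Prop :=
  cdOfEnc encP encP_inj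
    (((Df.eq Tm.id Tm.zero).or (Df.eq Tm.id Tm.zero.succ)).congr fun x => by
      constructor
      · rintro (rfl | rfl)
        exacts [⟨False, by simp [encP]⟩, ⟨True, by simp [encP]⟩]
      · rintro ⟨p, rfl⟩
        by_cases hp : p <;> simp [encP, hp])

instance : Pure 𝒜 Prop := ⟨fun _ _ => trivial⟩

theorem lt_omega_iff (x : Ordinal.{u}) :
    (∀ y : Ordinal.{u}, ¬ x < y → y = 0 ∨ ∃ z, y = z + 1) ↔ x < Ordinal.omega0 := by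
  constructor
  · intro h
    by_contra hx
    rcases h _ hx with h | ⟨z, h⟩
    · exact Ordinal.omega0_ne_zero h
    · have : z < Ordinal.omega0 := h ▸ lt_add_one z
      exact (Ordinal.isSuccLimit_omega0.add_one_lt this).ne h.symm
  · intro h y hy
    obtain ⟨n, rfl⟩ := Ordinal.lt_omega0.1 ((not_lt.1 hy).trans_lt h)
    rcases n with _ | n
    · exact Or.inl rfl
    · exact Or.inr ⟨n, by simp⟩

theorem df_lt_omega : 𝒜.Df (fun x : Ordinal.{u} => x < Ordinal.omega0) :=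
  (Df.all (Q := fun x y : Ordinal.{u} => ¬ x < y → y = 0 ∨ ∃ z, y = z + 1)
    ((Df.lt Tm.fst' Tm.snd').not.imp ((Df.eq Tm.snd' Tm.zero).or
    (Df.ex (Q := fun (x : Ordinal.{u} × Ordinal.{u}) (z : Ordinal.{u}) => x.2 = z + 1)
      (Df.eq Tm.fst'.snd Tm.snd'.succ))))).congr lt_omega_iff

noncomputable instance : Cd 𝒜 ℕ :=
  cdOfEnc (fun n => (n : Ordinal.{u})) Nat.cast_injective
    (df_lt_omega.congr fun _ => by simp [Ordinal.lt_omega0, eq_comm])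

instance : Pure 𝒜 ℕ := ⟨fun _ _ => trivial⟩

/-- The worlds, as a coded type. -/
structure Wd (_𝒜 : FO.{u, v} I V) where
  w : I

noncomputable instance : Cd 𝒜 𝒜.Wd where
  ι := fun _ => 𝒜.o 0
  cons := fun a i => a.w = i
  inj := fun {a b _} ha hb _ => by cases a; cases b; simp_all
  rng := Am.congr (Df.eq (Tm.id (Γ := Ordinal.{u})) Tm.zero) fun i x => by
    constructor
    · rintro ⟨_, -, rfl, rfl⟩
      exact ⟨⟨i⟩, rfl, rfl⟩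
    · rintro ⟨_, -, rfl⟩
      exact ⟨0, trivial, rfl, rfl⟩

theorem Df.dropW {Γ : Type*} [Cd 𝒜 Γ] {Q : Γ → Prop}
    (h : 𝒜.Df (fun z : Γ × 𝒜.Wd => Q z.1)) : 𝒜.Df Q := by
  refine Df.mk' (𝒜.ex h) fun i x hx => ⟨?_, fun hq => ⟨_, (x, ⟨i⟩), ⟨hx, rfl⟩, rfl, hq⟩⟩
  rintro ⟨y, ⟨a, b⟩, hc, e, h⟩
  exact inj hc.1 hx (pr_iff.1 e).1 ▸ h

/-- Definable elements. -/
class Par (𝒜 : FO.{u, v} I V) {α : Type*} [Cd 𝒜 α] (c : α) : Prop where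
  tm : 𝒜.Tm (fun _ : Ordinal.{u} => c)

/-- All parameters are allowed. -/
class Full (𝒜 : FO.{u, v} I V) : Prop where
  const : ∀ c, 𝒜.Am (fun _ x => x = c)

section Auto

variable {Γ : Type*} {α : Type*} {β : Type*} {γ : Type*} [Cd 𝒜 Γ] [Cd 𝒜 α] [Cd 𝒜 β] [Cd 𝒜 γ]

instance (priority := low) [Full 𝒜] [Pure 𝒜 α] (c : α) : Par 𝒜 c :=
  ⟨Tm.mk' (fun _ _ _ => Pure.pure _ _) (sndR (Full.const (ι 𝒜 c))) fun i x y _ hy => by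
    constructor
    · rintro ⟨a, b, e, rfl⟩
      exact inj hy (Pure.pure _ _) (pr_iff.1 e).2
    · rintro rfl
      exact ⟨_, _, rfl, rfl⟩⟩

theorem Tm.const (c : α) [h : Par 𝒜 c] : 𝒜.Tm (fun _ : Γ => c) := h.tm.comp Tm.zero

theorem encP_tm : 𝒜.Tm encP.{u} :=
  Tm.mk' (fun _ _ _ => trivial) 𝒜.eq fun i x y _ _ => by
    constructor
    · rintro ⟨z, e⟩
      obtain ⟨e₁, e₂⟩ := pr_iff.1 e
      exact 𝒜.o_inj (e₂.trans e₁.symm)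
    · rintro rfl
      exact ⟨_, rfl⟩

instance (p : Prop) : Par 𝒜 p := ⟨by
  refine Tm.ofRel (Q := fun _ q => encP.{u} q = encP p) ?_ fun _ _ => encP_inj.eq_iff
  by_cases hp : p
  · exact (Df.eq (encP_tm.comp Tm.snd') Tm.zero.succ).congr fun _ => by simp [encP, hp]
  · exact (Df.eq (encP_tm.comp Tm.snd') Tm.zero).congr fun _ => by simp [encP, hp]⟩

theorem Df.tm {Q : Γ → Prop} (h : 𝒜.Df Q) : 𝒜.Tm Q := by
  refine Tm.ofRel (Q := fun x p => (p = True ∧ Q x) ∨ (p = False ∧ ¬ Q x))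
    (((Df.eq Tm.snd' (Tm.const _)).and (h.comp Tm.fst')).or
      ((Df.eq Tm.snd' (Tm.const _)).and (h.comp Tm.fst').not)) fun x p => ?_
  by_cases h : Q x <;> simp [h]

theorem Tm.df {Q : Γ → Prop} (h : 𝒜.Tm Q) : 𝒜.Df Q :=
  (Df.eq h (Tm.const True)).congr fun _ => by simp

attribute [fun_prop] Tm

@[fun_prop] theorem tm_id : 𝒜.Tm (fun x : Γ => x) := Tm.id

@[fun_prop] theorem tm_const (c : α) [Par 𝒜 c] : 𝒜.Tm (fun _ : Γ => c) := Tm.const c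

@[fun_prop] theorem tm_comp {h : α → β} {f : Γ → α} (hh : 𝒜.Tm h) (hf : 𝒜.Tm f) :
    𝒜.Tm (fun x => h (f x)) := hh.comp hf

@[fun_prop] theorem tm_fst {f : Γ → α × β} (hf : 𝒜.Tm f) : 𝒜.Tm (fun x => (f x).1) := hf.fst

@[fun_prop] theorem tm_snd {f : Γ → α × β} (hf : 𝒜.Tm f) : 𝒜.Tm (fun x => (f x).2) := hf.snd

@[fun_prop] theorem tm_pair {f : Γ → α} {h : Γ → β} (hf : 𝒜.Tm f) (hh : 𝒜.Tm h) :
    𝒜.Tm (fun x => (f x, h x)) := hf.pair hh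

variable {Q R : Γ → Prop}

@[fun_prop] theorem tm_not (h : 𝒜.Tm Q) : 𝒜.Tm (fun x => ¬ Q x) := h.df.not.tm

@[fun_prop] theorem tm_and (h₁ : 𝒜.Tm Q) (h₂ : 𝒜.Tm R) : 𝒜.Tm (fun x => Q x ∧ R x) :=
  (h₁.df.and h₂.df).tm

@[fun_prop] theorem tm_or (h₁ : 𝒜.Tm Q) (h₂ : 𝒜.Tm R) : 𝒜.Tm (fun x => Q x ∨ R x) :=
  (h₁.df.or h₂.df).tm

@[fun_prop] theorem tm_imp (h₁ : 𝒜.Tm Q) (h₂ : 𝒜.Tm R) : 𝒜.Tm (fun x => Q x → R x) :=
  (h₁.df.imp h₂.df).tm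

@[fun_prop] theorem tm_iff (h₁ : 𝒜.Tm Q) (h₂ : 𝒜.Tm R) : 𝒜.Tm (fun x => Q x ↔ R x) :=
  (h₁.df.iff h₂.df).tm

@[fun_prop] theorem tm_ex [Pure 𝒜 α] {Q : Γ → α → Prop}
    (h : 𝒜.Tm (fun z : Γ × α => Q z.1 z.2)) : 𝒜.Tm (fun x => ∃ y, Q x y) := (Df.ex h.df).tm

@[fun_prop] theorem tm_all [Pure 𝒜 α] {Q : Γ → α → Prop}
    (h : 𝒜.Tm (fun z : Γ × α => Q z.1 z.2)) : 𝒜.Tm (fun x => ∀ y, Q x y) := (Df.all h.df).tm

@[fun_prop] theorem tm_eq {f h : Γ → α} (hf : 𝒜.Tm f) (hh : 𝒜.Tm h) :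
    𝒜.Tm (fun x => f x = h x) := (Df.eq hf hh).tm

@[fun_prop] theorem tm_ne {f h : Γ → α} (hf : 𝒜.Tm f) (hh : 𝒜.Tm h) :
    𝒜.Tm (fun x => f x ≠ h x) := (Df.eq hf hh).not.tm

@[fun_prop] theorem tm_lt {f h : Γ → Ordinal.{u}} (hf : 𝒜.Tm f) (hh : 𝒜.Tm h) :
    𝒜.Tm (fun x => f x < h x) := (Df.lt hf hh).tm

@[fun_prop] theorem tm_le {f h : Γ → Ordinal.{u}} (hf : 𝒜.Tm f) (hh : 𝒜.Tm h) :
    𝒜.Tm (fun x => f x ≤ h x) := ((Df.lt hh hf).not.congr fun _ => not_lt).tm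

theorem tm_of_rel [Pure 𝒜 α] {f : Γ → α} {Q : Γ → α → Prop}
    (h : 𝒜.Tm (fun z : Γ × α => Q z.1 z.2)) (e : ∀ x y, Q x y ↔ y = f x) : 𝒜.Tm f :=
  Tm.ofRel h.df e

theorem Tm.congr {f g : Γ → α} (h : 𝒜.Tm f) (e : ∀ x, f x = g x) : 𝒜.Tm g :=
  (funext e : f = g) ▸ h

theorem Tm.congrP (h : 𝒜.Tm Q) (e : ∀ x, Q x ↔ R x) : 𝒜.Tm R :=
  h.congr fun x => propext (e x)

@[fun_prop] theorem tm_ite [Pure 𝒜 α] {c : Γ → Prop} {d : ∀ x, Decidable (c x)} {f h : Γ → α}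
    (hc : 𝒜.Tm c) (hf : 𝒜.Tm f) (hh : 𝒜.Tm h) :
    𝒜.Tm (fun x => @ite _ (c x) (d x) (f x) (h x)) := by
  refine tm_of_rel (Q := fun x y => (c x ∧ y = f x) ∨ (¬ c x ∧ y = h x)) (by fun_prop)
    fun x y => ?_
  by_cases h : c x <;> simp [h]

instance : Par 𝒜 (0 : Ordinal.{u}) := ⟨Tm.zero⟩

instance : Par 𝒜 (1 : Ordinal.{u}) := ⟨Tm.zero.succ.congr fun _ => by simp⟩

instance (n : ℕ) : Par 𝒜 (n : Ordinal.{u}) := ⟨by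
  induction n with
  | zero => exact Tm.zero
  | succ n ih => exact ih.succ.congr fun _ => by simp⟩

instance (n : ℕ) [n.AtLeastTwo] : Par 𝒜 (ofNat(n) : Ordinal.{u}) :=
  inferInstanceAs (Par 𝒜 (n : Ordinal.{u}))

instance : Par 𝒜 Ordinal.omega0.{u} :=
  ⟨tm_of_rel (Q := fun _ y => ∀ z : Ordinal.{u}, z < y ↔ z < Ordinal.omega0)
    (tm_all (tm_iff (by fun_prop) (df_lt_omega.comp Tm.snd').tm)) fun _ y =>
      ⟨eq_of_lt_iff, fun h => by simp [h]⟩⟩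

theorem natCast_tm : 𝒜.Tm (fun n : ℕ => (n : Ordinal.{u})) :=
  Tm.mk' (fun _ _ _ => trivial) 𝒜.eq fun i x y _ _ => by
    constructor
    · rintro ⟨z, e⟩
      obtain ⟨e₁, e₂⟩ := pr_iff.1 e
      exact 𝒜.o_inj (e₂.trans e₁.symm)
    · rintro rfl
      exact ⟨_, rfl⟩

@[fun_prop] theorem tm_natCast {f : Γ → ℕ} (hf : 𝒜.Tm f) :
    𝒜.Tm (fun x => (f x : Ordinal.{u})) := natCast_tm.comp hf

instance (n : ℕ) : Par 𝒜 n :=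
  ⟨tm_of_rel (Q := fun _ m => (m : Ordinal.{u}) = n) (by fun_prop) fun _ _ => Nat.cast_inj⟩

@[fun_prop] theorem tm_nat_lt {f h : Γ → ℕ} (hf : 𝒜.Tm f) (hh : 𝒜.Tm h) :
    𝒜.Tm (fun x => f x < h x) :=
  (tm_lt (tm_natCast hf) (tm_natCast hh)).congrP fun _ => Nat.cast_lt

@[fun_prop] theorem tm_nat_le {f h : Γ → ℕ} (hf : 𝒜.Tm f) (hh : 𝒜.Tm h) :
    𝒜.Tm (fun x => f x ≤ h x) :=
  (tm_le (tm_natCast hf) (tm_natCast hh)).congrP fun _ => Nat.cast_le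

@[fun_prop] theorem tm_nat_succ {f : Γ → ℕ} (hf : 𝒜.Tm f) : 𝒜.Tm (fun x => f x + 1) :=
  tm_of_rel (Q := fun x m => (m : Ordinal.{u}) = f x + 1)
    (tm_eq (by fun_prop) (Tm.succ (by fun_prop))) fun _ _ => by
      rw [← Nat.cast_add_one, Nat.cast_inj]

@[fun_prop] theorem tm_mu {R : Γ → Ordinal.{u} → Prop}
    (h : 𝒜.Tm (fun z : Γ × Ordinal.{u} => R z.1 z.2)) : 𝒜.Tm (fun x => mu (fun y => R x y)) :=
  tm_of_rel (Q := fun x y => (R x y ∧ ∀ z < y, ¬ R x z) ∨ (y = 0 ∧ ∀ z, ¬ R x z))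
    (by fun_prop) fun _ _ => eq_mu_iff.symm

@[fun_prop] theorem tm_succ {f : Γ → Ordinal.{u}} (hf : 𝒜.Tm f) : 𝒜.Tm (fun x => f x + 1) :=
  hf.succ

@[fun_prop] theorem tm_ob {f : Γ → α} (hf : 𝒜.Tm f) : 𝒜.Tm (fun x => 𝒜.ob (f x)) :=
  Tm.ι'.comp hf

@[fun_prop] theorem tm_max {f h : Γ → Ordinal.{u}} (hf : 𝒜.Tm f) (hh : 𝒜.Tm h) :
    𝒜.Tm (fun x => max (f x) (h x)) :=
  (tm_ite (d := fun _ => inferInstance) (tm_le hf hh) hh hf).congr fun _ => (max_def _ _).symm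

end Auto

end FO

end Pool.Agent.MP_9a6faa_lc
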