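import Pool.Agent.MP_9a6faa_lc.Defs

namespace Pool.Agent.MP_9a6faa_lc

open FirstOrder

universe u v

/-- Formulas of set theory with de Bruijn indices. -/
inductive Fml : Type
  | mem (i j : ℕ) : Fml
  | eq (i j : ℕ) : Fml
  | bot : Fml
  | imp (φ ψ : Fml) : Fml
  | all (φ : Fml) : Fml

def cons {α : Type v} (x : α) (w : ℕ → α) : ℕ → α
  | 0 => x
  | k + 1 => w k

@[simp] theorem cons_zero {α : Type v} (x : α) (w : ℕ → α) : cons x w 0 = x := rfl
@[simp] theorem cons_succ {α : Type v} (x : α) (w : ℕ → α) (k : ℕ) : cons x w (k + 1) = w k := rfl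

/-- The environment given by a list, with a default value. -/
def env {α : Type v} (d : α) (l : List α) : ℕ → α := fun k => l.getD k d

theorem env_cons {α : Type v} (d x : α) (l : List α) : env d (x :: l) = cons x (env d l) := by
  funext k; cases k <;> simp [env]

theorem env_map {α β : Type v} (f : α → β) (d : α) (l : List α) :
    env (f d) (l.map f) = fun k => f (env d l k) := by
  funext k
  simp [env, List.getD_eq_getElem?_getD]

theorem env_mem {α : Type v} {S : Set α} {d : α} {l : List α} (hd : d ∈ S)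
    (hl : ∀ x ∈ l, x ∈ S) (k : ℕ) : env d l k ∈ S := by
  unfold env
  rw [List.getD_eq_getElem?_getD]
  cases h : l[k]? with
  | none => simpa using hd
  | some a => simpa using hl a (List.mem_of_getElem? h)

theorem comp_cons {α β : Type v} (f : α → β) (x : α) (w : ℕ → α) :
    (fun k => f (cons x w k)) = cons (f x) (fun k => f (w k)) := by
  funext k; cases k <;> rfl

def Sat {M : Type v} (E : M → M → Prop) : Fml → (ℕ → M) → Prop
  | .mem i j, w => E (w i) (w j)
  | .eq i j, w => w i = w j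
  | .bot, _ => False
  | .imp φ ψ, w => Sat E φ w → Sat E ψ w
  | .all φ, w => ∀ x, Sat E φ (cons x w)

def liftIdx (f : ℕ → ℕ) : ℕ → ℕ
  | 0 => 0
  | k + 1 => f k + 1

def Fml.rename : Fml → (ℕ → ℕ) → Fml
  | .mem i j, f => .mem (f i) (f j)
  | .eq i j, f => .eq (f i) (f j)
  | .bot, _ => .bot
  | .imp φ ψ, f => .imp (φ.rename f) (ψ.rename f)
  | .all φ, f => .all (φ.rename (liftIdx f))

theorem sat_rename {M : Type v} (E : M → M → Prop) : ∀ (φ : Fml) (f : ℕ → ℕ) (w : ℕ → M),
    Sat E (φ.rename f) w ↔ Sat E φ (fun k => w (f k)) := by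
  intro φ
  induction φ with
  | mem i j => intro f w; rfl
  | eq i j => intro f w; rfl
  | bot => intro f w; rfl
  | imp φ ψ ih₁ ih₂ => intro f w; simp only [Fml.rename, Sat, ih₁, ih₂]
  | all φ ih =>
    intro f w
    simp only [Fml.rename, Sat, ih]
    refine forall_congr' fun x => ?_
    have : (fun k => cons x w (liftIdx f k)) = cons x (fun k => w (f k)) := by
      funext k; cases k <;> rfl
    rw [this]

/-- A property of valuations that is uniformly expressed by a formula. -/
def UDef (Ψ : ∀ (M : Type v), (M → M → Prop) → (ℕ → M) → Prop) : Prop :=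
  ∃ φ : Fml, ∀ (M : Type v) (E : M → M → Prop) (w : ℕ → M), Sat E φ w ↔ Ψ M E w

namespace UDef

variable {Φ Ψ : ∀ (M : Type v), (M → M → Prop) → (ℕ → M) → Prop}
variable {Θ : ∀ (M : Type v), (M → M → Prop) → (ℕ → M) → M → Prop}

theorem mem (i j : ℕ) : UDef.{v} (fun _ E w => E (w i) (w j)) := ⟨.mem i j, fun _ _ _ => Iff.rfl⟩

theorem eq (i j : ℕ) : UDef.{v} (fun _ _ w => w i = w j) := ⟨.eq i j, fun _ _ _ => Iff.rfl⟩

theorem bot : UDef.{v} (fun _ _ _ => False) := ⟨.bot, fun _ _ _ => Iff.rfl⟩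

theorem sat (φ : Fml) (f : ℕ → ℕ) : UDef.{v} (fun _ E w => Sat E φ (fun k => w (f k))) :=
  ⟨φ.rename f, fun _ E w => sat_rename E φ f w⟩

theorem imp (h₁ : UDef Φ) (h₂ : UDef Ψ) : UDef (fun M E w => Φ M E w → Ψ M E w) := by
  obtain ⟨φ, h₁⟩ := h₁
  obtain ⟨ψ, h₂⟩ := h₂
  exact ⟨.imp φ ψ, fun M E w => by simp only [Sat, h₁, h₂]⟩

theorem congr (h : UDef Φ) (e : ∀ M E w, Φ M E w ↔ Ψ M E w) : UDef Ψ := by
  obtain ⟨φ, h⟩ := h
  exact ⟨φ, fun M E w => (h M E w).trans (e M E w)⟩

theorem not (h : UDef Φ) : UDef (fun M E w => ¬ Φ M E w) := h.imp bot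

theorem ne (i j : ℕ) : UDef.{v} (fun _ _ w => w i ≠ w j) := (eq i j).not

theorem and (h₁ : UDef Φ) (h₂ : UDef Ψ) : UDef (fun M E w => Φ M E w ∧ Ψ M E w) :=
  (h₁.imp h₂.not).not.congr fun _ _ _ => by tauto

theorem or (h₁ : UDef Φ) (h₂ : UDef Ψ) : UDef (fun M E w => Φ M E w ∨ Ψ M E w) :=
  (h₁.not.imp h₂).congr fun _ _ _ => by tauto

theorem iff (h₁ : UDef Φ) (h₂ : UDef Ψ) : UDef (fun M E w => Φ M E w ↔ Ψ M E w) :=
  ((h₁.imp h₂).and (h₂.imp h₁)).congr fun _ _ _ => by tauto

theorem all (h : UDef (fun M E w => Θ M E (fun k => w (k + 1)) (w 0))) :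
    UDef (fun M E w => ∀ x, Θ M E w x) := by
  obtain ⟨φ, h⟩ := h
  refine ⟨.all φ, fun M E w => ?_⟩
  simp only [Sat, h]
  rfl

theorem ex (h : UDef (fun M E w => Θ M E (fun k => w (k + 1)) (w 0))) :
    UDef (fun M E w => ∃ x, Θ M E w x) :=
  (all (Θ := fun M E w x => ¬ Θ M E w x) h.not).not.congr fun _ _ _ => by simp

theorem isPair (i j k : ℕ) : UDef.{v} (fun _ E w => IsPair E (w i) (w j) (w k)) := by
  unfold IsPair
  repeat' first
    | exact mem _ _ | exact eq _ _ | apply UDef.and | apply UDef.or | apply UDef.iff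
    | apply UDef.all

theorem app (i j k : ℕ) : UDef.{v} (fun _ E w => App E (w i) (w j) (w k)) := by
  unfold App
  repeat' first
    | exact mem _ _ | exact eq _ _ | exact isPair _ _ _ | apply UDef.and | apply UDef.ex

theorem isFun (i j k : ℕ) : UDef.{v} (fun _ E w => IsFun E (w i) (w j) (w k)) := by
  unfold IsFun ExistsUnique
  repeat' first
    | exact mem _ _ | exact eq _ _ | exact isPair _ _ _ | exact app _ _ _
    | apply UDef.and | apply UDef.or | apply UDef.iff
    | apply UDef.not | apply UDef.imp | apply UDef.all | apply UDef.ex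

end UDef

/-! ### Translation from Mathlib formulas -/

def tvar {β : Type v} : Language.graph.Term β → β
  | .var b => b
  | .func f _ => Empty.elim f

theorem realize_tvar {M : Type v} (E : M → M → Prop) {β : Type v} (t : Language.graph.Term β)
    (w : β → M) : @Language.Term.realize _ M (memStr E) β w t = w (tvar t) := by
  cases t with
  | var b => rfl
  | func f _ => exact Empty.elim f

def shiftIdx {α : Type v} {n : ℕ} (f : α ⊕ Fin n → ℕ) : α ⊕ Fin (n + 1) → ℕ
  | .inl a => f (.inl a) + 1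
  | .inr i => Fin.lastCases 0 (fun j => f (.inr j) + 1) i

def trRel {β : Type v} (f : β → ℕ) : {l : ℕ} → Language.graphRel l →
    (Fin l → Language.graph.Term β) → Fml
  | _, .adj, ts => .mem (f (tvar (ts 0))) (f (tvar (ts 1)))

def tr {α : Type v} : {n : ℕ} → Language.graph.BoundedFormula α n → (α ⊕ Fin n → ℕ) → Fml
  | _, .falsum, _ => .bot
  | _, .equal t₁ t₂, f => .eq (f (tvar t₁)) (f (tvar t₂))
  | _, .rel r ts, f => trRel f r ts
  | _, .imp φ ψ, f => .imp (tr φ f) (tr ψ f)
  | _, .all φ, f => .all (tr φ (shiftIdx f))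

theorem sat_tr {M : Type v} (E : M → M → Prop) {α : Type v} (a : α → M) :
    ∀ {n : ℕ} (φ : Language.graph.BoundedFormula α n) (f : α ⊕ Fin n → ℕ) (xs : Fin n → M)
      (w : ℕ → M), (∀ b, w (f b) = Sum.elim a xs b) →
      (Sat E (tr φ f) w ↔ @Language.BoundedFormula.Realize _ M (memStr E) α n φ a xs) := by
  intro n φ
  induction φ with
  | falsum => intro f xs w _; rfl
  | equal t₁ t₂ =>
    intro f xs w h
    simp only [tr, Sat, h, Language.BoundedFormula.Realize, realize_tvar]
  | rel r ts =>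
    intro f xs w h
    cases r
    simp only [tr, trRel, Sat, h, Language.BoundedFormula.Realize, realize_tvar]
    rfl
  | imp φ ψ ih₁ ih₂ =>
    intro f xs w h
    simp only [tr, Sat, Language.BoundedFormula.Realize, ih₁ f xs w h, ih₂ f xs w h]
  | all φ ih =>
    intro f xs w h
    simp only [tr, Sat, Language.BoundedFormula.Realize]
    refine forall_congr' fun x => ih _ _ _ ?_
    rintro (b | i)
    · simpa [shiftIdx] using h (.inl b)
    · refine Fin.lastCases ?_ (fun j => ?_) i
      · simp [shiftIdx]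
      · simpa [shiftIdx] using h (.inr j)

theorem exists_fml_of_definable {M : Type v} (E : M → M → Prop) {n : ℕ} (S : Set (Fin n → M))
    (h : @Set.Definable M Set.univ Language.graph (memStr E) (Fin n) S) :
    ∃ (φ : Fml) (l : List M), ∀ (x : Fin n → M) (w : ℕ → M) (d : M), (∀ i : Fin n, w i = x i) →
      (∀ k, w (k + n) = env d l k) → (Sat E φ w ↔ x ∈ S) := by
  classical
  let _ := memStr E
  obtain ⟨A, -, h⟩ := Set.definable_iff_finitely_definable.1 h
  obtain ⟨φ, rfl⟩ := Set.definable_iff_exists_formula_sum.1 h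
  let l : List M := A.toList
  have hl : ∀ a : (A : Set M), ∃ k, l[k]? = some a.1 := fun a =>
    List.mem_iff_getElem?.1 (Finset.mem_toList.2 a.2)
  choose idx hidx using hl
  let f : ((A : Set M) ⊕ Fin n) ⊕ Fin 0 → ℕ :=
    Sum.elim (Sum.elim (fun a => idx a + n) (fun i => i)) Fin.elim0
  refine ⟨tr φ f, l, fun x w d hx hw => ?_⟩
  refine sat_tr E _ φ f _ w ?_
  rintro ((a | i) | i)
  · simp [f, hw, env, List.getD_eq_getElem?_getD, hidx]
  · simp [f, hx]
  · exact i.elim0

theorem exists_fml_of_definable₁ {M : Type v} (E : M → M → Prop) (S : Set M)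
    (h : @Set.Definable₁ M Set.univ Language.graph (memStr E) S) :
    ∃ (φ : Fml) (l : List M), ∀ (x d : M), (Sat E φ (cons x (env d l)) ↔ x ∈ S) := by
  obtain ⟨φ, l, h⟩ := exists_fml_of_definable E _ h
  refine ⟨φ, l, fun x d => h ![x] _ d (fun i => ?_) (fun k => rfl)⟩
  fin_cases i; rfl

theorem exists_fml_of_definable₂ {M : Type v} (E : M → M → Prop) (R : Set (M × M))
    (h : @Set.Definable₂ M Set.univ Language.graph (memStr E) R) :
    ∃ (φ : Fml) (l : List M), ∀ (x y d : M),
      (Sat E φ (cons y (cons x (env d l))) ↔ (x, y) ∈ R) := by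
  let _ := memStr E
  have h' : (Set.univ : Set M).Definable Language.graph {x : Fin 2 → M | (x 1, x 0) ∈ R} := by
    have := Set.Definable.preimage_comp (Equiv.swap (0 : Fin 2) 1) h
    convert this using 1
    ext x
    simp
  obtain ⟨φ, l, h⟩ := exists_fml_of_definable E _ h'
  refine ⟨φ, l, fun x y d => h ![y, x] _ d (fun i => ?_) (fun k => rfl)⟩
  fin_cases i <;> rfl

end Pool.Agent.MP_9a6faa_lc
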