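import Pool.Agent.MP_9a6faa_lc.Namba

namespace Pool.Agent.MP_9a6faa_lc

open Set Order FO Filter

universe u v

variable {m : Mach.{u}}

/-- The condition `p` puts `x` into the name `a`. -/
def Cl (a x : Ordinal.{u}) (p : Cn m) : Prop := ∃ q : Cn m, p ≤ q ∧ P m a (G x q.1)

theorem Cl.lt {a x : Ordinal.{u}} {p : Cn m} (h : Cl a x p) : x < a :=
  let ⟨_, _, h⟩ := h; (left_le_G _ _).trans_lt (P_lt h)

theorem Cl.mono {a x : Ordinal.{u}} {p q : Cn m} (h : Cl a x p) (e : q ≤ p) : Cl a x q :=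
  let ⟨r, h₁, h₂⟩ := h; ⟨r, e.trans h₁, h₂⟩

noncomputable def FEq (a b : Ordinal.{u}) (p : Cn m) : Prop :=
  orec id (fun R a (w : Ordinal.{u} × Cn m) =>
    (∀ x, ∀ q ≤ w.2, Cl a x q → ∃ r ≤ q, ∃ y, Cl w.1 y r ∧ R x (y, r)) ∧
    ∀ y, ∀ q ≤ w.2, Cl w.1 y q → ∃ r ≤ q, ∃ x, Cl a x r ∧ R x (y, r)) a (b, p)

theorem feq_def {a b : Ordinal.{u}} {p : Cn m} : FEq a b p ↔
    (∀ x, ∀ q ≤ p, Cl a x q → ∃ r ≤ q, ∃ y, Cl b y r ∧ FEq x y r) ∧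
    ∀ y, ∀ q ≤ p, Cl b y q → ∃ r ≤ q, ∃ x, Cl a x r ∧ FEq x y r :=
  (orec_iff _ _ _ _).trans (and_congr (forall₄_congr fun _ _ _ h => exists_congr fun _ =>
    and_congr_right fun _ => exists_congr fun _ => and_congr_right fun _ => and_iff_right h.lt)
    (forall₄_congr fun _ _ _ _ => exists_congr fun _ => and_congr_right fun _ =>
      exists_congr fun _ => and_congr_right fun h => and_iff_right h.lt))

def FMem (a b : Ordinal.{u}) (p : Cn m) : Prop := ∀ q ≤ p, ∃ r ≤ q, ∃ y, Cl b y r ∧ FEq a y r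

theorem FEq.symm {a b : Ordinal.{u}} {p : Cn m} (h : FEq a b p) : FEq b a p := by
  induction a using WellFoundedLT.induction generalizing b p with
  | ind a ih =>
    rw [feq_def] at h ⊢
    exact ⟨fun y q hq hy => let ⟨r, hr, x, hx, e⟩ := h.2 y q hq hy; ⟨r, hr, x, hx, ih x hx.lt e⟩,
      fun x q hq hx => let ⟨r, hr, y, hy, e⟩ := h.1 x q hq hx; ⟨r, hr, y, hy, ih x hx.lt e⟩⟩

theorem FEq.mono {a b : Ordinal.{u}} {p q : Cn m} (h : FEq a b p) (hq : q ≤ p) : FEq a b q := by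
  rw [feq_def] at h ⊢
  exact ⟨fun i r hr => h.1 i r (hr.trans hq), fun j r hr => h.2 j r (hr.trans hq)⟩

theorem FMem.mono {a b : Ordinal.{u}} {p q : Cn m} (h : FMem a b p) (hq : q ≤ p) : FMem a b q :=
  fun r hr => h r (hr.trans hq)

theorem feq_iff {a b : Ordinal.{u}} {p : Cn m} : FEq a b p ↔
    (∀ x, ∀ q ≤ p, Cl a x q → FMem x b q) ∧ ∀ y, ∀ q ≤ p, Cl b y q → FMem y a q := by
  rw [feq_def]
  exact ⟨fun ⟨h₁, h₂⟩ => ⟨fun i q hq hi r hr => h₁ i r (hr.trans hq) (hi.mono hr),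
    fun j q hq hj r hr => let ⟨s, hs, i, hi, e⟩ := h₂ j r (hr.trans hq) (hj.mono hr)
      ⟨s, hs, i, hi, e.symm⟩⟩, fun ⟨h₁, h₂⟩ => ⟨fun i q hq hi => h₁ i q hq hi q le_rfl,
    fun j q hq hj => let ⟨s, hs, i, hi, e⟩ := h₂ j q hq hj q le_rfl; ⟨s, hs, i, hi, e.symm⟩⟩⟩

theorem FMem.reg {a b : Ordinal.{u}} {p : Cn m} (h : ∀ q ≤ p, ∃ r ≤ q, FMem a b r) :
    FMem a b p := fun q hq =>
  let ⟨r, hr, h⟩ := h q hq; let ⟨s, hs, h⟩ := h r le_rfl; ⟨s, hs.trans hr, h⟩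

theorem FEq.reg {a b : Ordinal.{u}} {p : Cn m} (h : ∀ q ≤ p, ∃ r ≤ q, FEq a b r) : FEq a b p :=
  feq_iff.2 ⟨fun i _ hq hi => FMem.reg fun s hs => let ⟨r, hr, e⟩ := h s (hs.trans hq)
      ⟨r, hr, (feq_iff.1 e).1 i r le_rfl (hi.mono (hr.trans hs))⟩,
    fun j _ hq hj => FMem.reg fun s hs => let ⟨r, hr, e⟩ := h s (hs.trans hq)
      ⟨r, hr, (feq_iff.1 e).2 j r le_rfl (hj.mono (hr.trans hs))⟩⟩

theorem FMem.of_feq {a b y : Ordinal.{u}} {p : Cn m} (hy : Cl b y p) (e : FEq a y p) :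
    FMem a b p := fun q hq => ⟨q, le_rfl, y, hy.mono hq, e.mono hq⟩

def Forces : Fml → OL.{u} → Cn m → Prop
  | .mem i j, l, p => FMem (l.getD i 0) (l.getD j 0) p
  | .eq i j, l, p => FEq (l.getD i 0) (l.getD j 0) p
  | .bot, _, _ => False
  | .imp φ ψ, l, p => ∀ q ≤ p, Forces φ l q → Forces ψ l q
  | .all φ, l, p => ∀ a, Forces φ (a :: l) p

theorem Forces.mono {φ : Fml} {l : OL.{u}} {p q : Cn m} (h : Forces φ l p) (hq : q ≤ p) :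
    Forces φ l q := by
  induction φ generalizing l with
  | mem i j => exact FMem.mono h hq
  | eq i j => exact FEq.mono h hq
  | bot => exact h
  | imp φ ψ _ _ => exact fun r hr => h r (hr.trans hq)
  | all φ ih => exact fun a => ih (h a)

theorem Forces.reg {φ : Fml} {l : OL.{u}} {p : Cn m} (h : ∀ q ≤ p, ∃ r ≤ q, Forces φ l r) :
    Forces φ l p := by
  induction φ generalizing l p with
  | mem i j => exact FMem.reg h
  | eq i j => exact FEq.reg h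
  | bot => exact let ⟨_, _, h⟩ := h p le_rfl; h
  | imp φ ψ _ ih =>
    exact fun q hq hφ => ih fun r hr => let ⟨s, hs, h⟩ := h r (hr.trans hq)
      ⟨s, hs, h s le_rfl (hφ.mono (hs.trans hr))⟩
  | all φ ih => exact fun a => ih fun q hq => let ⟨r, hr, h⟩ := h q hq; ⟨r, hr, h a⟩

/-- The name given by a relation. -/
noncomputable def nm (R : Ordinal.{u} → Cn m → Prop) : Ordinal.{u} :=
  cs m (fun z => ∃ p : Cn m, snd z = p.1 ∧ R (fst z) p)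

/-- Canonical names. -/
noncomputable def chk (m : Mach.{u}) (c : Ordinal.{u}) : Ordinal.{u} :=
  nm (fun x (_ : Cn m) => ∃ z : Iio c, P m c z ∧ x = chk m z)
termination_by c
decreasing_by exact z.2

namespace FO

variable {I : Type} {V : Type v} {𝒜 : FO.{u, v} I V} {Γ : Type*} [Cd 𝒜 Γ]
variable [Cd 𝒜 Mach.{u}] [HasQ 𝒜] [HasSep 𝒜] [Par 𝒜 m] {a b : Γ → Ordinal.{u}} {p : Γ → Cn m}

@[fun_prop] theorem tm_Cl (ha : 𝒜.Tm a) (hb : 𝒜.Tm b) (hp : 𝒜.Tm p) :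
    𝒜.Tm (fun z => Cl (a z) (b z) (p z)) := by
  unfold Cl; fun_prop

@[fun_prop] theorem tm_FEq (ha : 𝒜.Tm a) (hb : 𝒜.Tm b) (hp : 𝒜.Tm p) :
    𝒜.Tm (fun z => FEq (a z) (b z) (p z)) := by
  have := tm_grec (𝒜 := 𝒜) (Γ := ℕ) (A := Ordinal.{u} × Ordinal.{u} × Cn m) Prod.fst
    (fun z => G z.2.1 z.2.2.1) (by fun_prop) (by fun_prop)
    (fun _ _ h h' => Prod.ext h (Prod.ext (G_inj.1 h').1 (Subtype.ext (G_inj.1 h').2)))
    (fun _ z => FEq z.1 z.2.1 z.2.2)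
    (fun _ R z => (∀ x, ∀ q ≤ z.2.2, Cl z.1 x q → ∃ r ≤ q, ∃ y, Cl z.2.1 y r ∧ R (x, y, r)) ∧
      ∀ y, ∀ q ≤ z.2.2, Cl z.2.1 y q → ∃ r ≤ q, ∃ x, Cl z.1 x r ∧ R (x, y, r))
    (fun _ z w => w.1 < z.1 ∧ w.2.1 < z.2.1) (by fun_prop)
    (fun _ _ => feq_def.trans (and_congr (forall₄_congr fun _ _ _ h => exists_congr fun _ =>
      and_congr_right fun _ => exists_congr fun _ => and_congr_right fun h' =>
        (and_iff_right ⟨h.lt, h'.lt⟩).symm) (forall₄_congr fun _ _ _ h => exists_congr fun _ =>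
      and_congr_right fun _ => exists_congr fun _ => and_congr_right fun h' =>
        (and_iff_right ⟨h'.lt, h.lt⟩).symm)))
    (fun R hR => by fun_prop) (fun _ _ _ h => h.1) fun _ _ z => by
      obtain ⟨y, h₁, h₂, h₃⟩ := exists_gcl₂ (G z.2.1 z.2.2.1) (cb m (lam m))
      exact ⟨y, h₁, fun _ _ h w hw =>
        h₃.G (hw.2.trans ((left_le_G _ _).trans_lt h)) (w.2.2.2.1.trans h₂)⟩
  exact (this.comp (f := fun z => (0, a z, b z, p z)) (by fun_prop) :)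

@[fun_prop] theorem tm_FMem (ha : 𝒜.Tm a) (hb : 𝒜.Tm b) (hp : 𝒜.Tm p) :
    𝒜.Tm (fun z => FMem (a z) (b z) (p z)) := by
  unfold FMem; fun_prop

@[fun_prop] theorem tm_Forces (φ : Fml) {l : Γ → OL.{u}} (hl : 𝒜.Tm l) (hp : 𝒜.Tm p) :
    𝒜.Tm (fun z => Forces φ (l z) (p z)) := by
  have : 𝒜.Tm (fun z : OL.{u} × Cn m => Forces φ z.1 z.2) := by
    induction φ <;> unfold Forces <;> fun_prop
  exact (this.comp (f := fun z => (l z, p z)) (by fun_prop) :)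

@[fun_prop] theorem tm_nm {R : Γ → Ordinal.{u} → Cn m → Prop}
    (hR : 𝒜.Tm (fun z : Γ × Ordinal.{u} × Cn m => R z.1 z.2.1 z.2.2)) :
    𝒜.Tm (fun z => nm (fun x p => R z x p)) := by
  unfold nm; fun_prop

@[fun_prop] theorem tm_chk (ha : 𝒜.Tm a) : 𝒜.Tm (fun z => chk m (a z)) :=
  (tm_frec (𝒜 := 𝒜) (Γ := ℕ) (fun _ => chk m)
    (fun _ k c => nm (fun x (_ : Cn m) => ∃ z, P m c z ∧ x = k z))
    (fun _ a k hk => by
      rw [chk]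
      exact congrArg _ (funext₂ fun x _ => propext
        ⟨fun ⟨b, h, e⟩ => ⟨⟨b, P_lt h⟩, h, hk b (P_lt h) ▸ e⟩,
          fun ⟨b, h, e⟩ => ⟨b, h, (hk b b.2).symm ▸ e⟩⟩))
    (fun k hk => by fun_prop)).comp (f := fun z => (0, a z)) (by fun_prop)

end FO

theorem Cl_nm {R : Ordinal.{u} → Cn m → Prop}
    (hR : (SS m).Tm (fun z : Ordinal.{u} × Cn m => R z.1 z.2)) (b : Ordinal.{u})
    (hb : ∀ x p, R x p → x < b) (mono : ∀ x p q, R x p → q ≤ p → R x q) {x : Ordinal.{u}}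
    {p : Cn m} : Cl (nm R) x p ↔ R x p := by
  have e : ∀ q : Cn m, P m (nm R) (G x q.1) ↔ R x q := fun q =>
    (cs_spec (by fun_prop) ⟨G b (cb m (lam m)), fun z ⟨r, e, h⟩ => by
      simpa using G_lt_of_lt (hb _ _ h) (e ▸ r.2.1 : snd z < _)⟩ _).trans (by
        simp only [fst_G, snd_G]
        exact ⟨fun ⟨r, e, h⟩ => (Subtype.ext e : q = r) ▸ h, fun h => ⟨q, rfl, h⟩⟩)
  exact ⟨fun ⟨q, h₁, h₂⟩ => mono _ _ _ ((e q).1 h₂) h₁, fun h => ⟨p, le_rfl, (e p).2 h⟩⟩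

theorem nm_bound (m : Mach.{u}) (a : Ordinal.{u}) :
    ∃ b, ∀ R : Ordinal.{u} → Cn m → Prop, (∀ x p, R x p → x < a) → nm R < b := by
  obtain ⟨b, hb⟩ := exists_bound (fun s : Set (Iio (G a (cb m (lam m)))) =>
    cs m (fun z => ∃ h, ⟨z, h⟩ ∈ s))
  refine ⟨b, fun R h => lt_of_eq_of_lt (congrArg (cs m) (funext fun z => propext ?_))
    (hb {z | ∃ p : Cn m, snd z = p.1 ∧ R (fst z) p})⟩
  exact ⟨fun ⟨r, e, h'⟩ => ⟨by simpa using G_lt_of_lt (h _ _ h') (e ▸ r.2.1 : snd z < _),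
    r, e, h'⟩, fun ⟨_, h⟩ => h⟩

theorem Cl_chk {c x : Ordinal.{u}} {p : Cn m} :
    Cl (chk m c) x p ↔ ∃ z, P m c z ∧ x = chk m z := by
  obtain ⟨b, hb⟩ := bound_fun c (chk m)
  rw [chk, ← Cl_nm (m := m) (R := fun x _ => ∃ z, P m c z ∧ x = chk m z) (by fun_prop) b
    (fun _ _ ⟨z, h, e⟩ => e ▸ hb z (P_lt h)) fun _ _ _ h _ => h]
  exact iff_of_eq (congrArg (fun R => Cl (nm R) x p) (funext₂ fun x _ => propext
    ⟨fun ⟨b, h⟩ => ⟨b, h⟩, fun ⟨b, h⟩ => ⟨⟨b, P_lt h.1⟩, h⟩⟩))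

/-- Generic sequences of conditions. -/
structure Gen (m : Mach.{u}) where
  s : ℕ → Cn m
  anti : Antitone s
  par : ∀ n, Par (FF m) (s n)
  meet : ∀ D : Cn m → Prop, (FF m).Tm D → ∃ n, D (s n) ∨ ∀ q ≤ s n, ¬ D q

instance : Nonempty (Gen m) := by
  have : Nonempty Cx := ⟨.lt⟩
  obtain ⟨e, he⟩ := exists_surjective_nat Cx
  have st : ∀ (n : ℕ) (p : {p : Cn m // Par (FF m) p}), ∃ q : {p : Cn m // Par (FF m) p},
      q.1 ≤ p.1 ∧ ((e n).ev m q.1.1 ∨ ∀ r ≤ q.1, ¬ (e n).ev m r.1) := fun n ⟨p, _⟩ => by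
    have := (e n).tm (m := m)
    obtain ⟨q, h₁, h₂⟩ := wit_par (m := m)
      (Q := fun q => q ≤ p ∧ ((e n).ev m q.1 ∨ ∀ r ≤ q, ¬ (e n).ev m r.1)) (by fun_prop) (by
        by_cases h : ∃ r ≤ p, (e n).ev m r.1
        exacts [let ⟨r, h₁, h₂⟩ := h; ⟨r, h₁, Or.inl h₂⟩,
          ⟨p, le_rfl, Or.inr fun r h₁ h₂ => h ⟨r, h₁, h₂⟩⟩])
    exact ⟨⟨q, h₁⟩, h₂⟩
  choose f h₁ h₂ using st
  obtain ⟨p, hp, -⟩ := wit_par (m := m) (Q := fun _ : Cn m => True) (by fun_prop)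
    ⟨Classical.arbitrary _, trivial⟩
  let s : ℕ → {p : Cn m // Par (FF m) p} := fun n => n.rec ⟨p, hp⟩ f
  refine ⟨⟨fun n => (s n).1, antitone_nat_of_succ_le fun n => h₁ n _, fun n => (s n).2,
    fun D hD => ?_⟩⟩
  obtain ⟨c, hc⟩ := FF_tm (m := m) (R := fun x => ∃ p : Cn m, p.1 = x ∧ D p) (by fun_prop)
  obtain ⟨n, rfl⟩ := he c
  have : ∀ p : Cn m, (e n).ev m p.1 ↔ D p := fun p =>
    hc ▸ ⟨fun ⟨q, e, h⟩ => (Subtype.ext e : q = p) ▸ h, fun h => ⟨p, rfl, h⟩⟩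
  exact ⟨n + 1, by simpa only [this] using h₂ n (s n)⟩

end Pool.Agent.MP_9a6faa_lc
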