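import Pool.Agent.MP_9a6faa_lc.Mach

namespace Pool.Agent.MP_9a6faa_lc

open Set Order FO

universe u v w

variable {m : Mach.{u}}

theorem lt_cd {t : Ordinal.{u}} (ht : 0 < t) (a b : Ordinal.{u}) :
    a < G t (G a b) ∧ b < G t (G a b) :=
  ⟨(left_le_G _ _).trans_lt (right_lt_G _ ht), (right_le_G _ _).trans_lt (right_lt_G _ ht)⟩

/-- Amenable classes of ordinals. -/
def AmS (m : Mach.{u}) (R : Unit → Ordinal.{u} → Prop) : Prop :=
  ∀ a, ∃ c, a ≤ c ∧ ∀ x < a, (P m c x ↔ R () x)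

theorem AmS.unary {R S : Unit → Ordinal.{u} → Prop} (t : Ordinal.{u}) (ht : 0 < t)
    (f : Ordinal.{u} → Ordinal.{u}) (hR : AmS m R) (hS : ∀ x, S () x ↔ R () (f x))
    (h : ∀ c x, x < c → (P m (G t (G c 0)) x ↔ P m c (f x))) : AmS m S := fun a => by
  obtain ⟨b, hb⟩ := bound_fun a f
  obtain ⟨c, h₁, h₂⟩ := hR (max a b)
  exact ⟨_, ((le_max_left _ _).trans h₁).trans (lt_cd ht c 0).1.le, fun x hx => by
    rw [h c x (hx.trans_le ((le_max_left _ _).trans h₁)), h₂ _ (lt_max_of_lt_right (hb x hx)), hS]⟩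

theorem ordCl_S (m : Mach.{u}) : OrdCl (AmS m) where
  nand := fun hR hS a => by
    obtain ⟨c, h₁, h₂⟩ := hR a
    obtain ⟨d, -, h₃⟩ := hS a
    have := h₁.trans (lt_cd one_pos c d).1.le
    exact ⟨_, this, fun x hx => by
      rw [P_iff]; simp [step, h₂ x hx, h₃ x hx, hx.trans_le this]⟩
  ex := fun {R} hR a => by
    obtain ⟨b, hb⟩ := bound_wit a (fun x y => R () (G x y))
    obtain ⟨c, h₁, h₂⟩ := hR (G a b)
    have h₀ : ∀ {x y}, x < a → y < b → G x y < G a b := G_lt_of_lt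
    obtain ⟨c', h₃, h₄⟩ := hR c
    obtain ⟨d, hd⟩ : ∃ d, d = G 8 (G c' (G a b)) := ⟨_, rfl⟩
    have hP : ∀ z, P m d z ↔ z < G a b ∧ R () z := fun z => by
      rw [P_iff, hd]
      have := (lt_cd (t := 8) (by simp) c' (G a b)).2
      by_cases hz : z < G a b
      · simp [step, hz, hz.trans this, h₄ z (hz.trans_le h₁)]
      · simp [step, hz]
    have := (left_le_G a _).trans (lt_cd two_pos d (G a d)).2.le
    refine ⟨_, this, fun x hx => ?_⟩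
    have h₅ : G d x < G 2 (G d (G a d)) :=
      (G_lt_G_right d (hx.trans_le (left_le_G _ _))).trans (right_lt_G _ two_pos)
    rw [P_iff]
    simp only [step, fst_G, snd_G, hx.trans_le this, h₅, hP]
    simp only [OfNat.ofNat_ne_one, false_and, true_and, OfNat.ofNat_eq_ofNat, Nat.reduceEqDiff,
      or_false, false_or]
    exact ⟨fun ⟨y, h⟩ => ⟨y, h.2⟩, fun h => let ⟨y, h₁, h₂⟩ := hb x hx h; ⟨y, h₀ hx h₁, h₂⟩⟩
  c4 := fun hR => hR.unary 4 (by simp) fst (fun _ => Iff.rfl) fun c x hx => by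
    rw [P_iff]; simp [step, hx.trans (lt_cd (t := 4) (by simp) c 0).1]
  c5 := fun hR => hR.unary 5 (by simp) _ (fun _ => Iff.rfl) fun c x hx => by
    rw [P_iff]; simp [step, hx.trans (lt_cd (t := 5) (by simp) c 0).1]
  c6 := fun hR => hR.unary 6 (by simp) _ (fun _ => Iff.rfl) fun c x hx => by
    rw [P_iff]; simp [step, hx.trans (lt_cd (t := 6) (by simp) c 0).1]
  c7 := fun hR => hR.unary 7 (by simp) _ (fun _ => Iff.rfl) fun c x hx => by
    rw [P_iff]; simp [step, hx.trans (lt_cd (t := 7) (by simp) c 0).1]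
  lt := fun a => by
    have := (lt_cd (t := 9) (by simp) a 0).1
    exact ⟨_, this.le, fun x hx => by rw [P_iff]; simp [step, hx.trans this]⟩

/-- The amenable classes as a first order calculus. -/
noncomputable def SS (m : Mach.{u}) : FO.{u, u + 1} Unit Ordinal.{u} := (ordCl_S m).fo

theorem AmS.exact {R : Unit → Ordinal.{u} → Prop} (h : AmS m R) (a : Ordinal.{u}) :
    ∃ c, ∀ x, P m c x ↔ x < a ∧ R () x := by
  obtain ⟨c, -, h⟩ := h a
  refine ⟨G 8 (G c a), fun z => ?_⟩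
  rw [P_iff]
  have := (lt_cd (t := 8) (by simp) c a).2
  by_cases hz : z < a
  · simp [step, hz, hz.trans this, h z hz]
  · simp [step, hz]

theorem amS_P : AmS m (fun _ x => P m (fst x) (snd x)) := fun a => by
  have := (lt_cd (t := 10) (by simp) a 0).1
  exact ⟨_, this.le, fun x hx => by rw [P_iff]; simp [step, hx.trans this]⟩

theorem amS_lt (b : Ordinal.{u}) : AmS m (fun _ x => x < b) := fun a => by
  have h := (ordCl_S m).nand (ordCl_S m).lt ((ordCl_S m).nand (ordCl_S m).lt (ordCl_S m).lt)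
  obtain ⟨c, h₁, h₂⟩ := h a
  have := h₁.trans (lt_cd (t := 8) (by simp) c b).1.le
  refine ⟨_, this, fun x hx => ?_⟩
  rw [P_iff]
  simp [step, hx.trans_le this, h₂ x hx]

instance : Full (SS m) := ⟨fun c => by
  have h₁ : (SS m).Am (fun _ x => x < c + 1) := amS_lt _
  have h₂ : (SS m).Am (fun _ x => x < c) := amS_lt _
  exact (h₁.and h₂.not).congr fun _ _ => by rw [lt_add_one_iff, not_lt, le_antisymm_iff]⟩

theorem am_mem {Am : (Unit → Ordinal.{u} → Prop) → Prop}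
    (h : Am (fun _ x => P m (fst x) (snd x))) : Am (fun _ z => ∃ s x, z = G s x ∧ P m s x) :=
  am_congr h fun _ z =>
    ⟨fun h => ⟨_, _, (G_fst_snd z).symm, h⟩, fun ⟨_, _, e, h⟩ => by simpa [e] using h⟩

theorem sep_of_amS {R : Unit → Ordinal.{u} → Prop} (h : AmS m R) (v a : Ordinal.{u}) :
    ∃ s, ∀ x < a, ∀ y < a, (P m s (G x y) ↔ R () (G v (G x y))) := by
  obtain ⟨c, -, hc⟩ := FO.Am.param (𝒜 := SS m) h v (G a a)
  exact ⟨c, fun x hx y hy => hc _ (G_lt_of_lt hx hy)⟩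

instance : HasSep (SS m) := ⟨fun _ => P m, am_mem amS_P, fun _ h _ => sep_of_amS h⟩

theorem amS_Q {R : Unit → Ordinal.{u} → Prop} (hR : AmS m R) :
    AmS m (fun _ x => m.Q (fun y => R () (G x y))) := fun a => by
  obtain ⟨c, h₁, h₂⟩ := hR (G a m.κ)
  have := ((left_le_G _ _).trans h₁).trans (lt_cd (t := 3) (by simp) c 0).1.le
  refine ⟨_, this, fun x hx => ?_⟩
  refine P_iff.trans (Iff.trans ?_ (m.congr fun y hy => h₂ _ (G_lt_of_lt hx hy)))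
  simp [step, hx.trans_le this]

instance : DQ (SS m) (fun _ => m) := ⟨Full.const _, fun _ => amS_Q⟩

noncomputable instance : Cd (SS m) Mach.{u} := cdW _ fun _ => m

instance : HasQ (SS m) := hasQ_cdW _

instance : Par (SS m) m := par_cdW _

theorem code_set {R : Ordinal.{u} → Prop} (h : (SS m).Tm R) (a : Ordinal.{u}) :
    ∃ c, ∀ x, P m c x ↔ x < a ∧ R x := AmS.exact ((ordCl_S m).tm_iff.1 h) a

theorem code_rel {R : Ordinal.{u} → Ordinal.{u} → Prop}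
    (h : (SS m).Tm (fun z : Ordinal.{u} × Ordinal.{u} => R z.1 z.2)) (a b : Ordinal.{u}) :
    ∃ c, ∀ x y, P m c (G x y) ↔ x < a ∧ y < b ∧ R x y := by
  obtain ⟨c, hc⟩ := code_set (m := m) (R := fun z => fst z < a ∧ snd z < b ∧ R (fst z) (snd z))
    (by fun_prop) (G a b)
  refine ⟨c, fun x y => (hc _).trans ?_⟩
  simp only [fst_G, snd_G]
  exact and_iff_right_of_imp fun h => G_lt_of_lt h.1 h.2.1

theorem code_graph {f : Ordinal.{u} → Ordinal.{u}} (h : (SS m).Tm f) (a : Ordinal.{u}) :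
    ∃ c, ∀ x y, P m c (G x y) ↔ x < a ∧ y = f x := by
  obtain ⟨b, hb⟩ := bound_fun a f
  obtain ⟨c, hc⟩ := code_rel (m := m) (R := fun x y => y = f x) (by fun_prop) a b
  exact ⟨c, fun x y => (hc x y).trans
    (and_congr_right fun hx => and_iff_right_of_imp fun e => e ▸ hb x hx)⟩

theorem ap_eq {c x y : Ordinal.{u}} (h : ∀ z ≤ y, P m c (G x z) ↔ z = y) : ap m c x = y :=
  mu_eq ((h y le_rfl).2 rfl) fun z hz h' => hz.ne ((h z hz.le).1 h')

theorem code_fun {f : Ordinal.{u} → Ordinal.{u}} (h : (SS m).Tm f) (a : Ordinal.{u}) :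
    ∃ c, ∀ x < a, ap m c x = f x := by
  obtain ⟨c, hc⟩ := code_graph h a
  exact ⟨c, fun x hx => ap_eq fun z _ => (hc x z).trans (and_iff_right hx)⟩

/-! ### Regularity -/

/-- Regularity with respect to a family of relations. -/
def RegA {I : Type} {V : Type v} (𝒜 : FO.{u, v} I V) (r : Ordinal.{u}) : Prop :=
  ∀ R : Ordinal.{u} → Ordinal.{u} → Prop,
    𝒜.Tm (fun z : Ordinal.{u} × Ordinal.{u} => R z.1 z.2) →
    ∀ y < r, ∃ b < r, ∀ i < y, (∃ v < r, R i v) → ∃ v < b, R i v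

def Reg (m : Mach.{u}) (r : Ordinal.{u}) : Prop := Ordinal.omega0 < r ∧
  ∀ c, ∀ y < r, ∃ b < r, ∀ i < y, (∃ v < r, P m c (G i v)) → ∃ v < b, P m c (G i v)

theorem Reg.regA {r : Ordinal.{u}} (h : Reg m r) : RegA (SS m) r := fun R hR y hy => by
  obtain ⟨c, hc⟩ := code_rel hR r r
  obtain ⟨b, h₁, h₂⟩ := h.2 c y hy
  refine ⟨b, h₁, fun i hi ⟨v, h₃, h₄⟩ => ?_⟩
  obtain ⟨w, h₅, h₆⟩ := h₂ i hi ⟨v, h₃, (hc _ _).2 ⟨hi.trans hy, h₃, h₄⟩⟩
  exact ⟨w, h₅, ((hc _ _).1 h₆).2.2⟩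

theorem RegA.bdd {I : Type} {V : Type v} {𝒜 : FO.{u, v} I V} {r : Ordinal.{u}} (h : RegA 𝒜 r)
    {f : Ordinal.{u} → Ordinal.{u}} (hf : 𝒜.Tm f) {y : Ordinal.{u}} (hy : y < r) :
    ∃ b < r, ∀ i < y, f i < r → f i < b := by
  obtain ⟨b, h₁, h₂⟩ := h (fun i v => v = f i) (by fun_prop) y hy
  exact ⟨b, h₁, fun i hi h => let ⟨_, h₃, e⟩ := h₂ i hi ⟨_, h, rfl⟩; e ▸ h₃⟩

theorem Reg.bdd {r : Ordinal.{u}} (h : Reg m r) {f : Ordinal.{u} → Ordinal.{u}}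
    (hf : (SS m).Tm f) {y : Ordinal.{u}} (hy : y < r) : ∃ b < r, ∀ i < y, f i < r → f i < b :=
  h.regA.bdd hf hy

theorem Reg.lim {r : Ordinal.{u}} (h : Reg m r) : Lim r :=
  ⟨Ordinal.omega0_pos.trans h.1, fun x hx => by
    obtain ⟨b, h₁, h₂⟩ := h.bdd (f := fun _ => x) (by fun_prop) (Ordinal.one_lt_omega0.trans h.1)
    exact (add_one_le_iff.2 (h₂ 0 one_pos hx)).trans_lt h₁⟩

theorem Reg.add {r : Ordinal.{u}} (h : Reg m r) {a b : Ordinal.{u}} (ha : a < r) (hb : b < r) :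
    a + b < r := by
  induction b using WellFoundedLT.induction with
  | ind b ih =>
    obtain ⟨c, h₁, h₂⟩ := h.bdd (f := fun i => a + i) (tm_add (by fun_prop) (by fun_prop)) hb
    refine lt_of_le_of_lt (not_lt.1 fun h₃ => ?_) (max_lt ha h₁)
    obtain ⟨x, hx⟩ := exists_add_of_le (le_max_left a c)
    have h₄ : x < b := lt_of_add_lt_add_left (hx ▸ h₃)
    exact (h₂ x h₄ (ih x h₄ (h₄.trans hb))).not_ge (hx ▸ le_max_right a c)

theorem Reg.gcl {r : Ordinal.{u}} (h : Reg m r) : Gcl r := by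
  have hH : ∀ a < r, Hf a < r := fun a ha => by
    induction a using WellFoundedLT.induction with
    | ind a ih =>
      obtain ⟨c, h₁, h₂⟩ := h.bdd (f := fun x => Hf x + x + x)
        (tm_add (tm_add (by fun_prop) Tm.id) Tm.id) ha
      exact (Hf_le_iff.2 fun x hx => add_one_le_iff.2 (h₂ x hx (h.add (h.add
        (ih x hx (hx.trans ha)) (hx.trans ha)) (hx.trans ha)))).trans_lt h₁
  exact ⟨h.1, fun a ha b hb => (G_le_Hf a b).trans_lt
    (h.add (h.add (hH _ (max_lt ha hb)) (max_lt ha hb)) (max_lt ha hb))⟩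

theorem Reg.limCl {r : Ordinal.{u}} (h : Reg m r) : LimCl r := fun x hx => by
  have hf : (SS m).Tm (fun z : ℕ × ℕ => gst^[z.2] (max x Ordinal.omega0)) :=
    tm_natRec (fun (_ : ℕ) n => gst^[n] (max x Ordinal.omega0)) (fun _ => max x Ordinal.omega0)
      (fun _ _ y => gst y) (fun _ => rfl) (fun _ n => Function.iterate_succ_apply' _ _ _)
      (by fun_prop) (by fun_prop)
  obtain ⟨b, h₁, h₂⟩ := h.bdd (f := fun i => gst^[toN i] (max x Ordinal.omega0))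
    (hf.comp (f := fun i => (0, toN i)) (by fun_prop)) h.1
  have h₃ : ∀ n, gst^[n] (max x Ordinal.omega0) < r := fun n => by
    induction n with
    | zero => exact max_lt hx h.1
    | succ n ih => rw [Function.iterate_succ_apply']; exact h.gcl.succ (h.gcl.G ih ih)
  obtain ⟨y, h₄, h₅, h₆⟩ := gcl_of_iter (le_max_right x _) (b := b) fun n => by
    simpa using h₂ n (Ordinal.natCast_lt_omega0 n) (by simpa using h₃ n)
  exact ⟨y, h₄.trans_lt h₁, (le_max_left _ _).trans_lt h₅, h₆⟩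

theorem exists_reg (m : Mach.{u}) (a : Ordinal.{u}) : ∃ r, a < r ∧ Reg m r := by
  obtain ⟨k, hk⟩ : ∃ k, k = succ (max a.card Cardinal.aleph0) := ⟨_, rfl⟩
  have hr : k.IsRegular := hk ▸ Cardinal.isRegular_succ (le_max_right _ _)
  refine ⟨k.ord, Cardinal.lt_ord.2 (hk ▸ lt_succ_of_le (le_max_left _ _)),
    Cardinal.lt_ord.2 (hk ▸ lt_succ_of_le (by simp)), fun c y hy => ?_⟩
  let f : y.ToType → Ordinal.{u} := fun i => mu (fun v => v < k.ord ∧ P m c (G i.toOrd v))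
  refine ⟨⨆ i, f i + 1, Ordinal.iSup_add_one_lt_of_lt_cof
    (by simpa [hr.cof_ord] using Cardinal.lt_ord.1 hy) fun i => ?_, fun i hi h => ?_⟩
  · by_cases h : ∃ v < k.ord, P m c (G i.toOrd v)
    · exact (mu_spec h).1
    · exact (mu_neg h).trans_lt hr.ord_pos
  · refine ⟨_, ?_, (mu_spec h).2⟩
    simpa [f] using Ordinal.lt_iSup_add_one f (Ordinal.ToType.mk ⟨i, hi⟩)

/-- The next regular ordinal. -/
noncomputable def sc (m : Mach.{u}) (a : Ordinal.{u}) : Ordinal.{u} :=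
  mu (fun r => a < r ∧ Reg m r)

theorem lt_sc (a : Ordinal.{u}) : a < sc m a := (mu_spec (exists_reg m a)).1

theorem reg_sc (a : Ordinal.{u}) : Reg m (sc m a) := (mu_spec (exists_reg m a)).2

/-- A bound for codes of subsets. -/
noncomputable def cb (m : Mach.{u}) (a : Ordinal.{u}) : Ordinal.{u} :=
  mu (fun y => a < y ∧ Gcl y ∧ ∀ c, ∃ c' < y, ∀ x < a, (P m c x ↔ P m c' x))

theorem cb_spec (m : Mach.{u}) (a : Ordinal.{u}) : a < cb m a ∧ Gcl (cb m a) ∧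
    ∀ c, ∃ c' < cb m a, ∀ x < a, (P m c x ↔ P m c' x) := by
  refine mu_spec (R := fun y => a < y ∧ Gcl y ∧ ∀ c, ∃ c' < y, ∀ x < a, (P m c x ↔ P m c' x)) ?_
  obtain ⟨b, hb⟩ := exists_bound (fun s : Set (Iio a) =>
    mu (fun c => ∀ x : Iio a, x ∈ s ↔ P m c x))
  obtain ⟨y, h₁, h₂, h₃⟩ := exists_gcl₂ a b
  refine ⟨y, h₁, h₃, fun c => ⟨_, (hb {x | P m c x}).trans h₂, fun x hx => ?_⟩⟩
  exact mu_spec (R := fun c' => ∀ x : Iio a, x ∈ {x : Iio a | P m c x} ↔ P m c' x)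
    ⟨c, fun _ => Iff.rfl⟩ ⟨x, hx⟩

theorem lt_cb (a : Ordinal.{u}) : a < cb m a := (cb_spec m a).1

theorem gcl_cb (a : Ordinal.{u}) : Gcl (cb m a) := (cb_spec m a).2.1

theorem code_set_cb {R : Ordinal.{u} → Prop} (h : (SS m).Tm R) (a : Ordinal.{u}) :
    ∃ c < cb m a, ∀ x < a, (P m c x ↔ R x) := by
  obtain ⟨c, hc⟩ := code_set h a
  obtain ⟨c', h₁, h₂⟩ := (cb_spec m a).2.2 c
  exact ⟨c', h₁, fun x hx => (h₂ x hx).symm.trans ((hc x).trans (and_iff_right hx))⟩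

theorem code_fun_cb {f : Ordinal.{u} → Ordinal.{u}} (h : (SS m).Tm f) {a : Ordinal.{u}}
    (ha : Gcl a) : ∃ c < cb m a, ∀ x < a, f x < a → ap m c x = f x := by
  obtain ⟨c, h₁, h₂⟩ := code_set_cb (m := m) (R := fun z => snd z = f (fst z)) (by fun_prop) a
  exact ⟨c, h₁, fun x hx h => ap_eq fun z hz => by simp [h₂ _ (ha.G hx (hz.trans_lt h))]⟩

/-! ### Cofinality -/

/-- `f` maps a subset of `a` cofinally into `b`. -/
def Cof (f : Ordinal.{u} → Ordinal.{u}) (a b : Ordinal.{u}) : Prop :=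
  ∀ x < b, ∃ i < a, x ≤ f i ∧ f i < b

noncomputable def cf (m : Mach.{u}) (b : Ordinal.{u}) : Ordinal.{u} :=
  mu (fun a => ∃ c, ∀ x < b, ∃ i < a, x ≤ ap m c i ∧ ap m c i < b)

theorem Cof.code {f : Ordinal.{u} → Ordinal.{u}} (hf : (SS m).Tm f) {a b : Ordinal.{u}}
    (h : Cof f a b) : ∃ c, Cof (ap m c) a b := by
  obtain ⟨c, hc⟩ := code_fun hf a
  exact ⟨c, fun x hx => let ⟨i, h₁, h₂⟩ := h x hx; ⟨i, h₁, (hc i h₁).symm ▸ h₂⟩⟩

theorem cf_le {f : Ordinal.{u} → Ordinal.{u}} (hf : (SS m).Tm f) {a b : Ordinal.{u}}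
    (h : Cof f a b) : cf m b ≤ a := mu_le (h.code hf)

theorem cf_spec (m : Mach.{u}) (b : Ordinal.{u}) : ∃ c, Cof (ap m c) (cf m b) b :=
  mu_spec (R := fun a => ∃ c, Cof (ap m c) a b)
    ⟨b, Cof.code Tm.id fun x hx => ⟨x, hx, le_rfl, hx⟩⟩

theorem bdd_of_lt_cf {f : Ordinal.{u} → Ordinal.{u}} (hf : (SS m).Tm f) {a b : Ordinal.{u}}
    (h : a < cf m b) : ∃ x < b, ∀ i < a, f i < b → f i < x := by
  by_contra h'
  push Not at h'
  exact (cf_le hf fun x hx => let ⟨i, h₁, h₂, h₃⟩ := h' x hx; ⟨i, h₁, h₃, h₂⟩).not_gt h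

theorem Reg.cf_eq {r : Ordinal.{u}} (h : Reg m r) : cf m r = r := by
  refine (cf_le Tm.id fun x hx => ⟨x, hx, le_rfl, hx⟩).antisymm (not_lt.1 fun h' => ?_)
  obtain ⟨c, hc⟩ := cf_spec m r
  obtain ⟨b, h₁, h₂⟩ := h.bdd (f := ap m c) (by fun_prop) h'
  obtain ⟨i, h₃, h₄, h₅⟩ := hc b h₁
  exact (h₂ i h₃ h₅).not_ge h₄

theorem lim_cf {b : Ordinal.{u}} (h : 1 < cf m b) : Lim (cf m b) := by
  refine ⟨one_pos.trans h, fun x hx => not_le.1 fun h' => ?_⟩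
  obtain ⟨d, hd⟩ := cf_spec m b
  obtain ⟨y, h₁, h₂⟩ := bdd_of_lt_cf (f := ap m d) (by fun_prop) hx
  have : ∃ z < b, ∀ i < cf m b, ap m d i < b → ap m d i ≤ z := by
    by_cases h₃ : ap m d x < b
    · refine ⟨_, max_lt h₁ h₃, fun i hi h₄ => ?_⟩
      rcases (lt_add_one_iff.1 (hi.trans_le h')).lt_or_eq with h₅ | rfl
      exacts [le_max_of_le_left (h₂ i h₅ h₄).le, le_max_right _ _]
    · refine ⟨y, h₁, fun i hi h₄ => ?_⟩
      rcases (lt_add_one_iff.1 (hi.trans_le h')).lt_or_eq with h₅ | rfl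
      exacts [(h₂ i h₅ h₄).le, absurd h₄ h₃]
  obtain ⟨z, h₃, h₄⟩ := this
  refine (cf_le (f := fun _ => z) (by fun_prop) fun w hw => ⟨0, one_pos, ?_, h₃⟩).not_gt h
  obtain ⟨i, h₅, h₆, h₇⟩ := hd w hw
  exact h₆.trans (h₄ i h₅ h₇)

theorem reg_cf {b : Ordinal.{u}} (h : Ordinal.omega0 < cf m b) : Reg m (cf m b) := by
  refine ⟨h, fun c y hy => ?_⟩
  obtain ⟨d, hd⟩ := cf_spec m b
  let g : Ordinal.{u} → Ordinal.{u} := fun i =>
    mu (fun x => ∀ j < ap m c i + 1, ap m d j < b → ap m d j < x)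
  obtain ⟨x, h₁, h₂⟩ := bdd_of_lt_cf (f := g) (by fun_prop) hy
  obtain ⟨j, h₃, h₄, h₅⟩ := hd x h₁
  refine ⟨j, h₃, fun i hi ⟨v, h₆, h₇⟩ => ⟨ap m c i, not_le.1 fun h₈ => ?_,
    mu_spec (R := fun y => P m c (G i y)) ⟨v, h₇⟩⟩⟩
  obtain ⟨z, h₉, h₀⟩ := bdd_of_lt_cf (f := ap m d) (by fun_prop)
    ((lim_cf (Ordinal.one_lt_omega0.trans h)).2 (ap m c i)
      ((mu_le (R := fun y => P m c (G i y)) h₇).trans_lt h₆))
  exact ((mu_spec (R := fun x => ∀ j < ap m c i + 1, ap m d j < b → ap m d j < x) ⟨z, h₀⟩ j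
    (lt_add_one_iff.2 h₈) h₅).trans (h₂ i hi ((mu_le h₀).trans_lt h₉))).not_ge h₄

theorem cf_eq_of_mono {f : Ordinal.{u} → Ordinal.{u}} (hf : (SS m).Tm f) {a b : Ordinal.{u}}
    (hb : Lim b) (mono : ∀ x y, x ≤ y → y < a → f x ≤ f y) (lt : ∀ x < a, f x < b)
    (cof : ∀ y < b, ∃ x < a, y ≤ f x) : cf m a = cf m b := by
  obtain ⟨c, hc⟩ := cf_spec m a
  obtain ⟨d, hd⟩ := cf_spec m b
  refine le_antisymm (cf_le (f := fun i => mu (fun x => x < a ∧ ap m d i ≤ f x)) (by fun_prop)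
    fun x hx => ?_) (cf_le (f := fun i => f (ap m c i)) (by fun_prop) fun y hy => ?_)
  · obtain ⟨i, h₁, h₂, h₃⟩ := hd _ (hb.2 _ (lt x hx))
    obtain ⟨h₄, h₅⟩ := mu_spec (cof _ h₃)
    exact ⟨i, h₁, not_lt.1 fun h => (add_one_le_iff.1 (h₂.trans h₅)).not_ge (mono _ _ h.le hx), h₄⟩
  · obtain ⟨x, h₁, h₂⟩ := cof y hy
    obtain ⟨i, h₃, h₄, h₅⟩ := hc x h₁
    exact ⟨i, h₃, h₂.trans (mono _ _ h₄ h₅), lt _ h₅⟩

/-! ### The distinguished sequence of regular ordinals -/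

noncomputable def th (m : Mach.{u}) : Ordinal.{u} := cb m m.κ

noncomputable def sa (m : Mach.{u}) (z : Ordinal.{u}) : Ordinal.{u} :=
  sc m (sc m (cb m (mu (fun y => Gcl y ∧ th m < y ∧ ∀ x : Iio z, sa m x < y))))
termination_by z
decreasing_by exact x.2

noncomputable def se (m : Mach.{u}) (z : Ordinal.{u}) : Ordinal.{u} :=
  mu (fun y => Gcl y ∧ th m < y ∧ ∀ x < z, sa m x < y)

noncomputable def sb (m : Mach.{u}) (z : Ordinal.{u}) : Ordinal.{u} := sc m (cb m (se m z))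

theorem sa_eq (m : Mach.{u}) (z : Ordinal.{u}) : sa m z = sc m (sb m z) := by
  rw [sa]
  simp only [sb, se, Subtype.forall, mem_Iio]

theorem se_spec (m : Mach.{u}) (z : Ordinal.{u}) :
    Gcl (se m z) ∧ th m < se m z ∧ ∀ x < z, sa m x < se m z := by
  refine mu_spec (R := fun y => Gcl y ∧ th m < y ∧ ∀ x < z, sa m x < y) ?_
  obtain ⟨b, hb⟩ := bound_fun z (sa m)
  obtain ⟨y, h₁, h₂, h₃⟩ := exists_gcl₂ (th m) b
  exact ⟨y, h₃, h₁, fun x hx => (hb x hx).trans h₂⟩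

theorem se_lt_sb (z : Ordinal.{u}) : se m z < sb m z := (lt_cb _).trans (lt_sc _)

theorem sb_lt_sa (z : Ordinal.{u}) : sb m z < sa m z := sa_eq m z ▸ lt_sc _

theorem reg_sb (z : Ordinal.{u}) : Reg m (sb m z) := reg_sc _

theorem reg_sa (z : Ordinal.{u}) : Reg m (sa m z) := sa_eq m z ▸ reg_sc _

theorem sa_lt_sb {x z : Ordinal.{u}} (h : x < z) : sa m x < sb m z :=
  ((se_spec m z).2.2 x h).trans (se_lt_sb z)

theorem sa_strictMono : StrictMono (sa m) := fun _ z h => (sa_lt_sb h).trans (sb_lt_sa z)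

theorem th_lt_sb (z : Ordinal.{u}) : th m < sb m z := (se_spec m z).2.1.trans (se_lt_sb z)

theorem th_lt_sa (z : Ordinal.{u}) : th m < sa m z := (th_lt_sb z).trans (sb_lt_sa z)

theorem κ_lt_th : m.κ < th m := lt_cb _

theorem gcl_th : Gcl (th m) := gcl_cb _

/-- The ordinals that will get cofinality `ω`. -/
def Dt (m : Mach.{u}) (a : Ordinal.{u}) : Prop :=
  Lim a ∧ (cf m a ≤ th m ∨ ∃ z < th m, cf m a = sa m z)

theorem dt_sa {z : Ordinal.{u}} (h : z < th m) : Dt m (sa m z) :=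
  ⟨(reg_sa z).lim, Or.inr ⟨z, h, (reg_sa z).cf_eq⟩⟩

theorem not_dt_sb (z : Ordinal.{u}) : ¬ Dt m (sb m z) := by
  rintro ⟨-, h | ⟨x, -, h⟩⟩ <;> rw [(reg_sb z).cf_eq] at h
  · exact (th_lt_sb z).not_ge h
  · rcases lt_or_ge x z with h' | h'
    exacts [(sa_lt_sb h').ne' h, ((sb_lt_sa z).trans_le (sa_strictMono.monotone h')).ne h]

theorem Dt.of_le {a : Ordinal.{u}} (h : Lim a) (h' : cf m a ≤ th m) : Dt m a := ⟨h, Or.inl h'⟩

theorem dt_congr {a b : Ordinal.{u}} (ha : Lim a) (hb : Lim b) (h : cf m a = cf m b) :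
    Dt m a ↔ Dt m b := by
  simp only [Dt, ha, hb, h]

namespace FO

variable {I : Type} {V : Type v} {𝒜 : FO.{u, v} I V} {Γ : Type*} [Cd 𝒜 Γ]
variable [Cd 𝒜 Mach.{u}] [HasQ 𝒜] [HasSep 𝒜] {m : Γ → Mach.{u}} {a : Γ → Ordinal.{u}}

@[fun_prop] theorem tm_Reg (hm : 𝒜.Tm m) (ha : 𝒜.Tm a) : 𝒜.Tm (fun z => Reg (m z) (a z)) := by
  unfold Reg; fun_prop

@[fun_prop] theorem tm_sc (hm : 𝒜.Tm m) (ha : 𝒜.Tm a) : 𝒜.Tm (fun z => sc (m z) (a z)) := by
  unfold sc; fun_prop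

@[fun_prop] theorem tm_cb (hm : 𝒜.Tm m) (ha : 𝒜.Tm a) : 𝒜.Tm (fun z => cb (m z) (a z)) := by
  unfold cb; fun_prop

@[fun_prop] theorem tm_cf (hm : 𝒜.Tm m) (ha : 𝒜.Tm a) : 𝒜.Tm (fun z => cf (m z) (a z)) := by
  unfold cf; fun_prop

@[fun_prop] theorem tm_th (hm : 𝒜.Tm m) : 𝒜.Tm (fun z => th (m z)) := by
  unfold th; fun_prop

@[fun_prop] theorem tm_sa (hm : 𝒜.Tm m) (ha : 𝒜.Tm a) : 𝒜.Tm (fun z => sa (m z) (a z)) :=
  (tm_frec (𝒜 := 𝒜) sa (fun m k z => sc m (sc m (cb m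
      (mu (fun y => Gcl y ∧ th m < y ∧ ∀ x < z, k x < y)))))
    (fun m z k hk => by
      rw [sa_eq, sb, se]
      congr 4
      exact funext fun y => propext (and_congr_right fun _ => and_congr_right fun _ =>
        forall₂_congr fun x hx => by rw [hk x hx]))
    (fun k hk => by fun_prop)).comp (hm.pair ha)

@[fun_prop] theorem tm_Dt (hm : 𝒜.Tm m) (ha : 𝒜.Tm a) : 𝒜.Tm (fun z => Dt (m z) (a z)) := by
  unfold Dt; fun_prop

end FO

end Pool.Agent.MP_9a6faa_lc
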