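import Pool.Agent.MP_9a6faa_lc.Cof

namespace Pool.Agent.MP_9a6faa_lc

open Set Order FO Filter Ordinal

universe u v

variable {m : Mach.{u}}

theorem UDef.isMeas (i : ℕ) : UDef.{v} (fun _ E w => IsMeas E (w i)) := by
  unfold IsMeas IsOmega IsOrd
  repeat' first
    | exact UDef.mem _ _ | exact UDef.eq _ _ | exact UDef.ne _ _ | exact UDef.app _ _ _
    | exact UDef.isFun _ _ _ | apply UDef.and | apply UDef.or | apply UDef.iff
    | apply UDef.not | apply UDef.imp | apply UDef.all | apply UDef.ex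

/-- Elementarity of the definable part of a definable structure. -/
theorem elem {A B : Type v} {EA : A → A → Prop} {EB : B → B → Prop} {f : Ordinal.{u} → A}
    {g : Ordinal.{u} → B} (hf : Function.Surjective f) (hg : ∀ b, ∃ z, Par (FF m) z ∧ g z = b)
    (t₁ : (FF m).Tm (fun z : Ordinal.{u} × Ordinal.{u} => EA (f z.1) (f z.2)))
    (t₂ : (FF m).Tm (fun z : Ordinal.{u} × Ordinal.{u} => f z.1 = f z.2))
    (e₁ : ∀ (s t) [Par (FF m) s] [Par (FF m) t], EB (g s) (g t) ↔ EA (f s) (f t))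
    (e₂ : ∀ (s t) [Par (FF m) s] [Par (FF m) t], g s = g t ↔ f s = f t) (φ : Fml) :
    (FF m).Tm (fun l : OL.{u} => Sat EA φ (env (f 0) (l.map f))) ∧ ∀ (l : OL.{u}) [Par (FF m) l],
      Sat EB φ (env (g 0) (l.map g)) ↔ Sat EA φ (env (f 0) (l.map f)) := by
  induction φ with
  | mem i j =>
    simp only [Sat, env, List.getD_map]
    exact ⟨t₁.comp (f := fun l : OL.{u} => (l.getD i 0, l.getD j 0)) (by fun_prop),
      fun _ _ => e₁ _ _⟩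
  | eq i j =>
    simp only [Sat, env, List.getD_map]
    exact ⟨t₂.comp (f := fun l : OL.{u} => (l.getD i 0, l.getD j 0)) (by fun_prop),
      fun _ _ => e₂ _ _⟩
  | bot => exact ⟨Tm.const False, fun _ _ => Iff.rfl⟩
  | imp φ ψ ih₁ ih₂ => exact ⟨tm_imp ih₁.1 ih₂.1, fun l _ => imp_congr (ih₁.2 l) (ih₂.2 l)⟩
  | all φ ih =>
    have e : ∀ l : OL.{u}, (∀ z, Sat EA φ (env (f 0) ((z :: l).map f))) ↔
        Sat EA φ.all (env (f 0) (l.map f)) := fun l => by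
      simp only [Sat, List.map_cons, env_cons, hf.forall]
    refine ⟨Tm.congrP (tm_all (ih.1.comp (f := fun z : OL.{u} × Ordinal.{u} => z.2 :: z.1)
      (by fun_prop))) e, fun l _ => Iff.trans ⟨fun h => all_par (ih.1.comp
        (f := fun z : Ordinal.{u} => z :: l) (by fun_prop)) fun z _ =>
          (ih.2 _).1 (env_cons _ _ _ ▸ h (g z)), fun h x => ?_⟩ (e l)⟩
    obtain ⟨z, _, rfl⟩ := hg x
    exact env_cons _ _ _ ▸ (ih.2 (z :: l)).2 (h z)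

namespace Gen

variable {g : Gen m}

theorem sat_iff {A d : Ordinal.{u}} [Par (FF m) A] [Par (FF m) d] (φ : QF) (l : OL.{u})
    [Par (FF m) l] : SatQ g.E (CofOm g.E) {x | g.E x (g.cv A)} (g.cv d) φ (l.map g.cv) ↔
      Sat0 m A d φ l := by
  induction φ generalizing l with
  | mem i j => simp only [Sat0, SatQ, List.getD_map]; exact cv_mem_iff
  | eq i j => simp only [Sat0, SatQ, List.getD_map]; exact cv_eq_iff
  | bot => rfl
  | imp φ ψ ih₁ ih₂ => exact imp_congr (ih₁ l) (ih₂ l)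
  | all φ ih =>
    refine ⟨fun h x hx => ?_, fun h x hx => ?_⟩
    · obtain ⟨z, hz, rfl⟩ := mem_val0.1 hx
      exact all_par (m := m) (Q := fun z => P m A z → Sat0 m A d φ (z :: l)) (by fun_prop)
        (fun z _ hz => (ih (z :: l)).1 (h _ (E_cv.2 ⟨z, ‹_›, hz, rfl⟩))) z hz
    · obtain ⟨z, _, hz, rfl⟩ := E_cv.1 hx
      exact (ih (z :: l)).2 (h _ (mem_val0.2 ⟨z, hz, rfl⟩))
  | cof φ ih =>
    exact (cof_iff (A := A) (S := fun s t => Mem0 m s A ∧ Mem0 m t A ∧ Sat0 m A d φ (s :: t :: l))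
      (by fun_prop) (fun _ _ h => ⟨h.1, h.2.1⟩) fun s t _ _ =>
        and_congr cv_mem_iff (and_congr cv_mem_iff (ih (s :: t :: l)))).trans
      (dcof_iff (R := fun x y => x ∈ val0 m A ∧ y ∈ val0 m A ∧ SatQ (· ∈ ·) (DCof m)
        {x | x ∈ val0 m A} (val0 m d) φ (x :: y :: l.map (val0 m)))
        fun x ⟨_, h⟩ => let ⟨c, _, e⟩ := mem_val0.1 (h.elim (·.1) (·.2.1)); ⟨c, e⟩)

theorem def_dc {A : Ordinal.{u}} [Par (FF m) A] (φ : QF) (l : OL.{u}) [Par (FF m) l] :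
    Defines g.E (CofOm g.E) {x | g.E x (g.cv A)} φ (l.map g.cv) (g.cv (dc m A φ l)) := fun x => by
  refine E_cv.trans ⟨?_, fun ⟨h₁, h₂⟩ => ?_⟩
  · rintro ⟨z, _, h, rfl⟩
    exact ⟨E_cv.2 ⟨z, ‹_›, (P_dc.1 h).1, rfl⟩, (sat_iff φ (z :: l)).2 (P_dc.1 h).2⟩
  · obtain ⟨z, _, h, rfl⟩ := E_cv.1 h₁
    exact ⟨z, ‹_›, P_dc.2 ⟨h, (sat_iff φ (z :: l)).1 h₂⟩, rfl⟩

theorem exists_cl {A : Ordinal.{u}} [Par (FF m) A] {l : List g.M} (h : ∀ y ∈ l, g.E y (g.cv A)) :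
    ∃ k : OL.{u}, Par (FF m) k ∧ (∀ x, x ∈ k → P m A x) ∧ k.map g.cv = l := by
  induction l with
  | nil => exact ⟨[], inferInstance, by simp, rfl⟩
  | cons a l ih =>
    obtain ⟨k, _, h₁, rfl⟩ := ih fun y hy => h y (List.mem_cons_of_mem _ hy)
    obtain ⟨z, _, h₂, rfl⟩ := E_cv.1 (h a List.mem_cons_self)
    exact ⟨z :: k, inferInstance, List.forall_mem_cons.2 ⟨h₂, h₁⟩, rfl⟩

/-- The hierarchy of the generic model. -/
def L (g : Gen m) (a : g.M) : Set g.M :=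
  {x | ∃ b, Par (FF m) b ∧ g.cv (on m b) = a ∧ g.E x (g.cv (lv m b))}

theorem L_on (a : Ordinal.{u}) [Par (FF m) a] :
    g.L (g.cv (on m a)) = {x | g.E x (g.cv (lv m a))} :=
  Set.ext fun _ => ⟨fun ⟨_, _, e, h⟩ => on_inj.1 e ▸ h, fun h => ⟨a, ‹_›, rfl, h⟩⟩

theorem isHier (g : Gen m) : IsHier g.E (CofOm g.E) g.L := fun a ha => by
  obtain ⟨a, _, rfl⟩ := isOrd_iff.1 ha
  rw [L_on]
  refine ⟨fun φ l hl => ?_, fun h => ?_, fun s hs => ?_, fun _ h => ?_⟩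
  · obtain ⟨k, _, -, rfl⟩ := exists_cl hl
    exact ⟨_, def_dc φ k⟩
  · obtain rfl : a = 0 := le_antisymm (not_lt.1 fun h' => h _ (on_lt.2 h')) zero_le
    refine Set.eq_empty_of_forall_notMem fun x hx => ?_
    obtain ⟨z, _, hz, -⟩ := E_cv.1 hx
    simpa using P_lv.1 hz
  · obtain rfl : s = g.cv (on m (a + 1)) := g.trP.ext fun x => (hs x).trans on_succ.symm
    rw [L_on]
    refine Set.ext fun x => ⟨fun hx => ?_, fun ⟨φ, l, h₁, h₂⟩ => ?_⟩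
    · obtain ⟨z, _, hz, rfl⟩ := E_cv.1 hx
      obtain ⟨φ, l, h₁, h₂⟩ := mem_Lv_succ.1 (mem_val0.2 ⟨z, hz, rfl⟩)
      obtain ⟨k, h₃, rfl⟩ := exists_codes h₁
      obtain ⟨k, hk, h₃, h₄⟩ := wit_par (m := m) (Q := fun k : OL.{u} =>
        (∀ x, x ∈ k → P m (lv m a) x) ∧ Eq0 m z (dc m (lv m a) φ k)) (by fun_prop)
        ⟨k, h₃, ZFSet.ext fun y => (h₂ y).trans mem_val0_dc.symm⟩
      refine ⟨φ, k.map g.cv, fun y hy => ?_, cv_eq_iff.2 h₄ ▸ def_dc φ k⟩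
      obtain ⟨w, hw, rfl⟩ := List.mem_map.1 hy
      exact E_cv.2 ⟨w, par_list.1 hk w hw, h₃ w hw, rfl⟩
    · obtain ⟨k, _, h₃, rfl⟩ := exists_cl h₁
      exact E_cv.2 ⟨_, inferInstance, P_lv.2 ⟨a, lt_add_one a, φ, k, h₃, rfl⟩,
        g.trP.ext fun y => (def_dc φ k y).trans (h₂ y).symm⟩
  · have hl : ∀ b < a, b + 1 < a := all_par (m := m) (by fun_prop) fun b _ hb => by
      obtain ⟨y, h₁, h₂⟩ := h _ (on_lt.2 hb)
      obtain ⟨c, h₃, _, rfl⟩ := E_on.1 h₁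
      exact (add_one_le_iff.2 (on_lt.1 h₂)).trans_lt h₃
    refine Set.ext fun x => ⟨fun hx => ?_, fun ⟨b, h₁, h₂⟩ => ?_⟩
    · obtain ⟨z, _, hz, rfl⟩ := E_cv.1 hx
      obtain ⟨b, _, h₁, h₂⟩ := wit_par (m := m) (Q := fun b => b < a ∧ Mem0 m z (lv m b))
        (by fun_prop) ((mem_Lv_lim hl).1 (mem_val0.2 ⟨z, hz, rfl⟩))
      exact ⟨_, on_lt.2 h₁, b, ‹_›, rfl, cv_mem_iff.2 h₂⟩
    · obtain ⟨b, h₃, _, rfl⟩ := E_on.1 h₁
      rw [L_on] at h₂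
      obtain ⟨z, _, hz, rfl⟩ := E_cv.1 h₂
      exact cv_mem_iff.2 (Lv_mono h₃.le (mem_val0.2 ⟨z, hz, rfl⟩))

theorem isMeas (g : Gen m) {k : Subtype (InC m)} (hk : IsMeas (ES (InC m)) k) :
    ∃ k : {x // ∃ a, IsOrd g.E a ∧ x ∈ g.L a}, IsMeas (fun x y => g.E x.1 y.1) k := by
  classical
  obtain ⟨cl, t, h₁, h₂⟩ : ∃ cl : Ordinal.{u} → Ordinal.{u}, (FF m).Tm cl ∧
      (∀ z, ∃ a, Mem0 m (cl z) (lv m a)) ∧ ∀ z, (∃ a, Mem0 m z (lv m a)) → cl z = z :=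
    ⟨fun z => if ∃ a, Mem0 m z (lv m a) then z else on m 0, by fun_prop, fun z => by
      dsimp only
      split_ifs with h
      exacts [h, by simp only [Mem0, val0_on]; exact inC_ord 0], fun z h => if_pos h⟩
  have h₃ : ∀ z, Par (FF m) z → ∃ a, IsOrd g.E a ∧ g.cv (cl z) ∈ g.L a := fun z _ => by
    have := par_of t z
    obtain ⟨a, _, h⟩ := wit_par (m := m) (by fun_prop) (h₁ z)
    exact ⟨_, isOrd_iff.2 ⟨a, ‹_›, rfl⟩, a, ‹_›, rfl, cv_mem_iff.2 h⟩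
  obtain ⟨φ, hφ⟩ := UDef.isMeas.{u + 1} 0
  have hf : Function.Surjective (fun z => (⟨val0 m (cl z), h₁ z⟩ : Subtype (InC m))) :=
    fun ⟨x, hx⟩ => by
      obtain ⟨c, rfl⟩ := hx.code
      exact ⟨c, Subtype.ext (congrArg (val0 m) (h₂ c hx))⟩
  obtain ⟨t', e⟩ := elem (m := m) (EA := ES (InC m))
    (EB := fun x y : {x // ∃ a, IsOrd g.E a ∧ x ∈ g.L a} => g.E x.1 y.1)
    (g := fun z => if h : Par (FF m) z then ⟨_, h₃ z h⟩ else ⟨_, h₃ 0 inferInstance⟩) hf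
    (fun ⟨x, _, _, b, _, _, h⟩ => by
      obtain ⟨z, hz, h', rfl⟩ := E_cv.1 h
      exact ⟨z, hz, (dif_pos hz).trans (Subtype.ext (congrArg g.cv
        (h₂ z ⟨b, mem_val0.2 ⟨z, h', rfl⟩⟩)))⟩)
    (Tm.congrP (Q := fun z => Mem0 m (cl z.1) (cl z.2)) (by fun_prop) fun _ => Iff.rfl)
    (Tm.congrP (Q := fun z => Eq0 m (cl z.1) (cl z.2)) (by fun_prop)
      fun _ => by simp only [Eq0, Subtype.mk.injEq])
    (fun s r hs hr => by
      have := par_of t s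
      have := par_of t r
      simp only [dif_pos hs, dif_pos hr]
      exact cv_mem_iff)
    (fun s r hs hr => by
      have := par_of t s
      have := par_of t r
      simp only [dif_pos hs, dif_pos hr, Subtype.mk.injEq]
      exact cv_eq_iff) φ
  obtain ⟨z, rfl⟩ := hf k
  obtain ⟨z, _, hz⟩ := wit_par (m := m) (t'.comp (f := fun z : Ordinal.{u} => [z]) (by fun_prop))
    ⟨z, (hφ _ _ _).2 hk⟩
  exact ⟨_, (hφ _ _ _).1 ((e [z]).2 hz)⟩

end Gen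

end Pool.Agent.MP_9a6faa_lc
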