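import Pool.Agent.MP_9a6faa_lc.Meas

namespace Pool.Agent.MP_9a6faa_lc

open Set Order FO Filter

universe u v w

theorem G_iso {A : Type*} (r : A → Ordinal.{u}) (D : A → A → A → Prop) (h₁ : ∀ c, ∃ a b, D c a b)
    (h₂ : ∀ {c a b c' a' b'}, D c a b → D c' a' b' →
      (r c < r c' ↔ ML (r a) (r b) (r a') (r b')))
    (h₃ : ∀ {c a b a' b'}, D c a b → ML (r a') (r b') (r a) (r b) → ∃ c', D c' a' b')
    (h₄ : ∀ a, ∀ v < r a, ∃ a', r a' = v) {c a b : A} (h : D c a b) : r c = G (r a) (r b) := by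
  induction c using rk_ind r generalizing a b with
  | h c ih =>
    refine eq_of_lt_iff fun x => ⟨fun hx => ?_, fun hx => ?_⟩
    · obtain ⟨c', rfl⟩ := h₄ c x hx
      obtain ⟨a', b', h'⟩ := h₁ c'
      rw [ih c' hx h', G_lt_iff]
      exact (h₂ h' h).1 hx
    · obtain ⟨s, t, rfl⟩ := G_surj x
      rw [G_lt_iff] at hx
      have key : ∀ y ≤ max s t, ∃ a', r a' = y := fun y hy => by
        have : y ≤ max (r a) (r b) := hy.trans (hx.elim le_of_lt fun h => h.1.le)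
        rcases le_max_iff.1 this with h | h <;> rcases h.lt_or_eq with h | h
        exacts [h₄ _ _ h, ⟨_, h.symm⟩, h₄ _ _ h, ⟨_, h.symm⟩]
      obtain ⟨a', rfl⟩ := key s (le_max_left _ _)
      obtain ⟨b', rfl⟩ := key t (le_max_right _ _)
      obtain ⟨c', h'⟩ := h₃ h hx
      have := (h₂ h' h).2 hx
      rwa [ih c' this h'] at this

theorem wit_le (m : Mach.{u}) (c : Ordinal.{u}) : wit m c ≤ c := by
  by_cases h : ∃ y, P m (fst c) (G (snd c) y)
  · have := mu_spec h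
    exact (right_le_G _ _).trans ((P_lt this).le.trans (fst_le c))
  · exact (mu_neg h).trans_le zero_le

def HN (m : Mach.{u}) (r : Ordinal.{u}) (e : OL.{u}) : ℕ → Ordinal.{u} → Prop
  | 0, v => v ∈ e ∧ v < r
  | n + 1, v => ∃ a b, HN m r e n a ∧ HN m r e n b ∧
      (v = a ∨ (v = G a b ∧ v < r) ∨ v = fst a ∨ v = snd a ∨ v = wit m a)

/-- The hull of a list below `r`. -/
def InH (m : Mach.{u}) (r : Ordinal.{u}) (e : OL.{u}) (v : Ordinal.{u}) : Prop := ∃ n, HN m r e n v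

variable {m : Mach.{u}} {r s a b v : Ordinal.{u}} {e e' : OL.{u}}

theorem HN.mono {n k : ℕ} (h : HN m r e n v) (hk : n ≤ k) : HN m r e k v := by
  induction k, hk using Nat.le_induction with
  | base => exact h
  | succ k _ ih => exact ⟨v, v, ih, ih, Or.inl rfl⟩

namespace InH

theorem base (h : v ∈ e) (h' : v < r) : InH m r e v := ⟨0, h, h'⟩

theorem pair (ha : InH m r e a) (hb : InH m r e b) (h : G a b < r) : InH m r e (G a b) :=
  let ⟨n, ha⟩ := ha; let ⟨k, hb⟩ := hb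
  ⟨max n k + 1, a, b, ha.mono (le_max_left _ _), hb.mono (le_max_right _ _), by simp [h]⟩

theorem fst (ha : InH m r e a) : InH m r e (fst a) :=
  let ⟨n, ha⟩ := ha; ⟨n + 1, a, a, ha, ha, by simp⟩

theorem snd (ha : InH m r e a) : InH m r e (snd a) :=
  let ⟨n, ha⟩ := ha; ⟨n + 1, a, a, ha, ha, by simp⟩

theorem wit (ha : InH m r e a) : InH m r e (wit m a) :=
  let ⟨n, ha⟩ := ha; ⟨n + 1, a, a, ha, ha, by simp⟩

theorem ind {C : Ordinal.{u} → Prop} (h₀ : ∀ v ∈ e, v < r → C v)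
    (h₁ : ∀ a b, C a → C b → G a b < r → C (G a b))
    (h₂ : ∀ a, C a → C (MP_9a6faa_lc.fst a) ∧ C (MP_9a6faa_lc.snd a) ∧ C (MP_9a6faa_lc.wit m a))
    (h : InH m r e v) : C v := by
  obtain ⟨n, h⟩ := h
  induction n generalizing v with
  | zero => exact h₀ v h.1 h.2
  | succ n ih =>
    obtain ⟨a, b, ha, hb, rfl | ⟨rfl, h⟩ | rfl | rfl | rfl⟩ := h
    exacts [ih ha, h₁ _ _ (ih ha) (ih hb) h, (h₂ _ (ih ha)).1, (h₂ _ (ih ha)).2.1,
      (h₂ _ (ih ha)).2.2]

theorem lt (h : InH m r e v) : v < r :=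
  h.ind (C := (· < r)) (fun _ _ h => h) (fun _ _ _ _ h => h) fun a h =>
    ⟨(fst_le a).trans_lt h, (snd_le a).trans_lt h, (wit_le m a).trans_lt h⟩

theorem cut (h : InH m r e v) (hr : r ≤ s) (he : ∀ x ∈ e, x < r → InH m s e' x) :
    InH m s e' v :=
  h.ind he (fun _ _ ha hb h => ha.pair hb (h.trans_le hr)) fun _ h => ⟨h.fst, h.snd, h.wit⟩

theorem mono (h : InH m r e v) (hr : r ≤ s) (he : ∀ x ∈ e, x ∈ e') : InH m s e' v :=
  h.cut hr fun x h₁ h₂ => base (he x h₁) (h₂.trans_le hr)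

theorem congr {m' : Mach.{u}} (h : InH m r e v) (hm : ∀ d < r, ∀ x, P m d x ↔ P m' d x) :
    InH m' r e v :=
  h.ind (fun _ => base) (fun _ _ => pair) fun a h => ⟨h.fst, h.snd, by
    have : MP_9a6faa_lc.wit m a = MP_9a6faa_lc.wit m' a :=
      congrArg mu (funext fun _ => propext (hm _ ((fst_le a).trans_lt h.lt) _))
    exact this ▸ h.wit⟩

theorem lim (h : InH m s e v) (hs : Lim s) : ∃ r < s, InH m r e v :=
  h.ind (C := fun v => ∃ r < s, InH m r e v)
    (fun v h₁ h₂ => ⟨v + 1, hs.2 v h₂, base h₁ (lt_add_one v)⟩)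
    (fun a b ⟨r, h₁, ha⟩ ⟨t, h₂, hb⟩ h => ⟨max (max r t) (G a b + 1),
      max_lt (max_lt h₁ h₂) (hs.2 _ h),
      (ha.mono (le_max_of_le_left (le_max_left _ _)) fun _ => id).pair
        (hb.mono (le_max_of_le_left (le_max_right _ _)) fun _ => id)
        (lt_max_of_lt_right (lt_add_one _))⟩)
    fun _ ⟨r, h₁, h⟩ => ⟨⟨r, h₁, h.fst⟩, ⟨r, h₁, h.snd⟩, r, h₁, h.wit⟩

theorem succ (h : InH m (r + 1) e v) :
    v = r ∨ InH m r (e ++ [MP_9a6faa_lc.fst r, MP_9a6faa_lc.snd r, MP_9a6faa_lc.wit m r]) v := by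
  have key : ∀ x ≤ r, x ∈ e ++ [MP_9a6faa_lc.fst r, MP_9a6faa_lc.snd r, MP_9a6faa_lc.wit m r] →
      x = r ∨ InH m r (e ++ [MP_9a6faa_lc.fst r, MP_9a6faa_lc.snd r, MP_9a6faa_lc.wit m r]) x :=
    fun x h₁ h₂ => h₁.eq_or_lt.imp_right (base h₂)
  refine h.ind (C := fun v => v = r ∨ InH m r _ v)
    (fun v h₁ h₂ => key v (lt_add_one_iff.1 h₂) (by simp [h₁])) (fun a b ha hb h => ?_) ?_
  · refine (lt_add_one_iff.1 h).eq_or_lt.imp_right fun h => ?_
    exact (ha.resolve_left ((left_le_G a b).trans_lt h).ne).pair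
      (hb.resolve_left ((right_le_G a b).trans_lt h).ne) h
  · rintro a (rfl | h)
    · exact ⟨key _ (fst_le _) (by simp), key _ (snd_le _) (by simp), key _ (wit_le _ _) (by simp)⟩
    · exact ⟨Or.inr h.fst, Or.inr h.snd, Or.inr h.wit⟩

theorem countable (m : Mach.{u}) (r : Ordinal.{u}) (e : OL.{u}) : {v | InH m r e v}.Countable := by
  have : ∀ n, {v | HN m r e n v}.Countable := fun n => by
    induction n with
    | zero => exact (List.finite_toSet e).countable.mono fun _ h => h.1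
    | succ n ih =>
      refine ((((ih.union (ih.image2 ih G)).union (ih.image MP_9a6faa_lc.fst)).union
        (ih.image MP_9a6faa_lc.snd)).union (ih.image (MP_9a6faa_lc.wit m))).mono ?_
      rintro v ⟨a, b, ha, hb, rfl | ⟨rfl, h⟩ | rfl | rfl | rfl⟩
      exacts [Or.inl (Or.inl (Or.inl (Or.inl ha))),
        Or.inl (Or.inl (Or.inl (Or.inr ⟨a, ha, b, hb, rfl⟩))),
        Or.inl (Or.inl (Or.inr ⟨a, ha, rfl⟩)), Or.inl (Or.inr ⟨a, ha, rfl⟩), Or.inr ⟨a, ha, rfl⟩]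
  exact (countable_iUnion this).mono fun v ⟨n, h⟩ => mem_iUnion.2 ⟨n, h⟩

end InH

/-- Finitely many small parameters can be replaced by one. -/
theorem InH.compress {y : Ordinal.{u}} (hy : Gcl y) (hs : y ≤ s) (p l : OL.{u})
    (hl : ∀ x ∈ l, x < s → ∃ b < y, InH m s (b :: p) x) :
    ∃ b < y, ∀ x ∈ l, x < s → InH m s (b :: p) x := by
  induction l with
  | nil => exact ⟨0, hy.pos, by simp⟩
  | cons x l ih =>
    obtain ⟨b, h₁, h₂⟩ := ih fun z hz => hl z (List.mem_cons_of_mem _ hz)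
    by_cases hx : x < s
    · obtain ⟨c, h₃, h₄⟩ := hl x List.mem_cons_self hx
      have h₅ : InH m s (G b c :: p) (G b c) := base (by simp) ((hy.G h₁ h₃).trans_le hs)
      refine ⟨G b c, hy.G h₁ h₃, fun z hz h₆ => ?_⟩
      rcases List.mem_cons.1 hz with rfl | hz
      · refine h₄.cut le_rfl fun w hw h₇ => ?_
        rcases List.mem_cons.1 hw with rfl | hw
        exacts [by simpa using h₅.snd, base (by simp [hw]) h₇]
      · refine (h₂ z hz h₆).cut le_rfl fun w hw h₇ => ?_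
        rcases List.mem_cons.1 hw with rfl | hw
        exacts [by simpa using h₅.fst, base (by simp [hw]) h₇]
    · exact ⟨b, h₁, fun z hz h₃ => h₂ z ((List.mem_cons.1 hz).resolve_left
        fun e => hx (e ▸ h₃)) h₃⟩

/-- Hypotheses of condensation. -/
structure Cond (m : Mach.{u}) (s : Ordinal.{u}) (H : Ordinal.{u} → Prop) : Prop where
  lt : ∀ {x}, H x → x < s
  pair : ∀ {a b}, H a → H b → G a b < s → H (G a b)
  fst : ∀ {a}, H a → H (fst a)
  snd : ∀ {a}, H a → H (snd a)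
  wit : ∀ {a}, H a → H (wit m a)
  nat : ∀ x < Ordinal.omega0, H x
  fix : ∀ X Y : Ordinal.{u} → Prop, (∀ y, H y → col H y = y → X y → Y y) → m.Q X → m.Q Y

namespace Cond

variable {H : Ordinal.{u} → Prop} (h : Cond m s H) {c d x y : Ordinal.{u}}
include h

omit h in
theorem col_ML {a' b' : Ordinal.{u}} (ha : H a) (hb : H b) (ha' : H a') (hb' : H b') :
    ML (col H a) (col H b) (col H a') (col H b') ↔ ML a b a' b' := by
  have mx : ∀ x y, max (col H x) (col H y) = col H (max x y) := fun x y =>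
    (Monotone.map_max fun _ _ => col_mono).symm
  have hm : ∀ {x y}, H x → H y → H (max x y) := fun {x y} hx hy => by
    rcases max_choice x y with e | e <;> rwa [e]
  have eq : ∀ {x y}, H x → H y → (col H x = col H y ↔ x = y) := fun hx hy =>
    ⟨col_inj hx hy, congrArg _⟩
  simp only [ML, mx, col_lt_iff (hm ha hb), col_lt_iff ha, col_lt_iff hb, eq ha ha',
    eq (hm ha hb) (hm ha' hb')]

theorem col_G (ha : H a) (hb : H b) (hs : G a b < s) : col H (G a b) = G (col H a) (col H b) :=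
  G_iso (A := {x // H x}) (fun x => col H x.1) (fun c a b => c.1 = G a.1 b.1)
    (fun c => ⟨⟨_, h.fst c.2⟩, ⟨_, h.snd c.2⟩, (G_fst_snd _).symm⟩)
    (fun {c a b c' a' b'} e e' => by
      rw [col_lt_iff c.2, col_ML a.2 b.2 a'.2 b'.2, e, e', G_lt_iff])
    (fun {c a b a' b'} e hl => ⟨⟨_, h.pair a'.2 b'.2 ((G_lt_iff.2
      ((col_ML a'.2 b'.2 a.2 b.2).1 hl)).trans (e ▸ h.lt c.2))⟩, rfl⟩)
    (fun _ _ hv => let ⟨z, _, h₁, h₂⟩ := col_surj hv; ⟨⟨z, h₁⟩, h₂⟩)
    (c := ⟨_, h.pair ha hb hs⟩) (a := ⟨a, ha⟩) (b := ⟨b, hb⟩) rfl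

theorem col_fst (ha : H a) : MP_9a6faa_lc.fst (col H a) = col H (MP_9a6faa_lc.fst a) := by
  rw [← G_fst_snd a, h.col_G (h.fst ha) (h.snd ha) (by simpa using h.lt ha)]; simp

theorem col_snd (ha : H a) : MP_9a6faa_lc.snd (col H a) = col H (MP_9a6faa_lc.snd a) := by
  rw [← G_fst_snd a, h.col_G (h.fst ha) (h.snd ha) (by simpa using h.lt ha)]; simp

theorem col_nat (ha : H a) (n : ℕ) : col H a = n ↔ a = n := by
  have hn := Ordinal.natCast_lt_omega0 n
  have : col H n = n := col_eq_self fun z hz => h.nat z (hz.trans hn)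
  exact ⟨fun e => col_inj ha (h.nat _ hn) (e.trans this.symm), fun e => e ▸ this⟩

theorem G_lt (ha : H a) (hb : H b) (hc : c ≤ s) : G (col H a) (col H b) < col H c ↔ G a b < c := by
  refine ⟨fun h' => ?_, fun h' => ?_⟩
  · obtain ⟨w, h₁, h₂, h₃⟩ := col_surj h'
    have e₁ := h.col_fst h₂
    have e₂ := h.col_snd h₂
    rw [h₃] at e₁ e₂
    rw [col_inj ha (h.fst h₂) (by simpa using e₁), col_inj hb (h.snd h₂) (by simpa using e₂)]
    simpa using h₁
  · rw [← h.col_G ha hb (h'.trans_le hc)]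
    exact col_lt (h.pair ha hb (h'.trans_le hc)) h'

theorem inv2 (ha : H a) (ih : ∀ x, H x → (P m (col H a) (col H x) ↔ P m a x)) (hx : H x)
    (hy : H y) : P m (col H a) (G (col H x) (col H y)) ↔ P m a (G x y) := by
  by_cases h' : G x y < a
  · rw [← h.col_G hx hy (h'.trans (h.lt ha)), ih _ (h.pair hx hy (h'.trans (h.lt ha)))]
  · exact iff_of_false (fun h₁ => h' ((h.G_lt hx hy (h.lt ha).le).1 (P_lt h₁)))
      fun h₁ => h' (P_lt h₁)

theorem inv3 (ha : H a) (ih : ∀ x, H x → (P m (col H a) (col H x) ↔ P m a x)) (hx : H x)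
    (h' : ∃ y, P m (col H a) (G (col H x) y)) : ∃ y, P m a (G x y) := by
  obtain ⟨y, hy⟩ := h'
  obtain ⟨z, -, h₁, rfl⟩ := col_surj ((right_le_G _ _).trans_lt (P_lt hy))
  exact ⟨z, (h.inv2 ha ih hx h₁).1 hy⟩

theorem P_inv (hd : H d) (hx : H x) : P m (col H d) (col H x) ↔ P m d x := by
  induction d using WellFoundedLT.induction generalizing x with
  | ind d ih =>
    have tg := h.col_nat (h.fst hd)
    have ha := h.fst (h.snd hd)
    have hb := h.snd (h.snd hd)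
    rw [P_iff, P_iff (d := d), step, step, col_lt_iff hx]
    refine and_congr_right fun hxd => ?_
    simp only [h.col_fst, h.col_snd, hd, hx, h.fst, h.snd]
    rcases eq_zero_or_pos (MP_9a6faa_lc.fst d) with h0 | h0
    · simp [h0, eq_comm (a := (0 : Ordinal.{u})), col_eq_self]
    have i₁ := fun x => ih _ ((fst_le _).trans_lt (snd_lt h0)) ha (x := x)
    have i₂ := fun x => ih _ ((snd_le _).trans_lt (snd_lt h0)) hb (x := x)
    refine or_congr (and_congr (by simpa using tg 1) ?_) (or_congr (and_congr (tg 2) ?_)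
      (or_congr (and_congr (tg 3) ?_) (or_congr (and_congr (tg 4) (i₁ _ (h.fst hx)))
      (or_congr (and_congr (tg 5) (h.inv2 ha i₁ (h.snd hx) (h.fst hx)))
      (or_congr (and_congr (tg 6) (h.inv2 ha i₁ (h.fst (h.fst hx)) (h.snd hx)))
      (or_congr (and_congr (tg 7) (h.inv2 ha i₁ (h.snd (h.fst hx)) (h.snd hx)))
      (or_congr (and_congr (tg 8) (and_congr (col_lt_iff hx) (i₁ _ hx)))
      (or_congr (and_congr (tg 9) (col_lt_iff (h.fst hx))) (and_congr (tg 10)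
        (ih _ ((fst_le _).trans_lt hxd) (h.fst hx) (h.snd hx)))))))))))
    · rw [i₁ _ hx, i₂ _ hx]
    · rw [h.G_lt ha hx (h.lt hd).le]
      refine and_congr_right fun h₁ => ⟨h.inv3 ha i₁ hx, fun h₂ => ?_⟩
      have h₃ := h.wit (h.pair ha hx (h₁.trans (h.lt hd)))
      rw [wit_G] at h₃
      exact ⟨_, (h.inv2 ha i₁ hx h₃).2 (mu_spec h₂)⟩
    · exact ⟨h.fix _ _ fun y hy e h₁ => (h.inv2 ha i₁ hx hy).1 (e.symm ▸ h₁),
        h.fix _ _ fun y hy e h₁ => e ▸ (h.inv2 ha i₁ hx hy).2 h₁⟩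

theorem P_inv2 (ha : H a) (hx : H x) (hy : H y) :
    P m (col H a) (G (col H x) (col H y)) ↔ P m a (G x y) :=
  h.inv2 ha (fun _ => h.P_inv ha) hx hy

theorem col_wit (hc : H c) : MP_9a6faa_lc.wit m (col H c) = col H (MP_9a6faa_lc.wit m c) := by
  rw [MP_9a6faa_lc.wit, h.col_fst hc, h.col_snd hc]
  by_cases h' : ∃ y, P m (MP_9a6faa_lc.fst c) (G (MP_9a6faa_lc.snd c) y)
  · refine mu_eq ((h.P_inv2 (h.fst hc) (h.snd hc) (h.wit hc)).2 (mu_spec h')) fun z hz h₁ => ?_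
    obtain ⟨y, h₂, h₃, rfl⟩ := col_surj hz
    exact not_of_lt_mu h₂ ((h.P_inv2 (h.fst hc) (h.snd hc) h₃).1 h₁)
  · rw [mu_neg fun h₁ => h' (h.inv3 (h.fst hc) (fun _ => h.P_inv (h.fst hc)) (h.snd hc) h₁),
      MP_9a6faa_lc.wit, mu_neg h', col_eq_self (by simp)]

end Cond

open Classical in
/-- The collapse, extended by the identity. -/
noncomputable def colx (s : Ordinal.{u}) (H : Ordinal.{u} → Prop) (x : Ordinal.{u}) : Ordinal.{u} :=
  if x < s then col H x else x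

theorem colx_le (H : Ordinal.{u} → Prop) (x : Ordinal.{u}) : colx s H x ≤ x := by
  unfold colx; split_ifs
  exacts [col_le _ _, le_rfl]

theorem Cond.inH {H : Ordinal.{u} → Prop} (h : Cond m s H) (hr : r ≤ s)
    (he : ∀ x ∈ e, x < s → H x) (hv : InH m r e v) :
    H v ∧ InH m (col H r) (e.map (colx s H)) (col H v) := by
  refine hv.ind (C := fun v => H v ∧ InH m (col H r) (e.map (colx s H)) (col H v))
    (fun x h₁ h₂ => ?_) (fun a b ha hb h₁ => ?_) fun a ha => ?_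
  · have h₃ := h₂.trans_le hr
    exact ⟨he x h₁ h₃, InH.base (List.mem_map.2 ⟨x, h₁, if_pos h₃⟩) (col_lt (he x h₁ h₃) h₂)⟩
  · refine ⟨h.pair ha.1 hb.1 (h₁.trans_le hr), ?_⟩
    rw [h.col_G ha.1 hb.1 (h₁.trans_le hr)]
    exact ha.2.pair hb.2 ((h.G_lt ha.1 hb.1 hr).2 h₁)
  · exact ⟨⟨h.fst ha.1, h.col_fst ha.1 ▸ ha.2.fst⟩, ⟨h.snd ha.1, h.col_snd ha.1 ▸ ha.2.snd⟩,
      h.wit ha.1, h.col_wit ha.1 ▸ ha.2.wit⟩

theorem Cond.QL {H : Ordinal.{u} → Prop} (h : Cond m s H) {R S : OL.{u} → Prop}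
    (hR : ∀ e : OL.{u}, (∀ x ∈ e, x < s → H x) → R e → S (e.map (colx s H))) {k : ℕ}
    (he : ∀ x ∈ e, x < s → H x) (h' : QL m R k e) : QL m S k (e.map (colx s H)) := by
  induction k generalizing e with
  | zero => exact hR e he h'
  | succ k ih =>
    refine h.fix _ _ (fun y hy e₁ h₁ => ?_) h'
    have := ih (e := y :: e) (by simpa [hy] using he) h₁
    rwa [List.map_cons, colx, if_pos (h.lt hy), e₁] at this

/-- A collapse that fixes a list and the top fixes its hull. -/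
theorem Cond.fixes {H : Ordinal.{u} → Prop} (h : Cond m s H) (hs : col H s = s)
    (he : ∀ x ∈ e, x < s → H x) (he' : e.map (colx s H) = e) (hv : InH m s e v) :
    H v ∧ col H v = v := by
  have key : ∀ {v}, InH m s e v → H v ∧ InH m s e (col H v) := fun hv => by
    simpa only [hs, he'] using h.inH le_rfl he hv
  refine ⟨(key hv).1, ?_⟩
  induction v using WellFoundedLT.induction with
  | ind v ih =>
    refine (col_le H v).eq_or_lt.resolve_right fun h₁ => ?_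
    exact (col_lt (key (key hv).2).1 h₁).ne (ih _ h₁ (key hv).2)

@[fun_prop] theorem FO.tm_InH {I : Type} {V : Type v} {𝒜 : FO.{u, v} I V} {Γ : Type*} [Cd 𝒜 Γ]
    [Cd 𝒜 Mach.{u}] [HasQ 𝒜] [HasSep 𝒜] {m : Γ → Mach.{u}} {r v : Γ → Ordinal.{u}}
    {e : Γ → OL.{u}} (hm : 𝒜.Tm m) (hr : 𝒜.Tm r) (he : 𝒜.Tm e) (hv : 𝒜.Tm v) :
    𝒜.Tm (fun z => InH (m z) (r z) (e z) (v z)) := by
  have := tm_grec (𝒜 := 𝒜) (A := ℕ × Ordinal.{u}) (fun a => a.1) (fun a => a.2) (by fun_prop)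
    (by fun_prop) (fun _ _ h h' => Prod.ext (Nat.cast_injective h) h')
    (fun (g : Γ) a => HN (m g) (r g) (e g) a.1 a.2)
    (fun g X z => (z.1 = 0 ∧ z.2 ∈ e g ∧ z.2 < r g) ∨ ∃ n, z.1 = n + 1 ∧ ∃ a b, X (n, a) ∧
      X (n, b) ∧ (z.2 = a ∨ (z.2 = G a b ∧ z.2 < r g) ∨ z.2 = fst a ∨ z.2 = snd a ∨
        z.2 = wit (m g) a))
    (fun g a x => x.1 < a.1 ∧ x.2 < r g) (by fun_prop)
    (fun g a => by
      obtain ⟨_ | n, v⟩ := a
      · simp [HN]
      · have : ∀ a, (a < r g ∧ HN (m g) (r g) (e g) n a) ↔ HN (m g) (r g) (e g) n a :=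
          fun a => and_iff_right_of_imp fun h => InH.lt ⟨n, h⟩
        simp [HN, this])
    (fun X hX => by fun_prop) (fun _ _ _ h => Nat.cast_lt.2 h.1) (fun g _ a =>
      ⟨max (r g) (a.2 + 1), lt_max_of_lt_right (lt_add_one _),
        fun _ _ _ _ h => lt_max_of_lt_left h.2⟩)
  exact tm_ex (this.comp (f := fun z : Γ × ℕ => (z.1, z.2, v z.1)) (by fun_prop))

end Pool.Agent.MP_9a6faa_lc
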