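import Pool.Agent.MP_9a6faa_lc.AE

namespace Pool.Agent.MP_9a6faa_lc

open Set Order FO Filter

universe u v w

noncomputable def dl (m : Mach.{u}) : Ordinal.{u} := mu (fun y => ∀ n : ℕ, sa m n < y)

theorem sa_lt_dl (m : Mach.{u}) (n : ℕ) : sa m n < dl m :=
  mu_spec (R := fun y => ∀ n : ℕ, sa m n < y) (exists_bound _) n

theorem lt_dl {m : Mach.{u}} {x : Ordinal.{u}} (h : x < dl m) : ∃ n : ℕ, x < sb m n := by
  have := not_of_lt_mu h
  push Not at this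
  obtain ⟨n, h⟩ := this
  exact ⟨n + 1, h.trans_lt (sa_lt_sb (by simp))⟩

theorem ev_lt_sb {m : Mach.{u}} {x : Ordinal.{u}} (h : x < dl m) : ∀ᶠ n : ℕ in atTop, x < sb m n := by
  obtain ⟨n, h⟩ := lt_dl h
  exact (eventually_gt_atTop n).mono fun k hk =>
    h.trans ((sb_lt_sa _).trans (sa_lt_sb (Nat.cast_lt.2 hk)))

theorem limCl_dl (m : Mach.{u}) : LimCl (dl m) := fun _ hx =>
  let ⟨n, h⟩ := lt_dl hx; ⟨_, sa_lt_dl m n, h.trans (sb_lt_sa _), (reg_sa _).gcl⟩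

theorem th_lt_dl (m : Mach.{u}) : th m < dl m := (th_lt_sa _).trans (sa_lt_dl m 0)

theorem gcl_dl (m : Mach.{u}) : Gcl (dl m) := (limCl_dl m).gcl (zero_le.trans_lt (th_lt_dl m))

/-- The machine of the iterated ultrapower. -/
noncomputable def Mach.it (m : Mach.{u}) : Mach.{u} :=
  ⟨dl m, fun X => ∀ᶠ n : ℕ in atTop, X (sa m n),
    fun _ _ h hX => hX.mono fun n => h _ (sa_lt_dl m n)⟩

namespace Meas

variable {μ : Meas.{u}}

theorem QL_iff_ae {s : OL.{u}} (hs : Dec s) {R : OL.{u} → Prop} :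
    QL μ.mach R s.length [] ↔ ∀ᶠ x in μ.AE, R (s.map x) := by
  have key : ∀ {R : OL.{u} → Prop}, QL μ.mach R s.length [] → ∀ᶠ x in μ.AE, R (s.map x) :=
    fun h => by
      obtain ⟨Z, h₁, h₂⟩ := QL_hom h
      exact (ae_gh s h₁).mono fun x hx => by
        simpa using h₂ (s.map x) (List.pairwise_map.2 (List.Pairwise.imp_of_mem
          (fun ha hb h => hx.2 _ hb _ ha h) hs)) (List.forall_mem_map.2 hx.1) (by simp)
  refine ⟨key, fun h => not_not.1 fun h' => ?_⟩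
  obtain ⟨x, h₁, h₂⟩ := (h.and (key (QL_not.2 h'))).exists
  exact h₂ h₁

theorem tm_ae {Γ : Type*} [Cd (SS μ.mach) Γ] {R : Γ → OL.{u} → Prop} {l : Γ → OL.{u}}
    (hR : (SS μ.mach).Tm (fun z : Γ × OL.{u} => R z.1 z.2)) (hl : (SS μ.mach).Tm l) :
    (SS μ.mach).Tm (fun z => ∀ᶠ x in μ.AE, R z ((l z).map x)) := by
  refine Tm.congrP (Q := fun z => ∃ s : OL.{u}, Dec s ∧ (∀ a, a ∈ s ↔ a ∈ l z) ∧
    QL μ.mach (fun y => ∃ w : OL.{u}, w.length = (l z).length ∧ (∀ i j : ℕ, i < (l z).length →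
      j < s.length → (l z).getD i 0 = s.getD j 0 → w.getD i 0 = y.getD j 0) ∧ R z w) s.length [])
    (by fun_prop) fun z => ?_
  have key : ∀ s : OL.{u}, (∀ a, a ∈ s ↔ a ∈ l z) → ∀ x : Asg.{u},
      (∃ w : OL.{u}, w.length = (l z).length ∧ (∀ i j : ℕ, i < (l z).length → j < s.length →
        (l z).getD i 0 = s.getD j 0 → w.getD i 0 = (s.map x).getD j 0) ∧ R z w) ↔
      R z ((l z).map x) := fun s hs x => by
    refine ⟨fun ⟨w, h₁, h₂, h₃⟩ => ?_, fun h => ⟨_, by simp, fun i j hi hj e => ?_, h⟩⟩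
    · rwa [← List.ext_getElem (l₁ := w) (l₂ := (l z).map x) (by simpa) fun i hi hi' => ?_]
      obtain ⟨j, hj, e⟩ := List.getElem_of_mem ((hs _).2 (List.getElem_mem (h₁ ▸ hi)))
      simpa [hi, hj, e] using h₂ i j (h₁ ▸ hi) hj (by simp [hj, e, h₁ ▸ hi])
    · simp only [List.getD_eq_getElem?_getD, List.getElem?_eq_getElem hi,
        List.getElem?_eq_getElem hj, Option.getD_some] at e
      simp [hi, hj, e]
  refine ⟨fun ⟨s, h₁, h₂, h₃⟩ => (QL_iff_ae h₁).1 h₃ |>.mono fun x => (key s h₂ x).1, fun h => ?_⟩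
  obtain ⟨s, h₁, h₂⟩ := exists_dec (l z)
  exact ⟨s, h₁, h₂, (QL_iff_ae h₁).2 (h.mono fun x => (key s h₂ x).2)⟩

variable (μ)

/-- Elements of the iterated ultrapower. -/
abbrev El (e : Asg.{u} → Ordinal.{u}) : Prop := μ.Fn (dl μ.mach) e

theorem el_wf : WellFounded (fun a b : {e // μ.El e} => ∀ᶠ x in μ.AE, a.1 x < b.1 x) :=
  wf_of_ctbl _ ae_point Subtype.val

noncomputable def rk0 : {e // μ.El e} → Ordinal.{u} :=
  μ.el_wf.fix fun _ ih => mu (fun a => ∀ e' h, ih e' h < a)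

open Classical in
noncomputable def rk (e : Asg.{u} → Ordinal.{u}) : Ordinal.{u} :=
  if h : μ.El e then μ.rk0 ⟨e, h⟩ else 0

variable {μ} {e e' : Asg.{u} → Ordinal.{u}}

theorem rk_eq (he : μ.El e) :
    μ.rk e = mu (fun a => ∀ e', μ.El e' → (∀ᶠ x in μ.AE, e' x < e x) → μ.rk e' < a) := by
  rw [rk, dif_pos he, rk0, WellFounded.fix_eq]
  refine congrArg mu (funext fun a => propext ?_)
  rw [Subtype.forall]
  exact forall₂_congr fun e' h => by rw [rk, dif_pos h, rk0]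

theorem rk_congr (he : μ.El e) (he' : μ.El e') (h : ∀ᶠ x in μ.AE, e x = e' x) :
    μ.rk e = μ.rk e' := by
  rw [rk_eq he, rk_eq he']
  refine congrArg mu (funext fun a => propext (forall₂_congr fun f _ => imp_congr_left ?_))
  exact eventually_congr (h.mono fun x hx => by rw [hx])

theorem rk_lt (he : μ.El e) (he' : μ.El e') (h : ∀ᶠ x in μ.AE, e x < e' x) :
    μ.rk e < μ.rk e' := by
  rw [rk_eq he']
  refine mu_spec (R := fun a => ∀ f, μ.El f → (∀ᶠ x in μ.AE, f x < e' x) → μ.rk f < a) ?_ e he h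
  obtain ⟨B, h₁, h₂, h₃⟩ := he'.bdd
  obtain ⟨a, ha⟩ := bound_fun (G (dl μ.mach) (cb μ.mach B))
    (fun z => μ.rk (μ.valc (decL (fst z)) (snd z)))
  refine ⟨a, fun f hf h₄ => ?_⟩
  obtain ⟨L, h₅, c, h₆, h₇⟩ := hf.rep h₁ h₂ ((h₄.and h₃).mono fun _ h => h.1.trans h.2)
  simpa [rk_congr hf (Fn.valc h₅ c) h₇] using ha _ (G_lt_of_lt ((gcl_dl _).encL h₅) h₆)

theorem ae_tri (he : μ.El e) (he' : μ.El e') : (∀ᶠ x in μ.AE, e x < e' x) ∨
    (∀ᶠ x in μ.AE, e x = e' x) ∨ ∀ᶠ x in μ.AE, e' x < e x := by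
  by_contra h
  rw [not_or, not_or, ← (he.pair he').ae_not (fun z => z.1 < z.2),
    ← (he.pair he').ae_not (fun z => z.1 = z.2), ← (he.pair he').ae_not (fun z => z.2 < z.1)] at h
  obtain ⟨x, h₁, h₂, h₃⟩ := (h.1.and (h.2.1.and h.2.2)).exists
  exact h₂ (le_antisymm (not_lt.1 h₃) (not_lt.1 h₁))

theorem rk_lt_iff (he : μ.El e) (he' : μ.El e') :
    μ.rk e < μ.rk e' ↔ ∀ᶠ x in μ.AE, e x < e' x := by
  refine ⟨fun h => ?_, rk_lt he he'⟩
  rcases ae_tri he he' with h' | h' | h'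
  exacts [h', absurd (rk_congr he he' h') h.ne, absurd (rk_lt he' he h') h.not_gt]

theorem rk_eq_iff (he : μ.El e) (he' : μ.El e') :
    μ.rk e = μ.rk e' ↔ ∀ᶠ x in μ.AE, e x = e' x := by
  refine ⟨fun h => ?_, rk_congr he he'⟩
  rcases ae_tri he he' with h' | h' | h'
  exacts [absurd h (rk_lt he he' h').ne, h', absurd h (rk_lt he' he h').ne']

theorem rk_down (he : μ.El e) {a : Ordinal.{u}} (h : a ≤ μ.rk e) : ∃ f, μ.El f ∧ μ.rk f = a := by
  obtain ⟨r, hr⟩ : ∃ r, μ.rk e = r := ⟨_, rfl⟩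
  induction r using WellFoundedLT.induction generalizing e with
  | ind r ih =>
    rcases h.eq_or_lt with rfl | h
    · exact ⟨e, he, rfl⟩
    · have := not_of_lt_mu (h.trans_eq (rk_eq he))
      push Not at this
      obtain ⟨f, h₁, h₂, h₃⟩ := this
      exact ih _ (hr ▸ rk_lt h₁ he h₂) h₁ h₃ rfl

variable (μ) in
noncomputable def j (a : Ordinal.{u}) : Ordinal.{u} := μ.rk (fun _ => a)

variable (μ) in
noncomputable def kp (b : Ordinal.{u}) : Ordinal.{u} := μ.rk (fun x => x b)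

theorem j_strictMono : StrictMono μ.j := fun _ _ h =>
  rk_lt (Fn.const _) (Fn.const _) (Eventually.of_forall fun _ => h)

theorem rk_surj (a : Ordinal.{u}) : ∃ f, μ.El f ∧ μ.rk f = a :=
  rk_down (Fn.const a) j_strictMono.le_apply

theorem El.max (he : μ.El e) (he' : μ.El e') : μ.El (fun x => max (e x) (e' x)) :=
  (he.pair he').comp (f := fun z => Max.max z.1 z.2) (by fun_prop)

theorem El.G (he : μ.El e) (he' : μ.El e') : μ.El (fun x => G (e x) (e' x)) :=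
  (he.pair he').comp (f := fun z => MP_9a6faa_lc.G z.1 z.2) (by fun_prop)

theorem El.fst (he : μ.El e) : μ.El (fun x => fst (e x)) := he.comp (by fun_prop)

theorem El.snd (he : μ.El e) : μ.El (fun x => snd (e x)) := he.comp (by fun_prop)

theorem rk_max (he : μ.El e) (he' : μ.El e') :
    max (μ.rk e) (μ.rk e') = μ.rk (fun x => max (e x) (e' x)) := by
  rcases ae_tri he he' with h | h | h
  · rw [max_eq_right (rk_lt he he' h).le]
    exact rk_congr he' (he.max he') (h.mono fun x hx => (max_eq_right hx.le).symm)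
  · rw [max_eq_right (rk_congr he he' h).le]
    exact rk_congr he' (he.max he') (h.mono fun x hx => (max_eq_right hx.le).symm)
  · rw [max_eq_left (rk_lt he' he h).le]
    exact rk_congr he (he.max he') (h.mono fun x hx => (max_eq_left hx.le).symm)

theorem rk_ML {f f' : Asg.{u} → Ordinal.{u}} (he : μ.El e) (hf : μ.El f) (he' : μ.El e')
    (hf' : μ.El f') (h : ML (μ.rk e) (μ.rk f) (μ.rk e') (μ.rk f')) :
    ∀ᶠ x in μ.AE, G (e x) (f x) < G (e' x) (f' x) := by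
  simp only [ML, rk_max, he, hf, he', hf', rk_lt_iff, rk_eq_iff, El.max] at h
  simp only [G_lt_iff]
  rcases h with h | ⟨h, h' | ⟨h', h''⟩⟩
  exacts [h.mono fun _ => Or.inl, (h.and h').mono fun _ h => Or.inr ⟨h.1, Or.inl h.2⟩,
    (h.and (h'.and h'')).mono fun _ h => Or.inr ⟨h.1, Or.inr h.2⟩]

theorem rk_G (he : μ.El e) (he' : μ.El e') :
    G (μ.rk e) (μ.rk e') = μ.rk (fun x => G (e x) (e' x)) :=
  (G_iso (A := {e // μ.El e}) (fun e => μ.rk e.1)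
    (fun c a b => c.1 = fun x => G (a.1 x) (b.1 x))
    (fun c => ⟨⟨_, c.2.fst⟩, ⟨_, c.2.snd⟩, by simp⟩)
    (fun {c a b c' a' b'} h h' => by
      rw [rk_lt_iff c.2 c'.2, h, h']
      refine ⟨fun h₁ => ?_, rk_ML a.2 b.2 a'.2 b'.2⟩
      rcases ML_tri (μ.rk a.1) (μ.rk b.1) (μ.rk a'.1) (μ.rk b'.1) with h₂ | h₂ | h₂
      · exact h₂
      · rw [rk_eq_iff a.2 a'.2, rk_eq_iff b.2 b'.2] at h₂
        obtain ⟨x, h₃, h₄, h₅⟩ := (h₁.and (h₂.1.and h₂.2)).exists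
        simp [h₄, h₅] at h₃
      · obtain ⟨x, h₃, h₄⟩ := (h₁.and (rk_ML a'.2 b'.2 a.2 b.2 h₂)).exists
        exact absurd h₃ h₄.not_gt)
    (fun {_ _ _ a b} _ _ => ⟨⟨_, a.2.G b.2⟩, rfl⟩)
    (fun _ v _ => let ⟨f, h₁, h₂⟩ := rk_surj v; ⟨⟨f, h₁⟩, h₂⟩)
    (c := ⟨_, he.G he'⟩) (a := ⟨e, he⟩) (b := ⟨e', he'⟩) rfl).symm

theorem rk_fst (he : μ.El e) : fst (μ.rk e) = μ.rk (fun x => fst (e x)) := by
  have := rk_G he.fst he.snd
  simp only [G_fst_snd] at this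
  rw [← this, fst_G]

theorem rk_snd (he : μ.El e) : snd (μ.rk e) = μ.rk (fun x => snd (e x)) := by
  have := rk_G he.fst he.snd
  simp only [G_fst_snd] at this
  rw [← this, snd_G]

/-! ### Critical points -/

variable {a b : Ordinal.{u}}

theorem kp_lt (h : a < b) (hb : b < dl μ.mach) : μ.kp a < μ.kp b :=
  rk_lt (Fn.proj (h.trans hb)) (Fn.proj hb) (ae_lt h)

theorem lt_kp (hb : b < dl μ.mach) (h : a < μ.kp b) :
    ∃ e, μ.Fn b e ∧ μ.rk e = a ∧ ∀ᶠ x in μ.AE, e x < μ.κ := by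
  obtain ⟨e, he, rfl⟩ := rk_surj (μ := μ) a
  have h₁ := (rk_lt_iff he (Fn.proj hb)).1 h
  obtain ⟨f, h₂, h₃⟩ := he.drop h₁
  exact ⟨f, h₂, (rk_congr he (h₂.mono hb.le) h₃).symm,
    (h₁.and (h₃.and (ae_mem μ.hκ b))).mono fun x h => h.2.1 ▸ h.1.trans h.2.2⟩

theorem rk_lt_kp (hb : b < dl μ.mach) (he : μ.Fn b e) (h : ∀ᶠ x in μ.AE, e x < μ.κ) :
    μ.rk e < μ.kp b :=
  rk_lt (he.mono hb.le) (Fn.proj hb) ((he.top (· < ·)).2 (h.mono fun _ => μ.hI _))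

theorem lt_kp_zero (h : a < μ.kp 0) : ∃ c < μ.κ, μ.j c = a := by
  obtain ⟨e, ⟨L, h₁, F, -, h₂⟩, rfl, h₃⟩ := lt_kp (gcl_dl _).pos h
  obtain rfl : L = [] := List.eq_nil_iff_forall_not_mem.2 fun a ha => by simpa using h₁ a ha
  obtain rfl : e = fun _ => F [] := funext h₂
  exact ⟨_, h₃.exists.elim fun _ => id, rfl⟩

theorem j_lt_kp (ha : a < μ.κ) : μ.j a < μ.kp 0 :=
  rk_lt_kp (gcl_dl _).pos (Fn.const a) (Eventually.of_forall fun _ => ha)

theorem j_small (ha : a < μ.κ) : μ.j a = a := by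
  induction a using WellFoundedLT.induction with
  | ind a ih =>
    refine le_antisymm (le_of_forall_lt fun x hx => ?_) j_strictMono.le_apply
    obtain ⟨c, h, rfl⟩ := lt_kp_zero (hx.trans (j_lt_kp ha))
    have := j_strictMono.lt_iff_lt.1 hx
    rwa [ih c this h]

theorem kp_zero : μ.kp 0 = μ.κ :=
  eq_of_lt_iff fun _ => ⟨fun h => let ⟨_, h₁, h₂⟩ := lt_kp_zero h; h₂ ▸ (j_small h₁).symm ▸ h₁,
    fun h => j_small h ▸ j_lt_kp h⟩

theorem kp_cont (hb : b < dl μ.mach) (hl : Lim b) (h : a < μ.kp b) : ∃ c < b, a < μ.kp c := by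
  obtain ⟨e, h₁, rfl, h₂⟩ := lt_kp hb h
  obtain ⟨c, h₃, h₄⟩ := h₁.small hl
  exact ⟨c, h₃, rk_lt_kp (h₃.trans hb) h₄ h₂⟩

theorem le_kp (hb : b < dl μ.mach) : b ≤ μ.kp b := by
  induction b using WellFoundedLT.induction with
  | ind b ih =>
    exact le_of_forall_lt fun x hx => (ih x hx (hx.trans hb)).trans_lt (kp_lt hx hb)

/-! ### The iteration is definable in the ground model -/

variable (μ) in
noncomputable def vc (z : Ordinal.{u}) : Asg.{u} → Ordinal.{u} := μ.valc (decL (fst z)) (snd z)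

variable (μ) in
def Ok (z : Ordinal.{u}) : Prop := ∀ a, a ∈ decL (fst z) → a < dl μ.mach

theorem Ok.el {z : Ordinal.{u}} (h : μ.Ok z) : μ.El (μ.vc z) := Fn.valc h _

theorem El.code (he : μ.El e) : ∃ z, μ.Ok z ∧ μ.rk (μ.vc z) = μ.rk e := by
  obtain ⟨B, h₁, h₂, h₃⟩ := he.bdd
  obtain ⟨L, h₄, c, -, h₅⟩ := he.rep h₁ h₂ h₃
  exact ⟨MP_9a6faa_lc.G (encL L) c, by simpa [Ok] using h₄, by simp [vc, rk_congr he (Fn.valc h₄ c) h₅]⟩

variable (μ) in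
/-- The least code of an ordinal of the iterate. -/
noncomputable def rep (a : Ordinal.{u}) : Ordinal.{u} := mu (fun z => μ.Ok z ∧ μ.rk (μ.vc z) = a)

theorem rep_spec (a : Ordinal.{u}) : μ.Ok (μ.rep a) ∧ μ.rk (μ.vc (μ.rep a)) = a := by
  obtain ⟨e, h, rfl⟩ := rk_surj (μ := μ) a
  exact mu_spec h.code

section Def

variable {Γ : Type*} [Cd (SS μ.mach) Γ] {f g : Γ → Ordinal.{u}}

@[fun_prop] theorem tm_Ok (hf : (SS μ.mach).Tm f) : (SS μ.mach).Tm (fun z => μ.Ok (f z)) := by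
  unfold Ok; fun_prop

variable (μ) in
def Ltc (y z : Ordinal.{u}) : Prop := ∀ᶠ x in μ.AE, μ.vc y x < μ.vc z x

@[fun_prop] theorem tm_Ltc (hf : (SS μ.mach).Tm f) (hg : (SS μ.mach).Tm g) :
    (SS μ.mach).Tm (fun z => μ.Ltc (f z) (g z)) := by
  refine (tm_ae (R := fun z w => ∃ s t : OL.{u}, w = s ++ t ∧
    s.length = (decL (fst (f z))).length ∧
    ap μ.mach (snd (f z)) (encL s) < ap μ.mach (snd (g z)) (encL t))
    (l := fun z => decL (fst (f z)) ++ decL (fst (g z))) (by fun_prop) (by fun_prop)).congrP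
    fun z => eventually_congr (Eventually.of_forall fun x => ⟨?_, fun h => ⟨_, _, List.map_append,
      by simp, h⟩⟩)
  rintro ⟨s, t, h₁, h₂, h₃⟩
  obtain ⟨rfl, rfl⟩ := List.append_inj (List.map_append.symm.trans h₁) (by simp [h₂])
  exact h₃

theorem rk_vc_iff {z : Ordinal.{u}} (hz : μ.Ok z) : μ.rk (μ.vc z) = a ↔
    (∀ c < a, μ.Ltc (μ.rep c) z) ∧ ∀ y, μ.Ok y → μ.Ltc y z → ∃ c < a, ¬ μ.Ltc (μ.rep c) y := by
  have key : ∀ c {y}, μ.Ok y → (μ.Ltc (μ.rep c) y ↔ c < μ.rk (μ.vc y)) := fun c y hy => by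
    rw [Ltc, ← rk_lt_iff (rep_spec c).1.el hy.el, (rep_spec c).2]
  constructor
  · rintro rfl
    exact ⟨fun c => (key c hz).2, fun y hy h =>
      ⟨_, rk_lt hy.el hz.el h, (key _ hy).not.2 (lt_irrefl _)⟩⟩
  · rintro ⟨h₁, h₂⟩
    refine le_antisymm (not_lt.1 fun h => ?_) (le_of_forall_lt fun c hc => (key c hz).1 (h₁ c hc))
    obtain ⟨c, h₃, h₄⟩ := h₂ _ (rep_spec a).1 ((key a hz).2 h)
    exact h₄ ((key c (rep_spec a).1).2 ((rep_spec a).2.symm ▸ h₃))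

@[fun_prop] theorem tm_rep (hf : (SS μ.mach).Tm f) : (SS μ.mach).Tm (fun z => μ.rep (f z)) :=
  (tm_frec (𝒜 := SS μ.mach) (Γ := Ordinal.{u}) (fun _ => μ.rep)
    (fun _ k a => mu (fun z => μ.Ok z ∧ (∀ c < a, μ.Ltc (k c) z) ∧
      ∀ y, μ.Ok y → μ.Ltc y z → ∃ c < a, ¬ μ.Ltc (k c) y))
    (fun _ a k hk => congrArg mu (funext fun z => propext (and_congr_right fun hz => by
      rw [rk_vc_iff hz]
      exact and_congr (forall₂_congr fun c hc => by rw [hk c hc]) (forall₃_congr fun _ _ _ =>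
        exists_congr fun c => and_congr_right fun hc => by rw [hk c hc]))))
    (fun k hk => by fun_prop)).comp (hf.pair hf)

variable (μ) in
noncomputable def rkc (z : Ordinal.{u}) : Ordinal.{u} :=
  mu (fun a => ¬ μ.Ltc (μ.rep a) z)

@[fun_prop] theorem tm_rkc (hf : (SS μ.mach).Tm f) : (SS μ.mach).Tm (fun z => μ.rkc (f z)) := by
  unfold rkc; fun_prop

theorem rkc_eq {z : Ordinal.{u}} (hz : μ.Ok z) : μ.rkc z = μ.rk (μ.vc z) := by
  have key : ∀ c, (μ.Ltc (μ.rep c) z ↔ c < μ.rk (μ.vc z)) := fun c => by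
    rw [Ltc, ← rk_lt_iff (rep_spec c).1.el hz.el, (rep_spec c).2]
  exact mu_eq ((key _).not.2 (lt_irrefl _)) fun c hc => not_not.2 ((key c).2 hc)

@[fun_prop] theorem tm_j (hf : (SS μ.mach).Tm f) : (SS μ.mach).Tm (fun z => μ.j (f z)) :=
  tm_of_rel (Q := fun z y => ∃ c, ap μ.mach c 0 = f z ∧ y = μ.rkc (G 0 c)) (by fun_prop)
    fun z y => by
      have : ∀ c, μ.rkc (G 0 c) = μ.j (ap μ.mach c 0) := fun c => by
        have e : decL (0 : Ordinal.{u}) = [] := decL_encL []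
        rw [rkc_eq (by simp [Ok, e]), vc, fst_G, snd_G, e]
        rfl
      obtain ⟨c, hc⟩ := code_fun (m := μ.mach) (f := fun _ => f z) (by fun_prop) 1
      exact ⟨fun ⟨c, h₁, h₂⟩ => h₁ ▸ h₂.trans (this c),
        fun h => ⟨c, hc 0 one_pos, by rw [this, hc 0 one_pos, h]⟩⟩

end Def

theorem Fn.code (he : μ.Fn b e) (hb : b ≤ dl μ.mach) {B y : Ordinal.{u}} (hB : Gcl B)
    (hk : μ.κ ≤ B) (h : ∀ᶠ x in μ.AE, e x < B) (hy : Gcl y) (h₁ : b ≤ y) (h₂ : cb μ.mach B ≤ y) :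
    ∃ z < y, μ.rkc z = μ.rk e := by
  obtain ⟨L, h₃, c, h₄, h₅⟩ := he.rep hB hk h
  have h₆ : ∀ a ∈ L, a < dl μ.mach := fun a ha => (h₃ a ha).trans_le hb
  refine ⟨G (encL L) c, hy.G (hy.encL fun a ha => (h₃ a ha).trans_le h₁) (h₄.trans_le h₂), ?_⟩
  rw [rkc_eq (by simpa [Ok] using h₆), rk_congr (he.mono hb) (Fn.valc h₆ c) h₅]
  simp [vc]

theorem kp_self (hr : Reg μ.mach a) (h₁ : th μ.mach < a) (h₂ : a < dl μ.mach) : μ.kp a = a := by
  refine le_antisymm (le_of_forall_lt fun x hx => ?_) (le_kp h₂)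
  obtain ⟨b, h₃, h₄⟩ := kp_cont h₂ hr.lim hx
  obtain ⟨y, h₅, h₆, h₇, h₈⟩ := hr.limCl.two h₃ h₁
  obtain ⟨c, h₉, h⟩ := hr.bdd (f := μ.rkc) (by fun_prop) h₅
  refine not_le.1 fun h' => ?_
  obtain ⟨e, he, e₁, he'⟩ := lt_kp (h₃.trans h₂) (h₉.trans (h'.trans_lt h₄))
  obtain ⟨z, hz, e₂⟩ := he.code (h₃.trans h₂).le μ.gcl le_rfl he' h₈ h₆.le h₇.le
  exact (h z hz (by rwa [e₂, e₁])).ne (e₂.trans e₁)

theorem kp_sa (n : ℕ) : μ.kp (sa μ.mach n) = sa μ.mach n :=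
  kp_self (reg_sa _) (th_lt_sa _) (sa_lt_dl _ n)

theorem kp_sb (n : ℕ) : μ.kp (sb μ.mach n) = sb μ.mach n :=
  kp_self (reg_sb _) (th_lt_sb _) ((sb_lt_sa _).trans (sa_lt_dl _ n))

theorem kp_lt_dl (hb : b < dl μ.mach) : μ.kp b < dl μ.mach := by
  obtain ⟨n, h⟩ := lt_dl hb
  have := (sb_lt_sa _).trans (sa_lt_dl μ.mach n)
  exact (kp_lt h this).trans (by rwa [kp_sb])

theorem j_κ : μ.j μ.κ = dl μ.mach := by
  refine eq_of_lt_iff fun x => ⟨fun h => ?_, fun h => (le_kp h).trans_lt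
    (rk_lt (Fn.proj h) (Fn.const _) (ae_mem μ.hκ x))⟩
  obtain ⟨e, he, rfl⟩ := rk_surj (μ := μ) x
  obtain ⟨c, h₁, h₂⟩ := he.small (gcl_dl _).lim
  exact (rk_lt_kp h₁ h₂ ((rk_lt_iff he (Fn.const _)).1 h)).trans (kp_lt_dl h₁)

end Meas

end Pool.Agent.MP_9a6faa_lc
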