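import Pool.Agent.MP_9a6faa_lc.Los

namespace Pool.Agent.MP_9a6faa_lc

open Set Order FO Filter

universe u v w

theorem mu_lt {a : Ordinal.{u}} {S : Ordinal.{u} → Prop} (h : ∃ c < a, S c) :
    mu S < a ∧ S (mu S) :=
  let ⟨c, h₁, h₂⟩ := h; ⟨(mu_le h₂).trans_lt h₁, mu_spec ⟨c, h₂⟩⟩

@[fun_prop] theorem FO.tm_lmap {I : Type} {V : Type v} {𝒜 : FO.{u, v} I V} {Γ : Type*} [Cd 𝒜 Γ]
    [HasSep 𝒜] {f : Γ → Ordinal.{u} → Ordinal.{u}} {l : Γ → OL.{u}}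
    (hf : 𝒜.Tm (fun z : Γ × Ordinal.{u} => f z.1 z.2)) (hl : 𝒜.Tm l) :
    𝒜.Tm (fun z => (l z).map (fun x => f z x)) :=
  (tm_listRec (𝒜 := 𝒜) (fun g (l : OL.{u}) => l.map (f g)) (fun _ => [])
    (fun g x _ r => f g x :: r) (fun _ => rfl) (fun _ _ _ => rfl) (by fun_prop)
    (by fun_prop)).comp (Tm.id.pair hl)

theorem FO.tm_of_am {V : Type v} {𝒜 : FO.{u, v} Unit V} {Γ : Type*} [Cd 𝒜 Γ] {R : Unit → V → Prop}
    (h : 𝒜.Am R) : 𝒜.Tm (fun x : Γ => R () (Cd.ι 𝒜 x)) := (Df.mk' h fun _ _ _ => Iff.rfl).tm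

theorem FO.am_of_tm {V : Type v} {𝒜 : FO.{u, v} Unit V} {R : 𝒜.Ob → Prop} (h : 𝒜.Tm R) :
    𝒜.Am (fun _ x => R x) :=
  Am.congr h.df fun _ x =>
    ⟨fun ⟨_, _, e, h⟩ => (show _ = x from e) ▸ h, fun h => ⟨x, trivial, rfl, h⟩⟩

instance (m : Mach.{u}) : DQ (SS m) (fun _ => m.it) where
  κ := Full.const _
  Q := fun R hR => by
    have h : (SS m).Tm (R ()) := (ordCl_S m).tm_iff.2 hR
    exact (ordCl_S m).tm_iff.1 (Tm.congrP (𝒜 := SS m)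
      (Q := fun x => ∃ k : ℕ, ∀ n : ℕ, k ≤ n → R () (G x (sa m n))) (by fun_prop)
      fun _ => eventually_atTop.symm)

section It

variable {m : Mach.{u}} {Γ : Type*} [Cd (SS m) Γ] {r b v : Γ → Ordinal.{u}} {p : Γ → OL.{u}}

@[fun_prop] theorem tm_ap_it (hr : (SS m).Tm r) (hb : (SS m).Tm b) :
    (SS m).Tm (fun z => ap m.it (r z) (b z)) := by
  let _ := cdW (SS m) fun _ => m.it
  have := hasQ_cdW (𝒜 := SS m) fun _ => m.it
  have := par_cdW (𝒜 := SS m) m.it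
  fun_prop

@[fun_prop] theorem tm_InH_it (hr : (SS m).Tm r) (hp : (SS m).Tm p) (hv : (SS m).Tm v) :
    (SS m).Tm (fun z => InH m.it (r z) (p z) (v z)) := by
  let _ := cdW (SS m) fun _ => m.it
  have := hasQ_cdW (𝒜 := SS m) fun _ => m.it
  have := par_cdW (𝒜 := SS m) m.it
  fun_prop

@[fun_prop] theorem tm_Gd_it (hr : (SS m).Tm r) (hp : (SS m).Tm p) (hb : (SS m).Tm b)
    (hv : (SS m).Tm v) : (SS m).Tm (fun z => Gd m.it (r z) (p z) (b z) (v z)) := by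
  let _ := cdW (SS m) fun _ => m.it
  have := hasQ_cdW (𝒜 := SS m) fun _ => m.it
  have := par_cdW (𝒜 := SS m) m.it
  fun_prop

/-- Lists from the distinguished sequence. -/
noncomputable def al (m : Mach.{u}) (i : Ordinal.{u}) : OL.{u} := (decL i).map (sa m)

@[fun_prop] theorem tm_al (hr : (SS m).Tm r) : (SS m).Tm (fun z => al m (r z)) := by
  unfold al; fun_prop

theorem exists_al {l : OL.{u}} (h : ∀ x ∈ l, ∃ n : ℕ, x = sa m n) :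
    ∃ i < Ordinal.omega0, al m i = l := by
  obtain ⟨k, h₁, rfl⟩ : ∃ k : OL.{u}, (∀ x ∈ k, x < Ordinal.omega0) ∧ k.map (sa m) = l := by
    induction l with
    | nil => exact ⟨[], by simp, rfl⟩
    | cons a l ih =>
      obtain ⟨k, h₁, rfl⟩ := ih fun x hx => h x (List.mem_cons_of_mem _ hx)
      obtain ⟨n, rfl⟩ := h a List.mem_cons_self
      exact ⟨n :: k, by simpa using h₁, rfl⟩
  exact ⟨_, encL_omega h₁, by simp [al]⟩

theorem Gd.al {r b v : Ordinal.{u}} {p : OL.{u}} (h : Gd m.it r p b v) :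
    ∃ i < Ordinal.omega0, InH m.it r (al m i ++ b :: p) v := by
  obtain ⟨k, h⟩ := h
  obtain ⟨l, h₁, h₂⟩ := h.exists (A := fun x => ∃ n : ℕ, x = sa m n) fun X hX =>
    let ⟨n, h⟩ := Eventually.exists hX; ⟨_, ⟨n, rfl⟩, h⟩
  obtain ⟨i, h₃, rfl⟩ := exists_al h₁
  exact ⟨i, h₃, h₂⟩

theorem Gd.countable (r b : Ordinal.{u}) (p : OL.{u}) : {v | Gd m.it r p b v}.Countable :=
  (countable_iUnion fun n : ℕ => InH.countable m.it r (MP_9a6faa_lc.al m n ++ b :: p)).mono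
    fun _ h => by
      obtain ⟨i, h₁, h₂⟩ := Gd.al h
      obtain ⟨n, rfl⟩ := Ordinal.lt_omega0.1 h₁
      exact mem_iUnion.2 ⟨n, h₂⟩

theorem Gd.mono {m : Mach.{u}} {r s b v : Ordinal.{u}} {p : OL.{u}} (h : Gd m r p b v)
    (hr : r ≤ s) : Gd m s p b v :=
  let ⟨k, h⟩ := h; ⟨k, h.mono' fun _ _ h => h.mono hr fun _ => id⟩

theorem Gd.lim {s b v : Ordinal.{u}} {p : OL.{u}} (h : Gd m.it s p b v) (hs : Lim s)
    (hc : Ordinal.omega0 < cf m s) : ∃ r < s, Gd m.it r p b v := by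
  obtain ⟨k, h⟩ := h
  obtain ⟨x, h₁, h₂⟩ := bdd_of_lt_cf
    (f := fun i => mu (fun r => InH m.it r (MP_9a6faa_lc.al m i ++ b :: p) v)) (by fun_prop) hc
  refine ⟨x, h₁, k, h.mono (A := fun x => ∃ n : ℕ, x = sa m n)
    (fun X Y h hX => Eventually.mono hX fun n => h _ ⟨n, rfl⟩) fun l hl h => ?_⟩
  obtain ⟨i, h₃, rfl⟩ := exists_al hl
  obtain ⟨h₄, h₅⟩ := mu_lt (h.lim hs)
  exact h₅.mono (h₂ i h₃ h₄).le fun _ => id

end It

theorem Base.const {m : Mach.{u}} {g v z z' : Ordinal.{u}} {t : Prop} {l e : OL.{u}} (hz : g ≤ z)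
    (h : Base m g t v (l ++ z :: e)) : Base m g t v (l ++ z' :: e) := by
  rcases h with ⟨ht, h⟩ | ⟨-, h₁, a, x, h₂, h₃⟩
  · refine Or.inl ⟨ht, h.cut le_rfl fun x h₁ h₂ => InH.base ?_ h₂⟩
    have : x ≠ z := (h₂.trans_le hz).ne
    simp only [List.mem_append, List.mem_cons] at h₁ ⊢
    tauto
  · have : z ∈ [a, x] := by simp [← h₂]
    have h₄ : max x a < z := (((max_le_G x a).trans_lt (P_lt h₃)).trans h₁).trans_le hz
    simp only [List.mem_cons, List.not_mem_nil, or_false] at this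
    rcases this with rfl | rfl <;> simp at h₄

namespace Meas

variable {μ : Meas.{u}} {V : Type v} {𝒞 : FO.{u, v} Unit V}

theorem bdd_of_ctbl [Full 𝒞] [HasSep 𝒞] {a : Ordinal.{u}} (ha : RegA 𝒞 a) (hk : μ.κ ≤ a)
    {T : Ordinal.{u} → Prop} (hT : 𝒞.Tm T) (hc : {x | T x}.Countable) :
    ∃ b < a, ∀ x < a, T x → x < b := by
  have h₁ : col T a < a := not_le.1 fun h => by
    have h₂ : (Iio μ.κ).Countable := (hc.image (col T)).mono fun x hx =>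
      let ⟨z, _, h₃, h₄⟩ := col_surj (lt_of_lt_of_le hx (hk.trans h)); h₄ ▸ mem_image_of_mem _ h₃
    obtain ⟨z, h₃, h₄⟩ := (μ.hκ.and ((eventually_countable_ball h₂
      (p := fun z b _ => b < z)).2 μ.hI)).exists
    exact (h₄ z h₃).false
  obtain ⟨b, h₂, h₃⟩ := ha (fun i v => T v ∧ col T v = i) (by fun_prop) _ h₁
  refine ⟨b, h₂, fun x hx h => ?_⟩
  obtain ⟨v, h₄, h₅, h₆⟩ := h₃ _ (col_lt h hx) ⟨x, hx, h, rfl⟩
  exact col_inj h₅ h h₆ ▸ h₄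

section Junk

variable [Full 𝒞] [HasSep 𝒞] {g a : Ordinal.{u}}
  (hG : ∀ r < g, ∀ p, 𝒞.Tm (fun z : Ordinal.{u} × Ordinal.{u} => Gd μ.mach.it r p z.1 z.2))
  (ha : RegA 𝒞 a) (hk : μ.κ < a) (hd : a < dl μ.mach)
include hG ha hk hd

theorem nr_bdd {r y : Ordinal.{u}} (h : NR μ.mach.it g r) (hy : y < a) (p : OL.{u}) :
    ∃ c < a, ∀ b < y, ∀ x < a, Gd μ.mach.it r p b x → x < c := by
  obtain ⟨r', h₁, p', h₂⟩ := h a hd p
  obtain ⟨R, hR, e⟩ : ∃ R : Ordinal.{u} × Ordinal.{u} → Prop, 𝒞.Tm R ∧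
    ∀ b x, R (b, x) ↔ Gd μ.mach.it r' p' b x := ⟨_, hG r' h₁ p', fun _ _ => Iff.rfl⟩
  obtain ⟨c, h₃, h₄⟩ := ha (fun b c => ∀ x < a, R (b, x) → x < c) (by fun_prop) y hy
  refine ⟨c, h₃, fun b hb x hx h => ?_⟩
  obtain ⟨v, h₅, h₆⟩ := h₄ b hb (bdd_of_ctbl ha hk.le (T := fun x => R (b, x)) (by fun_prop)
    (by simpa only [e] using Gd.countable r' b p'))
  exact (h₆ x hx ((e _ _).2 (h₂ b (hb.trans hy) x hx h))).trans h₅

theorem junk_top (h : ∀ r, NR μ.mach.it g r) (hl : LimCl a) (hj : ∀ b < dl μ.mach, μ.kp b ≠ a) :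
    cf μ.mach a ≤ th μ.mach := by
  obtain ⟨b, h₁, h₂⟩ := wellFounded_lt.has_min {b | b < dl μ.mach ∧ a ≤ μ.kp b} ⟨a, hd, le_kp hd⟩
  have h₃ := h₁.2.lt_of_ne (hj b h₁.1).symm
  replace h₂ : ∀ c < b, μ.kp c < a := fun c hc => not_le.1 fun h => h₂ c ⟨hc.trans h₁.1, h⟩ hc
  obtain ⟨y, h₄, h₅, h₆⟩ : ∃ y < a, Gcl y ∧ ∀ c < b, μ.kp c < y := by
    by_cases h : Lim b
    · obtain ⟨c, h₄, h₅⟩ := kp_cont h₁.1 h h₃
      exact absurd (h₂ c h₄) h₅.not_gt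
    · rcases eq_zero_or_pos b with rfl | h0
      · exact absurd (kp_zero ▸ h₃) hk.not_gt
      · simp only [Lim, h0, true_and, not_forall, not_lt] at h
        obtain ⟨x, h₄, h₅⟩ := h
        obtain ⟨y, h₆, h₇, h₈⟩ := hl _ (h₂ x h₄)
        refine ⟨y, h₆, h₈, fun c hc => lt_of_le_of_lt ?_ h₇⟩
        rcases (lt_add_one_iff.1 (hc.trans_le h₅)).eq_or_lt with rfl | h
        exacts [le_rfl, (kp_lt h (h₄.trans h₁.1)).le]
  refine cf_le (f := fun c => mu (fun x => ∀ b < y, ap μ.mach.it (μ.j c) b < a →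
    ap μ.mach.it (μ.j c) b < x)) (by fun_prop) fun x hx => ?_
  obtain ⟨e, h₇, rfl, h₈⟩ := lt_kp h₁.1 (hx.trans h₃)
  obtain ⟨L, h₉, c, hc, h₀⟩ := h₇.rep μ.gcl le_rfl h₈
  have hL : ∀ x ∈ L, x < dl μ.mach := fun x hx => (h₉ x hx).trans h₁.1
  rw [rk_congr (h₇.mono h₁.1.le) (Fn.valc hL c) h₀, rk_valc hL] at hx ⊢
  obtain ⟨r, h₁₀, h₁₁, h₁₂⟩ := exists_gcl₂ (μ.j c) y
  obtain ⟨w, h₁₃, h₁₄⟩ := nr_bdd hG ha hk hd (h r) h₄ [μ.j c]
  have h₁₅ : ∀ b < y, ap μ.mach.it (μ.j c) b < a → ap μ.mach.it (μ.j c) b < w := fun b hb h =>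
    h₁₄ b hb _ h ⟨0, wit_G _ _ _ ▸ InH.wit ((InH.base (by simp) h₁₀).pair
      (InH.base (by simp) (hb.trans h₁₁)) (h₁₂.G h₁₀ (hb.trans h₁₁)))⟩
  obtain ⟨h₁₆, h₁₇⟩ := mu_lt (S := fun w => ∀ b < y, ap μ.mach.it (μ.j c) b < a →
    ap μ.mach.it (μ.j c) b < w) ⟨w, h₁₃, h₁₅⟩
  exact ⟨c, hc, (h₁₇ _ (h₅.encL (List.forall_mem_map.2 fun x hx => h₆ x (h₉ x hx))) hx).le, h₁₆⟩

theorem junk_mid {s y : Ordinal.{u}} {p : OL.{u}} (hs : Lim s) (h : ∀ r < s, NR μ.mach.it g r)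
    (hl : Lim a) (hy : y < a) (hj : ∀ x < a, ∃ b < y, Gd μ.mach.it s p b x) :
    Dt μ.mach a ↔ cf μ.mach s ≤ Ordinal.omega0 ∨ Dt μ.mach s := by
  rcases le_or_gt (cf μ.mach s) Ordinal.omega0 with hc | hc
  · refine iff_of_true (Dt.of_le hl (le_trans ?_ gcl_th.1.le)) (Or.inl hc)
    obtain ⟨d, h₁⟩ := cf_spec μ.mach s
    refine cf_le (f := fun i => mu (fun c => ∀ b < y, ∀ x < a,
      InH μ.mach.it (ap μ.mach d (fst i)) (al μ.mach (snd i) ++ b :: p) x → x < c))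
      (by fun_prop) fun x hx => ?_
    obtain ⟨b, h₂, h₃⟩ := hj x hx
    obtain ⟨i, h₄, h₅⟩ := h₃.al
    obtain ⟨r, h₆, h₇⟩ := h₅.lim hs
    obtain ⟨n, h₈, h₉, h₀⟩ := h₁ r h₆
    obtain ⟨w, h₁₀, h₁₁⟩ := nr_bdd hG ha hk hd (h _ h₀) hy (al μ.mach i ++ p)
    obtain ⟨h₁₂, h₁₃⟩ := mu_lt (S := fun w => ∀ b < y, ∀ x < a,
      InH μ.mach.it (ap μ.mach d n) (al μ.mach i ++ b :: p) x → x < w) ⟨w, h₁₀,
      fun b hb x hx h => h₁₁ b hb x hx ⟨0, h.mono le_rfl fun x => by simp; tauto⟩⟩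
    refine ⟨G n i, G_omega (h₈.trans_le hc) h₄, ?_⟩
    simp only [fst_G, snd_G]
    exact ⟨(h₁₃ b h₂ x hx (h₇.mono h₉ fun _ => id)).le, h₁₂⟩
  · rw [or_iff_right hc.not_ge]
    have key := fun r hr => mu_lt (nr_bdd hG ha hk hd (h r hr) hy p)
    refine dt_congr hl hs (cf_eq_of_mono (f := fun r => mu (fun c => ∀ b < y, ∀ x < a,
      Gd μ.mach.it r p b x → x < c)) (by fun_prop) hl (fun r r' h₁ h₂ =>
      mu_le fun b hb x hx h => (key r' h₂).2 b hb x hx (h.mono h₁)) (fun r hr => (key r hr).1)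
      fun x hx => ?_).symm
    obtain ⟨b, h₁, h₂⟩ := hj x hx
    obtain ⟨r, h₃, h₄⟩ := h₂.lim hs hc
    exact ⟨r, h₃, ((key r h₃).2 b h₁ x hx h₄).le⟩

end Junk

variable (𝒞) in
def RegC [HasSep 𝒞] (a : Ordinal.{u}) : Prop := ∀ s : 𝒞.Ob, ∀ y < a, ∃ b < a, ∀ i < y,
  (∃ v < a, Mem2 ⟨()⟩ s i v) → ∃ v < b, Mem2 ⟨()⟩ s i v

theorem RegC.regA [HasSep 𝒞] {a : Ordinal.{u}} (h : RegC 𝒞 a) : RegA 𝒞 a := fun R hR y hy => by
  obtain ⟨s, hs⟩ := sep2 (𝒜 := 𝒞) (Γ := ℕ) (R := fun _ => R) (by fun_prop) (x := 0) (i := ())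
    trivial a
  obtain ⟨b, h₁, h₂⟩ := h s y hy
  refine ⟨b, h₁, fun i hi ⟨v, h₃, h₄⟩ => ?_⟩
  obtain ⟨w, h₅, h₆⟩ := h₂ i hi ⟨v, h₃, (hs _ (hi.trans hy) _ h₃).2 h₄⟩
  exact ⟨w, h₅, (hs _ (hi.trans hy) _ (h₅.trans h₁)).1 h₆⟩

variable (μ 𝒞) in
/-- The machine that guesses the measure of the iterate from the cofinality pattern. -/
noncomputable def guess [HasSep 𝒞] : Mach.{u} :=
  ⟨dl μ.mach, fun X => ∃ t : Prop, ∃ n < dl μ.mach, ∀ a, n ≤ a → a < dl μ.mach →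
    LimCl a → RegC 𝒞 a → (Dt μ.mach a ↔ t) → X a,
    fun _ _ h ⟨t, n, h₁, h₂⟩ => ⟨t, n, h₁, fun a h₃ h₄ h₅ h₆ h₇ => h a h₄ (h₂ a h₃ h₄ h₅ h₆ h₇)⟩⟩

instance : Par 𝒞 (⟨()⟩ : 𝒞.Wd) :=
  ⟨Tm.mk' (fun _ _ _ => rfl) (𝒞.fstR (Cd.rng (α := Ordinal.{u}))) fun _ x _ _ _ =>
    ⟨fun _ => rfl, fun _ => ⟨_, _, rfl, x, trivial, rfl⟩⟩⟩

theorem dq_guess [Full 𝒞] [HasSep 𝒞] (hD : 𝒞.Tm (Dt μ.mach)) : DQ 𝒞 (fun _ => μ.guess 𝒞) where
  κ := Full.const _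
  Q := fun R hR => by
    obtain ⟨S, hS, e⟩ : ∃ S : 𝒞.Ob × Ordinal.{u} → Prop, 𝒞.Tm S ∧
      ∀ x y, S (x, y) = R () (𝒞.pr x (𝒞.o y)) := ⟨_, tm_of_am hR, fun _ _ => rfl⟩
    obtain ⟨D, hD, e'⟩ : ∃ D : Ordinal.{u} → Prop, 𝒞.Tm D ∧ D = Dt μ.mach := ⟨_, hD, rfl⟩
    simp only [← e, guess, RegC, ← e']
    exact am_of_tm (by fun_prop)

theorem tail_base (g v : Ordinal.{u}) (t : Prop) (k : ℕ) (e : OL.{u}) :
    ∃ c < dl μ.mach, ∀ b, c ≤ b → b < dl μ.mach →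
      (QL μ.mach.it (fun l => Base μ.mach.it g t v l) k (μ.kp b :: e) ↔
        μ.mach.it.Q (fun y => QL μ.mach.it (fun l => Base μ.mach.it g t v l) k (y :: e))) := by
  simpa using tail_dec (μ := μ) (X := fun z => QL z.1 (fun l => Base z.1 (fst z.2.1) t
    (fst (snd z.2.1)) l) (toN (fst (snd (snd z.2.1)))) (z.2.2 :: decL (snd (snd (snd z.2.1)))))
    (by fun_prop) (G g (G v (G k (encL e))))

section Main

variable [Full 𝒞] [HasSep 𝒞] (hD : 𝒞.Tm (Dt μ.mach))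
  (hS : ∀ s : 𝒞.Ob, (SS μ.mach).Tm (fun z : Ordinal.{u} × Ordinal.{u} => Mem2 ⟨()⟩ s z.1 z.2))

omit [Full 𝒞] in
theorem P_guess_aux {g : Ordinal.{u}} (h : ∀ a < g, ∀ x,
    (μ.guess 𝒞).Q (fun z => P μ.mach.it a (G x z)) ↔ μ.mach.it.Q (fun z => P μ.mach.it a (G x z))) :
    ∀ d ≤ g, ∀ x, P (μ.guess 𝒞) d x ↔ P μ.mach.it d x := fun d => by
  induction d using WellFoundedLT.induction with
  | ind d ih =>
    intro hd x
    rw [P_iff, step_congr fun a ha => ih a ha (ha.le.trans hd), P_iff (d := d), step, step]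
    by_cases h₃ : fst d = 3
    · rw [h _ (((fst_le _).trans_lt (snd_lt (by simp [h₃]))).trans_le hd)]
    · simp only [h₃, false_and]

include hD hS

theorem guess_base (g : Ordinal.{u}) : ∀ (t : Prop) (k : ℕ) v e,
    (μ.guess 𝒞).Q (fun z => QL μ.mach.it (fun l => Base μ.mach.it g t v l) k (z :: e)) ↔
      μ.mach.it.Q (fun z => QL μ.mach.it (fun l => Base μ.mach.it g t v l) k (z :: e)) := by
  induction g using WellFoundedLT.induction with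
  | ind g ih =>
  intro t k v e
  obtain ⟨c, h₁, h₂⟩ := tail_base (μ := μ) g v t k e
  refine ⟨fun ⟨t, n, h₃, h₄⟩ => ?_, fun hQ => ?_⟩
  · have reg : ∀ {a}, Reg μ.mach a → RegC 𝒞 a := fun h s => h.regA _ (hS s)
    obtain ⟨i, h₅, h₆⟩ := ((ev_lt_sb h₁).and (ev_lt_sb h₃)).exists
    by_cases ht : t
    · rw [← h₂ _ (h₅.trans (sb_lt_sa _)).le (sa_lt_dl _ i), kp_sa]
      exact h₄ _ (h₆.trans (sb_lt_sa _)).le (sa_lt_dl _ i) (reg_sa _).limCl (reg (reg_sa _))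
        (iff_of_true (dt_sa (gcl_th.nat i)) ht)
    · have := (sb_lt_sa _).trans (sa_lt_dl μ.mach i)
      rw [← h₂ _ h₅.le this, kp_sb]
      exact h₄ _ h₆.le this (reg_sb _).limCl (reg (reg_sb _)) (iff_of_false (not_dt_sb _) ht)
  rcases lt_or_ge g (dl μ.mach) with hg | hg
  · obtain ⟨i, h₃, h₄⟩ := (Eventually.and hQ (ev_lt_sb hg)).exists
    exact ⟨True, g, hg, fun a _ _ _ _ _ => h₃.mono' fun l _ =>
      Base.const (h₄.trans (sb_lt_sa _)).le⟩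
  have hG : ∀ r < g, ∀ p,
      𝒞.Tm (fun z : Ordinal.{u} × Ordinal.{u} => Gd μ.mach.it r p z.1 z.2) := fun r hr p => by
    let _ := cdW 𝒞 fun _ => μ.guess 𝒞
    have := dq_guess hD
    have := hasQ_cdW (𝒜 := 𝒞) fun _ => μ.guess 𝒞
    have := par_cdW (𝒜 := 𝒞) (μ.guess 𝒞)
    refine Tm.congrP (Q := fun z => Gd (μ.guess 𝒞) r p z.1 z.2) (by fun_prop) fun z =>
      exists_congr fun k => ?_
    have hP := P_guess_aux (μ := μ) (𝒞 := 𝒞) (g := r) fun a ha x => by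
      simpa [QL, Base] using ih _ ((add_one_le_iff.2 ha).trans_lt hr) False 0 a [x]
    generalize z.1 :: p = l
    induction k generalizing l with
    | zero => exact ⟨fun h => InH.congr h fun d hd => hP d hd.le,
        fun h => InH.congr h fun d hd x => (hP d hd.le x).symm⟩
    | succ k ih' =>
      simp only [QL, ih']
      simpa [Base] using ih r hr True k z.2 l
  have hk : μ.κ < dl μ.mach := κ_lt_th.trans (th_lt_dl μ.mach)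
  rcases star_it g hg with h | ⟨s, p, hs, h, h₃⟩
  · have h₃ : μ.κ ≤ μ.kp c := kp_zero ▸ by
      rcases eq_zero_or_pos c with rfl | h
      exacts [le_rfl, (kp_lt h h₁).le]
    refine ⟨False, μ.kp c + 1, (gcl_dl _).succ (kp_lt_dl h₁), fun a h₄ h₅ h₆ h₇ h₈ => ?_⟩
    rw [add_one_le_iff] at h₄
    by_cases hj : ∃ b < dl μ.mach, μ.kp b = a
    · obtain ⟨b, h₉, rfl⟩ := hj
      exact (h₂ b (not_lt.1 fun h => h₄.not_gt (kp_lt h h₁)) h₉).2 hQ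
    · exact (h₈.1 (Dt.of_le (h₆.gcl (zero_le.trans_lt h₄)).lim (junk_top hG h₇.regA
        (h₃.trans_lt h₄) h₅ h h₆ fun b hb e => hj ⟨b, hb, e⟩))).elim
  · obtain ⟨n, h₄, h₅⟩ := h₃ t k v e hQ
    refine ⟨¬ (cf μ.mach s ≤ Ordinal.omega0 ∨ Dt μ.mach s), max n (μ.κ + 1),
      max_lt h₄ ((gcl_dl _).succ hk), fun a h₆ h₇ h₈ h₉ h₀ => not_not.1 fun hn => ?_⟩
    rw [max_le_iff, add_one_le_iff] at h₆
    obtain ⟨y, h₁₀, h₁₁⟩ := h₅ a h₆.1 h₇ h₈ hn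
    exact iff_not_self ((junk_mid hG h₉.regA h₆.2 h₇ hs h
      (h₈.gcl (zero_le.trans_lt h₆.2)).lim h₁₀ h₁₁).symm.trans h₀)

/-- The hierarchy of the iterate is definable from the cofinality pattern. -/
theorem tm_P_it : 𝒞.Tm (fun z : Ordinal.{u} × Ordinal.{u} => P μ.mach.it z.1 z.2) := by
  let _ := cdW 𝒞 fun _ => μ.guess 𝒞
  have := dq_guess hD
  have := hasQ_cdW (𝒜 := 𝒞) fun _ => μ.guess 𝒞
  have := par_cdW (𝒜 := 𝒞) (μ.guess 𝒞)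
  refine Tm.congrP (Q := fun z => P (μ.guess 𝒞) z.1 z.2) (by fun_prop) fun z =>
    P_guess_aux (fun a _ x => ?_) _ le_rfl _
  simpa [QL, Base] using guess_base hD hS (a + 1) False 0 a [x]

end Main

end Meas

end Pool.Agent.MP_9a6faa_lc
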