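import Pool.Agent.MP_9a6faa_lc.Rec

namespace Pool.Agent.MP_9a6faa_lc

open Set Order

universe u v w

abbrev OL := List Ordinal.{u}

open Classical in
noncomputable def decL (c : Ordinal.{u}) : OL.{u} := if h : ∃ l, encL l = c then h.choose else []

@[simp] theorem decL_encL (l : OL.{u}) : decL (encL l) = l := by
  have h : ∃ l', encL l' = encL l := ⟨l, rfl⟩
  rw [decL, dif_pos h]
  exact encL_inj h.choose_spec

theorem encL_map_le {f : Ordinal.{u} → Ordinal.{u}} (hf : ∀ x, f x ≤ x) (l : OL.{u}) :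
    encL (l.map f) ≤ encL l := by
  induction l with
  | nil => exact le_rfl
  | cons a l ih => exact add_le_add_left (G_mono (hf a) ih) 1

open Classical in
noncomputable def toN (c : Ordinal.{u}) : ℕ := if h : ∃ n : ℕ, c = n then h.choose else 0

@[simp] theorem toN_cast (n : ℕ) : toN (n : Ordinal.{u}) = n := by
  have h : ∃ k : ℕ, (n : Ordinal.{u}) = k := ⟨n, rfl⟩
  rw [toN, dif_pos h]
  exact Nat.cast_injective h.choose_spec.symm

/-- Limit ordinals. -/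
def Lim (a : Ordinal.{u}) : Prop := 0 < a ∧ ∀ x < a, x + 1 < a

/-- Limits of closed ordinals. -/
def LimCl (a : Ordinal.{u}) : Prop := ∀ x < a, ∃ y < a, x < y ∧ Gcl y

theorem Gcl.lim {a : Ordinal.{u}} (h : Gcl a) : Lim a := ⟨h.pos, fun _ => h.succ⟩

theorem Lim.nat {a : Ordinal.{u}} (h : Lim a) (n : ℕ) : (n : Ordinal.{u}) < a := by
  induction n with
  | zero => exact h.1
  | succ n ih => simpa using h.2 _ ih

theorem LimCl.two {a x y : Ordinal.{u}} (h : LimCl a) (hx : x < a) (hy : y < a) :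
    ∃ z < a, x < z ∧ y < z ∧ Gcl z := by
  obtain ⟨z, h₁, h₂, h₃⟩ := h _ (max_lt hx hy)
  exact ⟨z, h₁, (le_max_left _ _).trans_lt h₂, (le_max_right _ _).trans_lt h₂, h₃⟩

theorem LimCl.gcl {a : Ordinal.{u}} (h : LimCl a) (h0 : 0 < a) : Gcl a := by
  obtain ⟨y, h₁, -, h₂⟩ := h 0 h0
  refine ⟨h₂.1.trans h₁, fun x hx y hy => ?_⟩
  obtain ⟨z, h₁, h₂, h₃, h₄⟩ := h.two hx hy
  exact (h₄.G h₂ h₃).trans h₁

theorem exists_gcl₂ (a b : Ordinal.{u}) : ∃ y, a < y ∧ b < y ∧ Gcl y := by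
  obtain ⟨y, h₁, h₂⟩ := exists_gcl (max a b)
  exact ⟨y, (le_max_left _ _).trans_lt h₁, (le_max_right _ _).trans_lt h₁, h₂⟩

/-- The collapsing function of a class of ordinals. -/
noncomputable def col (T : Ordinal.{u} → Prop) (y : Ordinal.{u}) : Ordinal.{u} :=
  ⨆ z : {z : Iio y // T z}, col T z.1 + 1
termination_by y
decreasing_by exact z.1.2

theorem lt_col {T : Ordinal.{u} → Prop} {x y : Ordinal.{u}} :
    x < col T y ↔ ∃ z < y, T z ∧ x ≤ col T z := by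
  rw [col, Ordinal.lt_iSup_iff]
  simp only [lt_add_one_iff]
  exact ⟨fun ⟨z, h⟩ => ⟨z.1, z.1.2, z.2, h⟩, fun ⟨z, h₁, h₂, h⟩ => ⟨⟨⟨z, h₁⟩, h₂⟩, h⟩⟩

section Col

variable {T : Ordinal.{u} → Prop} {x y : Ordinal.{u}}

theorem col_lt (hx : T x) (h : x < y) : col T x < col T y := lt_col.2 ⟨x, h, hx, le_rfl⟩

theorem col_mono (h : x ≤ y) : col T x ≤ col T y :=
  le_of_forall_lt fun _ hz => by
    obtain ⟨z, h₁, h₂⟩ := lt_col.1 hz
    exact lt_col.2 ⟨z, h₁.trans_le h, h₂⟩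

theorem col_lt_iff (hx : T x) : col T x < col T y ↔ x < y :=
  ⟨fun h => not_le.1 fun h' => h.not_ge (col_mono h'), col_lt hx⟩

theorem col_inj (hx : T x) (hy : T y) (h : col T x = col T y) : x = y := by
  rcases lt_trichotomy x y with h' | h' | h'
  exacts [absurd h (col_lt hx h').ne, h', absurd h (col_lt hy h').ne']

theorem col_le (T : Ordinal.{u} → Prop) (y : Ordinal.{u}) : col T y ≤ y := by
  induction y using WellFoundedLT.induction with
  | ind y ih =>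
    refine le_of_forall_lt fun x hx => ?_
    obtain ⟨z, h₁, -, h₂⟩ := lt_col.1 hx
    exact (h₂.trans (ih z h₁)).trans_lt h₁

theorem col_surj (h : x < col T y) : ∃ z < y, T z ∧ col T z = x := by
  induction y using WellFoundedLT.induction with
  | ind y ih =>
    obtain ⟨z, h₁, h₂, h₃⟩ := lt_col.1 h
    rcases h₃.lt_or_eq with h₃ | h₃
    · obtain ⟨w, h₄, h₅⟩ := ih z h₁ h₃
      exact ⟨w, h₄.trans h₁, h₅⟩
    · exact ⟨z, h₁, h₂, h₃.symm⟩

theorem col_eq_self (h : ∀ z < y, T z) : col T y = y := by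
  induction y using WellFoundedLT.induction with
  | ind y ih =>
    exact (col_le T y).antisymm (le_of_forall_lt fun x hx =>
      lt_col.2 ⟨x, hx, h x hx, (ih x hx fun z hz => h z (hz.trans hx)).ge⟩)

end Col

/-- Types coded by ordinals. -/
class OC {I : Type} {V : Type v} (𝒜 : FO.{u, v} I V) (β : Type w) [Cd 𝒜 β] where
  enc : β → Ordinal.{u}
  dec : Ordinal.{u} → β
  dec_enc : ∀ b, dec (enc b) = b
  tm_enc : 𝒜.Tm enc
  tm_dec : 𝒜.Tm dec

namespace FO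

open Cd

variable {I : Type} {V : Type v} {𝒜 : FO.{u, v} I V}
variable {Γ : Type*} {α : Type*} {β : Type*} [Cd 𝒜 Γ] [Cd 𝒜 α] [Cd 𝒜 β]

@[fun_prop] theorem tm_Lim {f : Γ → Ordinal.{u}} (hf : 𝒜.Tm f) : 𝒜.Tm (fun z => Lim (f z)) := by
  unfold Lim; fun_prop

@[fun_prop] theorem tm_LimCl [HasG 𝒜] {f : Γ → Ordinal.{u}} (hf : 𝒜.Tm f) :
    𝒜.Tm (fun z => LimCl (f z)) := by
  unfold LimCl; fun_prop

@[fun_prop] theorem tm_toN {f : Γ → Ordinal.{u}} (hf : 𝒜.Tm f) : 𝒜.Tm (fun z => toN (f z)) :=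
  tm_of_rel (Q := fun z n => f z = (n : ℕ) ∨ (n = 0 ∧ ∀ k : ℕ, f z ≠ k)) (by fun_prop)
    fun z n => by
      by_cases h : ∃ k : ℕ, f z = k
      · obtain ⟨k, h⟩ := h
        simp only [h, toN_cast, Nat.cast_inj, eq_comm]
        exact or_iff_left fun h => h.2 k rfl
      · rw [toN, dif_neg h]
        exact ⟨fun h' => h'.elim (fun e => absurd ⟨n, e⟩ h) And.left,
          fun e => Or.inr ⟨e, fun k e => h ⟨k, e⟩⟩⟩

instance : OC 𝒜 Ordinal.{u} := ⟨id, id, fun _ => rfl, Tm.id, Tm.id⟩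

noncomputable instance : OC 𝒜 ℕ := ⟨Nat.cast, toN, toN_cast, natCast_tm, tm_toN Tm.id⟩

variable [HasSep 𝒜]

@[fun_prop] theorem tm_col {T : Γ → Ordinal.{u} → Prop} {f : Γ → Ordinal.{u}}
    (hT : 𝒜.Tm (fun z : Γ × Ordinal.{u} => T z.1 z.2)) (hf : 𝒜.Tm f) :
    𝒜.Tm (fun z => col (T z) (f z)) := by
  have := tm_frec (𝒜 := 𝒜) (fun g y => col (T g) y)
    (fun g k y => mu (fun c => ∀ z < y, T g z → k z < c))
    (fun g y k hk => mu_eq (fun z hz h => hk z hz ▸ col_lt h hz) fun c hc h => by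
      obtain ⟨z, h₁, h₂, h₃⟩ := lt_col.1 hc
      exact (hk z h₁ ▸ h z h₁ h₂).not_ge h₃) (fun k hk => by fun_prop)
  exact this.comp (Tm.id.pair hf)

theorem df_isL : 𝒜.Df (fun c : Ordinal.{u} => ∃ l, encL l = c) := by
  have := tm_grec (𝒜 := 𝒜) (Γ := Ordinal.{u}) (A := Ordinal.{u}) id id Tm.id Tm.id
    (fun _ _ h _ => h) (fun _ c => ∃ l, encL l = c)
    (fun _ R c => c = 0 ∨ ∃ a b, c = G a b + 1 ∧ R b) (fun _ a x => x < a) (by fun_prop)
    (fun _ c => by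
      constructor
      · rintro ⟨_ | ⟨a, l⟩, rfl⟩
        exacts [Or.inl rfl, Or.inr ⟨a, _, rfl, encL_lt_cons a l, l, rfl⟩]
      · rintro (rfl | ⟨a, _, rfl, -, l, rfl⟩)
        exacts [⟨[], rfl⟩, ⟨a :: l, rfl⟩])
    (fun R hR => by fun_prop) (fun _ _ _ h => h)
    (fun _ _ a => ⟨a + 1, lt_add_one a, fun _ _ h _ h' => h'.trans h⟩)
  exact (this.comp (Tm.id.pair Tm.id)).df

noncomputable instance : Cd 𝒜 OL.{u} := cdOfEnc encL encL_inj df_isL

instance : Pure 𝒜 OL.{u} := ⟨fun _ _ => trivial⟩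

@[fun_prop] theorem tm_encL {l : Γ → OL.{u}} (hl : 𝒜.Tm l) : 𝒜.Tm (fun z => encL (l z)) := by
  have : 𝒜.Tm encL.{u} := Tm.mk' (fun _ _ _ => trivial) 𝒜.eq fun i x y _ _ => by
    constructor
    · rintro ⟨z, e⟩
      obtain ⟨e₁, e₂⟩ := pr_iff.1 e
      exact 𝒜.o_inj (e₂.trans e₁.symm)
    · rintro rfl
      exact ⟨_, rfl⟩
  exact this.comp hl

instance : Par 𝒜 ([] : OL.{u}) :=
  ⟨tm_of_rel (Q := fun _ l => encL l = 0) (by fun_prop) fun _ l => encL_inj.eq_iff (b := [])⟩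

@[fun_prop] theorem tm_cons {f : Γ → Ordinal.{u}} {l : Γ → OL.{u}} (hf : 𝒜.Tm f) (hl : 𝒜.Tm l) :
    𝒜.Tm (fun z => f z :: l z) :=
  tm_of_rel (Q := fun z y => encL y = G (f z) (encL (l z)) + 1) (by fun_prop)
    fun z _ => encL_inj.eq_iff (b := f z :: l z)

@[fun_prop] theorem tm_decL {f : Γ → Ordinal.{u}} (hf : 𝒜.Tm f) : 𝒜.Tm (fun z => decL (f z)) :=
  tm_of_rel (Q := fun z l => encL l = f z ∨ (l = [] ∧ ∀ k : OL.{u}, encL k ≠ f z)) (by fun_prop)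
    fun z l => by
      by_cases h : ∃ k, encL k = f z
      · obtain ⟨k, h⟩ := h
        simp only [← h, decL_encL, encL_inj.eq_iff]
        exact or_iff_left fun h => h.2 k rfl
      · rw [decL, dif_neg h]
        exact ⟨fun h' => h'.elim (fun e => absurd ⟨l, e⟩ h) And.left,
          fun e => Or.inr ⟨e, fun k e => h ⟨k, e⟩⟩⟩

noncomputable instance : OC 𝒜 OL.{u} := ⟨encL, decL, decL_encL, tm_encL Tm.id, tm_decL Tm.id⟩

@[fun_prop] theorem tm_headD {l : Γ → OL.{u}} (hl : 𝒜.Tm l) : 𝒜.Tm (fun z => (l z).headD 0) :=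
  tm_of_rel (Q := fun z y => (∃ t, l z = y :: t) ∨ (l z = [] ∧ y = 0)) (by fun_prop)
    fun z y => by cases l z <;> simp [eq_comm]

@[fun_prop] theorem tm_tail {l : Γ → OL.{u}} (hl : 𝒜.Tm l) : 𝒜.Tm (fun z => (l z).tail) :=
  tm_of_rel (Q := fun z t => (∃ y, l z = y :: t) ∨ (l z = [] ∧ t = [])) (by fun_prop)
    fun z y => by cases l z <;> simp [eq_comm]

theorem tm_listRec [Pure 𝒜 β] [OC 𝒜 β] (f : Γ → OL.{u} → β) (i : Γ → β)
    (st : Γ → Ordinal.{u} → OL.{u} → β → β) (h₀ : ∀ g, f g [] = i g)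
    (h₁ : ∀ g x l, f g (x :: l) = st g x l (f g l)) (hi : 𝒜.Tm i)
    (hs : 𝒜.Tm (fun z : Γ × Ordinal.{u} × OL.{u} × β => st z.1 z.2.1 z.2.2.1 z.2.2.2)) :
    𝒜.Tm (fun z : Γ × OL.{u} => f z.1 z.2) := by
  classical
  have he := OC.tm_enc (𝒜 := 𝒜) (β := β)
  have hd := OC.tm_dec (𝒜 := 𝒜) (β := β)
  have := tm_frec (𝒜 := 𝒜) (fun g c => OC.enc 𝒜 (f g (decL c)))
    (fun g k c => if decL c = [] then OC.enc 𝒜 (i g) else OC.enc 𝒜 (st g ((decL c).headD 0)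
      (decL c).tail (OC.dec 𝒜 (k (encL (decL c).tail)))))
    (fun g c k hk => by
      by_cases h : ∃ l, encL l = c
      · obtain ⟨_ | ⟨x, l⟩, rfl⟩ := h
        · simp [h₀]
        · simp [h₁, hk _ (encL_lt_cons x l), OC.dec_enc]
      · simp [decL, h, h₀]) (fun k hk => by fun_prop)
  exact (hd.comp (this.comp (f := fun z : Γ × OL.{u} => (z.1, encL z.2)) (by fun_prop))).congr
    fun z => by simp [OC.dec_enc]

@[fun_prop] theorem tm_length {l : Γ → OL.{u}} (hl : 𝒜.Tm l) : 𝒜.Tm (fun z => (l z).length) :=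
  (tm_listRec (𝒜 := 𝒜) (Γ := ℕ) (fun _ l => l.length) (fun _ => 0) (fun _ _ _ n => n + 1)
    (fun _ => rfl) (fun _ _ _ => rfl) (by fun_prop) (by fun_prop)).comp
    (f := fun z => (0, l z)) (by fun_prop)

@[fun_prop] theorem tm_append {l k : Γ → OL.{u}} (hl : 𝒜.Tm l) (hk : 𝒜.Tm k) :
    𝒜.Tm (fun z => l z ++ k z) :=
  (tm_listRec (𝒜 := 𝒜) (fun k l : OL.{u} => l ++ k) id (fun _ x _ r => x :: r)
    (fun _ => rfl) (fun _ _ _ => rfl) Tm.id (by fun_prop)).comp (hk.pair hl)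

@[fun_prop] theorem tm_lmem {f : Γ → Ordinal.{u}} {l : Γ → OL.{u}} (hf : 𝒜.Tm f) (hl : 𝒜.Tm l) :
    𝒜.Tm (fun z => f z ∈ l z) :=
  Tm.congrP (Q := fun z => ∃ s t, l z = s ++ f z :: t) (by fun_prop) fun _ =>
    List.mem_iff_append.symm

@[fun_prop] theorem tm_suffix {l k : Γ → OL.{u}} (hl : 𝒜.Tm l) (hk : 𝒜.Tm k) :
    𝒜.Tm (fun z => l z <:+ k z) := by
  unfold List.IsSuffix; fun_prop

@[fun_prop] theorem tm_getD {l : Γ → OL.{u}} {n : Γ → ℕ} {d : Γ → Ordinal.{u}} (hl : 𝒜.Tm l)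
    (hn : 𝒜.Tm n) (hd : 𝒜.Tm d) : 𝒜.Tm (fun z => (l z).getD (n z) (d z)) :=
  tm_of_rel (Q := fun z y => (∃ s t, l z = s ++ y :: t ∧ s.length = n z) ∨
    ((l z).length ≤ n z ∧ y = d z)) (by fun_prop) fun z y => by
      constructor
      · rintro (⟨s, t, h, h'⟩ | ⟨h, rfl⟩)
        · simp [h, ← h']
        · simp [h]
      · rintro rfl
        rcases lt_or_ge (n z) (l z).length with h | h
        · refine Or.inl ⟨(l z).take (n z), (l z).drop (n z + 1), ?_, by simp [h.le]⟩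
          simp [h]
        · exact Or.inr ⟨h, by simp [h]⟩

@[fun_prop] theorem tm_replicate {n : Γ → ℕ} (hn : 𝒜.Tm n) :
    𝒜.Tm (fun z => List.replicate (n z) (0 : Ordinal.{u})) :=
  tm_of_rel (Q := fun z l => l.length = n z ∧ ∀ x, x ∈ l → x = 0) (by fun_prop)
    fun _ _ => List.eq_replicate_iff.symm

theorem tm_natRec [Pure 𝒜 β] [OC 𝒜 β] (f : Γ → ℕ → β) (i : Γ → β) (st : Γ → ℕ → β → β)
    (h₀ : ∀ g, f g 0 = i g) (h₁ : ∀ g n, f g (n + 1) = st g n (f g n)) (hi : 𝒜.Tm i)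
    (hs : 𝒜.Tm (fun z : Γ × ℕ × β => st z.1 z.2.1 z.2.2)) :
    𝒜.Tm (fun z : Γ × ℕ => f z.1 z.2) :=
  ((tm_listRec (𝒜 := 𝒜) (fun g (l : OL.{u}) => f g l.length) i (fun g _ l b => st g l.length b)
    h₀ (fun g _ l => h₁ g l.length) hi (by fun_prop)).comp
    (f := fun z : Γ × ℕ => (z.1, List.replicate z.2 0)) (by fun_prop)).congr fun _ => by simp

/-- Strictly decreasing lists. -/
def Dec (l : OL.{u}) : Prop := l.Pairwise (· > ·)

@[fun_prop] theorem tm_Dec {l : Γ → OL.{u}} (hl : 𝒜.Tm l) : 𝒜.Tm (fun z => Dec (l z)) :=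
  Tm.congrP (Q := fun z => ∀ x t, x :: t <:+ l z → ∀ y, y ∈ t → y < x) (by fun_prop) fun z => by
    rw [Dec, List.pairwise_iff_forall_sublist]
    constructor
    · intro h a b hab
      obtain ⟨s, t, e, h₁, h₂⟩ := List.cons_sublist_iff.1 hab
      obtain ⟨p, q, rfl⟩ := List.append_of_mem h₁
      exact h a (q ++ t) ⟨p, by simp [e]⟩ b (by simp [List.singleton_sublist.1 h₂])
    · intro h x t ht y hy
      exact h ((List.cons_sublist_cons.2 (List.singleton_sublist.2 hy)).trans ht.sublist)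

end FO

end Pool.Agent.MP_9a6faa_lc
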