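import Pool.Agent.MP_9a6faa_lc.Iter

namespace Pool.Agent.MP_9a6faa_lc

open Set Order FO Filter

universe u v w

theorem OrdCl.tm_world {I : Type} {Am : (I → Ordinal.{u} → Prop) → Prop} (h : OrdCl Am)
    {R : I → Ordinal.{u} → Prop} (hR : Am R) :
    h.fo.Tm (fun z : h.fo.Wd × Ordinal.{u} => R z.1.w z.2) := by
  refine (Df.mk' (sndR (𝒜 := h.fo) hR) fun i z hz => ?_).tm
  obtain ⟨⟨j⟩, x⟩ := z
  obtain rfl : j = i := hz.1
  exact ⟨fun ⟨_, _, e, h⟩ => (show x = _ from (G_inj.1 e).2) ▸ h, fun h => ⟨_, _, rfl, h⟩⟩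

theorem FO.tm_cdW {I : Type} {V : Type v} {𝒜 : FO.{u, v} I V} (m : I → Mach.{u}) :
    @Tm I V 𝒜 _ _ _ (cdW 𝒜 m) (fun w : 𝒜.Wd => m w.w) := by
  let _ := cdW 𝒜 m
  exact Tm.mk' (fun x i h => congrArg m h) 𝒜.eq fun i x y hx hy =>
    ⟨fun _ => hy.trans (congrArg m hx).symm, fun _ => ⟨_, rfl⟩⟩

namespace Meas

variable (μ : Meas.{u})

def AmL (R : Bool → Ordinal.{u} → Prop) : Prop := AmS μ.mach (fun _ => R false) ∧
  ∀ e, μ.El e → (R true (μ.rk e) ↔ ∀ᶠ x in μ.AE, R false (e x))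

theorem ordCl_L : OrdCl μ.AmL where
  nand := fun {R S} hR hS => ⟨(ordCl_S _).nand hR.1 hS.1, fun e he => by
    beta_reduce
    rw [hR.2 e he, hS.2 e he, ← eventually_and, he.ae_not (fun z => R false z ∧ S false z)]⟩
  ex := fun {R} hR => ⟨(ordCl_S _).ex hR.1, fun e he => by
    constructor
    · rintro ⟨y, h⟩
      obtain ⟨f, hf, rfl⟩ := rk_surj (μ := μ) y
      rw [rk_G he hf, hR.2 _ (he.G hf)] at h
      exact h.mono fun _ h => ⟨_, h⟩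
    · intro h
      have h₀ : (SS μ.mach).Tm (R false) := (ordCl_S _).tm_iff.2 hR.1
      have hf := he.comp (f := fun z => mu (fun y => R false (G z y))) (by fun_prop)
      exact ⟨_, by rw [rk_G he hf, hR.2 _ (he.G hf)]; exact h.mono fun _ h => mu_spec h⟩⟩
  c4 := fun hR => ⟨(ordCl_S _).c4 hR.1, fun e he => by
    beta_reduce
    rw [rk_fst he, hR.2 _ he.fst]⟩
  c5 := fun hR => ⟨(ordCl_S _).c5 hR.1, fun e he => by
    beta_reduce
    rw [rk_fst he, rk_snd he, rk_G he.snd he.fst, hR.2 _ (he.snd.G he.fst)]⟩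
  c6 := fun hR => ⟨(ordCl_S _).c6 hR.1, fun e he => by
    beta_reduce
    rw [rk_fst he, rk_snd he, rk_fst he.fst, rk_G he.fst.fst he.snd,
      hR.2 _ (he.fst.fst.G he.snd)]⟩
  c7 := fun hR => ⟨(ordCl_S _).c7 hR.1, fun e he => by
    beta_reduce
    rw [rk_fst he, rk_snd he, rk_snd he.fst, rk_G he.fst.snd he.snd,
      hR.2 _ (he.fst.snd.G he.snd)]⟩
  lt := ⟨(ordCl_S _).lt, fun e he => by
    beta_reduce
    rw [rk_fst he, rk_snd he, rk_lt_iff he.fst he.snd]⟩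

/-- The calculus of relations satisfying the theorem of Los. -/
noncomputable def LL : FO.{u, u + 1} Bool Ordinal.{u} := μ.ordCl_L.fo

noncomputable def mw (b : Bool) : Mach.{u} := _root_.cond b μ.mach.it μ.mach

variable {μ}

theorem AmL.tail {R : Bool → Ordinal.{u} → Prop} (hR : μ.AmL R) {e : Asg.{u} → Ordinal.{u}}
    (he : μ.El e) : ∃ c < dl μ.mach, ∀ b, c ≤ b → b < dl μ.mach →
      (R true (G (μ.rk e) (μ.kp b)) ↔
        ∀ᶠ x in μ.AE, ∀ᶠ y in (μ.U : Filter Ordinal.{u}), R false (G (e x) y)) := by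
  obtain ⟨c, h₁, h₂⟩ := he.small (gcl_dl _).lim
  exact ⟨c, h₁, fun b h₃ h₄ => by
    rw [kp, rk_G he (Fn.proj h₄), hR.2 _ (he.G (Fn.proj h₄)),
      (h₂.mono h₃).top (fun z y => R false (G z y))]⟩

theorem AmL.Q {R : Bool → Ordinal.{u} → Prop} (hR : μ.AmL R) {e : Asg.{u} → Ordinal.{u}}
    (he : μ.El e) : μ.mach.it.Q (fun y => R true (G (μ.rk e) y)) ↔
      ∀ᶠ x in μ.AE, ∀ᶠ y in (μ.U : Filter Ordinal.{u}), R false (G (e x) y) := by
  obtain ⟨c, h₁, h₂⟩ := hR.tail he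
  refine (eventually_congr ((ev_lt_sb h₁).mono fun n hn => ?_)).trans eventually_const
  rw [← h₂ _ (hn.trans (sb_lt_sa _)).le (sa_lt_dl _ n), kp_sa]

instance : DQ μ.LL μ.mw where
  κ := ⟨Full.const (𝒜 := SS μ.mach) _, fun _ he => by
    rw [← rk_eq_iff he (Fn.const _)]
    exact Iff.of_eq (congrArg (_ = ·) (j_κ (μ := μ)).symm)⟩
  Q := fun _ hR => ⟨amS_Q hR.1, fun _ => AmL.Q hR⟩

noncomputable instance : Cd μ.LL Mach.{u} := cdW _ μ.mw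

instance : HasQ μ.LL := hasQ_cdW _

instance : HasG μ.LL := inferInstanceAs (HasG μ.ordCl_L.fo)

variable (μ) in
/-- `y` is the element of the iterate represented by `x`. -/
structure Lift {Γ : Type*} [Cd μ.LL Γ] (y : Γ) (x : Asg.{u} → Γ) : Prop where
  c1 : Cd.cons μ.LL y true
  c0 : ∀ h, Cd.cons μ.LL (x h) false
  el : μ.El (fun h => Cd.ι μ.LL (x h))
  eq : μ.rk (fun h => Cd.ι μ.LL (x h)) = Cd.ι μ.LL y

variable {Γ Δ : Type*} [Cd μ.LL Γ] [Cd μ.LL Δ] {y : Γ} {x : Asg.{u} → Γ}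

theorem Lift.los (h : μ.Lift y x) {Φ : Γ → Prop} (hΦ : μ.LL.Tm Φ) :
    Φ y ↔ ∀ᶠ h in μ.AE, Φ (x h) := by
  have := hΦ.df.2 _ h.el
  rw [h.eq] at this
  simpa only [ev_iff (h.c0 _), ev_iff h.c1] using this

theorem Lift.pair {y' : Δ} {x' : Asg.{u} → Δ} (h : μ.Lift y x) (h' : μ.Lift y' x') :
    μ.Lift (y, y') (fun h => (x h, x' h)) :=
  ⟨⟨h.c1, h'.c1⟩, fun z => ⟨h.c0 z, h'.c0 z⟩, h.el.G h'.el,
    (rk_G h.el h'.el).symm.trans (congrArg₂ G h.eq h'.eq)⟩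

theorem El.lift {e : Asg.{u} → Ordinal.{u}} (h : μ.El e) : μ.Lift (μ.rk e) e :=
  ⟨trivial, fun _ => trivial, h, rfl⟩

theorem lift_j (c : Ordinal.{u}) : μ.Lift (μ.j c) (fun _ => c) := El.lift (Fn.const c)

theorem lift_wd : μ.Lift (⟨true⟩ : μ.LL.Wd) (fun _ => ⟨false⟩) :=
  ⟨rfl, fun _ => rfl, Fn.const _, j_small μ.gcl.pos⟩

theorem lift_mach : μ.Lift μ.mach.it (fun _ => μ.mach) :=
  ⟨rfl, fun _ => rfl, Fn.const _, j_small μ.gcl.pos⟩

theorem Lift.map (h : μ.Lift y x) {f : Γ → Δ} (hf : μ.LL.Tm f) :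
    μ.Lift (f y) (fun h => f (x h)) := by
  obtain ⟨R, h₀, hR⟩ : ∃ R : Ordinal.{u} → Prop, (SS μ.mach).Tm R ∧ ∀ z, R z ↔
      ∃ a, Cd.cons μ.LL a false ∧ z = G (Cd.ι μ.LL a) (Cd.ι μ.LL (f a)) :=
    ⟨_, (ordCl_S _).tm_iff.2 hf.gr.1, fun _ => Iff.rfl⟩
  have el : μ.El (fun h => Cd.ι μ.LL (f (x h))) := by
    convert h.el.comp (f := fun z => mu (fun y => R (G z y))) (by fun_prop) using 2 with z
    refine (mu_eq (R := fun y => R (G _ y)) ((hR _).2 ⟨_, h.c0 z, rfl⟩)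
      fun w hw h' => hw.ne ?_).symm
    obtain ⟨a, ha, e⟩ := (hR _).1 h'
    rw [(G_inj.1 e).2, Cd.inj (h.c0 z) ha (G_inj.1 e).1]
  refine ⟨hf.1 _ _ h.c1, fun z => hf.1 _ _ (h.c0 z), el, ?_⟩
  obtain ⟨a, ha, e⟩ := (hf.gr.2 _ (h.el.G el)).2 (Eventually.of_forall fun z => ⟨_, h.c0 z, rfl⟩)
  rw [← rk_G h.el el, h.eq] at e
  rw [(G_inj.1 e).2, Cd.inj h.c1 ha (G_inj.1 e).1]

theorem transfer {Φ : μ.LL.Wd → Prop} (h : μ.LL.Tm Φ) (h₀ : Φ ⟨false⟩) : Φ ⟨true⟩ :=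
  (lift_wd.los h).2 (Eventually.of_forall fun _ => h₀)

theorem amL_P : μ.AmL (fun i z => P (μ.mw i) (fst z) (snd z)) := by
  let R : Bool → Ordinal.{u} → Prop := fun i z => _root_.cond i (∃ e, μ.El e ∧ μ.rk e = z ∧
    ∀ᶠ x in μ.AE, P μ.mach (fst (e x)) (snd (e x))) (P μ.mach (fst z) (snd z))
  have hR : μ.AmL R := ⟨amS_P, fun e he => ⟨fun ⟨f, hf, h₁, h₂⟩ =>
    (h₂.and ((rk_eq_iff hf he).1 h₁)).mono fun x h => h.2 ▸ h.1, fun h => ⟨e, he, rfl, h⟩⟩⟩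
  have h₁ : μ.LL.Tm (fun z : μ.LL.Wd × Ordinal.{u} => R z.1.w z.2) := μ.ordCl_L.tm_world hR
  have h₂ : μ.LL.Tm (fun w : μ.LL.Wd => μ.mw w.w) := tm_cdW _
  have := P_unique (transfer (Φ := fun w => ∀ d x, R w.w (G d x) ↔
    step (μ.mw w.w) (fun a y => R w.w (G a y)) d x) (tm_all (tm_all (tm_iff
      (h₁.comp (f := fun z : (μ.LL.Wd × _) × _ => (z.1.1, G z.1.2 z.2)) (by fun_prop))
      (tm_step (h₂.comp (by fun_prop)) (h₁.comp
        (f := fun z : ((μ.LL.Wd × _) × _) × _ × _ => (z.1.1.1, G z.2.1 z.2.2)) (by fun_prop))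
        (by fun_prop) (by fun_prop))))) fun d x => by simpa [R, mw] using P_iff)
  refine am_congr hR fun i z => ?_
  cases i
  exacts [Iff.rfl, by simpa using this (fst z) (snd z)]

noncomputable instance : HasSep μ.LL where
  mem := fun i => P (μ.mw i)
  mem_am := Am.congr (𝒜 := μ.LL) (R := fun i z => P (μ.mw i) (fst z) (snd z)) amL_P fun _ z =>
    ⟨fun h => ⟨_, _, (G_fst_snd z).symm, h⟩, fun ⟨s, x, e, h⟩ => by
      simpa [show z = G s x from e] using h⟩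
  sep := fun R hR i => by
    have h₁ : μ.LL.Tm (fun z : μ.LL.Wd × Ordinal.{u} => R z.1.w z.2) := μ.ordCl_L.tm_world hR
    have h₂ := μ.ordCl_L.tm_world amL_P
    cases i
    · exact sep_of_amS hR.1
    · obtain ⟨S, hS, e⟩ : ∃ S : μ.LL.Wd × Ordinal.{u} → Prop, μ.LL.Tm S ∧
        ∀ w z, S (w, z) ↔ R w.w z := ⟨_, h₁, fun _ _ => Iff.rfl⟩
      obtain ⟨T, hT, e'⟩ : ∃ T : μ.LL.Wd × Ordinal.{u} → Prop, μ.LL.Tm T ∧
        ∀ w s z, T (w, G s z) ↔ P (μ.mw w.w) s z := ⟨_, h₂, fun _ _ _ => by simp⟩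
      have := transfer (Φ := fun w => ∀ v c, ∃ s, ∀ a < c, ∀ b < c,
        (T (w, G s (G a b)) ↔ S (w, G v (G a b)))) (by fun_prop)
        (by simp only [e, e']; exact sep_of_amS hR.1)
      simp only [e, e'] at this
      exact this

theorem star_it : Star μ.mach.it :=
  (lift_mach.los tm_Star).2 (Eventually.of_forall fun _ => μ.star)

theorem lift_list {L : OL.{u}} (h : ∀ a ∈ L, a < dl μ.mach) :
    μ.Lift (L.map μ.kp) (fun x => L.map x) := by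
  induction L with
  | nil => exact ⟨trivial, fun _ => trivial, Fn.const _, j_small μ.gcl.pos⟩
  | cons a L ih =>
    exact ((El.lift (Fn.proj (h a List.mem_cons_self))).pair
      (ih fun b hb => h b (List.mem_cons_of_mem _ hb))).map
      (f := fun z : Ordinal.{u} × OL.{u} => z.1 :: z.2) (by fun_prop)

theorem rk_ap (c : Ordinal.{u}) {e : Asg.{u} → Ordinal.{u}} (he : μ.El e) :
    μ.rk (fun x => ap μ.mach c (e x)) = ap μ.mach.it (μ.j c) (μ.rk e) :=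
  ((lift_mach.pair ((lift_j c).pair he.lift)).map
    (f := fun z : Mach.{u} × Ordinal.{u} × Ordinal.{u} => ap z.1 z.2.1 z.2.2) (by fun_prop)).eq

theorem rk_valc {L : OL.{u}} (h : ∀ a ∈ L, a < dl μ.mach) (c : Ordinal.{u}) :
    μ.rk (μ.valc L c) = ap μ.mach.it (μ.j c) (encL (L.map μ.kp)) :=
  (rk_ap c (lift_list h).el).trans (congrArg _ (lift_list h).eq)

theorem P_j {c : Ordinal.{u}} {e : Asg.{u} → Ordinal.{u}} (he : μ.El e) :
    P μ.mach.it (μ.j c) (μ.rk e) ↔ ∀ᶠ x in μ.AE, P μ.mach c (e x) :=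
  (lift_mach.pair ((lift_j c).pair he.lift)).los
    (Φ := fun z : Mach.{u} × Ordinal.{u} × Ordinal.{u} => P z.1 z.2.1 z.2.2) (by fun_prop)

theorem P_j_small {c a : Ordinal.{u}} (ha : a < μ.κ) : P μ.mach.it (μ.j c) a ↔ P μ.mach c a := by
  rw [← eventually_const (f := μ.AE) (p := P μ.mach c a), ← P_j (Fn.const a)]
  exact Iff.of_eq (congrArg _ (j_small ha).symm)

theorem P_j_κ {c : Ordinal.{u}} :
    P μ.mach.it (μ.j c) μ.κ ↔ ∀ᶠ y in (μ.U : Filter Ordinal.{u}), P μ.mach c y := by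
  rw [← kp_zero, kp, P_j (Fn.proj (gcl_dl _).pos),
    (Fn.const (μ := μ) (b := 0) c).top (fun a y => P μ.mach a y), eventually_const]

/-- Definable sets are decided by the tail of the critical points. -/
theorem tail_dec {X : Mach.{u} × Ordinal.{u} × Ordinal.{u} → Prop} (hX : μ.LL.Tm X)
    (v : Ordinal.{u}) : ∃ c < dl μ.mach, ∀ b, c ≤ b → b < dl μ.mach →
      (X (μ.mach.it, v, μ.kp b) ↔ μ.mach.it.Q (fun y => X (μ.mach.it, v, y))) := by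
  have h₂ : μ.LL.Tm (fun w : μ.LL.Wd => μ.mw w.w) := tm_cdW _
  have hR : μ.LL.Am (fun i z => X (μ.mw i, fst z, snd z)) := by
    refine Am.congr (μ.LL.ex (μ.LL.swR (hX.comp
      (f := fun z : μ.LL.Wd × Ordinal.{u} => (μ.mw z.1.w, fst z.2, snd z.2))
      ((h₂.comp (by fun_prop)).pair (by fun_prop))).df)) fun i z => ⟨?_, fun h =>
        ⟨_, _, _, rfl, (⟨i⟩, z), ⟨rfl, trivial⟩, rfl, h⟩⟩
    rintro ⟨_, _, _, e, ⟨⟨j⟩, w⟩, ⟨rfl, -⟩, e', h⟩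
    rwa [(G_inj.1 e).1, ← (G_inj.1 e').2]
  replace hR : μ.AmL (fun i z => X (μ.mw i, fst z, snd z)) := hR
  obtain ⟨e, he, rfl⟩ := rk_surj (μ := μ) v
  obtain ⟨c, h₁, h₃⟩ := AmL.tail hR he
  refine ⟨c, h₁, fun b h₄ h₅ => ?_⟩
  simpa [mw] using (h₃ b h₄ h₅).trans (AmL.Q hR he).symm

end Meas

end Pool.Agent.MP_9a6faa_lc
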