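import Pool.Agent.MP_9a6faa_lc.Lists

namespace Pool.Agent.MP_9a6faa_lc

open Set Order

universe u v w

/-- An ordinal together with a largeness predicate. -/
structure Mach where
  κ : Ordinal.{u}
  Q : (Ordinal.{u} → Prop) → Prop
  loc : ∀ X Y : Ordinal.{u} → Prop, (∀ y < κ, X y → Y y) → Q X → Q Y

theorem Mach.congr (m : Mach.{u}) {X Y : Ordinal.{u} → Prop} (h : ∀ y < m.κ, X y ↔ Y y) :
    m.Q X ↔ m.Q Y :=
  ⟨m.loc _ _ fun y hy => (h y hy).1, m.loc _ _ fun y hy => (h y hy).2⟩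

def step (m : Mach.{u}) (R : Ordinal.{u} → Ordinal.{u} → Prop) (d x : Ordinal.{u}) : Prop :=
  x < d ∧ ((fst d = 1 ∧ ¬ (R (fst (snd d)) x ∧ R (snd (snd d)) x)) ∨
    (fst d = 2 ∧ G (fst (snd d)) x < d ∧ ∃ y, R (fst (snd d)) (G x y)) ∨
    (fst d = 3 ∧ m.Q (fun y => R (fst (snd d)) (G x y))) ∨
    (fst d = 4 ∧ R (fst (snd d)) (fst x)) ∨
    (fst d = 5 ∧ R (fst (snd d)) (G (snd x) (fst x))) ∨
    (fst d = 6 ∧ R (fst (snd d)) (G (fst (fst x)) (snd x))) ∨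
    (fst d = 7 ∧ R (fst (snd d)) (G (snd (fst x)) (snd x))) ∨
    (fst d = 8 ∧ x < snd (snd d) ∧ R (fst (snd d)) x) ∨
    (fst d = 9 ∧ fst x < snd x) ∨ (fst d = 10 ∧ R (fst x) (snd x)))

theorem step_congr {m : Mach.{u}} {R R' : Ordinal.{u} → Ordinal.{u} → Prop} {d x : Ordinal.{u}}
    (h : ∀ a < d, ∀ y, R a y ↔ R' a y) : step m R d x ↔ step m R' d x := by
  refine and_congr_right fun hx => ?_
  rcases eq_zero_or_pos (fst d) with h0 | h0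
  · simp [h0, eq_comm (a := (0 : Ordinal.{u}))]
  · have e : ∀ a < d, R a = R' a := fun a ha => funext fun y => propext (h a ha y)
    rw [e _ ((fst_le _).trans_lt (snd_lt h0)), e _ ((snd_le _).trans_lt (snd_lt h0)),
      e _ ((fst_le _).trans_lt hx)]

/-- The constructible hierarchy relative to `m.Q`, coded on the ordinals. -/
noncomputable def P (m : Mach.{u}) : Ordinal.{u} → Ordinal.{u} → Prop := orec id (step m)

theorem P_iff {m : Mach.{u}} {d x : Ordinal.{u}} : P m d x ↔ step m (P m) d x :=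
  (orec_iff _ _ _ _).trans (step_congr fun _ ha _ => and_iff_right ha)

theorem P_lt {m : Mach.{u}} {d x : Ordinal.{u}} (h : P m d x) : x < d := (P_iff.1 h).1

theorem P_unique {m : Mach.{u}} {R : Ordinal.{u} → Ordinal.{u} → Prop}
    (h : ∀ d x, R d x ↔ step m R d x) (d x : Ordinal.{u}) : R d x ↔ P m d x := by
  induction d using WellFoundedLT.induction generalizing x with
  | ind d ih => exact (h d x).trans ((step_congr ih).trans P_iff.symm)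

noncomputable def wit (m : Mach.{u}) (c : Ordinal.{u}) : Ordinal.{u} :=
  mu (fun y => P m (fst c) (G (snd c) y))

noncomputable def ap (m : Mach.{u}) (c i : Ordinal.{u}) : Ordinal.{u} :=
  mu (fun y => P m c (G i y))

theorem wit_G (m : Mach.{u}) (c i : Ordinal.{u}) : wit m (G c i) = ap m c i := by
  simp [wit, ap]

/-- The machines of the worlds have definable largeness predicates. -/
class HasQ {I : Type} {V : Type v} (𝒜 : FO.{u, v} I V) [Cd 𝒜 Mach.{u}] : Prop where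
  κ : 𝒜.Tm Mach.κ.{u}
  Q : ∀ R, 𝒜.Am R → 𝒜.Am (fun i z => ∃ (m : Mach.{u}) (x : V), Cd.cons 𝒜 m i ∧
    z = 𝒜.pr (Cd.ι 𝒜 m) x ∧ m.Q (fun y => R i (𝒜.pr x (𝒜.o y))))

/-- A machine with definable largeness predicate. -/
class DQ {I : Type} {V : Type v} (𝒜 : FO.{u, v} I V) (m : I → Mach.{u}) : Prop where
  κ : 𝒜.Am (fun i x => x = 𝒜.o (m i).κ)
  Q : ∀ R, 𝒜.Am R → 𝒜.Am (fun i x => (m i).Q (fun y => R i (𝒜.pr x (𝒜.o y))))

namespace FO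

open Cd

variable {I : Type} {V : Type v} {𝒜 : FO.{u, v} I V}
variable {Γ : Type*} [Cd 𝒜 Γ]

section Q

variable [Cd 𝒜 Mach.{u}] [HasQ 𝒜] {m : Γ → Mach.{u}}

@[fun_prop] theorem tm_κ (hm : 𝒜.Tm m) : 𝒜.Tm (fun z => (m z).κ) := HasQ.κ.comp hm

@[fun_prop] theorem tm_Q {R : Γ → Ordinal.{u} → Prop} (hm : 𝒜.Tm m)
    (hR : 𝒜.Tm (fun z : Γ × Ordinal.{u} => R z.1 z.2)) :
    𝒜.Tm (fun z => (m z).Q (fun y => R z y)) := by
  have : 𝒜.Df (fun z : Mach.{u} × Γ => z.1.Q (R z.2)) := by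
    refine Df.mk' (HasQ.Q _ hR.df) fun i z hz => ?_
    have e : (fun y => ∃ a : Γ × Ordinal.{u}, cons 𝒜 a i ∧ ι 𝒜 a = 𝒜.pr (ι 𝒜 z.2) (𝒜.o y) ∧
        R a.1 a.2) = R z.2 := funext fun y => propext
      (ev_iff (x := (z.2, y)) (Q := fun z : Γ × Ordinal.{u} => R z.1 z.2) ⟨hz.2, trivial⟩)
    constructor
    · rintro ⟨m', x, hm', e', h⟩
      obtain ⟨e₁, rfl⟩ := pr_iff.1 e'
      rw [inj hz.1 hm' e₁, ← e]
      exact h
    · exact fun h => ⟨z.1, _, hz.1, rfl, e ▸ h⟩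
  exact this.tm.comp (hm.pair Tm.id)

theorem tm_step [HasG 𝒜] {R : Γ → Ordinal.{u} → Ordinal.{u} → Prop} {d x : Γ → Ordinal.{u}}
    (hm : 𝒜.Tm m) (hR : 𝒜.Tm (fun z : Γ × Ordinal.{u} × Ordinal.{u} => R z.1 z.2.1 z.2.2))
    (hd : 𝒜.Tm d) (hx : 𝒜.Tm x) : 𝒜.Tm (fun z => step (m z) (R z) (d z) (x z)) := by
  unfold step; fun_prop

variable [HasSep 𝒜]

@[fun_prop] theorem tm_P {d x : Γ → Ordinal.{u}} (hm : 𝒜.Tm m) (hd : 𝒜.Tm d) (hx : 𝒜.Tm x) :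
    𝒜.Tm (fun z => P (m z) (d z) (x z)) := by
  have := tm_grec (𝒜 := 𝒜) (A := Ordinal.{u} × Ordinal.{u}) Prod.fst Prod.snd (by fun_prop)
    (by fun_prop) (fun _ _ => Prod.ext) (fun (m : Mach.{u}) z => P m z.1 z.2)
    (fun m R z => step m (fun a y => R (a, y)) z.1 z.2) (fun _ z w => w.1 < z.1 ∧ w.2 < w.1)
    (by fun_prop) (fun _ _ => P_iff.trans (step_congr fun _ ha _ =>
      ⟨fun h => ⟨⟨ha, P_lt h⟩, h⟩, And.right⟩))
    (fun R hR => tm_step (by fun_prop) (by fun_prop) (by fun_prop) (by fun_prop))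
    (fun _ _ _ h => h.1) (fun _ c a => ⟨max c (a.2 + 1), lt_max_of_lt_right (lt_add_one _),
      fun _ h₁ _ _ h => lt_max_of_lt_left (h.2.trans (h.1.trans h₁))⟩)
  exact this.comp (hm.pair (hd.pair hx))

@[fun_prop] theorem tm_wit {c : Γ → Ordinal.{u}} (hm : 𝒜.Tm m) (hc : 𝒜.Tm c) :
    𝒜.Tm (fun z => wit (m z) (c z)) := by
  unfold wit; fun_prop

@[fun_prop] theorem tm_ap {c i : Γ → Ordinal.{u}} (hm : 𝒜.Tm m) (hc : 𝒜.Tm c) (hi : 𝒜.Tm i) :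
    𝒜.Tm (fun z => ap (m z) (c z) (i z)) := by
  unfold ap; fun_prop

end Q

theorem am_o (c : Ordinal.{u}) [h : Par 𝒜 c] : 𝒜.Am (fun _ x => x = 𝒜.o c) :=
  Am.congr (Df.eq Tm.id (Tm.const c)) fun _ _ =>
    ⟨fun ⟨_, _, e, h⟩ => by rw [← e, h]; rfl, fun e => ⟨c, trivial, e.symm, rfl⟩⟩

/-- One machine in every world. -/
@[reducible] noncomputable def cdW (𝒜 : FO.{u, v} I V) (m : I → Mach.{u}) : Cd 𝒜 Mach.{u} where
  ι := fun _ => 𝒜.o 0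
  cons := fun a i => a = m i
  inj := fun ha hb _ => ha.trans hb.symm
  rng := Am.congr (am_o 0) fun i _ => ⟨fun e => ⟨m i, rfl, e.symm⟩, fun ⟨_, _, e⟩ => e.symm⟩

theorem hasQ_cdW (m : I → Mach.{u}) [h : DQ 𝒜 m] : @HasQ I V 𝒜 (cdW 𝒜 m) := by
  let _ := cdW 𝒜 m
  refine ⟨Tm.mk' (fun _ _ _ => trivial) (sndR h.κ) fun i x y hx _ => ?_, fun R hR =>
    Am.congr (Am.and (𝒜.fstR (am_o 0)) (sndR (h.Q R hR))) fun i z => ?_⟩
  · obtain rfl : x = m i := hx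
    exact ⟨fun ⟨_, _, e, e'⟩ => 𝒜.o_inj ((pr_iff.1 e).2.trans e'),
      fun e => ⟨_, _, rfl, congrArg 𝒜.o e⟩⟩
  · constructor
    · rintro ⟨⟨_, x, rfl, rfl⟩, _, _, e, h⟩
      exact ⟨m i, x, rfl, rfl, (pr_iff.1 e).2 ▸ h⟩
    · rintro ⟨_, x, rfl, rfl, h⟩
      exact ⟨⟨_, _, rfl, rfl⟩, _, _, rfl, h⟩

theorem par_cdW (m : Mach.{u}) : @Par I V 𝒜 _ (cdW 𝒜 fun _ => m) m := by
  let _ := cdW 𝒜 fun _ => m
  exact ⟨Tm.mk' (fun _ _ _ => rfl) (𝒜.fstR (Cd.rng (α := Ordinal.{u}))) fun i x y _ hy =>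
    ⟨fun _ => hy, fun _ => ⟨_, _, rfl, x, trivial, rfl⟩⟩⟩

open Classical in
/-- Two machines. -/
@[reducible] noncomputable def cdM (𝒜 : FO.{u, v} I V) (m m' : Mach.{u}) : Cd 𝒜 Mach.{u} where
  ι := fun a => if a = m then 𝒜.o 0 else 𝒜.o 1
  cons := fun a _ => a = m ∨ a = m'
  inj := by
    rintro a b - (rfl | rfl) (rfl | rfl) e
    · rfl
    · by_contra h
      simp [Ne.symm h, 𝒜.o_inj.eq_iff] at e
    · by_contra h
      simp [h, 𝒜.o_inj.eq_iff] at e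
    · rfl
  rng := by
    by_cases h : m' = m
    · exact Am.congr (am_o 0) fun i _ => by simp [h, eq_comm]
    · exact Am.congr (𝒜.nand (am_o 0).not (am_o 1).not) fun i _ => by
        simp only [exists_eq_or_imp, exists_eq_left, if_true, if_neg h]
        tauto

theorem par_cdM (m m' a : Mach.{u}) (ha : a = m ∨ a = m') : @Par I V 𝒜 _ (cdM 𝒜 m m') a := by
  let _ := cdM 𝒜 m m'
  obtain ⟨c, hc, e⟩ : ∃ c, 𝒜.Am (fun _ x => x = 𝒜.o c) ∧ ι 𝒜 a = 𝒜.o c := by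
    by_cases h : a = m
    exacts [⟨0, am_o 0, if_pos h⟩, ⟨1, am_o 1, if_neg h⟩]
  exact ⟨Tm.mk' (fun _ _ _ => ha) (sndR hc) fun i x y _ hy =>
    ⟨fun ⟨_, _, e₁, e₂⟩ => inj hy ha ((pr_iff.1 e₁).2.trans (e₂.trans e.symm)),
      fun h => ⟨_, _, rfl, h ▸ e⟩⟩⟩

theorem hasQ_cdM (m m' : Mach.{u}) [h : DQ 𝒜 fun _ => m] [h' : DQ 𝒜 fun _ => m'] :
    @HasQ I V 𝒜 (cdM 𝒜 m m') := by
  let _ := cdM 𝒜 m m'
  have := par_cdM (𝒜 := 𝒜) m m' m (Or.inl rfl)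
  have := par_cdM (𝒜 := 𝒜) m m' m' (Or.inr rfl)
  have or : ∀ {R S}, 𝒜.Am R → 𝒜.Am S → 𝒜.Am (fun i x => R i x ∨ S i x) := fun hR hS =>
    Am.congr (𝒜.nand hR.not hS.not) fun _ _ => by tauto
  have c : ∀ (a : Mach.{u}) [Par 𝒜 a], 𝒜.Am (fun _ x => x = ι 𝒜 a) := fun a _ =>
    Am.congr (Df.eq Tm.id (Tm.const a)) fun i _ =>
      ⟨fun ⟨_, _, e, h⟩ => by rw [← e, h], fun e => ⟨a, (Tm.const (Γ := ℕ) a).1 0 i trivial,
        e.symm, rfl⟩⟩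
  refine ⟨Tm.mk' (fun _ _ _ => trivial) (or (Am.and (𝒜.fstR (c m)) (sndR h.κ))
    (Am.and (𝒜.fstR (c m')) (sndR h'.κ))) fun i x y hx _ => ⟨?_, ?_⟩, fun R hR =>
    Am.congr (or (Am.and (𝒜.fstR (c m)) (sndR (h.Q R hR)))
      (Am.and (𝒜.fstR (c m')) (sndR (h'.Q R hR)))) fun i z => ⟨?_, ?_⟩⟩
  · rintro (⟨⟨_, _, e, rfl⟩, _, _, e', rfl⟩ | ⟨⟨_, _, e, rfl⟩, _, _, e', rfl⟩)
    · rw [inj hx (Or.inl rfl) (pr_iff.1 e).1]
      exact 𝒜.o_inj (pr_iff.1 e').2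
    · rw [inj hx (Or.inr rfl) (pr_iff.1 e).1]
      exact 𝒜.o_inj (pr_iff.1 e').2
  · rintro rfl
    rcases hx with rfl | rfl
    exacts [Or.inl ⟨⟨_, _, rfl, rfl⟩, _, _, rfl, rfl⟩, Or.inr ⟨⟨_, _, rfl, rfl⟩, _, _, rfl, rfl⟩]
  · rintro (⟨⟨_, x, rfl, rfl⟩, _, _, e, h⟩ | ⟨⟨_, x, rfl, rfl⟩, _, _, e, h⟩)
    exacts [⟨m, x, Or.inl rfl, rfl, (pr_iff.1 e).2 ▸ h⟩,
      ⟨m', x, Or.inr rfl, rfl, (pr_iff.1 e).2 ▸ h⟩]
  · rintro ⟨_, x, rfl | rfl, rfl, h⟩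
    exacts [Or.inl ⟨⟨_, _, rfl, rfl⟩, _, _, rfl, h⟩, Or.inr ⟨⟨_, _, rfl, rfl⟩, _, _, rfl, h⟩]

theorem Am.param [Full 𝒜] {R : I → V → Prop} (h : 𝒜.Am R) (c : V) :
    𝒜.Am (fun i x => R i (𝒜.pr c x)) :=
  Am.congr (𝒜.ex (Am.and (𝒜.swR h) (sndR (Full.const c)))) fun i x => by
    constructor
    · rintro ⟨y, ⟨a, b, e, h⟩, _, _, e', rfl⟩
      obtain ⟨rfl, rfl⟩ := pr_iff.1 e
      exact (pr_iff.1 e').2 ▸ h
    · exact fun h => ⟨c, ⟨_, _, rfl, h⟩, _, _, rfl, rfl⟩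

end FO

/-- Closure conditions for families of relations on the ordinals. -/
structure OrdCl {I : Type} (Am : (I → Ordinal.{u} → Prop) → Prop) : Prop where
  nand : ∀ {R S}, Am R → Am S → Am (fun i x => ¬ (R i x ∧ S i x))
  ex : ∀ {R}, Am R → Am (fun i x => ∃ y, R i (G x y))
  c4 : ∀ {R}, Am R → Am (fun i x => R i (fst x))
  c5 : ∀ {R}, Am R → Am (fun i x => R i (G (snd x) (fst x)))
  c6 : ∀ {R}, Am R → Am (fun i x => R i (G (fst (fst x)) (snd x)))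
  c7 : ∀ {R}, Am R → Am (fun i x => R i (G (snd (fst x)) (snd x)))
  lt : Am (fun _ x => fst x < snd x)

theorem am_congr {I : Type} {Am : (I → Ordinal.{u} → Prop) → Prop} {R S : I → Ordinal.{u} → Prop}
    (h : Am R) (e : ∀ i x, R i x ↔ S i x) : Am S :=
  (funext fun i => funext fun x => propext (e i x) : R = S) ▸ h

noncomputable def OrdCl.fo {I : Type} {Am : (I → Ordinal.{u} → Prop) → Prop} (h : OrdCl Am) :
    FO.{u, u + 1} I Ordinal.{u} where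
  pr := G
  pr_inj := G_inj.1
  o := id
  o_inj := fun _ _ h => h
  Am := Am
  nand := h.nand
  ex := h.ex
  fstR := fun hR => am_congr (h.c4 hR) fun _ z =>
    ⟨fun h => ⟨_, _, (G_fst_snd z).symm, h⟩, fun ⟨_, _, e, h⟩ => by simpa [e] using h⟩
  swR := fun hR => am_congr (h.c5 hR) fun _ z =>
    ⟨fun h => ⟨_, _, (G_fst_snd z).symm, h⟩, fun ⟨_, _, e, h⟩ => by simpa [e] using h⟩
  aR := fun hR => am_congr (h.c6 hR) fun _ z =>
    ⟨fun h => ⟨_, snd (fst z), _, by simp, h⟩, fun ⟨_, _, _, e, h⟩ => by simpa [e] using h⟩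
  bR := fun hR => am_congr (h.c7 hR) fun _ z =>
    ⟨fun h => ⟨fst (fst z), _, _, by simp, h⟩, fun ⟨_, _, _, e, h⟩ => by simpa [e] using h⟩
  eq := by
    have h₁ := h.nand (h.nand h.lt h.lt) (h.nand (h.c5 h.lt) (h.c5 h.lt))
    refine am_congr (h.nand h₁ h₁) fun _ z => ?_
    simp only [and_self, not_not, fst_G, snd_G, not_lt]
    exact ⟨fun h => ⟨fst z, by nth_rw 2 [le_antisymm h.2 h.1]; simp⟩,
      fun ⟨x, e⟩ => by simp [e]⟩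
  lt := am_congr h.lt fun _ z =>
    ⟨fun h => ⟨_, _, (G_fst_snd z).symm, h⟩, fun ⟨_, _, e, h⟩ => by simpa [e] using h⟩

instance {I : Type} {Am : (I → Ordinal.{u} → Prop) → Prop} (h : OrdCl Am) : HasG h.fo :=
  ⟨FO.Tm.mk' (fun _ _ _ => trivial) h.fo.eq fun _ _ _ _ _ =>
    ⟨fun ⟨_, e⟩ => (G_inj.1 e).2.trans (G_inj.1 e).1.symm, fun e => ⟨_, congrArg (G _) e⟩⟩⟩

theorem OrdCl.tm_iff {I : Type} {Am : (I → Ordinal.{u} → Prop) → Prop} (h : OrdCl Am)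
    {R : Ordinal.{u} → Prop} : h.fo.Tm R ↔ Am (fun _ => R) :=
  ⟨fun hR => am_congr (Am := Am) hR.df fun _ x =>
    ⟨fun ⟨_, _, e, h⟩ => (show _ = x from e) ▸ h, fun h => ⟨x, trivial, rfl, h⟩⟩,
    fun hR => (FO.Df.mk' hR fun _ _ _ => Iff.rfl).tm⟩

end Pool.Agent.MP_9a6faa_lc
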