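import Pool.Agent.MP_9a6faa_lc.Ground

namespace Pool.Agent.MP_9a6faa_lc

open Set Order FO Filter

universe u v w

/-- A normal measure, as an ultrafilter on the ordinals. -/
structure Meas where
  κ : Ordinal.{u}
  U : Ultrafilter Ordinal.{u}
  hκ : ∀ᶠ y in (U : Filter Ordinal.{u}), y < κ
  hI : ∀ a < κ, ∀ᶠ y in (U : Filter Ordinal.{u}), a < y
  diag : ∀ X : Ordinal.{u} → Ordinal.{u} → Prop,
    (∀ a < κ, ∀ᶠ y in (U : Filter Ordinal.{u}), X a y) →
    ∀ᶠ y in (U : Filter Ordinal.{u}), ∀ a < y, X a y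
  hω : Ordinal.omega0 < κ

theorem wf_of_ctbl {A B : Type*} (F : Filter A)
    (h : ∀ X : ℕ → A → Prop, (∀ n, ∀ᶠ y in F, X n y) → ∃ y, ∀ n, X n y)
    (e : B → A → Ordinal.{u}) : WellFounded (fun a b => ∀ᶠ y in F, e a y < e b y) := by
  rw [wellFounded_iff_isEmpty_descending_chain]
  refine ⟨fun ⟨f, hf⟩ => ?_⟩
  obtain ⟨y, hy⟩ := h (fun n y => e (f (n + 1)) y < e (f n) y) hf
  exact (wellFounded_iff_isEmpty_descending_chain.1 Ordinal.lt_wf).1 ⟨fun n => e (f n) y, hy⟩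

theorem exists_meas (X : Type u) [Uncountable X] (U : Ultrafilter X)
    (hU : CardinalInterFilter (U : Filter X) (Cardinal.mk X)) (np : ∀ x, {x} ∉ U) :
    Nonempty Meas.{u} := by
  obtain ⟨k, hk⟩ : ∃ k, k = (Cardinal.mk X).ord := ⟨_, rfl⟩
  have comp : ∀ y < k, ∀ R : Ordinal.{u} → X → Prop, (∀ i < y, ∀ᶠ x in (U : Filter X), R i x) →
      ∀ᶠ x in (U : Filter X), ∀ i < y, R i x := fun y hy R h => by
    have := (eventually_cardinal_forall (l := (U : Filter X)) (ι := y.ToType)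
      (p := fun x i => R i.toOrd x) (by simpa using Cardinal.lt_ord.1 (hk ▸ hy))).2
      fun i => h _ i.toOrd.2
    exact this.mono fun x hx i hi => by simpa using hx (Ordinal.ToType.mk ⟨i, hi⟩)
  have hω : Ordinal.omega0 < k := by
    rw [hk, Cardinal.lt_ord]; simp
  obtain ⟨e⟩ : Nonempty (X ≃ k.ToType) := Cardinal.eq.1 (by simp [hk])
  have const : ∀ (f : X → Ordinal.{u}), ∀ a < k, (∀ᶠ x in (U : Filter X), f x < a) →
      ∃ b < a, ∀ᶠ x in (U : Filter X), f x = b := fun f a ha h => by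
    by_contra h'
    push Not at h'
    obtain ⟨x, h₁, h₂⟩ := (h.and (comp a ha (fun i x => f x ≠ i)
      h')).exists
    exact h₂ _ h₁ rfl
  have succ : ∀ a < k, a + 1 < k := fun a ha =>
    (hk ▸ Cardinal.isSuccLimit_ord (Cardinal.aleph0_le_mk X)).add_one_lt ha
  have wf := wf_of_ctbl (U : Filter X) (fun R h => by
    obtain ⟨x, hx⟩ := (comp _ hω (fun i x => R (toN i) x) fun i _ => h _).exists
    exact ⟨x, fun n => by simpa using hx n (Ordinal.natCast_lt_omega0 n)⟩)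
    (id : (X → Ordinal.{u}) → _)
  obtain ⟨f, ⟨h₁, h₂⟩, hmin⟩ := wf.has_min
    {f | (∀ x, f x < k) ∧ ∀ a < k, ∀ᶠ x in (U : Filter X), a < f x}
    ⟨fun x => (e x).toOrd, fun x => (e x).toOrd.2, fun a ha => by
      by_contra h
      obtain ⟨b, -, hb⟩ := const (fun x => (e x).toOrd) _ (succ a ha)
        ((Ultrafilter.eventually_not.2 h).mono fun x hx => lt_add_one_iff.2 (not_lt.1 hx))
      obtain ⟨x, hx⟩ := hb.exists
      refine np x (mem_of_superset hb fun y hy => e.injective ?_)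
      exact Ordinal.ToType.mk.symm.injective (Subtype.ext (hy.trans hx.symm))⟩
  refine ⟨⟨k, U.map f, Eventually.of_forall (f := (U : Filter X)) h₁, h₂, fun R hR => ?_, hω⟩⟩
  by_contra h
  have h' : ∀ᶠ x in (U : Filter X), ∃ a, a < f x ∧ ¬ R a (f x) :=
    (Ultrafilter.eventually_not (f := U).2 h).mono fun x hx => by simpa using hx
  let g : X → Ordinal.{u} := fun x => mu (fun a => a < f x ∧ ¬ R a (f x))
  have hg : ∀ x, g x < k := fun x => by
    by_cases h : ∃ a, a < f x ∧ ¬ R a (f x)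
    exacts [(mu_spec h).1.trans (h₁ x), (mu_neg h).trans_lt (Ordinal.omega0_pos.trans hω)]
  have := hmin g
  simp only [mem_ofPred_eq, hg, implies_true, true_and, imp_not_comm] at this
  have := this (h'.mono fun x hx => (mu_spec hx).1)
  push Not at this
  obtain ⟨a, ha, h₃⟩ := this
  obtain ⟨b, hb, h₄⟩ := const g _ (succ a ha)
    (h₃.mono fun x hx => lt_add_one_iff.2 hx)
  obtain ⟨x, h₅, h₆, h₇⟩ := (h₄.and (h'.and (hR b (hb.trans (succ a ha))))).exists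
  exact (mu_spec h₆).2 (h₅.symm ▸ h₇ :)

/-- Iterated largeness quantifier. -/
def QL (m : Mach.{u}) (R : OL.{u} → Prop) : ℕ → OL.{u} → Prop
  | 0, e => R e
  | k + 1, e => m.Q (fun z => QL m R k (z :: e))

@[fun_prop] theorem FO.tm_QL {I : Type} {V : Type v} {𝒜 : FO.{u, v} I V} {Γ : Type*} [Cd 𝒜 Γ]
    [Cd 𝒜 Mach.{u}] [HasQ 𝒜] [HasSep 𝒜] {m : Γ → Mach.{u}} {R : Γ → OL.{u} → Prop} {k : Γ → ℕ}
    {e : Γ → OL.{u}} (hm : 𝒜.Tm m) (hR : 𝒜.Tm (fun z : Γ × OL.{u} => R z.1 z.2)) (hk : 𝒜.Tm k)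
    (he : 𝒜.Tm e) : 𝒜.Tm (fun z => QL (m z) (fun l => R z l) (k z) (e z)) := by
  have := tm_grec (𝒜 := 𝒜) (A := ℕ × OL.{u}) (fun a => a.1) (fun a => encL a.2) (by fun_prop)
    (by fun_prop) (fun _ _ h h' => Prod.ext (Nat.cast_injective h) (encL_inj h'))
    (fun (g : Γ) a => QL (m g) (R g) a.1 a.2)
    (fun g X a => (a.1 = 0 ∧ R g a.2) ∨ ∃ n, a.1 = n + 1 ∧ (m g).Q (fun z => X (n, z :: a.2)))
    (fun g a x => x.1 < a.1 ∧ ∃ z < (m g).κ, x.2 = z :: a.2) (by fun_prop)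
    (fun g a => by
      obtain ⟨_ | n, e⟩ := a
      · simp [QL]
      · simpa [QL] using (m g).congr fun y hy => by simp [hy])
    (fun X hX => by fun_prop) (fun _ _ _ h => Nat.cast_lt.2 h.1) (fun g _ a => by
      obtain ⟨b, h₁, h₂, h₃⟩ := exists_gcl₂ (encL a.2) (m g).κ
      refine ⟨b, h₁, fun a _ h x ⟨_, z, hz, e⟩ => ?_⟩
      rw [e]
      exact h₃.succ (h₃.G (hz.trans h₂) h))
  exact this.comp (Tm.id.pair (hk.pair he))

theorem QL.mono {m : Mach.{u}} {A : Ordinal.{u} → Prop} (hA : ∀ X Y : Ordinal.{u} → Prop,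
    (∀ y, A y → X y → Y y) → m.Q X → m.Q Y) {R S : OL.{u} → Prop} {k : ℕ} {e e' : OL.{u}}
    (h : ∀ l : OL.{u}, (∀ x ∈ l, A x) → R (l ++ e) → S (l ++ e')) (hR : QL m R k e) :
    QL m S k e' := by
  induction k generalizing e e' with
  | zero => exact h [] (by simp) hR
  | succ k ih =>
    refine hA _ _ (fun y hy => ih fun l hl => ?_) hR
    simpa using h (l ++ [y]) (by simpa [or_imp, forall_and, hy] using hl)

theorem QL.mono' {m : Mach.{u}} {R S : OL.{u} → Prop} {k : ℕ} {e e' : OL.{u}}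
    (h : ∀ l : OL.{u}, (∀ x ∈ l, x < m.κ) → R (l ++ e) → S (l ++ e')) (hR : QL m R k e) :
    QL m S k e' := hR.mono m.loc h

theorem QL.exists {m : Mach.{u}} {A : Ordinal.{u} → Prop}
    (hA : ∀ X : Ordinal.{u} → Prop, m.Q X → ∃ y, A y ∧ X y) {R : OL.{u} → Prop} {k : ℕ}
    {e : OL.{u}} (hR : QL m R k e) : ∃ l : OL.{u}, (∀ x ∈ l, A x) ∧ R (l ++ e) := by
  induction k generalizing e with
  | zero => exact ⟨[], by simp, hR⟩
  | succ k ih =>
    obtain ⟨y, h₁, h₂⟩ := hA _ hR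
    obtain ⟨l, h₃, h₄⟩ := ih h₂
    exact ⟨l ++ [y], by simpa [or_imp, forall_and, h₁] using h₃, by simpa using h₄⟩

theorem dec_concat {l : OL.{u}} {z : Ordinal.{u}} :
    Dec (l ++ [z]) ↔ Dec l ∧ ∀ x ∈ l, z < x := by
  simp [Dec, List.pairwise_append]

namespace Meas

variable (μ : Meas.{u})

def mach : Mach.{u} := ⟨μ.κ, fun X => ∀ᶠ y in (μ.U : Filter Ordinal.{u}), X y,
  fun _ _ h hX => (hX.and μ.hκ).mono fun y hy => h y hy.2 hy.1⟩

theorem compl {y : Ordinal.{u}} (hy : y < μ.κ) {X : Ordinal.{u} → Ordinal.{u} → Prop}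
    (h : ∀ i < y, ∀ᶠ z in (μ.U : Filter Ordinal.{u}), X i z) :
    ∀ᶠ z in (μ.U : Filter Ordinal.{u}), ∀ i < y, X i z := by
  refine ((μ.diag (fun i z => i < y → X i z) fun i _ => ?_).and (μ.hI y hy)).mono
    fun z hz i hi => hz.1 i (hi.trans hz.2) hi
  by_cases hi : i < y
  exacts [(h i hi).mono fun _ h _ => h, Eventually.of_forall fun _ h => absurd h hi]

theorem ctbl {X : ℕ → Ordinal.{u} → Prop} (h : ∀ n, ∀ᶠ z in (μ.U : Filter Ordinal.{u}), X n z) :
    ∀ᶠ z in (μ.U : Filter Ordinal.{u}), ∀ n, X n z :=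
  (μ.compl μ.hω (X := fun i => X (toN i)) fun _ _ => h _).mono fun z hz n => by
    simpa using hz n (Ordinal.natCast_lt_omega0 n)

theorem regress {f : Ordinal.{u} → Ordinal.{u}} (h : ∀ᶠ y in (μ.U : Filter Ordinal.{u}), f y < y) :
    ∃ v, ∀ᶠ y in (μ.U : Filter Ordinal.{u}), f y = v := by
  by_contra h'
  push Not at h'
  obtain ⟨y, h₁, h₂⟩ := (h.and (μ.diag (fun v y => f y ≠ v)
    fun v _ => h' v)).exists
  exact h₂ _ h₁ rfl

theorem reg (m : Mach.{u}) : Reg m μ.κ := by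
  refine ⟨μ.hω, fun c y hy => ?_⟩
  refine (μ.hκ.and (μ.compl hy
    (X := fun i z => (∃ v < μ.κ, P m c (G i v)) → ∃ v < z, P m c (G i v)) fun i _ => ?_)).exists
  by_cases h : ∃ v < μ.κ, P m c (G i v)
  · obtain ⟨v, h₁, h₂⟩ := h
    exact (μ.hI v h₁).mono fun z hz _ => ⟨v, hz, h₂⟩
  · exact Eventually.of_forall fun _ h' => absurd h' h

theorem gcl : Gcl μ.κ := (μ.reg μ.mach).gcl

theorem limCl : LimCl μ.κ := (μ.reg μ.mach).limCl

variable {μ} {R : OL.{u} → Prop} {k : ℕ} {e : OL.{u}}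

theorem QL_not : QL μ.mach (fun l => ¬ R l) k e ↔ ¬ QL μ.mach R k e := by
  induction k generalizing e with
  | zero => rfl
  | succ k ih =>
    simp only [QL, ih]
    exact Ultrafilter.eventually_not

theorem QL_hom (h : QL μ.mach R k e) : ∃ Z : Ordinal.{u} → Prop,
    (∀ᶠ z in (μ.U : Filter Ordinal.{u}), Z z) ∧
      ∀ l : OL.{u}, Dec l → (∀ x ∈ l, Z x) → l.length = k → R (l ++ e) := by
  induction k generalizing e with
  | zero =>
    exact ⟨fun _ => True, by simp, fun l _ _ hl => by rwa [List.length_eq_zero_iff.1 hl]⟩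
  | succ k ih =>
    have : ∀ z, ∃ Z : Ordinal.{u} → Prop, (∀ᶠ x in (μ.U : Filter Ordinal.{u}), Z x) ∧
        (QL μ.mach R k (z :: e) → ∀ l : OL.{u}, Dec l → (∀ x ∈ l, Z x) → l.length = k →
          R (l ++ z :: e)) := fun z => by
      by_cases h : QL μ.mach R k (z :: e)
      · obtain ⟨Z, h₁, h₂⟩ := ih h
        exact ⟨Z, h₁, fun _ => h₂⟩
      · exact ⟨fun _ => True, by simp, fun h' => absurd h' h⟩
    choose Z h₁ h₂ using this
    refine ⟨_, Eventually.and h (μ.diag Z fun a _ => h₁ a), fun l hl h₃ h₄ => ?_⟩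
    obtain rfl | ⟨l, z, rfl⟩ := List.eq_nil_or_concat' l
    · simp at h₄
    · rw [dec_concat] at hl
      simpa using h₂ z (h₃ z (by simp)).1 l hl.1
        (fun x hx => (h₃ x (by simp [hx])).2 z (hl.2 x hx)) (by simpa using h₄)

theorem QL_of_hom {Z : Ordinal.{u} → Prop} (hZ : ∀ᶠ z in (μ.U : Filter Ordinal.{u}), Z z)
    (h : ∀ l : OL.{u}, Dec l → (∀ x ∈ l, Z x) → l.length = k → R (l ++ e)) :
    QL μ.mach R k e := by
  induction k generalizing e Z with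
  | zero => exact h [] List.Pairwise.nil (by simp) rfl
  | succ k ih =>
    refine (hZ.and μ.hκ).mono fun z hz => ih (hZ.and (μ.hI z hz.2)) fun l h₁ h₂ h₃ => ?_
    simpa using h (l ++ [z]) (dec_concat.2 ⟨h₁, fun x hx => (h₂ x hx).2⟩)
      (by simpa [or_imp, forall_and, hz.1] using fun x hx => (h₂ x hx).1) (by simp [h₃])

end Meas

end Pool.Agent.MP_9a6faa_lc
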