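import Pool.Agent.MP_9a6faa_lc.Force

namespace Pool.Agent.MP_9a6faa_lc

open Set Order FO Filter

universe u

namespace Gen

variable {m : Mach.{u}} (g : Gen m)

instance (n : ℕ) : Par (FF m) (g.s n) := g.par n

/-- The property holds eventually along the generic sequence. -/
def H (X : Cn m → Prop) : Prop := ∀ᶠ n in atTop, X (g.s n)

/-- The value of a name. -/
noncomputable def val (a : Ordinal.{u}) : ZFSet.{u} :=
  ZFSet.range (fun x : {x : Iio a // Par (FF m) x.1 ∧ g.H (Cl a x)} => val x.1)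
termination_by a
decreasing_by exact x.1.2

variable {g} {X Y : Cn m → Prop}

theorem H.and (h : g.H X) (h' : g.H Y) : g.H (fun p => X p ∧ Y p) := Eventually.and h h'

theorem H.mono (h : g.H X) (e : ∀ p, X p → Y p) : g.H Y := Eventually.mono h fun _ => e _

theorem H.exists (h : g.H X) : ∃ n, X (g.s n) := Eventually.exists h

theorem H_of (n : ℕ) (h : ∀ q ≤ g.s n, X q) : g.H X :=
  eventually_atTop.2 ⟨n, fun _ hk => h _ (g.anti hk)⟩

theorem meet' (hX : (FF m).Tm X) : (∃ n, X (g.s n)) ∨ g.H (fun p => ∀ q ≤ p, ¬ X q) :=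
  let ⟨n, h⟩ := g.meet X hX
  h.imp (fun h => ⟨n, h⟩) fun h => H_of n fun _ hq r hr => h r (hr.trans hq)

theorem dense (hX : (FF m).Tm X) (h : g.H (fun p => ∃ r ≤ p, X r)) : ∃ n, X (g.s n) :=
  (meet' hX).resolve_right fun h' => let ⟨_, ⟨r, h₁, h₂⟩, h₃⟩ := (h.and h').exists; h₃ r h₁ h₂

theorem mem_val {a : Ordinal.{u}} {z : ZFSet.{u}} :
    z ∈ g.val a ↔ ∃ x, Par (FF m) x ∧ g.H (Cl a x) ∧ g.val x = z := by
  rw [val, ZFSet.mem_range]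
  exact ⟨fun ⟨x, h⟩ => ⟨x.1, x.2.1, x.2.2, h⟩, fun ⟨x, h₁, h₂, h₃⟩ =>
    ⟨⟨⟨x, h₂.exists.choose_spec.lt⟩, h₁, h₂⟩, h₃⟩⟩

theorem meets_mem {a b : Ordinal.{u}} [Par (FF m) a] [Par (FF m) b] (h : g.H (FMem a b)) :
    ∃ y, Par (FF m) y ∧ g.H (Cl b y) ∧ g.H (FEq a y) := by
  obtain ⟨n, h⟩ := dense (X := fun r => ∃ y, Cl b y r ∧ FEq a y r) (by fun_prop)
    (h.mono fun p hp => hp p le_rfl)
  obtain ⟨y, h₁, h₂, h₃⟩ := wit_par (m := m) (by fun_prop) h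
  exact ⟨y, h₁, H_of n fun _ => h₂.mono, H_of n fun _ => h₃.mono⟩

theorem val_eq_iff {a b : Ordinal.{u}} [ha : Par (FF m) a] [hb : Par (FF m) b] :
    g.val a = g.val b ↔ g.H (FEq a b) := by
  revert ha
  induction a using WellFoundedLT.induction generalizing b with
  | ind a ih =>
    intro ha
    have lt : ∀ {x}, g.H (Cl a x) → x < a := fun h => h.exists.choose_spec.lt
    constructor
    · intro e
      rcases meet' (g := g) (X := fun q => ∃ x, Cl a x q ∧ ∀ r ≤ q, ¬ FMem x b r) (by fun_prop)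
        with ⟨n, h₁⟩ | h₁
      · obtain ⟨x, h₁, h₂, h₃⟩ := wit_par (m := m) (by fun_prop) h₁
        have h₄ : g.H (Cl a x) := H_of n fun _ => h₂.mono
        obtain ⟨y, h₅, h₆, h₇⟩ := mem_val.1 (e ▸ mem_val.2 ⟨x, h₁, h₄, rfl⟩)
        obtain ⟨k, h₈, h₉, h₀⟩ := ((H_of n h₃).and (h₆.and ((ih x (lt h₄)).1 h₇.symm))).exists
        exact absurd (FMem.of_feq h₉ h₀) h₈
      rcases meet' (g := g) (X := fun q => ∃ x, Cl b x q ∧ ∀ r ≤ q, ¬ FMem x a r) (by fun_prop)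
        with ⟨n, h₂⟩ | h₂
      · obtain ⟨x, h₁, h₂, h₃⟩ := wit_par (m := m) (by fun_prop) h₂
        obtain ⟨y, h₅, h₆, h₇⟩ := mem_val.1
          (e.symm ▸ mem_val.2 ⟨x, h₁, H_of n fun _ => h₂.mono, rfl⟩ : g.val x ∈ g.val a)
        obtain ⟨k, h₈, h₉, h₀⟩ := ((H_of n h₃).and (h₆.and ((ih y (lt h₆)).1 h₇))).exists
        exact absurd (FMem.of_feq h₉ h₀.symm) h₈
      push Not at h₁ h₂
      exact (h₁.and h₂).mono fun p h => feq_iff.2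
        ⟨fun x q hq hx => FMem.reg fun r hr => h.1 r (hr.trans hq) x (hx.mono hr),
          fun x q hq hx => FMem.reg fun r hr => h.2 r (hr.trans hq) x (hx.mono hr)⟩
    · intro h
      ext z
      simp only [mem_val]
      constructor
      · rintro ⟨x, h₁, h₂, rfl⟩
        obtain ⟨y, h₃, h₄, h₅⟩ := meets_mem (a := x) (b := b)
          ((h.and h₂).mono fun p h => (feq_iff.1 h.1).1 x p le_rfl h.2)
        exact ⟨y, h₃, h₄, ((ih x (lt h₂)).2 h₅).symm⟩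
      · rintro ⟨x, h₁, h₂, rfl⟩
        obtain ⟨y, h₃, h₄, h₅⟩ := meets_mem (a := x) (b := a)
          ((h.and h₂).mono fun p h => (feq_iff.1 h.1).2 x p le_rfl h.2)
        exact ⟨y, h₃, h₄, (ih y (lt h₄)).2 (h₅.mono fun _ => FEq.symm)⟩

theorem val_mem_iff {a b : Ordinal.{u}} [Par (FF m) a] [Par (FF m) b] :
    g.val a ∈ g.val b ↔ g.H (FMem a b) :=
  ⟨fun h => let ⟨_, _, h₁, h₂⟩ := mem_val.1 h
    (h₁.and (val_eq_iff.1 h₂.symm)).mono fun _ h => FMem.of_feq h.1 h.2,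
    fun h => let ⟨y, h₁, h₂, h₃⟩ := meets_mem h; mem_val.2 ⟨y, h₁, h₂, (val_eq_iff.2 h₃).symm⟩⟩

variable (g)

def InM (x : ZFSet.{u}) : Prop := ∃ a, Par (FF m) a ∧ g.val a = x

abbrev M : Type (u + 1) := Subtype g.InM

abbrev E : g.M → g.M → Prop := ES g.InM

open Classical in
noncomputable def v (a : Ordinal.{u}) : g.M :=
  if h : Par (FF m) a then ⟨g.val a, a, h, rfl⟩ else ⟨g.val 0, 0, inferInstance, rfl⟩

variable {g}

theorem v_val {a : Ordinal.{u}} [h : Par (FF m) a] : (g.v a).1 = g.val a := by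
  rw [v, dif_pos h]

theorem exists_v (x : g.M) : ∃ a, Par (FF m) a ∧ g.v a = x :=
  let ⟨_, a, h, e⟩ := x; ⟨a, h, Subtype.ext (v_val.trans e)⟩

theorem exists_vl (l : List g.M) : ∃ k : OL.{u}, Par (FF m) k ∧ k.map g.v = l := by
  induction l with
  | nil => exact ⟨[], inferInstance, rfl⟩
  | cons x l ih =>
    obtain ⟨k, _, rfl⟩ := ih
    obtain ⟨a, _, rfl⟩ := exists_v x
    exact ⟨a :: k, ⟨by fun_prop⟩, rfl⟩

instance : Countable g.M :=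
  Function.Surjective.countable (f := fun a : {a : Ordinal.{u} // Par (FF m) a} => g.v a)
    fun x => let ⟨a, h, e⟩ := exists_v x; ⟨⟨a, h⟩, e⟩

theorem E_v {x : g.M} {a : Ordinal.{u}} [Par (FF m) a] :
    g.E x (g.v a) ↔ ∃ y, Par (FF m) y ∧ g.H (Cl a y) ∧ g.v y = x := by
  rw [E, ES, v_val, mem_val]
  exact exists_congr fun y => and_congr_right fun _ => and_congr_right fun _ => by
    rw [← v_val, Subtype.ext_iff]

theorem v_eq_iff {a b : Ordinal.{u}} [Par (FF m) a] [Par (FF m) b] :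
    g.v a = g.v b ↔ g.H (FEq a b) := by
  rw [← val_eq_iff, ← v_val, ← v_val, Subtype.ext_iff]

theorem v_mem_iff {a b : Ordinal.{u}} [Par (FF m) a] [Par (FF m) b] :
    g.E (g.v a) (g.v b) ↔ g.H (FMem a b) := by
  rw [← val_mem_iff, ← v_val, ← v_val, E, ES]

instance {l : OL.{u}} {a : Ordinal.{u}} [Par (FF m) l] [Par (FF m) a] : Par (FF m) (a :: l) :=
  ⟨by fun_prop⟩

instance {l : OL.{u}} {a : Ordinal.{u}} {i : ℕ} [Par (FF m) l] [Par (FF m) a] :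
    Par (FF m) (l.getD i a) := ⟨by fun_prop⟩

/-- The truth lemma. -/
theorem truth (φ : Fml) {l : OL.{u}} [Par (FF m) l] :
    Sat g.E φ (env (g.v 0) (l.map g.v)) ↔ g.H (Forces φ l) := by
  induction φ generalizing l with
  | mem i j => simp only [Sat, env, List.getD_map]; exact v_mem_iff
  | eq i j => simp only [Sat, env, List.getD_map]; exact v_eq_iff
  | bot => exact ⟨False.elim, fun h => h.exists.choose_spec⟩
  | imp φ ψ ih₁ ih₂ =>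
    simp only [Sat, ih₁, ih₂]
    refine ⟨fun h => ?_, fun h h' => (h.and h').mono fun p h => h.1 p le_rfl h.2⟩
    rcases meet' (g := g) (X := Forces φ l) (by fun_prop) with ⟨n, h'⟩ | h'
    · exact (h (H_of n fun _ => h'.mono)).mono fun p hp q hq _ => hp.mono hq
    · exact h'.mono fun p hp q hq h => absurd h (hp q hq)
  | all φ ih =>
    refine ⟨fun h => ?_, fun h x => ?_⟩
    · rcases meet' (g := g) (X := fun p => ∃ a, ∀ q ≤ p, ¬ Forces φ (a :: l) q) (by fun_prop)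
        with ⟨n, h'⟩ | h'
      · obtain ⟨a, _, h'⟩ := wit_par (m := m) (by fun_prop) h'
        obtain ⟨k, h₁, h₂⟩ := ((H_of n h').and ((ih (l := a :: l)).1
          (env_cons _ _ _ ▸ h (g.v a)))).exists
        exact absurd h₂ h₁
      · push Not at h'
        exact h'.mono fun p hp a => Forces.reg fun q hq => hp q hq a
    · obtain ⟨a, _, rfl⟩ := exists_v x
      exact env_cons _ _ _ ▸ (ih (l := a :: l)).2 (h.mono fun p hp => hp a)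

theorem exists_set {R : Ordinal.{u} → Cn m → Prop}
    (hR : (FF m).Tm (fun z : Ordinal.{u} × Cn m => R z.1 z.2)) (b : Ordinal.{u})
    (hb : ∀ x p, R x p → x < b) (mono : ∀ x p q, R x p → q ≤ p → R x q) :
    Par (FF m) (nm R) ∧
      ∀ x, g.E x (g.v (nm R)) ↔ ∃ y, Par (FF m) y ∧ g.H (R y) ∧ g.v y = x := by
  have : Par (FF m) (nm R) := ⟨tm_nm (R := fun _ => R) (by fun_prop)⟩
  have h : (SS m).Tm (fun z : Ordinal.{u} × Cn m => R z.1 z.2) :=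
    Tm.congrP ((FF_SS (R := fun c => ∃ p : Cn m, p.1 = snd c ∧ R (fst c) p) (by fun_prop)).comp
      (f := fun z : Ordinal.{u} × Cn m => G z.1 z.2.1) (by fun_prop)) fun z => by
        simp only [fst_G, snd_G]
        exact ⟨fun ⟨q, e, h⟩ => (Subtype.ext e : q = z.2) ▸ h, fun h => ⟨_, rfl, h⟩⟩
  refine ⟨this, fun x => E_v.trans (exists_congr fun y => ?_)⟩
  rw [show Cl (nm R) y = R y from funext fun _ => propext (Cl_nm h b hb mono)]

theorem trP (g : Gen m) : TrP g.InM where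
  tr := by
    rintro _ _ ⟨a, _, rfl⟩ h
    exact let ⟨x, h, _, e⟩ := mem_val.1 h; ⟨x, h, e⟩
  up := by
    rintro _ _ ⟨a, _, rfl⟩ ⟨b, _, rfl⟩
    have h := fun {x p} => Cl_nm (m := m) (x := x) (p := p) (R := fun x _ => x = a ∨ x = b)
      (by fun_prop) (max a b + 1)
      (by rintro _ - (rfl | rfl) <;> simp) fun _ _ _ h _ => h
    refine ⟨nm fun x (_ : Cn m) => x = a ∨ x = b, ⟨by fun_prop⟩, ZFSet.ext fun z => ?_⟩
    simp only [mem_val, ZFSet.mem_pair]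
    exact ⟨fun ⟨x, _, h₁, e⟩ => (h.1 h₁.exists.choose_spec).imp
      (fun h : x = a => h ▸ e.symm) fun h : x = b => h ▸ e.symm, fun e => e.elim
        (fun e => ⟨a, ‹_›, H_of 0 fun _ _ => h.2 (Or.inl rfl), e.symm⟩)
        fun e => ⟨b, ‹_›, H_of 0 fun _ _ => h.2 (Or.inr rfl), e.symm⟩⟩

theorem E_lt {x : g.M} {a : Ordinal.{u}} [Par (FF m) a] (h : g.E x (g.v a)) :
    ∃ y < a, Par (FF m) y ∧ g.v y = x :=
  let ⟨y, h₁, h₂, h₃⟩ := E_v.1 h; ⟨y, h₂.exists.choose_spec.lt, h₁, h₃⟩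

theorem sep_fml (φ : Fml) (l : List g.M) (b : Ordinal.{u}) [Par (FF m) b] :
    ∃ c, ∀ x, g.E x c ↔ (∃ y < b, Par (FF m) y ∧ g.v y = x) ∧
      Sat g.E φ (cons x (env (g.v 0) l)) := by
  obtain ⟨l, hl, rfl⟩ := exists_vl l
  refine ⟨_, fun x => ((exists_set (R := fun y p => y < b ∧ Forces φ (y :: l) p) (by fun_prop) b
    (fun _ _ h => h.1) fun _ _ _ h e => ⟨h.1, h.2.mono e⟩).2 x).trans ⟨?_, ?_⟩⟩
  · rintro ⟨y, h₁, h₂, rfl⟩
    exact ⟨⟨y, h₂.exists.choose_spec.1, h₁, rfl⟩,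
      env_cons _ _ _ ▸ (truth φ (l := y :: l)).2 (h₂.mono fun _ h => h.2)⟩
  · rintro ⟨⟨y, h₁, h₂, rfl⟩, h⟩
    exact ⟨y, h₂, ((truth φ (l := y :: l)).1 (env_cons _ _ _ ▸ h)).mono fun _ h => ⟨h₁, h⟩, rfl⟩

theorem sep_udef {Ψ : ∀ (M : Type (u + 1)), (M → M → Prop) → (ℕ → M) → Prop} (h : UDef Ψ)
    (l : List g.M) (b : Ordinal.{u}) [Par (FF m) b]
    (hb : ∀ x, Ψ g.M g.E (cons x (env (g.v 0) l)) → ∃ y < b, Par (FF m) y ∧ g.v y = x) :
    ∃ c, ∀ x, g.E x c ↔ Ψ g.M g.E (cons x (env (g.v 0) l)) := by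
  obtain ⟨φ, h⟩ := h
  obtain ⟨c, hc⟩ := sep_fml φ l b
  exact ⟨c, fun x => (hc x).trans (by rw [h]; exact and_iff_right_of_imp (hb x))⟩

theorem union (a : g.M) : ∃ c, ∀ x, g.E x c ↔ ∃ y, g.E x y ∧ g.E y a := by
  obtain ⟨a, _, rfl⟩ := exists_v a
  refine sep_udef (Ψ := fun _ E w => ∃ y, E (w 0) y ∧ E y (w 1))
    (UDef.ex ((UDef.mem _ _).and (UDef.mem _ _))) [g.v a] a fun x ⟨y, h₁, h₂⟩ => ?_
  obtain ⟨y, h₃, _, rfl⟩ := E_lt h₂
  exact let ⟨z, h₄, h₅⟩ := E_lt h₁; ⟨z, h₄.trans h₃, h₅⟩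

theorem power (a : g.M) : ∃ c, ∀ x, g.E x c ↔ ∀ y, g.E y x → g.E y a := by
  obtain ⟨a, _, rfl⟩ := exists_v a
  obtain ⟨b, _, hb⟩ := wit_par (m := m)
    (Q := fun b => ∀ c, nm (fun x (p : Cn m) => x < a ∧ FMem x c p) < b) (by fun_prop)
    (let ⟨b, hb⟩ := nm_bound m a; ⟨b, fun _ => hb _ fun _ _ h => h.1⟩)
  refine sep_udef (Ψ := fun _ E w => ∀ y, E y (w 0) → E y (w 1))
    (UDef.all ((UDef.mem _ _).imp (UDef.mem _ _))) [g.v a] b fun x hx => ?_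
  obtain ⟨c, _, rfl⟩ := exists_v x
  obtain ⟨h₁, h₂⟩ := exists_set (g := g) (R := fun x p => x < a ∧ FMem x c p) (by fun_prop) a
    (fun _ _ h => h.1) fun _ _ _ h e => ⟨h.1, h.2.mono e⟩
  refine ⟨_, hb c, h₁, g.trP.ext fun y => (h₂ y).trans ⟨?_, fun hy => ?_⟩⟩
  · rintro ⟨y, _, h, rfl⟩
    exact v_mem_iff.2 (h.mono fun _ h => h.2)
  · obtain ⟨y, h₃, _, rfl⟩ := E_lt (hx y hy)
    exact ⟨y, ‹_›, (v_mem_iff.1 hy).mono fun _ h => ⟨h₃, h⟩, rfl⟩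

theorem repl (φ : Fml) (l : List g.M) (a : g.M)
    (ha : ∀ x, g.E x a → ∃! y, Sat g.E φ (cons y (cons x (env (g.v 0) l)))) :
    ∃ b, ∀ y, g.E y b ↔ ∃ x, g.E x a ∧ Sat g.E φ (cons y (cons x (env (g.v 0) l))) := by
  have hU : UDef.{u + 1} (fun _ E w => ∃ x, E x (w 1) ∧
      Sat E φ (cons (w 0) (cons x (fun k => w (k + 2))))) := by
    refine UDef.ex ((UDef.mem _ _).and ((UDef.sat φ (cons 1 (cons 0 (fun k => k + 3)))).congr
      fun M E w => iff_of_eq (congrArg _ (funext fun k => ?_))))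
    rcases k with _ | _ | k <;> rfl
  obtain ⟨a, _, rfl⟩ := exists_v a
  obtain ⟨l, hl, rfl⟩ := exists_vl l
  obtain ⟨b, _, hb⟩ := wit_par (m := m) (Q := fun b => ∀ x < a, ∀ p : Cn m,
      (∃ y, Forces φ (y :: x :: l) p) → ∃ y < b, Forces φ (y :: x :: l) p) (by fun_prop) (by
    obtain ⟨b, hb⟩ := bound_wit (G a (cb m (lam m)))
      (fun z y => ∃ p : Cn m, p.1 = snd z ∧ Forces φ (y :: fst z :: l) p)
    refine ⟨b, fun x hx p ⟨y, hy⟩ => ?_⟩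
    obtain ⟨y, h₁, q, h₂, h₃⟩ := hb _ (G_lt_of_lt hx p.2.1) ⟨y, p, by simp, by simpa using hy⟩
    exact ⟨y, h₁, by simpa [Subtype.ext (h₂.trans (snd_G _ _))] using h₃⟩)
  refine sep_udef hU (g.v a :: l.map g.v) b fun y ⟨x, h₁, h₂⟩ => ?_
  obtain ⟨x, h₃, _, rfl⟩ := E_lt h₁
  obtain ⟨y, _, rfl⟩ := exists_v y
  have e : ∀ (y) [Par (FF m) y], Sat g.E φ (cons (g.v y) (cons (g.v x) (env (g.v 0) (l.map g.v))))
      ↔ g.H (Forces φ (y :: x :: l)) := fun y _ => by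
    rw [← truth, List.map_cons, List.map_cons, env_cons, env_cons]
  obtain ⟨n, h₄⟩ := ((e y).1 h₂).exists
  obtain ⟨z, _, h₅, h₆⟩ := wit_par (m := m) (by fun_prop) (hb x h₃ _ ⟨y, h₄⟩)
  exact ⟨z, h₅, ‹_›, (ha _ h₁).unique ((e z).2 (H_of n fun _ => h₆.mono)) h₂⟩

theorem choice (a : g.M) (hne : ∀ x, g.E x a → ∃ y, g.E y x)
    (hdj : ∀ x y, g.E x a → g.E y a → (∃ z, g.E z x ∧ g.E z y) → x = y) :
    ∃ c, ∀ x, g.E x a → ∃! y, g.E y x ∧ g.E y c := by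
  obtain ⟨a, _, rfl⟩ := exists_v a
  obtain ⟨-, hc⟩ := exists_set (g := g) (R := fun y p => y < a ∧ ∃ x, FMem x a p ∧ FMem y x p ∧
    ∀ z < y, ∀ q ≤ p, ¬ FMem z x q) (by fun_prop) a (fun _ _ h => h.1)
    fun _ _ _ ⟨h₁, x, h₂, h₃, h₄⟩ e =>
      ⟨h₁, x, h₂.mono e, h₃.mono e, fun z hz r hr => h₄ z hz r (hr.trans e)⟩
  generalize g.v (nm _) = c at hc
  refine ⟨c, fun x hx => ?_⟩
  obtain ⟨x, h₁, _, rfl⟩ := E_lt hx
  obtain ⟨y, hy⟩ := hne _ hx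
  obtain ⟨y, h₂, _, rfl⟩ := E_lt hy
  obtain ⟨h₃, _, h₄⟩ := mu_lt (S := fun y => Par (FF m) y ∧ g.E (g.v y) (g.v x))
    ⟨y, h₂.trans h₁, ‹_›, hy⟩
  refine ⟨_, ⟨h₄, (hc _).2 ⟨_, ‹_›, ?_, rfl⟩⟩, fun z ⟨h₅, h₆⟩ => ?_⟩
  · rcases meet' (g := g) (X := fun q => ∃ z < mu fun y => Par (FF m) y ∧ g.E (g.v y) (g.v x),
      FMem z x q) (by fun_prop) with ⟨n, h⟩ | h
    · obtain ⟨z, _, h₅, h₆⟩ := wit_par (m := m) (by fun_prop) h
      exact absurd ⟨‹_›, v_mem_iff.2 (H_of n fun _ => h₆.mono)⟩ (not_of_lt_mu h₅)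
    · exact ((v_mem_iff.1 hx).and ((v_mem_iff.1 h₄).and h)).mono fun p h =>
        ⟨h₃, x, h.1, h.2.1, fun z hz q hq e => h.2.2 q hq ⟨z, hz, e⟩⟩
  · obtain ⟨z, _, h₇, rfl⟩ := (hc _).1 h₆
    obtain ⟨n, -, h₇⟩ := h₇.exists
    obtain ⟨w, _, h₇, h₈, h₉⟩ := wit_par (m := m) (by fun_prop) h₇
    have e := hdj _ _ hx (v_mem_iff.2 (H_of n fun _ => h₇.mono))
      ⟨_, h₅, v_mem_iff.2 (H_of n fun _ => h₈.mono)⟩
    rcases (mu_le (R := fun y => Par (FF m) y ∧ g.E (g.v y) (g.v x)) ⟨‹_›, h₅⟩).eq_or_lt with h | h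
    · rw [h]
    · obtain ⟨k, k₁, k₂⟩ := ((H_of n (h₉ _ h)).and (v_mem_iff.1
        ((congrArg (g.E _) e).mp h₄))).exists
      exact absurd k₂ k₁

end Gen

end Pool.Agent.MP_9a6faa_lc
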