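import Pool.Agent.MP_9a6faa_lc.Poset

namespace Pool.Agent.MP_9a6faa_lc

open Set Order FO

universe u

variable {m : Mach.{u}}

/-- Ranked winning positions of the first player. -/
theorem exists_rank {H : Ordinal.{u} × OL.{u} → Prop} (hH : (SS m).Tm H) :
    ∃ B : Ordinal.{u} × Ordinal.{u} × OL.{u} → Prop, (SS m).Tm B ∧ ∀ b r a, B (b, r, a) ↔
      ∃ x < th m, ∃ y < sa m x, ∀ z, y ≤ z → z < sa m x → H (b, G x z :: a) →
        ∃ r' < r, B (b, r', G x z :: a) := by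
  let X : Ordinal.{u} → Ordinal.{u} → OL.{u} → Prop := fun b => orec id fun R _ a =>
    ∃ x < th m, ∃ y < sa m x, ∀ z, y ≤ z → z < sa m x → H (b, G x z :: a) →
      ∃ r', R r' (G x z :: a)
  have hX : ∀ b r a, X b r a ↔ ∃ x < th m, ∃ y < sa m x, ∀ z, y ≤ z → z < sa m x →
      H (b, G x z :: a) → ∃ r' < r, X b r' (G x z :: a) := fun b r a => orec_iff _ _ _ _
  refine ⟨fun z => X z.1 z.2.1 z.2.2, ?_, hX⟩
  refine tm_grec (𝒜 := SS m) (A := Ordinal.{u} × OL.{u}) Prod.fst (fun a => encL a.2)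
    (by fun_prop) (by fun_prop) (fun _ _ h h' => Prod.ext h (encL_inj h')) (fun b a => X b a.1 a.2)
    (fun b R a => ∃ x < th m, ∃ y < sa m x, ∀ z, y ≤ z → z < sa m x → H (b, G x z :: a.2) →
      ∃ r', R (r', G x z :: a.2)) (fun _ a w => w.1 < a.1 ∧ ∃ x < lam m, w.2 = x :: a.2)
    (by fun_prop) (fun b a => (hX _ _ _).trans (exists_congr fun x => and_congr_right fun hx =>
      exists_congr fun y => and_congr_right fun _ => forall₃_congr fun z _ hz =>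
        imp_congr_right fun _ => exists_congr fun r => and_congr_left fun _ =>
          (and_iff_left ⟨_, letter_lt hx hz, rfl⟩).symm))
    (fun R hR => by fun_prop) (fun _ _ _ h => h.1) fun _ _ a => ?_
  obtain ⟨y, h₁, h₂, h₃⟩ := exists_gcl₂ (encL a.2) (lam m)
  refine ⟨y, h₁, fun a _ h w ⟨_, x, hx, e⟩ => ?_⟩
  rw [e]
  exact h₃.succ (h₃.G (hx.trans h₂) h)

/-- The open game is won by the second player for some bound. -/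
theorem game {ρ : Ordinal.{u}} (hρ : Reg m ρ) (hθ : th m < ρ) (hS : ∀ x < th m, ρ ≠ sa m x)
    {V : OL.{u} → Prop} {β : OL.{u} → Ordinal.{u}} (hV : (SS m).Tm V) (hβ : (SS m).Tm β)
    (V0 : V []) (Vs : ∀ a, V a → ∀ x < th m, ∀ y < sa m x, ∃ z, y ≤ z ∧ z < sa m x ∧ V (G x z :: a))
    (hb : ∀ a, V a → β a < ρ) :
    ∃ b < ρ, ∃ W : OL.{u} → Prop, (SS m).Tm W ∧ W [] ∧ ∀ a, W a → ∀ x < th m, ∀ y < sa m x,
      ∃ z, y ≤ z ∧ z < sa m x ∧ V (G x z :: a) ∧ β (G x z :: a) ≤ b ∧ W (G x z :: a) := by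
  obtain ⟨B, hB, eB⟩ := exists_rank (m := m) (H := fun z => V z.2 ∧ β z.2 ≤ z.1) (by fun_prop)
  suffices ∃ b < ρ, ∀ r, ¬ B (b, r, []) by
    obtain ⟨b, h₁, h₂⟩ := this
    refine ⟨b, h₁, fun a => ∀ r, ¬ B (b, r, a), by fun_prop, h₂, fun a h x hx y hy => ?_⟩
    obtain ⟨r, hr⟩ := bound_wit (sa m x) (fun z r => B (b, r, G x z :: a))
    by_contra h₃
    push Not at h₃
    exact h r ((eB _ _ _).2 ⟨x, hx, y, hy, fun z h₄ h₅ h₆ => hr z h₅ (h₃ z h₄ h₅ h₆.1 h₆.2)⟩)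
  obtain ⟨Wn, hW, eW⟩ : ∃ Wn : Ordinal.{u} × OL.{u} × Ordinal.{u} × Ordinal.{u} → Prop,
      (SS m).Tm Wn ∧ ∀ b a x y, Wn (b, a, x, y) ↔ ∀ z, y ≤ z → z < sa m x →
        V (G x z :: a) ∧ β (G x z :: a) ≤ b →
          ∃ r' < mu (fun r => B (b, r, a)), B (b, r', G x z :: a) :=
    ⟨fun w => ∀ z, w.2.2.2 ≤ z → z < sa m w.2.2.1 →
      V (G w.2.2.1 z :: w.2.1) ∧ β (G w.2.2.1 z :: w.2.1) ≤ w.1 →
        ∃ r' < mu (fun r => B (w.1, r, w.2.1)), B (w.1, r', G w.2.2.1 z :: w.2.1), by fun_prop,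
      fun _ _ _ _ => Iff.rfl⟩
  obtain ⟨M, hM, M0, eM⟩ := exists_rec (m := m) (σ := OL.{u}) (Q := fun w a =>
    (sa m (fst w.2.1) < ρ → a = w.2.1 :: w.1) ∧ (V w.1 → fst w.2.1 < th m → ρ < sa m (fst w.2.1) →
      ∃ z < sa m (fst w.2.1), a = G (fst w.2.1) z :: w.1 ∧ V a ∧ ∀ b < ρ,
        (∃ y < sa m (fst w.2.1), Wn (b, w.1, fst w.2.1, y)) → ∃ y ≤ z, Wn (b, w.1, fst w.2.1, y)))
    (by fun_prop) [] (fun ⟨a, x, _⟩ => by
      by_cases h : V a ∧ fst x < th m ∧ ρ < sa m (fst x)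
      · obtain ⟨c, h₁, h₂⟩ := (reg_sa (fst x)).regA (fun b y => Wn (b, a, fst x, y)) (by fun_prop)
          ρ h.2.2
        obtain ⟨z, h₃, h₄, h₅⟩ := Vs a h.1 _ h.2.1 c h₁
        exact ⟨_, fun h' => absurd h' h.2.2.not_gt, fun _ _ _ => ⟨z, h₄, rfl, h₅, fun b hb h' =>
          let ⟨y, h₆, h₇⟩ := h₂ b hb h'; ⟨y, h₆.le.trans h₃, h₇⟩⟩⟩
      · exact ⟨_, fun _ => rfl, fun h₁ h₂ h₃ => absurd ⟨h₁, h₂, h₃⟩ h⟩)
  obtain ⟨c, h₁, h₂⟩ := hρ.bdd (f := sa m) (by fun_prop) hθ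
  obtain ⟨ν, h₃, h₄, h₅, h₆⟩ := hρ.limCl.two h₁ hθ
  obtain ⟨b, h₇, h₈⟩ := hρ.bdd (f := fun i => β (M (decL i))) (by fun_prop) h₃
  refine ⟨b, h₇, fun r => ?_⟩
  suffices ∀ l, encL l < ν → V (M l) → ¬ B (b, r, M l) by
    simpa only [M0] using this [] h₆.pos (by rwa [M0])
  induction r using WellFoundedLT.induction with
  | ind r ih =>
    intro l hl hV h
    obtain ⟨x, hx, y, hy, h₉⟩ := (eB _ _ _).1 (mu_spec (R := fun r => B (b, r, M l)) ⟨r, h⟩)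
    obtain ⟨w, z, k₁, k₂, k₃, k₄, y', k₅, k₆⟩ : ∃ w z, w < ν ∧ z < sa m x ∧
        M (w :: l) = G x z :: M l ∧ V (G x z :: M l) ∧ ∃ y ≤ z, Wn (b, M l, x, y) := by
      rcases (hS x hx).lt_or_gt with h' | h'
      · have := (eM (G x 0) l).2
        simp only [fst_G] at this
        obtain ⟨z, k₁, k₂, k₃, k₄⟩ := this hV hx h'
        exact ⟨_, z, h₆.G (hx.trans h₅) h₆.pos, k₁, k₂, k₂ ▸ k₃,
          k₄ b h₇ ⟨y, hy, (eW _ _ _ _).2 h₉⟩⟩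
      · obtain ⟨z, k₁, k₂, k₃⟩ := Vs _ hV x hx y hy
        exact ⟨_, z, h₆.G (hx.trans h₅) (k₂.trans ((h₂ x hx h').trans h₄)), k₂,
          (eM _ l).1 (by simpa using h'), k₃, y, k₁, (eW _ _ _ _).2 h₉⟩
    have k₇ : encL (w :: l) < ν := h₆.succ (h₆.G k₁ hl)
    obtain ⟨r', k₈, k₉⟩ := (eW _ _ _ _).1 k₆ z k₅ k₂ ⟨k₄, by
      simpa [k₃] using (h₈ _ k₇ (by simpa [k₃] using hb _ k₄)).le⟩
    exact ih r' (k₈.trans_le (mu_le h)) _ k₇ (k₃ ▸ k₄) (k₃ ▸ k₉)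

theorem namba {ρ : Ordinal.{u}} (hρ : Reg m ρ) (hθ : th m < ρ) (hS : ∀ x < th m, ρ ≠ sa m x)
    {D : Cn m → ℕ → Ordinal.{u} → Prop}
    (hD : (SS m).Tm (fun z : Cn m × ℕ × Ordinal.{u} => D z.1 z.2.1 z.2.2))
    (dense : ∀ q n, ∃ r ≤ q, ∃ b < ρ, D r n b)
    (mono : ∀ q r n b b', D q n b → r ≤ q → b ≤ b' → D r n b') (p : Cn m) :
    ∃ q ≤ p, ∃ b < ρ, ∀ n, ∀ r ≤ q, ∃ r' ≤ r, D r' n b := by
  obtain ⟨s₀, -, h₀⟩ := p.spl p.2.2.1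
  obtain ⟨f, hf, f0, ef⟩ := exists_rec (m := m) (σ := Cn m × OL.{u} × Ordinal.{u})
    (Q := fun w y => w.2.1 :: w.1.2.1 <:+ y.2.1 ∧ (In m w.1.1.1 (w.2.1 :: w.1.2.1) →
      y.1 ≤ w.1.1 ∧ Spl m (fun t => In m y.1.1 t) y.2.1 ∧ D y.1 w.2.2.length y.2.2 ∧ y.2.2 < ρ))
    (by fun_prop) (p, s₀, 0) (fun ⟨⟨c, s, _⟩, x, a⟩ => by
      by_cases h : In m c.1 (x :: s)
      · obtain ⟨q, h₁, h₂⟩ := c.exists_stem h
        obtain ⟨r, h₃, b, h₄, h₅⟩ := dense q a.length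
        obtain ⟨t, h₆, h₇⟩ := r.spl (h₂.mono h₃).mem
        exact ⟨(r, t, b), h₆, fun _ => ⟨h₃.trans h₁, h₇, h₅, h₄⟩⟩
      · exact ⟨(c, x :: s, 0), List.suffix_rfl, fun h' => absurd h' h⟩)
  obtain ⟨V, hV, eV⟩ : ∃ V : OL.{u} → Prop, (SS m).Tm V ∧ ∀ a, V a ↔
      ∀ x b, x :: b <:+ a → In m (f b).1.1 (x :: (f b).2.1) := ⟨_, by fun_prop, fun _ => Iff.rfl⟩
  have Vc : ∀ {x a}, V (x :: a) ↔ V a ∧ In m (f a).1.1 (x :: (f a).2.1) := fun {x a} => by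
    simp only [eV, List.suffix_cons_iff (l₂ := a), or_imp, forall_and, List.cons.injEq, and_imp,
      forall_eq_apply_imp_iff, forall_eq, and_comm]
  have inv : ∀ a, V a → Spl m (In m (f a).1.1) (f a).2.1 ∧ (f a).2.2 < ρ := fun a h => by
    rcases a with _ | ⟨x, a⟩
    · exact f0 ▸ ⟨h₀, hρ.lim.1⟩
    · exact ⟨((ef x a).2 (Vc.1 h).2).2.1, ((ef x a).2 (Vc.1 h).2).2.2.2⟩
  have cm : ∀ a b, V a → b <:+ a → (f a).1 ≤ (f b).1 := fun a b h e => by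
    induction a with
    | nil => rw [List.suffix_nil.1 e]
    | cons x a ih =>
      rcases List.suffix_cons_iff.1 e with rfl | e
      exacts [le_rfl, ((ef x a).2 (Vc.1 h).2).1.trans (ih (Vc.1 h).1 e)]
  have sm : ∀ a b, b <:+ a → (f b).2.1 <:+ (f a).2.1 := fun a b e => by
    induction a with
    | nil => rw [List.suffix_nil.1 e]
    | cons x a ih =>
      rcases List.suffix_cons_iff.1 e with rfl | e
      exacts [List.suffix_rfl, (ih e).trans ((List.suffix_cons _ _).trans (ef x a).1)]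
  have inj₁ : ∀ a b x, b <:+ a → x :: (f b).2.1 <:+ (f a).2.1 → x :: b <:+ a := by
    rintro _ b x ⟨e, rfl⟩ h
    obtain rfl | ⟨e, y, rfl⟩ := List.eq_nil_or_concat' e
    · simpa using h.length_le
    · have h₁ : y :: b <:+ e ++ [y] ++ b := ⟨e, by simp⟩
      rwa [(List.cons.inj ((List.suffix_of_suffix_length_le h ((ef y b).1.trans (sm _ _ h₁))
        (by simp)).eq_of_length (by simp))).1]
  have inj : ∀ a b, (f b).2.1 <:+ (f a).2.1 → b <:+ a := fun a b h => by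
    induction b with
    | nil => exact List.nil_suffix
    | cons x b ih =>
      have := (ef x b).1.trans h
      exact inj₁ a b x (ih ((List.suffix_cons _ _).trans this)) this
  obtain ⟨b, hb, W, hW, W0, Ws⟩ := game hρ hθ hS hV (β := fun a => (f a).2.2) (by fun_prop)
    ((eV _).2 (by simp)) (fun a h x hx y hy =>
      let ⟨z, h₁, h₂, h₃⟩ := (inv a h).1.2 x hx y hy; ⟨z, h₁, h₂, Vc.2 ⟨h, h₃⟩⟩)
    fun a h => (inv a h).2
  obtain ⟨T, hT, eT⟩ : ∃ T : OL.{u} → Prop, (SS m).Tm T ∧ ∀ a, T a ↔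
      V a ∧ ∀ c, c <:+ a → (f c).2.2 ≤ b ∧ W c := ⟨_, by fun_prop, fun _ => Iff.rfl⟩
  have TV : ∀ {a t}, T a → t <:+ (f a).2.1 → In m (f a).1.1 t := fun h e =>
    Cn.down _ e (inv _ ((eT _).1 h).1).1.1
  have T0 : T [] := (eT _).2 ⟨(eV _).2 (by simp), by simp [f0, W0]⟩
  obtain ⟨q, hq⟩ := mk_cond (m := m) (R := fun t => ∃ a, T a ∧ t <:+ (f a).2.1) (by fun_prop)
    (fun t ⟨a, h₁, h₂⟩ => (TV h₁ h₂).1) ⟨⟨[], T0, List.nil_suffix⟩,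
      fun s t h ⟨a, h₁, h₂⟩ => ⟨a, h₁, h.trans h₂⟩, fun t ⟨a, h₁, h₂⟩ =>
        ⟨_, h₂, ⟨a, h₁, List.suffix_rfl⟩, fun x hx y hy => by
          obtain ⟨z, h₃, h₄, h₅, h₆⟩ := Ws a (((eT _).1 h₁).2 a List.suffix_rfl).2 x hx y hy
          refine ⟨z, h₃, h₄, _, (eT _).2 ⟨h₅, fun c hc => ?_⟩, (ef _ a).1⟩
          rcases List.suffix_cons_iff.1 hc with rfl | hc
          exacts [h₆, ((eT _).1 h₁).2 c hc]⟩⟩
  refine ⟨q, fun t ht => ?_, b, hb, fun n r hr => ?_⟩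
  · obtain ⟨a, h₁, h₂⟩ := (hq t).1 ht
    simpa [f0] using cm a [] ((eT _).1 h₁).1 List.nil_suffix t (TV h₁ h₂)
  have K : ∀ t c, In m r.1 t → (∀ a, t <:+ (f a).2.1 → c <:+ a) → In m r.1 (f c).2.1 :=
    fun t c ht h => by
      obtain ⟨s, h₁, h₂, h₃⟩ := r.long ht (f c).2.1.length
      obtain ⟨a, -, h₄⟩ := (hq s).1 (hr s h₂)
      exact r.down (List.suffix_of_suffix_length_le (sm _ _ (h a (h₁.trans h₄))) h₄ h₃) h₂
  have ex : ∀ k, ∃ c : OL.{u}, c.length = k ∧ In m r.1 (f c).2.1 := fun k => by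
    induction k with
    | zero => exact ⟨[], rfl, K [] [] r.2.2.1 fun _ _ => List.nil_suffix⟩
    | succ k ih =>
      obtain ⟨c, h₁, h₂⟩ := ih
      obtain ⟨_, ⟨e, rfl⟩, h₃, h₄⟩ := r.long h₂ ((f c).2.1.length + 1)
      obtain rfl | ⟨e, x, rfl⟩ := List.eq_nil_or_concat' e
      · simp at h₄
      · exact ⟨x :: c, by simp [h₁], K (x :: (f c).2.1) _ (r.down ⟨e, by simp⟩ h₃) fun a h =>
          inj₁ a c x (inj a c ((List.suffix_cons _ _).trans h)) h⟩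
  obtain ⟨_ | ⟨x, c⟩, h₁, h₂⟩ := ex (n + 1)
  · simp at h₁
  obtain ⟨a, h₃, h₄⟩ := (hq _).1 (hr _ h₂)
  have h₅ := inj _ _ h₄
  have h₆ := (ef x c).2 ((eV _).1 ((eT _).1 h₃).1 x c h₅)
  obtain ⟨r', h₇, h₈⟩ := r.exists_stem h₂
  refine ⟨r', h₇, mono _ _ _ _ _ ((by simpa using h₁ : c.length = n) ▸ h₆.2.2.1) (fun t ht => ?_)
    (((eT _).1 h₃).2 _ h₅).1⟩
  rcases h₈ t ht with e | e
  · exact Cn.down _ e h₆.2.1.1
  · obtain ⟨a', k₁, k₂⟩ := (hq _).1 (hr _ (h₇ _ ht))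
    exact cm a' _ ((eT _).1 k₁).1 (inj _ _ (e.trans k₂)) t (TV k₁ k₂)

end Pool.Agent.MP_9a6faa_lc
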