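import Mathlib

namespace Pool.Agent.MP_9a6faa_lc

open Set Order

universe u v w

/-- Recursion along an ordinal-valued rank. -/
noncomputable def orec {A : Type v} {B : Type w} (rk : A → Ordinal.{u})
    (F : (A → B → Prop) → A → B → Prop) : A → B → Prop :=
  (InvImage.wf rk Ordinal.lt_wf).fix
    (fun a ih b => F (fun a' b' => ∃ h : rk a' < rk a, ih a' h b') a b)

theorem orec_iff {A : Type v} {B : Type w} (rk : A → Ordinal.{u})
    (F : (A → B → Prop) → A → B → Prop) (a : A) (b : B) :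
    orec rk F a b ↔ F (fun a' b' => rk a' < rk a ∧ orec rk F a' b') a b := by
  unfold orec
  rw [WellFounded.fix_eq]
  simp only [exists_prop]

/-- Ambient replacement. -/
theorem exists_bound {ι : Type*} [Small.{u} ι] (f : ι → Ordinal.{u}) : ∃ b, ∀ i, f i < b :=
  ⟨_, fun i => Ordinal.lt_iSup_add_one f i⟩

theorem bound_wit (a : Ordinal.{u}) (R : Ordinal.{u} → Ordinal.{u} → Prop) :
    ∃ b, ∀ x < a, (∃ y, R x y) → ∃ y < b, R x y := by
  classical
  obtain ⟨b, hb⟩ := exists_bound (fun x : Iio a => if h : ∃ y, R x y then h.choose else 0)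
  refine ⟨b, fun x hx h => ⟨h.choose, ?_, h.choose_spec⟩⟩
  simpa [h] using hb ⟨x, hx⟩

theorem bound_fun (a : Ordinal.{u}) (f : Ordinal.{u} → Ordinal.{u}) :
    ∃ b, ∀ x < a, f x < b := by
  obtain ⟨b, hb⟩ := exists_bound (fun x : Iio a => f x)
  exact ⟨b, fun x hx => hb ⟨x, hx⟩⟩

/-- Least witness (or `0`). -/
noncomputable def mu (R : Ordinal.{u} → Prop) : Ordinal.{u} := sInf {y | R y}

theorem mu_spec {R : Ordinal.{u} → Prop} (h : ∃ y, R y) : R (mu R) := csInf_mem (s := {y | R y}) h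

theorem mu_le {R : Ordinal.{u} → Prop} {y : Ordinal.{u}} (h : R y) : mu R ≤ y :=
  csInf_le' (s := {y | R y}) h

theorem not_of_lt_mu {R : Ordinal.{u} → Prop} {y : Ordinal.{u}} (h : y < mu R) : ¬ R y :=
  fun h' => (mu_le h').not_gt h

theorem mu_neg {R : Ordinal.{u} → Prop} (h : ¬ ∃ y, R y) : mu R = 0 := by
  have : {y | R y} = ∅ := Set.eq_empty_of_forall_notMem fun y hy => h ⟨y, hy⟩
  simp [mu, this]

theorem mu_eq {R : Ordinal.{u} → Prop} {y : Ordinal.{u}} (h : R y) (h' : ∀ z < y, ¬ R z) :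
    mu R = y :=
  le_antisymm (mu_le h) (not_lt.1 fun hl => h' _ hl (mu_spec ⟨y, h⟩))

theorem eq_mu_iff {R : Ordinal.{u} → Prop} {y : Ordinal.{u}} :
    y = mu R ↔ (R y ∧ ∀ z < y, ¬ R z) ∨ (y = 0 ∧ ∀ z, ¬ R z) := by
  constructor
  · rintro rfl
    by_cases h : ∃ y, R y
    · exact Or.inl ⟨mu_spec h, fun z hz => not_of_lt_mu hz⟩
    · exact Or.inr ⟨mu_neg h, fun z hz => h ⟨z, hz⟩⟩
  · rintro (⟨h, h'⟩ | ⟨rfl, h⟩)
    · exact (mu_eq h h').symm
    · exact (mu_neg fun ⟨z, hz⟩ => h z hz).symm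

theorem eq_of_lt_iff {a b : Ordinal.{u}} (h : ∀ x, x < a ↔ x < b) : a = b :=
  eq_of_forall_lt_iff h

/-! ### Goedel pairing -/

noncomputable def Hf (m : Ordinal.{u}) : Ordinal.{u} := ⨆ x : Iio m, Hf x + x + x + 1
termination_by m
decreasing_by exact x.2

theorem Hf_le_iff {m c : Ordinal.{u}} : Hf m ≤ c ↔ ∀ x < m, Hf x + x + x + 1 ≤ c := by
  rw [Hf, Ordinal.iSup_le_iff]
  exact ⟨fun h x hx => h ⟨x, hx⟩, fun h x => h x x.2⟩

theorem Hf_step {x m : Ordinal.{u}} (h : x < m) : Hf x + x + x < Hf m :=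
  add_one_le_iff.1 (Hf_le_iff.1 le_rfl x h)

theorem Hf_strictMono : StrictMono Hf.{u} := fun _ _ h =>
  lt_of_le_of_lt ((le_self_add).trans le_self_add) (Hf_step h)

noncomputable def G (a b : Ordinal.{u}) : Ordinal.{u} :=
  if a < b then Hf b + a else Hf a + a + b

/-- The max-lexicographic order. -/
def ML (a b a' b' : Ordinal.{u}) : Prop :=
  max a b < max a' b' ∨ (max a b = max a' b' ∧ (a < a' ∨ (a = a' ∧ b < b')))

theorem Hf_le_G (a b : Ordinal.{u}) : Hf (max a b) ≤ G a b := by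
  unfold G
  split_ifs with h
  · rw [max_eq_right h.le]; exact le_self_add
  · rw [max_eq_left (not_lt.1 h)]; exact le_self_add.trans le_self_add

theorem G_le_Hf (a b : Ordinal.{u}) : G a b ≤ Hf (max a b) + max a b + max a b := by
  unfold G
  split_ifs with h
  · rw [max_eq_right h.le]
    exact (add_le_add_right h.le _).trans le_self_add
  · rw [max_eq_left (not_lt.1 h)]
    exact add_le_add_right (not_lt.1 h) _

theorem G_lt_of_ML {a b a' b' : Ordinal.{u}} (h : ML a b a' b') : G a b < G a' b' := by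
  rcases h with h | ⟨h, h'⟩
  · exact (G_le_Hf a b).trans_lt ((Hf_step h).trans_le (Hf_le_G _ _))
  · unfold G
    by_cases h₁ : a < b <;> by_cases h₂ : a' < b' <;> simp only [h₁, h₂, if_true, if_false]
    · rw [max_eq_right h₁.le, max_eq_right h₂.le] at h
      subst h
      rcases h' with h' | ⟨-, h'⟩
      · exact add_lt_add_right h' _
      · exact absurd h' (lt_irrefl _)
    · rw [max_eq_right h₁.le, max_eq_left (not_lt.1 h₂)] at h
      subst h
      exact (add_lt_add_right h₁ _).trans_le le_self_add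
    · rw [max_eq_left (not_lt.1 h₁), max_eq_right h₂.le] at h
      subst h
      rcases h' with h' | ⟨h', -⟩
      · exact absurd (h'.trans h₂) (lt_irrefl _)
      · exact absurd (h' ▸ h₂) (lt_irrefl _)
    · rw [max_eq_left (not_lt.1 h₁), max_eq_left (not_lt.1 h₂)] at h
      subst h
      rcases h' with h' | ⟨-, h'⟩
      · exact absurd h' (lt_irrefl _)
      · exact add_lt_add_right h' _

theorem ML_tri (a b a' b' : Ordinal.{u}) : ML a b a' b' ∨ (a = a' ∧ b = b') ∨ ML a' b' a b := by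
  unfold ML
  rcases lt_trichotomy (max a b) (max a' b') with h | h | h
  · exact Or.inl (Or.inl h)
  · rcases lt_trichotomy a a' with h₁ | h₁ | h₁
    · exact Or.inl (Or.inr ⟨h, Or.inl h₁⟩)
    · rcases lt_trichotomy b b' with h₂ | h₂ | h₂
      · exact Or.inl (Or.inr ⟨h, Or.inr ⟨h₁, h₂⟩⟩)
      · exact Or.inr (Or.inl ⟨h₁, h₂⟩)
      · exact Or.inr (Or.inr (Or.inr ⟨h.symm, Or.inr ⟨h₁.symm, h₂⟩⟩))
    · exact Or.inr (Or.inr (Or.inr ⟨h.symm, Or.inl h₁⟩))
  · exact Or.inr (Or.inr (Or.inl h))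

theorem G_lt_iff {a b a' b' : Ordinal.{u}} : G a b < G a' b' ↔ ML a b a' b' := by
  refine ⟨fun h => ?_, G_lt_of_ML⟩
  rcases ML_tri a b a' b' with h' | ⟨rfl, rfl⟩ | h'
  · exact h'
  · exact absurd h (lt_irrefl _)
  · exact absurd (G_lt_of_ML h') h.not_gt

theorem G_inj {a b a' b' : Ordinal.{u}} : G a b = G a' b' ↔ a = a' ∧ b = b' := by
  refine ⟨fun h => ?_, fun h => by rw [h.1, h.2]⟩
  rcases ML_tri a b a' b' with h' | h' | h'
  · exact absurd (G_lt_of_ML h') (by rw [h]; exact lt_irrefl _)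
  · exact h'
  · exact absurd (G_lt_of_ML h') (by rw [h]; exact lt_irrefl _)

theorem G_surj (c : Ordinal.{u}) : ∃ a b, G a b = c := by
  have hne : ∃ m, c < Hf m + m + m + 1 :=
    ⟨c + 1, ((lt_add_one c).trans_le Hf_strictMono.le_apply).trans_le
      ((le_self_add.trans le_self_add).trans le_self_add)⟩
  obtain ⟨m, h₁, h₂⟩ : ∃ m, c < Hf m + m + m + 1 ∧ Hf m ≤ c :=
    ⟨_, mu_spec hne, Hf_le_iff.2 fun x hx => not_lt.1 (not_of_lt_mu (R := fun m =>
      c < Hf m + m + m + 1) hx)⟩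
  obtain ⟨x, rfl⟩ := exists_add_of_le h₂
  by_cases hx : x < m
  · exact ⟨x, m, by simp [G, hx]⟩
  · obtain ⟨y, rfl⟩ := exists_add_of_le (not_lt.1 hx)
    refine ⟨m, y, ?_⟩
    have : y ≤ m := by
      rw [lt_add_one_iff, add_assoc, add_le_add_iff_left, add_le_add_iff_left] at h₁
      exact h₁
    simp [G, not_lt.2 this, add_assoc]

noncomputable def fst (c : Ordinal.{u}) : Ordinal.{u} := (G_surj c).choose

noncomputable def snd (c : Ordinal.{u}) : Ordinal.{u} := (G_surj c).choose_spec.choose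

@[simp] theorem G_fst_snd (c : Ordinal.{u}) : G (fst c) (snd c) = c :=
  (G_surj c).choose_spec.choose_spec

@[simp] theorem fst_G (a b : Ordinal.{u}) : fst (G a b) = a := (G_inj.1 (G_fst_snd _)).1

@[simp] theorem snd_G (a b : Ordinal.{u}) : snd (G a b) = b := (G_inj.1 (G_fst_snd _)).2

theorem max_le_G (a b : Ordinal.{u}) : max a b ≤ G a b :=
  Hf_strictMono.le_apply.trans (Hf_le_G a b)

theorem left_le_G (a b : Ordinal.{u}) : a ≤ G a b := (le_max_left _ _).trans (max_le_G a b)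

theorem right_le_G (a b : Ordinal.{u}) : b ≤ G a b := (le_max_right _ _).trans (max_le_G a b)

theorem fst_le (c : Ordinal.{u}) : fst c ≤ c := by
  simpa using left_le_G (fst c) (snd c)

theorem snd_le (c : Ordinal.{u}) : snd c ≤ c := by
  simpa using right_le_G (fst c) (snd c)

theorem G_lt_of_max {a b a' b' : Ordinal.{u}} (h : max a b < max a' b') : G a b < G a' b' :=
  G_lt_of_ML (Or.inl h)

theorem G_lt_of_lt_left {a b a' b' : Ordinal.{u}} (ha : a < a') (hb : b < a') :
    G a b < G a' b' := G_lt_of_max ((max_lt ha hb).trans_le (le_max_left _ _))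

theorem G_lt_of_lt {a b a' b' : Ordinal.{u}} (ha : a < a') (hb : b < b') :
    G a b < G a' b' := G_lt_of_max (max_lt_max ha hb)

theorem G_lt_G_left {a a' : Ordinal.{u}} (b : Ordinal.{u}) (h : a < a') : G a b < G a' b := by
  refine G_lt_of_ML ?_
  rcases (max_le_max_right b h.le).lt_or_eq with h' | h'
  exacts [Or.inl h', Or.inr ⟨h', Or.inl h⟩]

theorem G_lt_G_right (a : Ordinal.{u}) {b b' : Ordinal.{u}} (h : b < b') : G a b < G a b' := by
  refine G_lt_of_ML ?_
  rcases (max_le_max_left a h.le).lt_or_eq with h' | h'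
  exacts [Or.inl h', Or.inr ⟨h', Or.inr ⟨rfl, h⟩⟩]

theorem G_mono {a a' b b' : Ordinal.{u}} (h : a ≤ a') (h' : b ≤ b') : G a b ≤ G a' b' := by
  have h₁ : G a b ≤ G a' b := by
    rcases h.lt_or_eq with h | rfl
    exacts [(G_lt_G_left b h).le, le_rfl]
  have h₂ : G a' b ≤ G a' b' := by
    rcases h'.lt_or_eq with h | rfl
    exacts [(G_lt_G_right _ h).le, le_rfl]
  exact h₁.trans h₂

theorem right_lt_G {a : Ordinal.{u}} (b : Ordinal.{u}) (h : 0 < a) : b < G a b :=
  (right_le_G 0 b).trans_lt (G_lt_G_left b h)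

theorem snd_lt {c : Ordinal.{u}} (h : 0 < fst c) : snd c < c := by
  simpa using right_lt_G (snd c) h

/-- Closed under pairing and above `ω`. -/
def Gcl (y : Ordinal.{u}) : Prop := Ordinal.omega0 < y ∧ ∀ a < y, ∀ b < y, G a b < y

theorem Gcl.G {y a b : Ordinal.{u}} (h : Gcl y) (ha : a < y) (hb : b < y) : G a b < y :=
  h.2 a ha b hb

theorem Gcl.nat {y : Ordinal.{u}} (h : Gcl y) (n : ℕ) : (n : Ordinal.{u}) < y :=
  (Ordinal.natCast_lt_omega0 n).trans h.1

theorem Gcl.pos {y : Ordinal.{u}} (h : Gcl y) : 0 < y := by simpa using h.nat 0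

theorem Gcl.succ {y a : Ordinal.{u}} (h : Gcl y) (ha : a < y) : a + 1 < y :=
  (add_one_le_iff.2 (right_lt_G a one_pos)).trans_lt (h.G (by simpa using h.nat 1) ha)

theorem G_nat (a b : ℕ) : G (a : Ordinal.{u}) b < Ordinal.omega0 := by
  have hH : ∀ m : ℕ, Hf (m : Ordinal.{u}) < Ordinal.omega0 := by
    intro m
    induction m using Nat.strong_induction_on with
    | _ m ih =>
      rcases m with _ | m
      · exact (Hf_le_iff.2 fun x hx => by simp at hx).trans_lt Ordinal.omega0_pos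
      · obtain ⟨k, hk⟩ := Ordinal.lt_omega0.1 (ih m (Nat.lt_succ_self m))
        refine lt_of_le_of_lt (Hf_le_iff.2 fun x hx => ?_)
          (Ordinal.natCast_lt_omega0 (k + m + m + 1))
        have hx' : x ≤ m := by
          rw [Nat.cast_add_one, lt_add_one_iff] at hx; exact hx
        push_cast
        rw [← hk]
        gcongr
        exact Hf_strictMono.monotone hx'
  refine (G_le_Hf _ _).trans_lt ?_
  have e : max (a : Ordinal.{u}) b = (max a b : ℕ) := by
    rcases le_total a b with h | h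
    · rw [max_eq_right h, max_eq_right (by exact_mod_cast h)]
    · rw [max_eq_left h, max_eq_left (by exact_mod_cast h)]
  rw [e]
  obtain ⟨k, hk⟩ := Ordinal.lt_omega0.1 (hH (max a b))
  rw [hk]
  exact_mod_cast Ordinal.natCast_lt_omega0 (k + max a b + max a b)

theorem G_omega {a b : Ordinal.{u}} (ha : a < Ordinal.omega0) (hb : b < Ordinal.omega0) :
    G a b < Ordinal.omega0 := by
  obtain ⟨a, rfl⟩ := Ordinal.lt_omega0.1 ha
  obtain ⟨b, rfl⟩ := Ordinal.lt_omega0.1 hb
  exact G_nat a b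

/-- One step towards a closed ordinal. -/
noncomputable def gst (a : Ordinal.{u}) : Ordinal.{u} := G a a + 1

theorem lt_gst (a : Ordinal.{u}) : a < gst a := (left_le_G a a).trans_lt (lt_add_one _)

theorem gcl_of_iter {a b : Ordinal.{u}} (ha : Ordinal.omega0 ≤ a) (hb : ∀ n, gst^[n] a < b) :
    ∃ y ≤ b, a < y ∧ Gcl y := by
  have mono : StrictMono fun n => gst^[n] a :=
    strictMono_nat_of_lt_succ fun n => by rw [Function.iterate_succ_apply']; exact lt_gst _
  have h0 : a < ⨆ n, gst^[n] a :=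
    (mono zero_lt_one).trans_le (Ordinal.le_iSup (fun n => gst^[n] a) 1)
  refine ⟨⨆ n, gst^[n] a, Ordinal.iSup_le fun n => (hb n).le, h0, ha.trans_lt h0,
    fun x hx y hy => ?_⟩
  obtain ⟨n, hn⟩ := Ordinal.lt_iSup_iff.1 hx
  obtain ⟨k, hk⟩ := Ordinal.lt_iSup_iff.1 hy
  refine Ordinal.lt_iSup_iff.2 ⟨max n k + 1, ?_⟩
  rw [Function.iterate_succ_apply']
  exact (G_lt_of_lt (hn.trans_le (mono.monotone (le_max_left _ _)))
    (hk.trans_le (mono.monotone (le_max_right _ _)))).trans (lt_add_one _)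

theorem exists_gcl (a : Ordinal.{u}) : ∃ y, a < y ∧ Gcl y := by
  obtain ⟨b, hb⟩ := exists_bound (fun n : ℕ => gst^[n] (max a Ordinal.omega0))
  obtain ⟨y, -, h₁, h₂⟩ := gcl_of_iter (le_max_right _ _) hb
  exact ⟨y, (le_max_left _ _).trans_lt h₁, h₂⟩

/-! ### Codes of lists -/

noncomputable def encL : List Ordinal.{u} → Ordinal.{u}
  | [] => 0
  | a :: l => G a (encL l) + 1

theorem encL_inj : Function.Injective encL.{u} := by
  intro l
  induction l with
  | nil =>
    rintro (_ | ⟨b, l'⟩) h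
    · rfl
    · exact absurd h.symm (by simp [encL])
  | cons a l ih =>
    rintro (_ | ⟨b, l'⟩) h
    · exact absurd h (by simp [encL])
    · simp only [encL, add_one_inj, G_inj] at h
      rw [h.1, ih h.2]

theorem encL_lt_cons (a : Ordinal.{u}) (l : List Ordinal.{u}) : encL l < encL (a :: l) :=
  (right_le_G _ _).trans_lt (lt_add_one _)

theorem Gcl.encL {y : Ordinal.{u}} (h : Gcl y) {l : List Ordinal.{u}} (hl : ∀ x ∈ l, x < y) :
    encL l < y := by
  induction l with
  | nil => exact h.pos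
  | cons a l ih =>
    exact h.succ (h.G (hl a List.mem_cons_self) (ih fun x hx => hl x (List.mem_cons_of_mem _ hx)))

theorem lt_encL {l : List Ordinal.{u}} {x : Ordinal.{u}} (hx : x ∈ l) : x < encL l := by
  induction l with
  | nil => simp at hx
  | cons a l ih =>
    rcases List.mem_cons.1 hx with rfl | hx
    · exact (left_le_G _ _).trans_lt (lt_add_one _)
    · exact (ih hx).trans (encL_lt_cons _ _)

theorem encL_omega {l : List Ordinal.{u}} (hl : ∀ x ∈ l, x < Ordinal.omega0) :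
    encL l < Ordinal.omega0 := by
  induction l with
  | nil => exact Ordinal.omega0_pos
  | cons a l ih =>
    exact Ordinal.isSuccLimit_omega0.add_one_lt
      (G_omega (hl a List.mem_cons_self) (ih fun x hx => hl x (List.mem_cons_of_mem _ hx)))

end Pool.Agent.MP_9a6faa_lc
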