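import Pool.Agent.MP_9a6faa_lc.Ctbl

namespace Pool.Agent.MP_9a6faa_lc

open Set Order FO

universe u v

variable {m : Mach.{u}}

open Classical in
/-- Every nonempty coded type is coded by ordinals. -/
@[reducible] noncomputable def ocS (m : Mach.{u}) (σ : Type*) [Cd (SS m) σ] [Pure (SS m) σ]
    (x₀ : σ) : OC (SS m) σ :=
  have h₁ : (SS m).Tm (fun a : σ => (Cd.ι (SS m) a : Ordinal.{u})) :=
    ⟨fun _ _ _ => trivial, (Tm.ι' (𝒜 := SS m) (Γ := σ)).2⟩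
  have h₂ : ∀ {a b : σ}, Cd.ι (SS m) a = Cd.ι (SS m) b → a = b :=
    Cd.inj (Pure.pure _ ()) (Pure.pure _ ())
  { enc := Cd.ι (SS m)
    dec := fun c => if h : ∃ x, Cd.ι (SS m) x = c then h.choose else x₀
    dec_enc := fun b => by
      have h : ∃ x, Cd.ι (SS m) x = Cd.ι (SS m) b := ⟨b, rfl⟩
      exact (dif_pos h).trans (h₂ h.choose_spec)
    tm_enc := h₁
    tm_dec := tm_of_rel (Q := fun c (x : σ) => Cd.ι (SS m) x = c ∨
        (x = x₀ ∧ ¬ ∃ y : σ, Cd.ι (SS m) y = c)) (by fun_prop) fun c x => by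
      split_ifs with h
      · exact (or_iff_left fun h' => h'.2 h).trans
          ⟨fun e => h₂ (e.trans h.choose_spec.symm), fun e => e ▸ h.choose_spec⟩
      · exact (or_iff_right fun e => h ⟨x, e⟩).trans (and_iff_left h) }

theorem exists_skolem {Γ σ : Type*} [Cd (SS m) Γ] [Cd (SS m) σ] [Pure (SS m) σ]
    {Q : Γ → σ → Prop} (hQ : (SS m).Tm (fun z : Γ × σ => Q z.1 z.2)) (x₀ : σ)
    (h : ∀ x, ∃ y, Q x y) : ∃ f : Γ → σ, (SS m).Tm f ∧ ∀ x, Q x (f x) := by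
  let _ := ocS m σ x₀
  have hd := OC.tm_dec (𝒜 := SS m) (β := σ)
  exact ⟨fun x => OC.dec (SS m) (mu fun c => Q x (OC.dec (SS m) c)), by fun_prop, fun x =>
    mu_spec (R := fun c => Q x (OC.dec (SS m) c))
      (let ⟨y, h⟩ := h x; ⟨OC.enc (SS m) y, (OC.dec_enc (𝒜 := SS m) y).symm ▸ h⟩)⟩

theorem exists_rec {σ : Type*} [Cd (SS m) σ] [Pure (SS m) σ]
    {Q : σ × Ordinal.{u} × OL.{u} → σ → Prop}
    (hQ : (SS m).Tm (fun z : (σ × Ordinal.{u} × OL.{u}) × σ => Q z.1 z.2)) (x₀ : σ)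
    (h : ∀ x, ∃ y, Q x y) :
    ∃ f : OL.{u} → σ, (SS m).Tm f ∧ f [] = x₀ ∧ ∀ x l, Q (f l, x, l) (f (x :: l)) := by
  let _ := ocS m σ x₀
  obtain ⟨g, hg, eg⟩ := exists_skolem hQ x₀ h
  exact ⟨fun l => l.rec x₀ (fun x l r => g (r, x, l)), (tm_listRec (𝒜 := SS m) (Γ := ℕ)
    (fun _ l => l.rec x₀ (fun x l r => g (r, x, l))) (fun _ => x₀) (fun _ x l r => g (r, x, l))
    (fun _ => rfl) (fun _ _ _ => rfl) (by fun_prop) (by fun_prop)).comp (f := fun l => (0, l))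
    (by fun_prop), rfl, fun _ _ => eg _⟩

noncomputable def lam (m : Mach.{u}) : Ordinal.{u} := se m (th m)

theorem gcl_lam : Gcl (lam m) := (se_spec m _).1

theorem letter_lt {x y : Ordinal.{u}} (hx : x < th m) (hy : y < sa m x) : G x y < lam m :=
  gcl_lam.G (hx.trans (se_spec m _).2.1) (hy.trans ((se_spec m _).2.2 x hx))

/-- The nodes of the tree coded by `p`. -/
def In (m : Mach.{u}) (p : Ordinal.{u}) (t : OL.{u}) : Prop := encL t < lam m ∧ P m p (encL t)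

/-- Splitting nodes. -/
def Spl (m : Mach.{u}) (R : OL.{u} → Prop) (s : OL.{u}) : Prop :=
  R s ∧ ∀ x < th m, ∀ y < sa m x, ∃ z, y ≤ z ∧ z < sa m x ∧ R (G x z :: s)

def Tree (m : Mach.{u}) (R : OL.{u} → Prop) : Prop :=
  R [] ∧ (∀ s t, s <:+ t → R t → R s) ∧ ∀ t, R t → ∃ s, t <:+ s ∧ Spl m R s

/-- The forcing conditions. -/
def Cn (m : Mach.{u}) : Type (u + 1) := {p : Ordinal.{u} // p < cb m (lam m) ∧ Tree m (In m p)}

instance : Preorder (Cn m) where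
  le := fun q p => ∀ t, In m q.1 t → In m p.1 t
  le_refl := fun _ _ h => h
  le_trans := fun _ _ _ h h' t ht => h' t (h t ht)

namespace FO

variable {I : Type} {V : Type v} {𝒜 : FO.{u, v} I V} {Γ : Type*} [Cd 𝒜 Γ]
variable [Cd 𝒜 Mach.{u}] [HasQ 𝒜] [HasSep 𝒜] [Par 𝒜 m]

instance : Par 𝒜 (th m) := ⟨by fun_prop⟩

instance : Par 𝒜 (lam m) := ⟨by unfold lam se; fun_prop⟩

@[fun_prop] theorem tm_In {p : Γ → Ordinal.{u}} {t : Γ → OL.{u}} (hp : 𝒜.Tm p) (ht : 𝒜.Tm t) :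
    𝒜.Tm (fun z => In m (p z) (t z)) := by
  unfold In; fun_prop

@[fun_prop] theorem tm_Spl {R : Γ → OL.{u} → Prop} {t : Γ → OL.{u}}
    (hR : 𝒜.Tm (fun z : Γ × OL.{u} => R z.1 z.2)) (ht : 𝒜.Tm t) :
    𝒜.Tm (fun z => Spl m (fun s => R z s) (t z)) := by
  unfold Spl; fun_prop

noncomputable instance : Cd 𝒜 (Cn m) := cdOfEnc Subtype.val Subtype.val_injective
  (Tm.df (Tm.congrP (Q := fun p => p < cb m (lam m) ∧ Tree m (fun t => In m p t))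
    (by unfold Tree; fun_prop) fun p => ⟨fun h => ⟨⟨p, h⟩, rfl⟩, fun ⟨q, e⟩ => e ▸ q.2⟩))

instance : Pure 𝒜 (Cn m) := ⟨fun _ _ => trivial⟩

@[fun_prop] theorem tm_cval {p : Γ → Cn m} (h : 𝒜.Tm p) : 𝒜.Tm (fun z => (p z).1) := by
  have : 𝒜.Tm (fun p : Cn m => p.1) := Tm.mk' (fun _ _ _ => trivial) 𝒜.eq fun i x y _ _ => by
    constructor
    · rintro ⟨z, e⟩
      obtain ⟨e₁, e₂⟩ := pr_iff.1 e
      exact 𝒜.o_inj (e₂.trans e₁.symm)
    · rintro rfl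
      exact ⟨_, rfl⟩
  exact this.comp h

@[fun_prop] theorem tm_cle {p q : Γ → Cn m} (hp : 𝒜.Tm p) (hq : 𝒜.Tm q) :
    𝒜.Tm (fun z => p z ≤ q z) :=
  Tm.congrP (Q := fun z => ∀ t, In m (p z).1 t → In m (q z).1 t) (by fun_prop) fun _ => Iff.rfl

end FO

theorem mk_cond {R : OL.{u} → Prop} (hR : (SS m).Tm R) (h₁ : ∀ t, R t → encL t < lam m)
    (h₂ : Tree m R) : ∃ p : Cn m, ∀ t, In m p.1 t ↔ R t := by
  obtain ⟨c, h₃, h₄⟩ := code_set_cb (m := m) (R := fun x => R (decL x)) (by fun_prop) (lam m)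
  have e : In m c = R := funext fun t => propext
    ⟨fun h => by simpa using (h₄ _ h.1).1 h.2, fun h => ⟨h₁ t h, (h₄ _ (h₁ t h)).2 (by simpa)⟩⟩
  exact ⟨⟨c, h₃, e ▸ h₂⟩, fun t => iff_of_eq (congrFun e t)⟩

theorem encL_mono {s t : OL.{u}} (h : s <:+ t) : encL s ≤ encL t := by
  induction t with
  | nil => rw [List.suffix_nil.1 h]
  | cons a t ih =>
    rcases List.suffix_cons_iff.1 h with rfl | h
    exacts [le_rfl, (ih h).trans (encL_lt_cons a t).le]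

instance : Nonempty (Cn m) :=
  let ⟨p, _⟩ := mk_cond (m := m) (R := fun t => encL t < lam m) (by fun_prop) (fun _ h => h)
    ⟨gcl_lam.pos, fun _ _ h h' => (encL_mono h).trans_lt h', fun t h => ⟨t, List.suffix_rfl, h,
      fun _ hx y hy => ⟨y, le_rfl, hy, gcl_lam.succ (gcl_lam.G (letter_lt hx hy) h)⟩⟩⟩
  ⟨p⟩

namespace Cn

theorem down (p : Cn m) {s t : OL.{u}} (h : s <:+ t) (ht : In m p.1 t) : In m p.1 s :=
  p.2.2.2.1 s t h ht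

theorem spl (p : Cn m) {t : OL.{u}} (ht : In m p.1 t) : ∃ s, t <:+ s ∧ Spl m (In m p.1) s :=
  p.2.2.2.2 t ht

theorem long (p : Cn m) {t : OL.{u}} (ht : In m p.1 t) (n : ℕ) :
    ∃ s, t <:+ s ∧ In m p.1 s ∧ n ≤ s.length := by
  induction n with
  | zero => exact ⟨t, List.suffix_rfl, ht, Nat.zero_le _⟩
  | succ n ih =>
    obtain ⟨s, h₁, h₂, h₃⟩ := ih
    obtain ⟨r, h₄, -, h₅⟩ := p.spl h₂
    obtain ⟨z, -, -, h₆⟩ := h₅ 0 gcl_th.pos 0 (reg_sa 0).lim.1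
    exact ⟨_, h₁.trans (h₄.trans (List.suffix_cons _ _)), h₆,
      Nat.succ_le_succ (h₃.trans h₄.length_le)⟩

theorem res (p : Cn m) {t : OL.{u}} (ht : In m p.1 t) :
    ∃ q : Cn m, ∀ s, In m q.1 s ↔ In m p.1 s ∧ (s <:+ t ∨ t <:+ s) := by
  refine mk_cond (by fun_prop) (fun _ h => h.1.1) ⟨⟨p.2.2.1, Or.inl List.nil_suffix⟩,
    fun s r h₁ h₂ => ⟨p.down h₁ h₂.1, h₂.2.elim (fun h => Or.inl (h₁.trans h))
      (List.suffix_or_suffix_of_suffix h₁)⟩, fun s h => ?_⟩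
  obtain ⟨r, h₁, h₂, h₃⟩ : ∃ r, s <:+ r ∧ t <:+ r ∧ In m p.1 r :=
    h.2.elim (fun e => ⟨t, e, List.suffix_rfl, ht⟩) fun e => ⟨s, List.suffix_rfl, e, h.1⟩
  obtain ⟨w, h₄, h₅, h₆⟩ := p.spl h₃
  refine ⟨w, h₁.trans h₄, ⟨h₅, Or.inr (h₂.trans h₄)⟩, fun x hx y hy => ?_⟩
  obtain ⟨z, h₇, h₈, h₉⟩ := h₆ x hx y hy
  exact ⟨z, h₇, h₈, h₉, Or.inr ((h₂.trans h₄).trans (List.suffix_cons _ _))⟩

/-- The node `t` is an initial segment of the stem of `p`. -/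
def Stem (p : Cn m) (t : OL.{u}) : Prop := ∀ s, In m p.1 s → s <:+ t ∨ t <:+ s

theorem Stem.mem {p : Cn m} {t : OL.{u}} (h : p.Stem t) : In m p.1 t := by
  obtain ⟨s, -, h₁, h₂⟩ := p.long p.2.2.1 t.length
  rcases h s h₁ with e | e
  exacts [e.eq_of_length_le h₂ ▸ h₁, p.down e h₁]

theorem Stem.mono {p q : Cn m} {t : OL.{u}} (h : p.Stem t) (e : q ≤ p) : q.Stem t :=
  fun s hs => h s (e s hs)

theorem exists_stem (p : Cn m) {t : OL.{u}} (ht : In m p.1 t) : ∃ q ≤ p, q.Stem t :=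
  let ⟨q, h⟩ := p.res ht; ⟨q, fun s hs => ((h s).1 hs).1, fun s hs => ((h s).1 hs).2⟩

end Cn

end Pool.Agent.MP_9a6faa_lc
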