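import Pool.Agent.MP_9a6faa_lc.FO

namespace Pool.Agent.MP_9a6faa_lc

open Set Order

universe u v w

noncomputable def orec1 {A : Type v} (rk : A → Ordinal.{u}) (F : (A → Prop) → A → Prop)
    (a : A) : Prop :=
  orec rk (fun R a (_ : Unit) => F (fun x => R x ()) a) a ()

theorem orec1_iff {A : Type v} (rk : A → Ordinal.{u}) (F : (A → Prop) → A → Prop) (a : A) :
    orec1 rk F a ↔ F (fun x => rk x < rk a ∧ orec1 rk F x) a := by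
  unfold orec1
  rw [orec_iff]

theorem rk_ind {A : Type v} (rk : A → Ordinal.{u}) {C : A → Prop}
    (h : ∀ a, (∀ x, rk x < rk a → C x) → C a) (a : A) : C a :=
  (InvImage.wf rk Ordinal.lt_wf).induction a h

/-- Separation for bounded binary relations on ordinals. -/
class HasSep {I : Type} {V : Type v} (𝒜 : FO.{u, v} I V) where
  mem : I → V → V → Prop
  mem_am : 𝒜.Am (fun i z => ∃ s x, z = 𝒜.pr s x ∧ mem i s x)
  sep : ∀ R, 𝒜.Am R → ∀ i v (α : Ordinal.{u}), ∃ s, ∀ a < α, ∀ b < α,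
    (mem i s (𝒜.pr (𝒜.o a) (𝒜.o b)) ↔ R i (𝒜.pr v (𝒜.pr (𝒜.o a) (𝒜.o b))))

/-- The pairing function is definable. -/
class HasG {I : Type} {V : Type v} (𝒜 : FO.{u, v} I V) : Prop where
  tm : 𝒜.Tm (fun z : Ordinal.{u} × Ordinal.{u} => G z.1 z.2)

namespace FO

open Cd

variable {I : Type} {V : Type v} {𝒜 : FO.{u, v} I V}
variable {Γ : Type*} {α : Type*} {β : Type*} [Cd 𝒜 Γ] [Cd 𝒜 α] [Cd 𝒜 β]

theorem Df.congr_cons {Q R : Γ → Prop} (h : 𝒜.Df Q) (e : ∀ i x, cons 𝒜 x i → (Q x ↔ R x)) :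
    𝒜.Df R :=
  Df.mk' h fun i x hx => (ev_iff hx).trans (e i x hx)

theorem Tm.ofW {Q : Γ → Prop} {R : Γ × 𝒜.Wd → Prop} (h : 𝒜.Tm R)
    (e : ∀ i x, cons 𝒜 x i → (R (x, ⟨i⟩) ↔ Q x)) : 𝒜.Tm Q :=
  (Df.dropW (h.df.congr_cons fun i z hz => by
    obtain ⟨x, ⟨j⟩⟩ := z
    obtain rfl : j = i := hz.2
    exact e j x hz.1)).tm

section Sep

variable [HasSep 𝒜]

def MemO (w : 𝒜.Wd) (s x : 𝒜.Ob) : Prop := HasSep.mem (𝒜 := 𝒜) w.w s x

def Mem2 (w : 𝒜.Wd) (s : 𝒜.Ob) (a b : Ordinal.{u}) : Prop := MemO w s (𝒜.ob (a, b))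

@[fun_prop] theorem tm_MemO {w : Γ → 𝒜.Wd} {s x : Γ → 𝒜.Ob} (hw : 𝒜.Tm w) (hs : 𝒜.Tm s)
    (hx : 𝒜.Tm x) : 𝒜.Tm (fun z => MemO (w z) (s z) (x z)) := by
  have : 𝒜.Tm (fun z : 𝒜.Wd × 𝒜.Ob × 𝒜.Ob => MemO z.1 z.2.1 z.2.2) := by
    refine (Df.mk' (sndR HasSep.mem_am) fun i z hz => ?_).tm
    obtain ⟨⟨j⟩, s, x⟩ := z
    obtain rfl : j = i := hz.1
    constructor
    · rintro ⟨a, b, e, s', x', rfl, h⟩
      obtain ⟨rfl, rfl⟩ := pr_iff.1 (pr_iff.1 e).2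
      exact h
    · exact fun h => ⟨_, _, rfl, _, _, rfl, h⟩
  exact this.comp (hw.pair (hs.pair hx))

@[fun_prop] theorem tm_Mem2 {w : Γ → 𝒜.Wd} {s : Γ → 𝒜.Ob} {a b : Γ → Ordinal.{u}}
    (hw : 𝒜.Tm w) (hs : 𝒜.Tm s) (ha : 𝒜.Tm a) (hb : 𝒜.Tm b) :
    𝒜.Tm (fun z => Mem2 (w z) (s z) (a z) (b z)) := by
  unfold Mem2; fun_prop

theorem sep2 {R : Γ → Ordinal.{u} → Ordinal.{u} → Prop}
    (h : 𝒜.Tm (fun z : Γ × Ordinal.{u} × Ordinal.{u} => R z.1 z.2.1 z.2.2)) {x : Γ} {i : I}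
    (hx : cons 𝒜 x i) (c : Ordinal.{u}) :
    ∃ s : 𝒜.Ob, ∀ a < c, ∀ b < c, (Mem2 ⟨i⟩ s a b ↔ R x a b) := by
  obtain ⟨s, hs⟩ := HasSep.sep _ h.df i (ι 𝒜 x) c
  exact ⟨s, fun a ha b hb => (hs a ha b hb).trans
    (ev_iff (x := (x, a, b)) (Q := fun z : Γ × Ordinal.{u} × Ordinal.{u} => R z.1 z.2.1 z.2.2)
      ⟨hx, trivial, trivial⟩)⟩

/-- The context of an approximation. -/
abbrev Ctx (𝒜 : FO.{u, v} I V) := 𝒜.Wd × Ordinal.{u} × 𝒜.Ob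

variable {A : Type*} [Cd 𝒜 A] [Pure 𝒜 A]

theorem tm_rec (rk cd : A → Ordinal.{u}) (hrk : 𝒜.Tm rk) (hcd : 𝒜.Tm cd)
    (inj : ∀ x y, rk x = rk y → cd x = cd y → x = y) (X : Γ → A → Prop)
    (F : Γ → (A → Prop) → A → Prop)
    (hX : ∀ g a, X g a ↔ F g (fun x => rk x < rk a ∧ X g x) a)
    (hF : ∀ R : (𝒜.Ctx × Γ) × A → A → Prop,
      𝒜.Tm (fun z : ((𝒜.Ctx × Γ) × A) × A => R z.1 z.2) →
      𝒜.Tm (fun z : (𝒜.Ctx × Γ) × A => F z.1.2 (R z) z.2))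
    (hb : ∀ g c a₀, ∃ b, cd a₀ < b ∧ ∀ a, rk a < c → cd a < b → ∀ R : A → Prop,
      (∀ x, rk x < rk a → cd x < b → (R x ↔ X g x)) →
      (F g (fun x => rk x < rk a ∧ R x) a ↔ F g (fun x => rk x < rk a ∧ X g x) a)) :
    𝒜.Tm (fun z : Γ × A => X z.1 z.2) := by
  obtain ⟨E, hE, eE⟩ : ∃ E : (𝒜.Ctx × Γ) × A → Prop, 𝒜.Tm E ∧ ∀ w b s g a,
      E (((w, b, s), g), a) =
        F g (fun x => rk x < rk a ∧ cd x < b ∧ Mem2 w s (rk x) (cd x)) a :=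
    ⟨_, hF (fun z x => rk x < rk z.2 ∧ cd x < z.1.1.2.1 ∧
      Mem2 z.1.1.1 z.1.1.2.2 (rk x) (cd x)) (by fun_prop), fun _ _ _ _ _ => rfl⟩
  obtain ⟨D, hD, eD⟩ : ∃ D : (𝒜.Wd × Ordinal.{u} × Γ) × A → Prop, 𝒜.Tm D ∧ ∀ w b g a,
      D ((w, b, g), a) ↔ ∃ s : 𝒜.Ob, (∀ a', rk a' < rk a → cd a' < b →
        (Mem2 w s (rk a') (cd a') ↔ E (((w, b, s), g), a'))) ∧ E (((w, b, s), g), a) :=
    ⟨fun z => ∃ s : 𝒜.Ob, (∀ a', rk a' < rk z.2 → cd a' < z.1.2.1 →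
        (Mem2 z.1.1 s (rk a') (cd a') ↔ E (((z.1.1, z.1.2.1, s), z.1.2.2), a'))) ∧
        E (((z.1.1, z.1.2.1, s), z.1.2.2), z.2), by fun_prop, fun _ _ _ _ => Iff.rfl⟩
  let Y : Γ → Ordinal.{u} → A → Prop := fun g b =>
    orec1 rk (fun R a => F g (fun x => cd x < b ∧ R x) a)
  have hY : ∀ g b a, Y g b a ↔ F g (fun x => rk x < rk a ∧ cd x < b ∧ Y g b x) a := by
    intro g b a
    refine (orec1_iff _ _ _).trans ?_
    simp only [and_left_comm (a := cd _ < b)]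
    rfl
  have key : ∀ i g b, cons 𝒜 g i → ∀ a, D ((⟨i⟩, b, g), a) ↔ Y g b a := by
    intro i g b hg a
    induction a using rk_ind rk with
    | h a ih =>
      have fin : ∀ (s : 𝒜.Ob) a', (∀ x, rk x < rk a' → cd x < b →
          (Mem2 ⟨i⟩ s (rk x) (cd x) ↔ Y g b x)) → (E (((⟨i⟩, b, s), g), a') ↔ Y g b a') := by
        intro s a' h
        rw [eE, hY]
        have : (fun x => rk x < rk a' ∧ cd x < b ∧ Mem2 ⟨i⟩ s (rk x) (cd x)) =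
            fun x => rk x < rk a' ∧ cd x < b ∧ Y g b x :=
          funext fun x => propext (and_congr_right fun h₁ => and_congr_right fun h₂ => h x h₁ h₂)
        rw [this]
      rw [eD]
      constructor
      · rintro ⟨s, hs, h⟩
        refine (fin s a fun x => ?_).1 h
        induction x using rk_ind rk with
        | h x ih' =>
          exact fun h₁ h₂ => (hs x h₁ h₂).trans
            (fin s x fun y h₃ h₄ => ih' y h₃ (h₃.trans h₁) h₄)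
      · intro h
        obtain ⟨s, hs⟩ := sep2 (𝒜 := 𝒜) (Γ := 𝒜.Wd × Ordinal.{u} × Γ)
          (R := fun z p q => ∃ x, rk x = p ∧ cd x = q ∧ D (z, x)) (by fun_prop)
          (x := (⟨i⟩, b, g)) (i := i) (And.intro rfl (And.intro trivial hg)) (max (rk a) b)
        have hs' : ∀ x, rk x < rk a → cd x < b → (Mem2 ⟨i⟩ s (rk x) (cd x) ↔ Y g b x) := by
          intro x h₁ h₂
          rw [hs _ (lt_max_of_lt_left h₁) _ (lt_max_of_lt_right h₂), ← ih x h₁]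
          exact ⟨fun ⟨y, e₁, e₂, h⟩ => inj _ _ e₁ e₂ ▸ h, fun h => ⟨x, rfl, rfl, h⟩⟩
        exact ⟨s, fun x h₁ h₂ => (hs' x h₁ h₂).trans
          (fin s x fun y h₃ h₄ => hs' y (h₃.trans h₁) h₄).symm, (fin s a hs').2 h⟩
  refine Tm.ofW (R := fun z : (Γ × A) × 𝒜.Wd => ∃ b₀ : Ordinal.{u}, ∀ b, b₀ ≤ b →
    D ((z.2, b, z.1.1), z.1.2)) (by fun_prop) fun i z hz => ?_
  obtain ⟨g, a⟩ := z
  simp only [key i g _ hz.1]
  obtain ⟨b₁, h₁, h₂⟩ := hb g (rk a + 1) a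
  have ev : ∀ b, b₁ ≤ b → ∀ x, rk x < rk a + 1 → cd x < b₁ → (Y g b x ↔ X g x) := by
    intro b hb x
    induction x using rk_ind rk with
    | h x ih =>
      intro h₃ h₄
      rw [hY, hX]
      exact h₂ x h₃ h₄ (fun y => cd y < b ∧ Y g b y) fun y h₅ h₆ =>
        (and_iff_right (h₆.trans_le hb)).trans (ih y h₅ (h₅.trans h₃) h₆)
  exact ⟨fun ⟨b₀, h⟩ => (ev _ (le_max_right b₀ b₁) a (lt_add_one _) h₁).1 (h _ (le_max_left _ _)),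
    fun h => ⟨b₁, fun b hb => (ev b hb a (lt_add_one _) h₁).2 h⟩⟩

/-- Recursion with guarded calls. -/
theorem tm_grec (rk cd : A → Ordinal.{u}) (hrk : 𝒜.Tm rk) (hcd : 𝒜.Tm cd)
    (inj : ∀ x y, rk x = rk y → cd x = cd y → x = y) (X : Γ → A → Prop)
    (F : Γ → (A → Prop) → A → Prop) (gd : Γ → A → A → Prop)
    (hgd : 𝒜.Tm (fun z : Γ × A × A => gd z.1 z.2.1 z.2.2))
    (hX : ∀ g a, X g a ↔ F g (fun x => gd g a x ∧ X g x) a)
    (hF : ∀ R : (𝒜.Ctx × Γ) × A → A → Prop,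
      𝒜.Tm (fun z : ((𝒜.Ctx × Γ) × A) × A => R z.1 z.2) →
      𝒜.Tm (fun z : (𝒜.Ctx × Γ) × A => F z.1.2 (R z) z.2))
    (hlt : ∀ g a x, gd g a x → rk x < rk a)
    (hb : ∀ g c a₀, ∃ b, cd a₀ < b ∧ ∀ a, rk a < c → cd a < b → ∀ x, gd g a x → cd x < b) :
    𝒜.Tm (fun z : Γ × A => X z.1 z.2) := by
  refine tm_rec rk cd hrk hcd inj X (fun g R a => F g (fun x => gd g a x ∧ R x) a)
    (fun g a => (hX g a).trans ?_)
    (fun R hR => hF (fun z x => gd z.1.2 z.2 x ∧ R z x) (by fun_prop)) fun g c a₀ => ?_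
  · have : (fun x => gd g a x ∧ X g x) = fun x => gd g a x ∧ rk x < rk a ∧ X g x :=
      funext fun x => propext (and_congr_right fun h => (and_iff_right (hlt g a x h)).symm)
    rw [this]
  · obtain ⟨b, h₁, h₂⟩ := hb g c a₀
    refine ⟨b, h₁, fun a h₃ h₄ R hR => ?_⟩
    have : (fun x => gd g a x ∧ rk x < rk a ∧ R x) = fun x => gd g a x ∧ rk x < rk a ∧ X g x :=
      funext fun x => propext (and_congr_right fun h => and_congr_right fun h' =>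
        hR x h' (h₂ a h₃ h₄ x h))
    simp only [this]

/-- Recursive definition of functions on ordinals. -/
theorem tm_frec (f : Γ → Ordinal.{u} → Ordinal.{u})
    (S : Γ → (Ordinal.{u} → Ordinal.{u}) → Ordinal.{u} → Ordinal.{u})
    (hf : ∀ g a k, (∀ x < a, k x = f g x) → S g k a = f g a)
    (hS : ∀ k : ((𝒜.Ctx × Γ) × Ordinal.{u} × Ordinal.{u}) → Ordinal.{u} → Ordinal.{u},
      𝒜.Tm (fun z : ((𝒜.Ctx × Γ) × Ordinal.{u} × Ordinal.{u}) × Ordinal.{u} => k z.1 z.2) →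
      𝒜.Tm (fun z : (𝒜.Ctx × Γ) × Ordinal.{u} × Ordinal.{u} => S z.1.2 (k z) z.2.1)) :
    𝒜.Tm (fun z : Γ × Ordinal.{u} => f z.1 z.2) := by
  have := tm_rec (𝒜 := 𝒜) (A := Ordinal.{u} × Ordinal.{u}) Prod.fst Prod.snd (by fun_prop)
    (by fun_prop) (fun _ _ => Prod.ext) (fun g z => z.2 = f g z.1)
    (fun g R z => z.2 = S g (fun x => mu (fun y => R (x, y))) z.1)
    (fun g z => by
      rw [hf g z.1 _ fun x hx => mu_eq ⟨hx, rfl⟩ fun y hy h => hy.ne h.2])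
    (fun R hR => tm_eq (by fun_prop) (hS (fun z x => mu (fun y => R z (x, y))) (by fun_prop)))
    (fun g c a₀ => by
      obtain ⟨b, hb⟩ := bound_fun c (f g)
      refine ⟨max b (a₀.2 + 1), lt_max_of_lt_right (lt_add_one _), fun a h₁ _ R hR => ?_⟩
      have lt : ∀ x < a.1, f g x < max b (a₀.2 + 1) := fun x hx =>
        lt_max_of_lt_left (hb x (hx.trans h₁))
      rw [hf g a.1 _ fun x hx => mu_eq ⟨hx, (hR (x, _) hx (lt x hx)).2 rfl⟩ fun y hy h =>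
          hy.ne ((hR (x, y) hx (hy.trans (lt x hx))).1 h.2),
        hf g a.1 _ fun x hx => mu_eq ⟨hx, rfl⟩ fun y hy h => hy.ne h.2])
  exact tm_of_rel (Q := fun z y => y = f z.1 z.2)
    (this.comp (f := fun z : (Γ × Ordinal.{u}) × Ordinal.{u} => (z.1.1, z.1.2, z.2))
      (by fun_prop)) fun _ _ => Iff.rfl

theorem tm_add' : 𝒜.Tm (fun z : Ordinal.{u} × Ordinal.{u} => z.1 + z.2) := by
  refine tm_frec (fun a b => a + b) (fun a k b => mu (fun c => a ≤ c ∧ ∀ x < b, k x < c))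
    (fun a b k hk => mu_eq ⟨le_self_add, fun x hx => hk x hx ▸ add_lt_add_right hx a⟩ ?_)
    (fun k hk => by fun_prop)
  rintro c hc ⟨h₁, h₂⟩
  obtain ⟨x, rfl⟩ := exists_add_of_le h₁
  have hx := lt_of_add_lt_add_left hc
  exact (hk x hx ▸ h₂ x hx).false

theorem tm_add {f g : Γ → Ordinal.{u}} (hf : 𝒜.Tm f) (hg : 𝒜.Tm g) :
    𝒜.Tm (fun z => f z + g z) := tm_add'.comp (hf.pair hg)

@[fun_prop] theorem tm_Hf {f : Γ → Ordinal.{u}} (hf : 𝒜.Tm f) : 𝒜.Tm (fun z => Hf (f z)) := by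
  have := tm_frec (𝒜 := 𝒜) (Γ := Ordinal.{u}) (fun _ m => Hf m)
    (fun _ k m => mu (fun c => ∀ x < m, k x + x + x + 1 ≤ c))
    (fun _ m k hk => mu_eq (fun x hx => hk x hx ▸ Hf_le_iff.1 le_rfl x hx)
      fun c hc h => hc.not_ge (Hf_le_iff.2 fun x hx => hk x hx ▸ h x hx))
    (fun k hk => tm_mu (tm_all (tm_imp (by fun_prop) (tm_le (tm_succ
      (tm_add (tm_add (by fun_prop) (by fun_prop)) (by fun_prop))) (by fun_prop)))))
  exact this.comp (hf.pair hf)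

instance (priority := low) : HasG 𝒜 := ⟨by
  unfold G
  exact tm_ite (by fun_prop) (tm_add (by fun_prop) (by fun_prop))
    (tm_add (tm_add (by fun_prop) (by fun_prop)) (by fun_prop))⟩

end Sep

section Pairing

variable [HasG 𝒜]

@[fun_prop] theorem tm_G {f g : Γ → Ordinal.{u}} (hf : 𝒜.Tm f) (hg : 𝒜.Tm g) :
    𝒜.Tm (fun z => G (f z) (g z)) := HasG.tm.comp (hf.pair hg)

@[fun_prop] theorem tm_ofst {f : Γ → Ordinal.{u}} (hf : 𝒜.Tm f) :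
    𝒜.Tm (fun z => fst (f z)) :=
  tm_of_rel (Q := fun z y => ∃ b, G y b = f z) (by fun_prop) fun z y =>
    ⟨fun ⟨b, h⟩ => by rw [← h, fst_G], fun h => ⟨snd (f z), by rw [h, G_fst_snd]⟩⟩

@[fun_prop] theorem tm_osnd {f : Γ → Ordinal.{u}} (hf : 𝒜.Tm f) :
    𝒜.Tm (fun z => snd (f z)) :=
  tm_of_rel (Q := fun z y => ∃ a, G a y = f z) (by fun_prop) fun z y =>
    ⟨fun ⟨a, h⟩ => by rw [← h, snd_G], fun h => ⟨fst (f z), by rw [h, G_fst_snd]⟩⟩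

@[fun_prop] theorem tm_Gcl {f : Γ → Ordinal.{u}} (hf : 𝒜.Tm f) :
    𝒜.Tm (fun z => Gcl (f z)) := by
  unfold Gcl; fun_prop

@[fun_prop] theorem tm_gst {f : Γ → Ordinal.{u}} (hf : 𝒜.Tm f) :
    𝒜.Tm (fun z => gst (f z)) := by
  unfold gst; fun_prop

end Pairing

end FO

end Pool.Agent.MP_9a6faa_lc
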