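import Pool.Agent.MP_9a6faa_lc.Decode
import Pool.Agent.MP_9a6faa_lc.Fml

namespace Pool.Agent.MP_9a6faa_lc

open Set Order FO

universe u v w

variable {m : Mach.{u}}

/-- The set coded by an ordinal. -/
noncomputable def val0 (m : Mach.{u}) (c : Ordinal.{u}) : ZFSet.{u} :=
  ZFSet.range (fun z : {z : Iio c // P m c z} => val0 m z.1)
termination_by c
decreasing_by exact z.1.2

theorem mem_val0 {c : Ordinal.{u}} {x : ZFSet.{u}} : x ∈ val0 m c ↔ ∃ z, P m c z ∧ val0 m z = x := by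
  rw [val0, ZFSet.mem_range]
  exact ⟨fun ⟨z, h⟩ => ⟨z.1, z.2, h⟩, fun ⟨z, h₁, h₂⟩ => ⟨⟨⟨z, P_lt h₁⟩, h₁⟩, h₂⟩⟩

def Eq0 (m : Mach.{u}) (a b : Ordinal.{u}) : Prop := val0 m a = val0 m b

def Mem0 (m : Mach.{u}) (a b : Ordinal.{u}) : Prop := val0 m a ∈ val0 m b

/-- The least code of a set of codes. -/
noncomputable def cs (m : Mach.{u}) (R : Ordinal.{u} → Prop) : Ordinal.{u} :=
  mu (fun c => ∀ z, P m c z ↔ R z)

theorem cs_spec {R : Ordinal.{u} → Prop} (h : (SS m).Tm R) (hb : ∃ b, ∀ z, R z → z < b)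
    (z : Ordinal.{u}) : P m (cs m R) z ↔ R z := by
  obtain ⟨b, hb⟩ := hb
  obtain ⟨c, hc⟩ := code_set h b
  exact mu_spec (R := fun c => ∀ z, P m c z ↔ R z)
    ⟨c, fun z => (hc z).trans (and_iff_right_of_imp (hb z))⟩ z

noncomputable def on (m : Mach.{u}) (a : Ordinal.{u}) : Ordinal.{u} :=
  cs m (fun z => ∃ b : Iio a, z = on m b)
termination_by a
decreasing_by exact b.2

noncomputable def up (m : Mach.{u}) (a b : Ordinal.{u}) : Ordinal.{u} :=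
  cs m (fun z => z = a ∨ z = b)

noncomputable def pn (m : Mach.{u}) (a b : Ordinal.{u}) : Ordinal.{u} := up m (up m a a) (up m a b)

/-- Linear orders whose ground model cofinality is of the distinguished type. -/
def DCof (m : Mach.{u}) (R : ZFSet.{u} → ZFSet.{u} → Prop) : Prop :=
  IsLin R ∧ ∃ a c, Dt m a ∧
    (∀ i j, i < j → j < a → R (val0 m (ap m c i)) (val0 m (ap m c j))) ∧
    ∀ x, Fld R x → ∃ i < a, R x (val0 m (ap m c i))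

def DCof0 (m : Mach.{u}) (R : Ordinal.{u} → Ordinal.{u} → Prop) : Prop :=
  ((∀ x, ¬ R x x) ∧ (∀ x y z, R x y → R y z → R x z) ∧
    ∀ x y, (∃ z, R x z ∨ R z x) → (∃ z, R y z ∨ R z y) → R x y ∨ Eq0 m x y ∨ R y x) ∧
  ∃ a c, Dt m a ∧ (∀ i j, i < j → j < a → R (ap m c i) (ap m c j)) ∧
    ∀ x, (∃ z, R x z ∨ R z x) → ∃ i < a, R x (ap m c i)

theorem dcof_iff {R : ZFSet.{u} → ZFSet.{u} → Prop} (h : ∀ x, Fld R x → ∃ c, val0 m c = x) :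
    DCof0 m (fun a b => R (val0 m a) (val0 m b)) ↔ DCof m R := by
  have fld : ∀ x, (∃ z, R (val0 m x) (val0 m z) ∨ R (val0 m z) (val0 m x)) ↔ Fld R (val0 m x) :=
    fun x => ⟨fun ⟨z, h⟩ => ⟨_, h⟩, fun ⟨y, h'⟩ => by
      obtain ⟨c, rfl⟩ := h y ⟨_, h'.symm⟩
      exact ⟨c, h'⟩⟩
  simp only [DCof0, fld]
  refine and_congr ⟨fun ⟨h₁, h₂, h₃⟩ => ⟨fun x hx => ?_, fun x y z hx hy => ?_,
    fun x y hx hy => ?_⟩, fun ⟨h₁, h₂, h₃⟩ => ⟨fun _ => h₁ _, fun _ _ _ => h₂ _ _ _,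
      fun _ _ => h₃ _ _⟩⟩ (exists₂_congr fun a c => and_congr_right fun _ =>
        and_congr_right fun _ => ⟨fun h₁ x hx => ?_, fun h₁ _ => h₁ _⟩)
  · obtain ⟨c, rfl⟩ := h x ⟨x, Or.inl hx⟩
    exact h₁ c hx
  · obtain ⟨a, rfl⟩ := h x ⟨y, Or.inl hx⟩
    obtain ⟨b, rfl⟩ := h y ⟨z, Or.inl hy⟩
    obtain ⟨c, rfl⟩ := h z ⟨_, Or.inr hy⟩
    exact h₂ a b c hx hy
  · obtain ⟨a, rfl⟩ := h x hx
    obtain ⟨b, rfl⟩ := h y hy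
    exact h₃ a b hx hy
  · obtain ⟨a, rfl⟩ := h x hx
    exact h₁ a hx

noncomputable def QF.enc : QF → Ordinal.{u}
  | .mem i j => G 1 (G i j)
  | .eq i j => G 2 (G i j)
  | .bot => G 3 0
  | .imp φ ψ => G 4 (G φ.enc ψ.enc)
  | .all φ => G 5 φ.enc
  | .cof φ => G 6 φ.enc

theorem QF.enc_inj : Function.Injective QF.enc.{u} := by
  intro φ
  induction φ with
  | imp φ ψ ih₁ ih₂ =>
    intro χ h
    cases χ <;> simp [QF.enc, G_inj] at h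
    rw [ih₁ h.1, ih₂ h.2]
  | all φ ih | cof φ ih =>
    intro χ h
    cases χ <;> simp [QF.enc, G_inj] at h
    rw [ih h]
  | _ => intro χ h; cases χ <;> simp_all [QF.enc, G_inj]

instance : Nonempty QF := ⟨.bot⟩

def QF.sw (A B : ℕ → ℕ → Prop) (C : QF → QF → Prop) (D E : QF → Prop) : QF → Prop
  | .mem i j => A i j
  | .eq i j => B i j
  | .bot => False
  | .imp φ ψ => C φ ψ
  | .all φ => D φ
  | .cof φ => E φ

theorem QF.sw_iff {A B : ℕ → ℕ → Prop} {C : QF → QF → Prop} {D E : QF → Prop} (χ : QF) :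
    ((∃ i j : ℕ, (χ.enc = G.{u} 1 (G i j) ∧ A i j) ∨ (χ.enc = G.{u} 2 (G i j) ∧ B i j)) ∨
      (∃ φ ψ : QF, χ.enc = G.{u} 4 (G φ.enc ψ.enc) ∧ C φ ψ) ∨
      ∃ φ : QF, (χ.enc = G.{u} 5 φ.enc ∧ D φ) ∨ (χ.enc = G.{u} 6 φ.enc ∧ E φ)) ↔
    χ.sw A B C D E := by
  cases χ <;> simp [QF.enc, G_inj, QF.sw, QF.enc_inj.eq_iff]

/-- Satisfaction in the set coded by `A`. -/
def Sat0 (m : Mach.{u}) (A d : Ordinal.{u}) (φ : QF) (l : OL.{u}) : Prop :=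
  SatQ (· ∈ ·) (DCof m) {x | x ∈ val0 m A} (val0 m d) φ (l.map (val0 m))

noncomputable def dc (m : Mach.{u}) (A : Ordinal.{u}) (φ : QF) (l : OL.{u}) : Ordinal.{u} :=
  cs m (fun z => P m A z ∧ Sat0 m A z φ (z :: l))

/-- Codes of the levels of the hierarchy. -/
noncomputable def lv (m : Mach.{u}) (a : Ordinal.{u}) : Ordinal.{u} :=
  cs m (fun z => ∃ b : Iio a, ∃ φ l, (∀ x, x ∈ l → P m (lv m b) x) ∧ z = dc m (lv m b) φ l)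
termination_by a
decreasing_by all_goals exact b.2

namespace FO

variable {I : Type} {V : Type v} {𝒜 : FO.{u, v} I V} {Γ : Type*} [Cd 𝒜 Γ] [HasSep 𝒜]

theorem df_isF : 𝒜.Df (fun c : Ordinal.{u} => ∃ φ, QF.enc φ = c) := by
  have := tm_grec (𝒜 := 𝒜) (Γ := Ordinal.{u}) (A := Ordinal.{u}) id id Tm.id Tm.id
    (fun _ _ h _ => h) (fun _ c => ∃ φ, QF.enc φ = c)
    (fun _ R c => (∃ i j : ℕ, c = G 1 (G i j) ∨ c = G 2 (G i j)) ∨ c = G 3 0 ∨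
      ∃ a b, R a ∧ R b ∧ (c = G 4 (G a b) ∨ c = G 5 a ∨ c = G 6 a))
    (fun _ a x => x < a) (by fun_prop)
    (fun _ c => by
      constructor
      · rintro ⟨_ | _ | _ | ⟨φ, ψ⟩ | φ | φ, rfl⟩
        exacts [Or.inl ⟨_, _, Or.inl rfl⟩, Or.inl ⟨_, _, Or.inr rfl⟩, Or.inr (Or.inl rfl),
          Or.inr (Or.inr ⟨_, _, ⟨(lt_cd (by simp) _ _).1, φ, rfl⟩, ⟨(lt_cd (by simp) _ _).2, ψ, rfl⟩,
            Or.inl rfl⟩),
          Or.inr (Or.inr ⟨_, _, ⟨right_lt_G _ (by simp), φ, rfl⟩, ⟨right_lt_G _ (by simp), φ, rfl⟩,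
            Or.inr (Or.inl rfl)⟩),
          Or.inr (Or.inr ⟨_, _, ⟨right_lt_G _ (by simp), φ, rfl⟩, ⟨right_lt_G _ (by simp), φ, rfl⟩,
            Or.inr (Or.inr rfl)⟩)]
      · rintro (⟨i, j, rfl | rfl⟩ | rfl | ⟨_, _, ⟨-, φ, rfl⟩, ⟨-, ψ, rfl⟩, rfl | rfl | rfl⟩)
        exacts [⟨.mem i j, rfl⟩, ⟨.eq i j, rfl⟩, ⟨.bot, rfl⟩, ⟨.imp φ ψ, rfl⟩, ⟨.all φ, rfl⟩,
          ⟨.cof φ, rfl⟩])
    (fun R hR => by fun_prop) (fun _ _ _ h => h)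
    (fun _ _ a => ⟨a + 1, lt_add_one a, fun _ _ h _ h' => h'.trans h⟩)
  exact (this.comp (Tm.id.pair Tm.id)).df

noncomputable instance : Cd 𝒜 QF := cdOfEnc QF.enc QF.enc_inj df_isF

instance : Pure 𝒜 QF := ⟨fun _ _ => trivial⟩

@[fun_prop] theorem tm_enc {φ : Γ → QF} (h : 𝒜.Tm φ) : 𝒜.Tm (fun z => QF.enc.{u} (φ z)) := by
  have : 𝒜.Tm QF.enc.{u} := Tm.mk' (fun _ _ _ => trivial) 𝒜.eq fun i x y _ _ => by
    constructor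
    · rintro ⟨z, e⟩
      obtain ⟨e₁, e₂⟩ := pr_iff.1 e
      exact 𝒜.o_inj (e₂.trans e₁.symm)
    · rintro rfl
      exact ⟨_, rfl⟩
  exact this.comp h

variable [Cd 𝒜 Mach.{u}] [HasQ 𝒜] {m : Γ → Mach.{u}} {a b : Γ → Ordinal.{u}}

@[fun_prop] theorem tm_Eq0 (hm : 𝒜.Tm m) (ha : 𝒜.Tm a) (hb : 𝒜.Tm b) :
    𝒜.Tm (fun z => Eq0 (m z) (a z) (b z)) := by
  have := tm_grec (𝒜 := 𝒜) (A := Ordinal.{u} × Ordinal.{u}) Prod.fst Prod.snd (by fun_prop)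
    (by fun_prop) (fun _ _ => Prod.ext) (fun (m : Mach.{u}) z => Eq0 m z.1 z.2)
    (fun m R z => (∀ x, P m z.1 x → ∃ y, P m z.2 y ∧ R (x, y)) ∧
      ∀ y, P m z.2 y → ∃ x, P m z.1 x ∧ R (x, y))
    (fun _ z w => w.1 < z.1 ∧ w.2 < z.2) (by fun_prop) (fun m z => by
      constructor
      · intro h
        refine ⟨fun x hx => ?_, fun y hy => ?_⟩
        · obtain ⟨y, h₁, h₂⟩ := mem_val0.1 (h ▸ mem_val0.2 ⟨x, hx, rfl⟩ : _ ∈ val0 m z.2)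
          exact ⟨y, h₁, ⟨P_lt hx, P_lt h₁⟩, h₂.symm⟩
        · obtain ⟨x, h₁, h₂⟩ := mem_val0.1 (h ▸ mem_val0.2 ⟨y, hy, rfl⟩ : _ ∈ val0 m z.1)
          exact ⟨x, h₁, ⟨P_lt h₁, P_lt hy⟩, h₂⟩
      · rintro ⟨h₁, h₂⟩
        refine ZFSet.ext fun w => ?_
        simp only [mem_val0]
        exact ⟨fun ⟨x, hx, e⟩ => let ⟨y, h₃, _, h₄⟩ := h₁ x hx; ⟨y, h₃, h₄.symm.trans e⟩,
          fun ⟨y, hy, e⟩ => let ⟨x, h₃, _, h₄⟩ := h₂ y hy; ⟨x, h₃, h₄.trans e⟩⟩)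
    (fun R hR => by fun_prop) (fun _ _ _ h => h.1)
    (fun _ _ a => ⟨a.2 + 1, lt_add_one _, fun _ _ h _ h' => h'.2.trans h⟩)
  exact this.comp (hm.pair (ha.pair hb))

@[fun_prop] theorem tm_Mem0 (hm : 𝒜.Tm m) (ha : 𝒜.Tm a) (hb : 𝒜.Tm b) :
    𝒜.Tm (fun z => Mem0 (m z) (a z) (b z)) :=
  Tm.congrP (Q := fun z => ∃ x, P (m z) (b z) x ∧ Eq0 (m z) x (a z)) (by fun_prop)
    fun _ => mem_val0.symm

@[fun_prop] theorem tm_cs {R : Γ → Ordinal.{u} → Prop} (hm : 𝒜.Tm m)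
    (hR : 𝒜.Tm (fun z : Γ × Ordinal.{u} => R z.1 z.2)) :
    𝒜.Tm (fun z => cs (m z) (fun x => R z x)) := by
  unfold cs; fun_prop

@[fun_prop] theorem tm_on (hm : 𝒜.Tm m) (ha : 𝒜.Tm a) : 𝒜.Tm (fun z => on (m z) (a z)) :=
  (tm_frec (𝒜 := 𝒜) on (fun m k a => cs m (fun z => ∃ b < a, z = k b))
    (fun m a k hk => by
      rw [on]
      exact congrArg _ (funext fun z => propext ⟨fun ⟨b, h, e⟩ => ⟨⟨b, h⟩, hk b h ▸ e⟩,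
        fun ⟨b, e⟩ => ⟨b, b.2, (hk b b.2).symm ▸ e⟩⟩))
    (fun k hk => by fun_prop)).comp (hm.pair ha)

@[fun_prop] theorem tm_pn (hm : 𝒜.Tm m) (ha : 𝒜.Tm a) (hb : 𝒜.Tm b) :
    𝒜.Tm (fun z => pn (m z) (a z) (b z)) := by
  unfold pn up; fun_prop

@[fun_prop] theorem tm_DCof0 {R : Γ → Ordinal.{u} → Ordinal.{u} → Prop} (hm : 𝒜.Tm m)
    (hR : 𝒜.Tm (fun z : Γ × Ordinal.{u} × Ordinal.{u} => R z.1 z.2.1 z.2.2)) :
    𝒜.Tm (fun z => DCof0 (m z) (fun x y => R z x y)) := by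
  unfold DCof0; fun_prop

omit [Cd 𝒜 Mach.{u}] [HasQ 𝒜] in
@[fun_prop] theorem tm_sw {A B : Γ → ℕ → ℕ → Prop} {C : Γ → QF → QF → Prop} {D E : Γ → QF → Prop}
    {φ : Γ → QF} (hA : 𝒜.Tm (fun z : Γ × ℕ × ℕ => A z.1 z.2.1 z.2.2))
    (hB : 𝒜.Tm (fun z : Γ × ℕ × ℕ => B z.1 z.2.1 z.2.2))
    (hC : 𝒜.Tm (fun z : Γ × QF × QF => C z.1 z.2.1 z.2.2))
    (hD : 𝒜.Tm (fun z : Γ × QF => D z.1 z.2)) (hE : 𝒜.Tm (fun z : Γ × QF => E z.1 z.2))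
    (hφ : 𝒜.Tm φ) : 𝒜.Tm (fun z => QF.sw (fun i j => A z i j) (fun i j => B z i j)
      (fun i j => C z i j) (fun i => D z i) (fun i => E z i) (φ z)) :=
  Tm.congrP (by fun_prop) fun z => QF.sw_iff.{u} (φ z)

@[fun_prop] theorem tm_Sat0 {φ : Γ → QF} {l : Γ → OL.{u}} (hm : 𝒜.Tm m) (ha : 𝒜.Tm a)
    (hb : 𝒜.Tm b) (hφ : 𝒜.Tm φ) (hl : 𝒜.Tm l) :
    𝒜.Tm (fun z => Sat0 (m z) (a z) (b z) (φ z) (l z)) := by
  have := tm_grec (𝒜 := 𝒜) (A := QF × OL.{u}) (fun z => z.1.enc) (fun z => encL z.2) (by fun_prop)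
    (by fun_prop) (fun _ _ h h' => Prod.ext (QF.enc_inj h) (encL_inj h'))
    (fun (g : Γ) z => Sat0 (m g) (a g) (b g) z.1 z.2)
    (fun g R z => QF.sw (fun i j => Mem0 (m g) (z.2.getD i (b g)) (z.2.getD j (b g)))
      (fun i j => Eq0 (m g) (z.2.getD i (b g)) (z.2.getD j (b g)))
      (fun φ ψ => R (φ, z.2) → R (ψ, z.2)) (fun φ => ∀ x, P (m g) (a g) x → R (φ, x :: z.2))
      (fun φ => DCof0 (m g) (fun x y => ∃ s t, P (m g) (a g) s ∧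
        P (m g) (a g) t ∧ Eq0 (m g) x s ∧ Eq0 (m g) y t ∧ R (φ, s :: t :: z.2))) z.1)
    (fun g z w => w.1.enc < z.1.enc.{u} ∧ (w.2 = z.2 ∨ (∃ x < a g, w.2 = x :: z.2) ∨
      ∃ x < a g, ∃ y < a g, w.2 = x :: y :: z.2)) (by fun_prop)
    (fun g z => by
      obtain ⟨_ | _ | _ | ⟨φ, ψ⟩ | φ | φ, l⟩ := z
      · simp only [QF.sw, Sat0, SatQ, Mem0, List.getD_map]
      · simp only [QF.sw, Sat0, SatQ, Eq0, List.getD_map]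
      · exact Iff.rfl
      · exact imp_congr (and_iff_right ⟨(lt_cd (by simp) _ _).1, Or.inl rfl⟩).symm
          (and_iff_right ⟨(lt_cd (by simp) _ _).2, Or.inl rfl⟩).symm
      · exact ⟨fun h x hx => ⟨⟨right_lt_G _ (by simp), Or.inr (Or.inl ⟨x, P_lt hx, rfl⟩)⟩,
          h _ (mem_val0.2 ⟨x, hx, rfl⟩)⟩,
          fun h _ hx => let ⟨x, hx, e⟩ := mem_val0.1 hx; e ▸ (h x hx).2⟩
      · simp only [QF.sw]
        rw [Sat0, SatQ, ← dcof_iff fun x ⟨y, h⟩ => by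
          obtain ⟨c, -, e⟩ := mem_val0.1 (h.elim (·.1) (·.2.1))
          exact ⟨c, e⟩]
        refine iff_of_eq (congrArg (DCof0 (m g)) (funext₂ fun x y => propext ⟨fun ⟨h₁, h₂, h₃⟩ => ?_,
          fun ⟨s, t, h₁, h₂, h₃, h₄, _, h₅⟩ => ?_⟩))
        · obtain ⟨s, h₄, e⟩ := mem_val0.1 h₁
          obtain ⟨t, h₅, e'⟩ := mem_val0.1 h₂
          exact ⟨s, t, h₄, h₅, e.symm, e'.symm, ⟨right_lt_G _ (by simp),
            Or.inr (Or.inr ⟨s, P_lt h₄, t, P_lt h₅, rfl⟩)⟩, by rwa [← e, ← e'] at h₃⟩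
        · rw [h₃, h₄]
          exact ⟨mem_val0.2 ⟨s, h₁, rfl⟩, mem_val0.2 ⟨t, h₂, rfl⟩, h₅⟩)
    (fun R hR => by fun_prop) (fun _ _ _ h => h.1) (fun g _ z => by
      obtain ⟨y, h₁, h₂, h₃⟩ := exists_gcl₂ (encL z.2) (a g)
      refine ⟨y, h₁, fun z _ h w hw => ?_⟩
      rcases hw.2 with e | ⟨s, hs, e⟩ | ⟨s, hs, t, ht, e⟩ <;> rw [e]
      exacts [h, h₃.succ (h₃.G (hs.trans h₂) h),
        h₃.succ (h₃.G (hs.trans h₂) (h₃.succ (h₃.G (ht.trans h₂) h)))])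
  exact (this.comp (f := fun z => (z, φ z, l z)) (Tm.id.pair (hφ.pair hl)) :)

@[fun_prop] theorem tm_dc {φ : Γ → QF} {l : Γ → OL.{u}} (hm : 𝒜.Tm m) (ha : 𝒜.Tm a)
    (hφ : 𝒜.Tm φ) (hl : 𝒜.Tm l) : 𝒜.Tm (fun z => dc (m z) (a z) (φ z) (l z)) := by
  unfold dc; fun_prop

@[fun_prop] theorem tm_lv (hm : 𝒜.Tm m) (ha : 𝒜.Tm a) : 𝒜.Tm (fun z => lv (m z) (a z)) :=
  (tm_frec (𝒜 := 𝒜) lv (fun m k a => cs m (fun z => ∃ b < a, ∃ φ l,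
      (∀ x, x ∈ l → P m (k b) x) ∧ z = dc m (k b) φ l))
    (fun m a k hk => by
      rw [lv]
      exact congrArg _ (funext fun z => propext ⟨fun ⟨b, h, e⟩ => ⟨⟨b, h⟩, hk b h ▸ e⟩,
        fun ⟨b, e⟩ => ⟨b, b.2, (hk b b.2).symm ▸ e⟩⟩))
    (fun k hk => by fun_prop)).comp (hm.pair ha)

end FO

theorem P_on {a z : Ordinal.{u}} : P m (on m a) z ↔ ∃ b < a, z = on m b := by
  obtain ⟨c, hc⟩ := bound_fun a (on m)
  rw [on, ← cs_spec (m := m) (R := fun z => ∃ b < a, z = on m b) (by fun_prop)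
    ⟨c, fun _ ⟨b, h, e⟩ => e ▸ hc b h⟩]
  simp

@[simp] theorem val0_on (a : Ordinal.{u}) : val0 m (on m a) = a.toZFSet := by
  induction a using WellFoundedLT.induction with
  | ind a ih =>
    ext x
    simp only [mem_val0, P_on, Ordinal.mem_toZFSet_iff]
    exact ⟨fun ⟨_, ⟨b, h, e⟩, e'⟩ => ⟨b, h, by rw [← e', e, ih b h]⟩,
      fun ⟨b, h, e⟩ => ⟨_, ⟨b, h, rfl⟩, (ih b h).trans e⟩⟩

theorem P_up {a b z : Ordinal.{u}} : P m (up m a b) z ↔ z = a ∨ z = b :=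
  cs_spec (by fun_prop) ⟨max a b + 1, by rintro _ (rfl | rfl) <;> simp⟩ z

theorem val0_up (a b : Ordinal.{u}) : val0 m (up m a b) = {val0 m a, val0 m b} := by
  ext x
  simp [mem_val0, P_up, eq_comm]

@[simp] theorem val0_pn (a b : Ordinal.{u}) :
    val0 m (pn m a b) = ZFSet.pair (val0 m a) (val0 m b) := by
  simp [pn, val0_up, ZFSet.pair]

theorem P_dc {A z : Ordinal.{u}} {φ : QF} {l : OL.{u}} :
    P m (dc m A φ l) z ↔ P m A z ∧ Sat0 m A z φ (z :: l) :=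
  cs_spec (by fun_prop) ⟨A, fun _ h => P_lt h.1⟩ z

theorem P_lv {a z : Ordinal.{u}} : P m (lv m a) z ↔
    ∃ b < a, ∃ φ l, (∀ x, x ∈ l → P m (lv m b) x) ∧ z = dc m (lv m b) φ l := by
  obtain ⟨c, hc⟩ := bound_fun a (lv m)
  obtain ⟨y, h₁, h₂⟩ := exists_gcl c
  obtain ⟨d, hd⟩ := exists_bound (fun t : Iio a × QF × Iio y => dc m (lv m t.1) t.2.1 (decL t.2.2))
  rw [lv, ← cs_spec (m := m) (R := fun z => ∃ b < a, ∃ φ l, (∀ x, x ∈ l → P m (lv m b) x) ∧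
    z = dc m (lv m b) φ l) (by fun_prop) ⟨d, fun _ ⟨b, h, φ, l, h₃, e⟩ => by
      simpa [e] using hd (⟨b, h⟩, φ, ⟨encL l, h₂.encL fun x hx =>
        ((P_lt (h₃ x hx)).trans (hc b h)).trans h₁⟩)⟩]
  simp

end Pool.Agent.MP_9a6faa_lc
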