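import Pool.Agent.MP_9a6faa_lc.Hull

namespace Pool.Agent.MP_9a6faa_lc

open Set Order FO Filter

universe u v w

theorem exists_dec (l : OL.{u}) : ∃ s : OL.{u}, Dec s ∧ ∀ x, x ∈ s ↔ x ∈ l :=
  ⟨l.toFinset.sort (· ≥ ·), (Finset.sortedGT_sort _).pairwise, by simp⟩

def Gd (m : Mach.{u}) (r : Ordinal.{u}) (p : OL.{u}) (b v : Ordinal.{u}) : Prop :=
  ∃ k : ℕ, QL m (fun l => InH m r l v) k (b :: p)

def Cov (m : Mach.{u}) (r : Ordinal.{u}) (p : OL.{u}) (r' : Ordinal.{u}) (p' : OL.{u})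
    (a : Ordinal.{u}) : Prop := ∀ b < a, ∀ v < a, Gd m r p b v → Gd m r' p' b v

def NR (m : Mach.{u}) (g r : Ordinal.{u}) : Prop :=
  ∀ a < m.κ, ∀ p, ∃ r' < g, ∃ p', Cov m r p r' p' a

def Base (m : Mach.{u}) (g : Ordinal.{u}) (t : Prop) (v : Ordinal.{u}) (e : OL.{u}) : Prop :=
  (t ∧ InH m g e v) ∨ (¬ t ∧ v < g ∧ ∃ z x, e = [z, x] ∧ P m v (G x z))

/-- The covering property of the hierarchy. -/
def Star (m : Mach.{u}) : Prop := ∀ g, m.κ ≤ g → (∀ r, NR m g r) ∨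
  ∃ s p, Lim s ∧ (∀ r < s, NR m g r) ∧ ∀ (t : Prop) (k : ℕ) v e,
    m.Q (fun z => QL m (fun l => Base m g t v l) k (z :: e)) → ∃ n < m.κ, ∀ a, n ≤ a → a < m.κ →
      LimCl a → ¬ QL m (fun l => Base m g t v l) k (a :: e) →
        ∃ y < a, ∀ x < a, ∃ b < y, Gd m s p b x

namespace FO

variable {I : Type} {V : Type v} {𝒜 : FO.{u, v} I V} {Γ : Type*} [Cd 𝒜 Γ]
variable [Cd 𝒜 Mach.{u}] [HasQ 𝒜] [HasSep 𝒜] {m : Γ → Mach.{u}}

@[fun_prop] theorem tm_Gd {r b v : Γ → Ordinal.{u}} {p : Γ → OL.{u}} (hm : 𝒜.Tm m) (hr : 𝒜.Tm r)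
    (hp : 𝒜.Tm p) (hb : 𝒜.Tm b) (hv : 𝒜.Tm v) :
    𝒜.Tm (fun z => Gd (m z) (r z) (p z) (b z) (v z)) := by
  unfold Gd; fun_prop

@[fun_prop] theorem tm_NR {g r : Γ → Ordinal.{u}} (hm : 𝒜.Tm m) (hg : 𝒜.Tm g) (hr : 𝒜.Tm r) :
    𝒜.Tm (fun z => NR (m z) (g z) (r z)) := by
  unfold NR Cov; fun_prop

@[fun_prop] theorem tm_Base {g v : Γ → Ordinal.{u}} {t : Γ → Prop} {e : Γ → OL.{u}} (hm : 𝒜.Tm m)
    (hg : 𝒜.Tm g) (ht : 𝒜.Tm t) (hv : 𝒜.Tm v) (he : 𝒜.Tm e) :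
    𝒜.Tm (fun z => Base (m z) (g z) (t z) (v z) (e z)) := by
  unfold Base; fun_prop

theorem tm_Star : 𝒜.Tm (fun m : Mach.{u} => Star m) := by
  unfold Star; fun_prop

end FO

variable {m : Mach.{u}} {g r s : Ordinal.{u}} {p : OL.{u}} {H : Ordinal.{u} → Prop}

theorem NR.succ (h : NR m g r) (hr : m.κ ≤ r) : NR m g (r + 1) := fun a ha p => by
  obtain ⟨r', h₁, p', h₂⟩ := h a ha (p ++ [fst r, snd r, wit m r])
  refine ⟨r', h₁, p', fun b hb v hv ⟨k, hk⟩ => h₂ b hb v hv ⟨k, hk.mono' fun l _ h => ?_⟩⟩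
  simpa using h.succ.resolve_left (hv.trans (ha.trans_le hr)).ne

theorem Cond.base (h : Cond m s H) (hg : g ≤ s) (hg' : col H g = g) {t : Prop} {v : Ordinal.{u}}
    (hv : v < s → H v ∧ col H v = v) (e : OL.{u}) (he : ∀ x ∈ e, x < s → H x)
    (hb : Base m g t v e) : Base m g t v (e.map (colx s H)) := by
  rcases hb with ⟨ht, hb⟩ | ⟨ht, h₁, z, x, rfl, h₂⟩
  · refine Or.inl ⟨ht, ?_⟩
    simpa only [hg', (hv (hb.lt.trans_le hg)).2] using (h.inH hg he hb).2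
  · have h₃ := h₁.trans_le hg
    have hz := ((right_le_G _ _).trans_lt (P_lt h₂)).trans h₃
    have hx := ((left_le_G _ _).trans_lt (P_lt h₂)).trans h₃
    refine Or.inr ⟨ht, h₁, col H z, col H x, by simp [colx, hz, hx], ?_⟩
    rw [← (hv h₃).2]
    exact (h.P_inv2 (hv h₃).1 (he x (by simp) hx) (he z (by simp) hz)).2 h₂

namespace Meas

variable (μ : Meas.{u})

theorem cond {y : Ordinal.{u}} (hy : Gcl y) (hs : μ.κ ≤ s) {Z : Ordinal.{u} → Prop}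
    (hZ : ∀ᶠ z in (μ.U : Filter Ordinal.{u}), Z z)
    (hH : ∀ v, H v ↔ ∃ e : OL.{u}, (∀ x ∈ e, x < y ∨ Z x ∨ x ∈ p) ∧ InH μ.mach s e v) :
    Cond μ.mach s H := by
  have hZ' : ∀ᶠ z in (μ.U : Filter Ordinal.{u}), H z := (hZ.and μ.hκ).mono fun z hz =>
    (hH z).2 ⟨[z], by simp [hz.1], InH.base (by simp) (hz.2.trans_le hs)⟩
  have fix : ∀ᶠ z in (μ.U : Filter Ordinal.{u}), col H z = z := by
    by_contra h
    obtain ⟨v, hv⟩ := μ.regress ((Ultrafilter.eventually_not.2 h).mono fun z hz =>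
      (col_le H z).lt_of_ne hz)
    obtain ⟨a, h₁, h₂, h₃⟩ := (hv.and (hZ'.and μ.hκ)).exists
    obtain ⟨b, h₄, h₅⟩ := (hv.and (μ.hI a h₃)).exists
    exact (col_lt h₂ h₅).ne (h₁.trans h₄.symm)
  simp only [funext fun v => propext (hH v)] at hZ' fix ⊢
  refine ⟨fun ⟨_, _, h⟩ => h.lt, fun ⟨e, h₁, h₂⟩ ⟨e', h₃, h₄⟩ h => ⟨e ++ e', fun x hx =>
    (List.mem_append.1 hx).elim (h₁ x) (h₃ x), (h₂.mono le_rfl fun _ => List.mem_append_left _).pair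
      (h₄.mono le_rfl fun _ => List.mem_append_right _) h⟩, fun ⟨e, h₁, h₂⟩ => ⟨e, h₁, h₂.fst⟩,
    fun ⟨e, h₁, h₂⟩ => ⟨e, h₁, h₂.snd⟩, fun ⟨e, h₁, h₂⟩ => ⟨e, h₁, h₂.wit⟩,
    fun x hx => ⟨[x], by simp [hx.trans hy.1], InH.base (by simp) (hx.trans (μ.hω.trans_le hs))⟩,
    fun X Y h hX => (Eventually.and hX (hZ'.and fix)).mono fun z hz => h z hz.2.1 hz.2.2 hz.1⟩

theorem exists_hull {n y : Ordinal.{u}} (hy : Gcl y) (hn : n ≤ y) (hk : y < μ.κ) (hs : μ.κ ≤ s)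
    (h₁ : ∀ r < s, NR μ.mach g r) (h₂ : ¬ ∃ r' < g, ∃ p', Cov μ.mach s p r' p' n)
    (h₃ : ∀ q, encL q < encL p → ∃ r' < g, ∃ p', Cov μ.mach s q r' p' n)
    {X : Ordinal.{u} → Prop} (hX : ∀ᶠ z in (μ.U : Filter Ordinal.{u}), X z) :
    ∃ H z, Cond μ.mach s H ∧ col H s = s ∧ p.map (colx s H) = p ∧ (∀ x < y, H x) ∧
      (∀ x ∈ p, x < s → H x) ∧ (∀ v, H v → ∃ b < μ.κ, InH μ.mach s (b :: p) (col H v)) ∧
      H z ∧ X z ∧ y < z ∧ ∀ w < z, H w → ∃ b < y, Gd μ.mach s p b w := by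
  have : ∀ w b (k : ℕ), ∃ Z : Ordinal.{u} → Prop, (∀ᶠ z in (μ.U : Filter Ordinal.{u}), Z z) ∧
      ∀ l : OL.{u}, Dec l → (∀ x ∈ l, Z x) → l.length = k → InH μ.mach s (l ++ b :: p) w →
        Gd μ.mach s p b w := fun w b k => by
    by_cases h : QL μ.mach (fun l => InH μ.mach s l w) k (b :: p)
    · exact ⟨fun _ => True, by simp, fun _ _ _ _ _ => ⟨k, h⟩⟩
    · obtain ⟨Z, h₁, h₂⟩ := QL_hom (QL_not.2 h)
      exact ⟨Z, h₁, fun l h₃ h₄ h₅ h₆ => absurd h₆ (h₂ l h₃ h₄ h₅)⟩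
  choose Y hY hY' using this
  obtain ⟨Z, hZ⟩ : ∃ Z : Ordinal.{u} → Prop, ∀ z, Z z ↔
    X z ∧ y < z ∧ z < μ.κ ∧ ∀ w < z, ∀ b < y, ∀ k, Y w b k z := ⟨_, fun _ => Iff.rfl⟩
  have hZU : ∀ᶠ z in (μ.U : Filter Ordinal.{u}), Z z := by
    simp only [hZ]
    exact hX.and ((μ.hI y hk).and (μ.hκ.and (μ.diag _ fun w _ => μ.compl hk fun b _ =>
      μ.ctbl fun k => hY w b k)))
  obtain ⟨H, hH⟩ : ∃ H : Ordinal.{u} → Prop, ∀ v, H v ↔
    ∃ e : OL.{u}, (∀ x ∈ e, x < y ∨ Z x ∨ x ∈ p) ∧ InH μ.mach s e v := ⟨_, fun _ => Iff.rfl⟩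
  have hc := μ.cond hy hs hZU hH
  have one : ∀ x < s, x < y ∨ Z x ∨ x ∈ p → H x := fun x h h' =>
    (hH x).2 ⟨[x], by simpa using h', InH.base (by simp) h⟩
  have hHy : ∀ x < y, H x := fun x hx => one x (hx.trans (hk.trans_le hs)) (Or.inl hx)
  have hHp : ∀ x ∈ p, x < s → H x := fun x h h' => one x h' (Or.inr (Or.inr h))
  have cov : Cov μ.mach s p (col H s) (p.map (colx s H)) n := fun b hb v hv ⟨k, h⟩ => by
    have e : ∀ x < n, col H x = x := fun x hx =>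
      col_eq_self fun z hz => hHy z (hz.trans (hx.trans_le hn))
    have := hc.QL (S := fun l => InH μ.mach (col H s) l v) (fun e' he h =>
      e v hv ▸ (hc.inH le_rfl he h).2) (by simpa [hHy b (hb.trans_le hn)] using hHp) h
    rw [List.map_cons, colx, if_pos (hb.trans_le (hn.trans (hk.le.trans hs))), e b hb] at this
    exact ⟨k, this⟩
  have e₁ : col H s = s := (col_le H s).eq_or_lt.resolve_right fun h => by
    obtain ⟨r', h₄, p', h₅⟩ := h₁ _ h n (hn.trans_lt hk) (p.map (colx s H))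
    exact h₂ ⟨r', h₄, p', fun b hb v hv h => h₅ b hb v hv (cov b hb v hv h)⟩
  have e₂ : p.map (colx s H) = p := encL_inj <|
    (encL_map_le (colx_le H) p).eq_or_lt.resolve_right fun h => by
      obtain ⟨r', h₄, p', h₅⟩ := h₃ _ h
      exact h₂ ⟨r', h₄, p', fun b hb v hv h => h₅ b hb v hv
        (by simpa only [e₁] using cov b hb v hv h)⟩
  obtain ⟨h₄, h₅, h₆, -⟩ := (hZ _).1 (mu_spec hZU.exists)
  refine ⟨H, mu Z, hc, e₁, e₂, hHy, hHp, fun v hv => ?_,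
    one _ (h₆.trans_le hs) (Or.inr (Or.inl (mu_spec hZU.exists))), h₄, h₅, fun w hw h => ?_⟩
  · obtain ⟨e, he, h⟩ := (hH v).1 hv
    have := (hc.inH le_rfl (fun x hx h => one x h (he x hx)) h).2
    rw [e₁] at this
    obtain ⟨b, hb, h⟩ := InH.compress (m := μ.mach) μ.gcl hs p (e.map (colx s H)) fun x hx h => by
      obtain ⟨x, h₇, rfl⟩ := List.mem_map.1 hx
      rcases he x h₇ with h₈ | h₈ | h₈
      · exact ⟨_, (colx_le H x).trans_lt (h₈.trans hk), InH.base List.mem_cons_self h⟩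
      · exact ⟨_, (colx_le H x).trans_lt ((hZ x).1 h₈).2.2.1, InH.base List.mem_cons_self h⟩
      · exact ⟨0, μ.gcl.pos, InH.base (List.mem_cons_of_mem _ (e₂ ▸ List.mem_map_of_mem h₈)) h⟩
    exact ⟨b, hb, this.cut le_rfl h⟩
  · classical
    obtain ⟨e, he, h⟩ := (hH w).1 h
    obtain ⟨l, hl, hl'⟩ := exists_dec (e.filter Z)
    obtain ⟨b, hb, h₇⟩ := InH.compress (m := μ.mach) hy (hk.le.trans hs) (l ++ p) e fun x hx h => by
      rcases he x hx with h₈ | h₈ | h₈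
      · exact ⟨x, h₈, InH.base (by simp) h⟩
      · exact ⟨0, hy.pos, InH.base (by simp [hl', hx, h₈]) h⟩
      · exact ⟨0, hy.pos, InH.base (by simp [h₈]) h⟩
    refine ⟨b, hb, hY' w b _ l hl (fun x hx => ?_) rfl
      ((h.cut le_rfl h₇).mono le_rfl fun x => by simp; tauto)⟩
    have h₈ : Z x := by simpa using (List.mem_filter.1 ((hl' x).1 hx)).2
    exact ((hZ x).1 h₈).2.2.2 w (hw.trans_le (mu_le h₈)) b hb _

variable {μ} in
theorem fix_gd (h : Cond μ.mach s H) (hs : col H s = s) {b v : Ordinal.{u}}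
    (hp : p.map (colx s H) = p) (hp' : ∀ x ∈ p, x < s → H x) (hb : ∀ x ≤ b, H x)
    (hv : Gd μ.mach s p b v) : H v ∧ col H v = v := by
  obtain ⟨k, hv⟩ := hv
  obtain ⟨l, h₁, h₂⟩ := hv.exists (A := fun y => H y ∧ col H y = y) fun X hX =>
    Eventually.exists (h.fix X _ (fun y h₁ h₂ h₃ => ⟨⟨h₁, h₂⟩, h₃⟩) hX)
  refine h.fixes hs (fun x hx h₃ => ?_) ?_ h₂
  · rcases List.mem_append.1 hx with hx | hx
    · exact (h₁ x hx).1
    · rcases List.mem_cons.1 hx with rfl | hx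
      exacts [hb _ le_rfl, hp' x hx h₃]
  · rw [List.map_append, List.map_cons, hp, colx, if_pos (h.lt (hb b le_rfl)),
      col_eq_self fun z hz => hb z hz.le, List.map_congr_left (g := id), List.map_id]
    exact fun x hx => (if_pos (h.lt (h₁ x hx).1)).trans (h₁ x hx).2

theorem star : Star μ.mach := fun g hg => by
  refine or_iff_not_imp_left.2 fun h => ?_
  obtain ⟨s, hs, h₁⟩ := wellFounded_lt.has_min {r | ¬ NR μ.mach g r} (not_forall.1 h)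
  replace h₁ : ∀ r < s, NR μ.mach g r := fun r hr => not_not.1 fun h => h₁ r h hr
  have hgs : g ≤ s := not_lt.1 fun h => hs fun a _ p => ⟨s, h, p, fun _ _ _ _ => id⟩
  have hks : μ.κ ≤ s := hg.trans hgs
  have hl : Lim s := ⟨μ.gcl.pos.trans_le hks, fun x hx => (add_one_le_iff.2 hx).lt_of_ne fun e => by
    rcases lt_or_ge x μ.κ with h | h
    · exact (μ.gcl.succ h).not_ge (e ▸ hks)
    · exact hs (e ▸ (h₁ x hx).succ h)⟩
  simp only [mem_ofPred_eq, NR, not_forall] at hs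
  obtain ⟨n, hn, hs⟩ := hs
  obtain ⟨p, h₂, h₃⟩ := (InvImage.wf encL wellFounded_lt).has_min
    {p | ¬ ∃ r' < g, ∃ p', Cov μ.mach s p r' p' n} hs
  replace h₃ : ∀ q, encL q < encL p → ∃ r' < g, ∃ p', Cov μ.mach s q r' p' n :=
    fun q hq => not_not.1 fun h => h₃ q h hq
  refine ⟨s, p, hl, h₁, fun t k v e hQ => ?_⟩
  obtain ⟨b₀, hb₀, h₀⟩ := InH.compress (m := μ.mach) μ.gcl hks p (g :: v :: e) fun c _ hc => by
    obtain ⟨y, h₄, h₅, h₆⟩ := μ.limCl n hn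
    obtain ⟨H, -, -, e₁, -, -, -, h, -⟩ := μ.exists_hull h₆ h₅.le h₄ hks h₁ h₂ h₃ μ.hκ
    obtain ⟨w, -, h₇, rfl⟩ := col_surj (e₁.symm ▸ hc : c < col H s)
    exact h w h₇
  refine ⟨max n b₀ + 1, μ.gcl.succ (max_lt hn hb₀), fun a h₄ h₅ h₆ h₇ => ?_⟩
  rw [add_one_le_iff, max_lt_iff] at h₄
  obtain ⟨w, h₈, b, hb, hw⟩ : ∃ w, (a ≤ w ∧ w < μ.κ) ∧ ∃ b < a, Gd μ.mach s p b w := by
    by_contra h'
    obtain ⟨H, z, hc, e₁, e₂, hy, hp, -, hz, hX, hyz, hw⟩ := μ.exists_hull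
      (h₆.gcl (zero_le.trans_lt h₄.1)) h₄.1.le h₅ hks h₁ h₂ h₃ (Eventually.and hQ μ.hκ)
    have fx : ∀ x ∈ g :: v :: e, x < s → H x ∧ col H x = x := fun x hx h => fix_gd hc e₁ e₂ hp
      (fun y h => hy y (h.trans_lt h₄.2)) ⟨0, h₀ x hx h⟩
    have e₃ : col H z = a := by
      refine le_antisymm (le_of_forall_lt fun x hx => ?_) ((col_eq_self hy).ge.trans
        (col_mono hyz.le))
      obtain ⟨w, h₈, h₉, h⟩ := lt_col.1 hx
      exact (h.trans (col_le H w)).trans_lt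
        (not_le.1 fun h => h' ⟨w, ⟨h, h₈.trans hX.2⟩, hw w h₈ h₉⟩)
    have := hc.QL (hc.base hgs (hgs.eq_or_lt.elim (fun e => e ▸ e₁)
      fun h => (fx g (by simp) h).2) (fx v (by simp))) (e := z :: e)
      (by simpa [hz] using fun x hx h => (fx x (by simp [hx]) h).1) hX.1
    rw [List.map_cons, colx, if_pos (hc.lt hz), e₃, List.map_congr_left (g := id),
      List.map_id] at this
    · exact h₇ this
    · intro x hx
      by_cases h : x < s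
      exacts [(if_pos h).trans (fx x (by simp [hx]) h).2, if_neg h]
  obtain ⟨y, h₉, hby, hny, hy⟩ := h₆.two hb h₄.1
  obtain ⟨H, z, hc, e₁, e₂, hH, hp, -, -, hX, -, h⟩ := μ.exists_hull hy hny.le (h₉.trans h₅) hks
    h₁ h₂ h₃ (μ.hI w h₈.2)
  refine ⟨y, h₉, fun x hx => ?_⟩
  obtain ⟨x', h₁₀, h₁₁, rfl⟩ := col_surj ((hx.trans_le h₈.1).trans_eq
    (fix_gd hc e₁ e₂ hp (fun y h => hH y (h.trans_lt hby)) hw).2.symm)
  obtain ⟨b', hb', h'⟩ := h x' (h₁₀.trans hX) h₁₁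
  exact ⟨b', hb', (fix_gd hc e₁ e₂ hp (fun y h => hH y (h.trans_lt hb')) h').2.symm ▸ h'⟩

end Meas

end Pool.Agent.MP_9a6faa_lc
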