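import Pool.Agent.MP_9a6faa_lc.Sets

namespace Pool.Agent.MP_9a6faa_lc

open Set Order Ordinal

universe u

/-- Membership on a class of sets. -/
def ES (A : ZFSet.{u} → Prop) (x y : Subtype A) : Prop := x.1 ∈ y.1

/-- Transitive classes closed under pairs. -/
structure TrP (A : ZFSet.{u} → Prop) : Prop where
  tr : ∀ {x y}, A x → y ∈ x → A y
  up : ∀ {x y}, A x → A y → A {x, y}

theorem left_mem_pair {A x y : ZFSet.{u}} (h : A.IsTransitive) (e : ZFSet.pair x y ∈ A) : x ∈ A :=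
  h.mem_trans (y := {x}) (by simp) (h.mem_trans (by simp [ZFSet.pair]) e)

theorem right_mem_pair {A x y : ZFSet.{u}} (h : A.IsTransitive) (e : ZFSet.pair x y ∈ A) : y ∈ A :=
  h.mem_trans (y := {x, y}) (by simp) (h.mem_trans (by simp [ZFSet.pair]) e)

namespace TrP

variable {A : ZFSet.{u} → Prop} (h : TrP A)
include h

theorem pair {x y : ZFSet.{u}} (hx : A x) (hy : A y) : A (ZFSet.pair x y) := by
  simpa [ZFSet.pair] using h.up (h.up hx hx) (h.up hx hy)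

theorem ext {a b : Subtype A} (e : ∀ x, ES A x a ↔ ES A x b) : a = b :=
  Subtype.ext (ZFSet.ext fun z => ⟨fun hz => (e ⟨z, h.tr a.2 hz⟩).1 hz,
    fun hz => (e ⟨z, h.tr b.2 hz⟩).2 hz⟩)

theorem isOrd_iff {a : Subtype A} : IsOrd (ES A) a ↔ ∃ x : Ordinal.{u}, x.toZFSet = a.1 := by
  refine Iff.trans ?_ ZFSet.isOrdinal_iff_mem_range_toZFSet
  constructor
  · rintro ⟨h₁, h₂⟩
    refine ZFSet.isOrdinal_iff_trichotomous.2 ⟨fun x hx y hy =>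
      h₁ ⟨x, h.tr a.2 hx⟩ ⟨y, h.tr (h.tr a.2 hx) hy⟩ hx hy, ⟨fun x y h₃ h₄ => ?_⟩⟩
    rcases h₂ ⟨x, h.tr a.2 x.2⟩ ⟨y, h.tr a.2 y.2⟩ x.2 y.2 with e | e | e
    exacts [absurd e h₃, Subtype.ext (congrArg (fun z => z.1) e), absurd e h₄]
  · refine fun ha => ⟨fun x y hx hy => ha.mem_trans hy hx, fun x y hx hy => ?_⟩
    simpa only [Subtype.ext_iff, ES] using (ha.mem hx).mem_trichotomous (ha.mem hy)

theorem up_iff {z a b : Subtype A} : (∀ x, ES A x z ↔ x = a ∨ x = b) ↔ z.1 = {a.1, b.1} := by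
  refine Iff.trans ?_ (Subtype.ext_iff (a1 := z) (a2 := ⟨_, h.up a.2 b.2⟩))
  refine ⟨fun e => h.ext fun x => (e x).trans ?_, fun e x => ?_⟩ <;>
    simp [ES, Subtype.ext_iff, *]

theorem isPair_iff {p a b : Subtype A} : IsPair (ES A) p a b ↔ p.1 = ZFSet.pair a.1 b.1 := by
  have e : ∀ z : Subtype A, (∀ x, ES A x z ↔ x = a) ↔ z.1 = {a.1} := fun z => by
    simpa using h.up_iff (z := z) (a := a) (b := a)
  simp only [IsPair, e, h.up_iff]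
  refine Iff.trans ?_ (Subtype.ext_iff (a1 := p) (a2 := ⟨_, h.pair a.2 b.2⟩))
  refine ⟨fun e => h.ext fun x => (e x).trans ?_, fun e x => ?_⟩ <;> simp [ES, ZFSet.pair, *]

theorem app_iff {f a b : Subtype A} : App (ES A) f a b ↔ ZFSet.pair a.1 b.1 ∈ f.1 := by
  simp only [App, h.isPair_iff]
  exact ⟨fun ⟨_, h, e⟩ => e ▸ h, fun e => ⟨⟨_, h.pair a.2 b.2⟩, e, rfl⟩⟩

theorem isOmega_iff {w : Subtype A} : IsOmega (ES A) w ↔ w.1 = toZFSet ω := by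
  have o : ∀ {a b : Ordinal.{u}}, A a.toZFSet → b < a → A b.toZFSet := fun ha hb =>
    h.tr ha (toZFSet_mem_toZFSet_iff.2 hb)
  obtain ⟨w, hw⟩ := w
  constructor
  · rintro ⟨h₁, ⟨x, h₂⟩, h₃, h₄⟩
    obtain ⟨a, rfl⟩ : ∃ x : Ordinal.{u}, x.toZFSet = w := h.isOrd_iff.1 h₁
    obtain ⟨b, hb, -⟩ := mem_toZFSet_iff.1 h₂
    refine congrArg toZFSet (le_antisymm (not_lt.1 fun h₅ => ?_) (omega0_le.2 fun n => ?_))
    · obtain ⟨y, h₆, h₇⟩ := h₄ ⟨_, o hw h₅⟩ (toZFSet_mem_toZFSet_iff.2 h₅)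
        ⟨⟨_, o (o hw h₅) omega0_pos⟩, toZFSet_mem_toZFSet_iff.2 omega0_pos⟩
      obtain ⟨c, hc, e⟩ := mem_toZFSet_iff.1 h₆
      have := isSuccLimit_omega0.add_one_lt hc
      exact h₇ ⟨_, o (o hw h₅) this⟩ (toZFSet_mem_toZFSet_iff.2 this)
        (e ▸ toZFSet_mem_toZFSet_iff.2 (lt_add_one c) : y.1 ∈ _)
    · refine (Lim.nat ⟨zero_le.trans_lt hb, fun c hc => ?_⟩ n).le
      obtain ⟨y, h₅, h₆⟩ := h₃ ⟨_, o hw hc⟩ (toZFSet_mem_toZFSet_iff.2 hc)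
      obtain ⟨d, hd, e⟩ := mem_toZFSet_iff.1 h₅
      rw [ES, ← e] at h₆
      exact (add_one_le_iff.2 (toZFSet_mem_toZFSet_iff.1 h₆)).trans_lt hd
  · rintro (rfl : w = _)
    refine ⟨h.isOrd_iff.2 ⟨_, rfl⟩, ⟨⟨_, o hw omega0_pos⟩, toZFSet_mem_toZFSet_iff.2 omega0_pos⟩,
      fun x hx => ?_, fun x hx ⟨y, hy⟩ => ?_⟩ <;> obtain ⟨c, hc, e⟩ := mem_toZFSet_iff.1 hx
    · have := isSuccLimit_omega0.add_one_lt hc
      exact ⟨⟨_, o hw this⟩, toZFSet_mem_toZFSet_iff.2 this,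
        (e ▸ toZFSet_mem_toZFSet_iff.2 (lt_add_one c) : x.1 ∈ _)⟩
    · obtain ⟨_ | n, rfl⟩ := lt_omega0.1 hc
      · exact absurd hy (by simp [ES, ← e])
      · refine ⟨⟨_, o hw (natCast_lt_omega0 n)⟩,
          (e ▸ toZFSet_mem_toZFSet_iff.2 (by simp) : _ ∈ x.1), fun z hz h₁ => ?_⟩
        rw [ES, ← e] at hz
        obtain ⟨d, hd, e'⟩ := mem_toZFSet_iff.1 hz
        rw [ES, ← e'] at h₁
        exact (toZFSet_mem_toZFSet_iff.1 h₁).not_ge (by simpa using hd)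

end TrP

variable {m : Mach.{u}}

/-- Properties uniformly definable over transitive sets. -/
def QD (m : Mach.{u}) (Ψ : ZFSet.{u} → (ℕ → ZFSet.{u}) → Prop) : Prop :=
  ∃ φ : QF, ∀ A : ZFSet.{u}, A.IsTransitive → ∀ d l, d ∈ A → (∀ x ∈ l, x ∈ A) →
    (SatQ (· ∈ ·) (DCof m) {x | x ∈ A} d φ l ↔ Ψ A (env d l))

namespace QD

variable {Φ Ψ : ZFSet.{u} → (ℕ → ZFSet.{u}) → Prop}
variable {Θ : ZFSet.{u} → (ℕ → ZFSet.{u}) → ZFSet.{u} → Prop}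

theorem mem (i j : ℕ) : QD m (fun _ w => w i ∈ w j) := ⟨.mem i j, fun _ _ _ _ _ _ => Iff.rfl⟩

theorem eq (i j : ℕ) : QD m (fun _ w => w i = w j) := ⟨.eq i j, fun _ _ _ _ _ _ => Iff.rfl⟩

theorem imp (h₁ : QD m Φ) (h₂ : QD m Ψ) : QD m (fun A w => Φ A w → Ψ A w) :=
  let ⟨φ, h₁⟩ := h₁; let ⟨ψ, h₂⟩ := h₂
  ⟨.imp φ ψ, fun A hA d l hd hl => imp_congr (h₁ A hA d l hd hl) (h₂ A hA d l hd hl)⟩

theorem congr (h : QD m Φ) (e : ∀ A, A.IsTransitive → ∀ w, (∀ k, w k ∈ A) → (Φ A w ↔ Ψ A w)) :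
    QD m Ψ :=
  let ⟨φ, h⟩ := h
  ⟨φ, fun A hA d l hd hl => (h A hA d l hd hl).trans
    (e A hA _ (env_mem (S := {x | x ∈ A}) hd hl))⟩

theorem not (h : QD m Φ) : QD m (fun A w => ¬ Φ A w) :=
  h.imp ⟨.bot, fun _ _ _ _ _ _ => Iff.rfl⟩

theorem and (h₁ : QD m Φ) (h₂ : QD m Ψ) : QD m (fun A w => Φ A w ∧ Ψ A w) :=
  (h₁.imp h₂.not).not.congr fun _ _ _ _ => by tauto

theorem or (h₁ : QD m Φ) (h₂ : QD m Ψ) : QD m (fun A w => Φ A w ∨ Ψ A w) :=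
  (h₁.not.imp h₂).congr fun _ _ _ _ => by tauto

theorem iff (h₁ : QD m Φ) (h₂ : QD m Ψ) : QD m (fun A w => Φ A w ↔ Ψ A w) :=
  ((h₁.imp h₂).and (h₂.imp h₁)).congr fun _ _ _ _ => by tauto

theorem all (h : QD m (fun A w => Θ A (fun k => w (k + 1)) (w 0))) :
    QD m (fun A w => ∀ x ∈ A, Θ A w x) :=
  let ⟨φ, h⟩ := h
  ⟨.all φ, fun A hA d l hd hl => forall₂_congr fun x hx =>
    h A hA d (x :: l) hd (List.forall_mem_cons.2 ⟨hx, hl⟩)⟩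

theorem ex (h : QD m (fun A w => Θ A (fun k => w (k + 1)) (w 0))) :
    QD m (fun A w => ∃ x ∈ A, Θ A w x) :=
  (all (Θ := fun A w x => ¬ Θ A w x) h.not).not.congr fun _ _ _ _ => by simp

theorem cof {Θ : ZFSet.{u} → (ℕ → ZFSet.{u}) → ZFSet.{u} → ZFSet.{u} → Prop}
    (h : QD m (fun A w => Θ A (fun k => w (k + 2)) (w 0) (w 1))) :
    QD m (fun A w => DCof m (fun x y => x ∈ A ∧ y ∈ A ∧ Θ A w x y)) :=
  let ⟨φ, h⟩ := h
  ⟨.cof φ, fun A hA d l hd hl => iff_of_eq (congrArg (DCof m) (funext₂ fun x y => propext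
    (and_congr_right fun hx => and_congr_right fun hy => h A hA d (x :: y :: l) hd
      (List.forall_mem_cons.2 ⟨hx, List.forall_mem_cons.2 ⟨hy, hl⟩⟩))))⟩

theorem up (i j k : ℕ) : QD m (fun _ w => w i = {w j, w k}) :=
  (all (Θ := fun _ w x => x ∈ w i ↔ x = w j ∨ x = w k)
    ((mem _ _).iff ((eq _ _).or (eq _ _)))).congr fun A hA w hw => by
      refine ⟨fun h => ZFSet.ext fun x => ?_, fun h x _ => by simp [h]⟩
      rw [ZFSet.mem_pair]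
      exact ⟨fun hx => (h x (hA.mem_trans hx (hw i))).1 hx,
        fun hx => (h x (by rcases hx with rfl | rfl <;> exact hw _)).2 hx⟩

theorem pair (i j k : ℕ) : QD m (fun _ w => w i = ZFSet.pair (w j) (w k)) :=
  (ex (Θ := fun A w s => ∃ t ∈ A, w i = {s, t} ∧ s = {w j, w j} ∧ t = {w j, w k})
    (ex (((up _ 1 0).and ((up 1 _ _).and (up 0 _ _)))))).congr fun A hA w hw => by
      constructor
      · rintro ⟨_, -, _, -, h, rfl, rfl⟩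
        simpa [ZFSet.pair] using h
      · exact fun h => ⟨_, hA.mem_trans (by simp [h, ZFSet.pair]) (hw i), _,
          hA.mem_trans (by simp [h, ZFSet.pair]) (hw i), by simpa [ZFSet.pair] using h, rfl, rfl⟩

theorem ord (i : ℕ) : QD m (fun _ w => (w i).IsOrdinal) :=
  (all (Θ := fun A w x => ∀ y ∈ A, x ∈ y → (y ∈ w i → x ∈ w i) ∧
      ∀ z ∈ A, y ∈ z → z ∈ w i → x ∈ z)
    (all ((mem 1 0).imp (((mem 0 _).imp (mem 1 _)).and
      (all ((mem 1 0).imp ((mem 0 _).imp (mem 2 0)))))))).congr fun A hA w hw => by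
    refine ⟨fun h => ⟨fun y hy x hx => ?_, fun {x y z} h₁ h₂ h₃ => ?_⟩, fun h x _ y _ h₁ =>
      ⟨h.mem_trans h₁, fun z _ h₂ h₃ => h.mem_trans' h₁ h₂ h₃⟩⟩
    · have := hA.mem_trans hy (hw i)
      exact (h x (hA.mem_trans hx this) y this hx).1 hy
    · have h₄ := hA.mem_trans h₃ (hw i)
      have h₅ := hA.mem_trans h₂ h₄
      exact (h x (hA.mem_trans h₁ h₅) y h₅ h₁).2 z h₄ h₂ h₃

end QD

end Pool.Agent.MP_9a6faa_lc
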